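import Pool.Agent.Lib.AZero.Blue

/-! The twisted coboundary squares to zero and preserves normalised cochains. -/

noncomputable section

namespace Pool.Agent.AZero

open CategoryTheory Limits Simplicial SSet MonoidalCategory CartesianMonoidalCategory
  HomotopicalAlgebra Opposite

namespace CO

theorem alt_zero {M : Type} [AddCommGroup M] (n : ℕ) (F : Fin (n + 2) → Fin (n + 1) → M)
    (h : ∀ i j : Fin (n + 1), i ≤ j → F j.succ i = F i.castSucc j) :
    ∑ j : Fin (n + 2), (-1 : ℤ) ^ j.1 • ∑ i : Fin (n + 1), (-1 : ℤ) ^ i.1 • F j i = 0 := by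
  induction n with
  | zero =>
    have : F 1 0 = F 0 0 := h 0 0 le_rfl
    simp [Fin.sum_univ_succ, this]
  | succ n ih =>
    have k := ih (fun j i => F j.succ i.succ) fun i j hij =>
      h i.succ j.succ (Fin.succ_le_succ_iff.2 hij)
    have e : ∀ j : Fin (n + 2), F j.succ 0 = F 0 j := fun j => h 0 j (Fin.zero_le _)
    rw [Fin.sum_univ_succ]
    have : ∀ j : Fin (n + 2), (-1 : ℤ) ^ (j.succ : Fin (n + 3)).1 •
        ∑ i : Fin (n + 2), (-1 : ℤ) ^ i.1 • F j.succ i = -((-1 : ℤ) ^ j.1 • F 0 j) +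
          (-1 : ℤ) ^ j.1 • ∑ i : Fin (n + 1), (-1 : ℤ) ^ i.1 • F j.succ i.succ := fun j => by
      rw [Fin.sum_univ_succ, e]
      simp only [Fin.val_succ, pow_succ, Fin.val_zero, pow_zero, one_smul, mul_neg, mul_one,
        neg_smul, Finset.sum_neg_distrib, smul_add, smul_neg, neg_neg]
    simp only [this, Finset.sum_add_distrib, k, Finset.sum_neg_distrib]
    simp

variable {Γ k M : Type} [Group Γ] [CommRing k] [AddCommGroup M] [Module k M]
  (ρ : Representation k Γ M)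

theorem cob_eq {Y : SSet.{0}} (r : Y ⟶ BG Γ) {n : ℕ} (c : Y _⦋n⦌ → M) (t : Y _⦋n + 1⦌) :
    cob ρ r n c t = ∑ j : Fin (n + 2), (-1 : ℤ) ^ j.1 •
      ρ (pot (r.app _ t) (j.succAbove 0 : Fin (n + 2))) (c (Y.δ j t)) := by
  rw [cob_apply, Fin.sum_univ_succ (n := n + 1)]
  congr 1
  · simp [lab]
  · refine Finset.sum_congr rfl fun j _ => ?_
    have : pot (r.app _ t) (0 : Fin (n + 2)) = 1 := pot_zero _
    simp [this]

theorem pot_δ {n : ℕ} (x : BG Γ _⦋n + 1⦌) (j : Fin (n + 2)) (a : Fin (n + 1)) :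
    pot x (j.succAbove 0 : Fin (n + 2)) * pot ((BG Γ).δ j x) a =
      pot x (j.succAbove a : Fin (n + 2)) := by
  have := pot_map (SimplexCategory.δ j).op x a
  exact (congrArg _ this).trans (mul_inv_cancel_left _ _)

theorem pot_σ {n : ℕ} (x : BG Γ _⦋n⦌) (j : Fin (n + 1)) (a : Fin (n + 2)) :
    pot ((BG Γ).σ j x) a = (pot x (j.predAbove 0 : Fin (n + 1)))⁻¹ *
      pot x (j.predAbove a : Fin (n + 1)) :=
  pot_map (SimplexCategory.σ j).op x a

theorem deg {Y : SSet.{0}} {n : ℕ} (i : Fin (n + 1)) (j : Fin (n + 2)) (y : Y _⦋n⦌)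
    (h1 : j ≠ i.castSucc) (h2 : j ≠ i.succ) : Y.δ j (Y.σ i y) ∈ Y.degenerate n := by
  cases n with
  | zero =>
    exfalso
    revert i j
    decide
  | succ n =>
    rcases lt_or_gt_of_ne h1 with h | h
    · obtain ⟨j, rfl⟩ := j.eq_castSucc_of_ne_last (Fin.ne_last_of_lt h)
      obtain ⟨i, rfl⟩ := i.eq_succ_of_ne_zero (Fin.ne_zero_of_lt (Fin.castSucc_lt_castSucc_iff.1 h))
      rw [δ_comp_σ_of_le_apply (Fin.le_castSucc_iff.2 (Fin.castSucc_lt_castSucc_iff.1 h))]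
      exact σ_mem_degenerate _ _ _
    · rw [δ_comp_σ_of_gt'_apply (lt_of_le_of_ne (Fin.castSucc_lt_iff_succ_le.1 h) h2.symm)]
      exact σ_mem_degenerate _ _ _

end CO

theorem st_co : St_CO := by
  intro Γ k M _ _ _ _ ρ Y r n c
  refine ⟨funext fun t => ?_, fun hc t ht => ?_⟩
  · have := CO.alt_zero (n + 1) (fun j i => ρ (pot (r.app _ t)
      (j.succAbove (i.succAbove 0) : Fin (n + 3))) (c (Y.δ i (Y.δ j t)))) fun i j h => by
        rw [δ_δ h]
        congr 3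
        exact congrArg (fun f : ⦋n⦌ ⟶ ⦋n + 2⦌ => f.toOrderHom 0) (SimplexCategory.δ_comp_δ h)
    rw [CO.cob_eq, Pi.zero_apply, ← this]
    refine Finset.sum_congr rfl fun j _ => ?_
    rw [CO.cob_eq, map_sum]
    refine congrArg _ (Finset.sum_congr rfl fun i _ => ?_)
    rw [map_zsmul, δ_ap, ← CO.pot_δ _ j (i.succAbove 0), map_mul, Module.End.mul_apply]
  · rw [degenerate_eq_iUnion_range_σ] at ht
    obtain ⟨_, ⟨i, rfl⟩, y, rfl⟩ := ht
    rw [CO.cob_eq, Finset.sum_eq_add_of_mem i.castSucc i.succ (Finset.mem_univ _)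
      (Finset.mem_univ _) (Fin.castSucc_lt_succ).ne
      fun j _ hj => by rw [hc _ (CO.deg i j y hj.1 hj.2), map_zero, smul_zero]]
    rw [δ_comp_σ_self_apply, δ_comp_σ_succ_apply, σ_ap, CO.pot_σ, CO.pot_σ,
      Fin.predAbove_succAbove, Fin.succAbove_of_castSucc_lt i.succ 0 (Fin.succ_pos i),
      Fin.predAbove_castSucc_of_le i 0 (Fin.zero_le _)]
    simp [pow_succ]

end Pool.Agent.AZero
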