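import Pool.Agent.Lib.AZero.Blue

/-! Anodyne extensions are approximated by finite anodyne extensions. -/

noncomputable section

namespace Pool.Agent.AZero

open CategoryTheory Limits Simplicial SSet MonoidalCategory CartesianMonoidalCategory
  HomotopicalAlgebra Opposite
open scoped SSet.modelCategoryQuillen

namespace COMP

/-- the map `φ` factors through a finite anodyne extension mapping to `e` -/
def Q {A B K : SSet.{0}} (e : A ⟶ B) (φ : K ⟶ B) : Prop :=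
  ∃ (A₀ B₀ : SSet.{0}) (e₀ : A₀ ⟶ B₀) (α : A₀ ⟶ A) (β : B₀ ⟶ B) (ψ : K ⟶ B₀),
    B₀.Finite ∧ An e₀ ∧ e₀ ≫ β = α ≫ e ∧ ψ ≫ β = φ

/-- all finite complexes factor -/
def P {A B : SSet.{0}} (e : A ⟶ B) : Prop := ∀ (K : SSet.{0}) (φ : K ⟶ B), K.Finite → Q e φ

variable {A B C A' B' K : SSet.{0}}

theorem Q.sq {e : A ⟶ B} {e' : A' ⟶ B'} {φ : K ⟶ B} (h : Q e φ) (u : A ⟶ A') (v : B ⟶ B')
    (w : u ≫ e' = e ≫ v) : Q e' (φ ≫ v) :=
  let ⟨A₀, B₀, e₀, α, β, ψ, h1, h2, h3, h4⟩ := h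
  ⟨A₀, B₀, e₀, α ≫ u, β ≫ v, ψ, h1, h2, by rw [reassoc_of% h3, Category.assoc, w],
    by rw [reassoc_of% h4]⟩

theorem P_iso (e : A ⟶ B) [IsIso e] : P e := fun K φ hK =>
  ⟨K, K, 𝟙 _, φ ≫ inv e, φ, 𝟙 _, hK, An.id _, by simp, by simp⟩

theorem fin_po {a : K ⟶ A} {j : K ⟶ C} {i : A ⟶ B} {b : C ⟶ B} (sq : IsPushout a j i b)
    [A.Finite] [C.Finite] : B.Finite :=
  have : Epi (coprod.desc i b) := ⟨fun f g h => sq.hom_ext
    (by simpa only [coprod.inl_desc_assoc] using coprod.inl ≫= h)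
    (by simpa only [coprod.inr_desc_assoc] using coprod.inr ≫= h)⟩
  finite_of_epi (coprod.desc i b)

theorem P.comp {e₁ : A ⟶ B} {e₂ : B ⟶ C} (h₁ : P e₁) (h₂ : P e₂) : P (e₁ ≫ e₂) := by
  intro K φ hK
  obtain ⟨B₁, C₀, e', α', β', ψ', _, k2, k3, k4⟩ := h₂ K φ hK
  have := k2.mono
  have := finite_of_mono e'
  obtain ⟨A₀, B₀, e₀, α, β, ψ, _, l2, l3, l4⟩ := h₁ B₁ α' inferInstance
  have sq := IsPushout.of_hasPushout ψ e'
  refine ⟨A₀, pushout ψ e', e₀ ≫ pushout.inl _ _, α,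
    pushout.desc (β ≫ e₂) β' (by rw [reassoc_of% l4, k3]), ψ' ≫ pushout.inr _ _, fin_po sq,
    l2.comp (An.po sq k2), ?_, ?_⟩
  · rw [Category.assoc, pushout.inl_desc, reassoc_of% l3]
  · rw [Category.assoc, pushout.inr_desc, k4]

theorem an_sigma {ι : Type} {K L : ι → SSet.{0}} {j : ∀ l, K l ⟶ L l} (hj : ∀ l, An (j l)) :
    An (Limits.Sigma.map j) := fun E X p hp => lp_of_ex fun u v w => by
  choose f h1 h2 using fun l => ex_lift (hj l p hp) (Sigma.ι K l ≫ u) (Sigma.ι L l ≫ v)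
    (by simpa using Sigma.ι K l ≫= w)
  exact ⟨Sigma.desc f, Sigma.hom_ext _ _ fun l => by simpa using h1 l,
    Sigma.hom_ext _ _ fun l => by simpa using h2 l⟩

theorem P_cells {ι : Type} {K L : ι → SSet.{0}} {j : ∀ l, K l ⟶ L l} (hj : ∀ l, An (j l))
    (hL : ∀ l, (L l).Finite) {e : A ⟶ B} {a : ∐ K ⟶ A} {b : ∐ L ⟶ B}
    (sq : IsPushout a (Limits.Sigma.map j) e b) : P e := by
  intro M φ _
  have := (an_sigma hj).mono
  have := po_mono sq
  have hK : ∀ l, (K l).Finite := fun l => have := (hj l).mono; finite_of_mono (j l)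
  choose l z hz using fun x : {x : M.N // φ.app _ x.simplex ∉ Set.range (e.app _)} =>
    show ∃ l z, b.app _ ((Sigma.ι L l).app _ z) = φ.app _ x.1.simplex from
      let ⟨y, h, _⟩ := (po_surj sq _).resolve_left x.2
      let ⟨l, z, k⟩ := sigma_surj L y
      ⟨l, z, k ▸ h⟩
  obtain ⟨g, hg⟩ := ex_factor e (((Subcomplex.range e).preimage φ).ι ≫ φ) fun n x _ => x.2
  let s : ∐ (fun i : Set.range l => K i) ⟶ ∐ K := Sigma.desc fun i => Sigma.ι K i.1
  let t : ∐ (fun i : Set.range l => L i) ⟶ ∐ L := Sigma.desc fun i => Sigma.ι L i.1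
  let j₀ := Limits.Sigma.map fun i : Set.range l => j i
  have h0 : An j₀ := an_sigma fun i => hj _
  have := h0.mono
  have t1 : ∀ i n y, t.app n ((Sigma.ι (fun i : Set.range l => L i) i).app n y) =
      (Sigma.ι L i.1).app n y := fun i n y =>
    congr_ap (Sigma.ι_desc (fun i : Set.range l => Sigma.ι L i.1) i) n y
  have t2 : ∀ n y, t.app n y ∈ Set.range ((Limits.Sigma.map j).app n) →
      y ∈ Set.range (j₀.app n) := by
    rintro n y ⟨k, hk⟩
    obtain ⟨i, y, rfl⟩ := sigma_surj _ y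
    obtain ⟨i', k, rfl⟩ := sigma_surj _ k
    have e1 := (congr_ap (Sigma.ι_map j i') n k).symm.trans (hk.trans (t1 i n y))
    obtain rfl : i' = i.1 := sigma_idx _ e1
    obtain rfl : (j i.1).app n k = y := sigma_inj L n _ e1
    exact ⟨(Sigma.ι (fun i : Set.range l => K i) i).app n k,
      congr_ap (Sigma.ι_map (fun i : Set.range l => j i) i) n k⟩
  have t3 : ∀ n, Function.Injective (t.app n) := fun n y y' h => by
    obtain ⟨i, y, rfl⟩ := sigma_surj _ y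
    obtain ⟨i', y', rfl⟩ := sigma_surj _ y'
    rw [t1, t1] at h
    obtain rfl : i = i' := Subtype.ext (sigma_idx _ h)
    rw [sigma_inj L n _ h]
  let r := coprod.desc g (s ≫ a)
  let a₀ := coprod.inr ≫ Subcomplex.toRange r
  have w : a₀ ≫ (Subcomplex.range r).ι ≫ e = j₀ ≫ t ≫ b := by
    have : j₀ ≫ t = s ≫ Limits.Sigma.map j := Sigma.hom_ext _ _ fun i => by simp [j₀, s, t]
    rw [reassoc_of% this, ← sq.w]
    simp [a₀, r, coprod.inr_desc]
  have sq₀ := IsPushout.of_hasPushout a₀ j₀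
  have b1 := fun n x => congr_ap (sq₀.inl_desc _ _ w) n x
  have b2 := fun n x => congr_ap (sq₀.inr_desc _ _ w) n x
  have : Mono (sq₀.desc _ _ w) := mono_of_inj fun n y y' h => by
    have k : ∀ x y, y ∉ Set.range (j₀.app n) →
        e.app n ((Subcomplex.range r).ι.app n x) ≠ b.app n (t.app n y) := fun x y hy h =>
      let ⟨k, _, hk⟩ := po_eq sq h
      hy (t2 n y ⟨k, hk⟩)
    rcases po_surj sq₀ y with ⟨x, rfl⟩ | ⟨x, rfl, hx⟩ <;>
      rcases po_surj sq₀ y' with ⟨x', rfl⟩ | ⟨x', rfl, hx'⟩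
    · rw [inj_app ((Subcomplex.range r).ι ≫ e) n ((b1 n x).symm.trans (h.trans (b1 n x')))]
    · exact (k x x' hx' ((b1 n x).symm.trans (h.trans (b2 n x')))).elim
    · exact (k x' x hx ((b1 n x').symm.trans (h.symm.trans (b2 n x)))).elim
    · rw [t3 n (po_inj sq (fun h => hx (t2 n x h)) ((b2 n x).symm.trans (h.trans (b2 n x'))))]
  obtain ⟨ψ, hψ⟩ := ex_factor (sq₀.desc _ _ w) φ fun n x hx => by
    by_cases k : φ.app _ x ∈ Set.range (e.app _)
    · refine ⟨_, (b1 _ ((coprod.inl ≫ Subcomplex.toRange r).app _ ⟨x, k⟩)).trans ?_⟩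
      have : (coprod.inl ≫ Subcomplex.toRange r) ≫ (Subcomplex.range r).ι ≫ e = g ≫ e := by
        simp [r, coprod.inl_desc]
      exact congr_ap (this.trans hg) _ ⟨x, k⟩
    · exact ⟨_, (b2 _ ((Sigma.ι (fun i : Set.range l => L i) ⟨_, ⟨N.mk x hx, k⟩, rfl⟩).app _
        (z ⟨N.mk x hx, k⟩))).trans ((congrArg (b.app _) (t1 _ _ _)).trans (hz ⟨N.mk x hx, k⟩))⟩
  exact ⟨_, _, pushout.inl _ _, (Subcomplex.range r).ι, _, ψ, fin_po sq₀, An.po sq₀ h0,
    sq₀.inl_desc _ _ w, hψ⟩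

theorem P_step {e : A ⟶ B}
    (h : (MorphismProperty.coproducts.{0} modelCategoryQuillen.J.{0}).pushouts e) : P e := by
  obtain ⟨_, _, _, a, b, h, sq⟩ := h
  obtain ⟨ι, X₁, X₂, c₁, c₂, h₁, h₂, f, hf⟩ := (MorphismProperty.coproducts_iff _ _).1 h
  have k : ∀ {X : Discrete ι ⥤ SSet.{0}} {c : Cocone X}, IsColimit c →
      IsIso (Sigma.desc (f := fun l => X.obj ⟨l⟩) fun l => c.ι.app ⟨l⟩) := fun {X c} h =>
    ⟨h.desc ⟨_, Discrete.natTrans fun l => Sigma.ι (fun l => X.obj ⟨l⟩) l.as⟩,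
      Sigma.hom_ext _ _ fun l => by simp, h.hom_ext fun l => by simp⟩
  have := k h₁
  have := k h₂
  have hJ : ∀ l : ι, An (f.app ⟨l⟩) ∧ (X₂.obj ⟨l⟩).Finite := fun l => by
    have := hf ⟨l⟩
    refine ⟨MorphismProperty.le_llp_rlp _ _ this, ?_⟩
    simp only [modelCategoryQuillen.J, MorphismProperty.iSup_iff] at this
    generalize f.app ⟨l⟩ = u at this
    generalize X₁.obj ⟨l⟩ = U at u this
    generalize X₂.obj ⟨l⟩ = V at u this
    obtain ⟨m, ⟨i⟩⟩ := this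
    infer_instance
  refine P_cells (j := fun l => f.app ⟨l⟩) (fun l => (hJ l).1) (fun l => (hJ l).2)
    ((IsPushout.of_horiz_isIso (f := Sigma.desc fun l => c₁.ι.app ⟨l⟩)
      (inr := Sigma.desc fun l => c₂.ι.app ⟨l⟩) ⟨Sigma.hom_ext _ _ fun l => by simp⟩).paste_horiz sq)

end COMP

open COMP in
theorem st_comp : St_COMP := by
  intro A B K e φ he hK
  rw [An, anodyneExtensions_eq_retracts_transfiniteCompositionsOfShape] at he
  obtain ⟨A', B', e', r, ⟨c⟩⟩ := he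
  obtain ⟨n, p, hp⟩ := IsFinitelyPresentable.exists_hom_of_isColimit.{0} c.isColimit
    (φ ≫ r.i.right)
  have h : ∀ n : ℕ, P (c.isoBot.inv ≫ c.F.map (homOfLE (bot_le (a := n)))) := fun n => by
    induction n with
    | zero =>
      have : IsIso (c.F.map (homOfLE (bot_le (a := 0)))) := by
        rw [Subsingleton.elim (homOfLE _) (𝟙 _)]
        infer_instance
      exact P_iso _
    | succ n ih =>
      have := ih.comp (P_step (c.map_mem n (not_isMax n)))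
      rwa [Category.assoc, ← c.F.map_comp] at this
  have := ((h n K p hK).sq (𝟙 _) (c.incl.app n) (e' := e') (by
    rw [Category.id_comp, Category.assoc]
    exact c.fac.symm.trans (c.isoBot.inv ≫= (Cocone.w ⟨_, c.incl⟩ _).symm))).sq r.r.left r.r.right (e' := e) r.r_w
  rwa [hp, Category.assoc, r.retract_right, Category.comp_id] at this

end Pool.Agent.AZero
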