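import Pool.Agent.Lib.AZero.Blue

/-! Weak equivalences as cospans of anodyne maps, finite domination and homotopy dimension. -/

noncomputable section

namespace Pool.Agent.AZero

open CategoryTheory Limits Simplicial SSet MonoidalCategory CartesianMonoidalCategory
  HomotopicalAlgebra Opposite
open scoped SSet.modelCategoryQuillen

namespace COSP

theorem kan_of_fib {C X : SSet.{0}} {q : C ⟶ X} (hq : Fib q) (hX : KanComplex X) :
    KanComplex C := by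
  have h : Fib (q ≫ terminal.from X) := hq.comp ((isFibrant_iff X).1 hX)
  rw [Subsingleton.elim (q ≫ terminal.from X) (terminal.from C)] at h
  exact (isFibrant_iff C).2 h

theorem repl (hR : St_REPL) {A B : SSet.{0}} (f : A ⟶ B) :
    ∃ (C : SSet.{0}) (a : A ⟶ C) (q : C ⟶ B), a ≫ q = f ∧ An a ∧ Fib q :=
  let ⟨C, a, q, h1, h2, _, h3⟩ := hR 0 A B f
  ⟨C, a, q, h1, h2, fib_iff.2 fun m i => h3 m (Nat.zero_le m) i⟩

theorem pd_lp {X : SSet.{0}} {d : ℕ} {A B : Ret X} (i : A.Hom B)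
    (h : ∀ (E W : SSet.{0}) (q : E ⟶ W), FF d q → HasLiftingProperty i.f q) (hA : A.PD d) :
    B.PD d := by
  intro E W q hW hq f
  obtain ⟨g, hg⟩ := hA E W q hW hq (i.comp f)
  obtain ⟨l, h1, h2⟩ := ex_lift (h _ _ _ hq) g.f f.f hg
  exact ⟨⟨l, by rw [← i.hs, Category.assoc, h1, g.hs],
    by rw [← q.hr, reassoc_of% h2, f.hr]⟩, h2⟩

theorem pd_zero (X : SSet.{0}) (d : ℕ) : (Ret.zero X).PD d := fun E _ q _ _ f =>
  ⟨E.fromZero, q.hs.trans (f.hs.symm.trans (Category.id_comp _))⟩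

theorem pd_retract {X : SSet.{0}} {d : ℕ} {A U : Ret X} (i : A.Hom U) (p : U.Hom A)
    (e : i.f ≫ p.f = 𝟙 _) (h : U.PD d) : A.PD d := by
  intro E W q hW hq f
  obtain ⟨g, hg⟩ := h E W q hW hq (p.comp f)
  refine ⟨i.comp g, ?_⟩
  change (i.f ≫ g.f) ≫ q.f = f.f
  rw [Category.assoc, hg]
  change i.f ≫ p.f ≫ f.f = f.f
  rw [reassoc_of% e]

theorem pd_an {X : SSet.{0}} {d : ℕ} {A B : Ret X} (h : A.AnE B) : A.PD d ↔ B.PD d := by
  obtain ⟨u, hu⟩ := h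
  refine ⟨pd_lp u fun _ _ _ hq => hu.lp hq.1, fun hB E W q hW hq f => ?_⟩
  obtain ⟨f', hf⟩ := Ret.ex_ext u hu hW f
  obtain ⟨g, hg⟩ := hB E W q hW hq f'
  refine ⟨u.comp g, ?_⟩
  change (u.f ≫ g.f) ≫ q.f = f.f
  rw [Category.assoc, hg, hf]

end COSP

open COSP

theorem st_cosp (hW : St_WEQ) (h1 : St_TRIV1) (h2 : St_TRIV2) (hS : St_SDR) (hR : St_REPL) :
    St_COSP := by
  intro X hX
  have key : ∀ V U : Ret X, V.HMap U → ∃ T : Ret X, V.AnE T ∧ U.AnE T := by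
    rintro V U ⟨f, hf⟩
    obtain ⟨C, a, q, e, ha, hq⟩ := repl hR U.r
    obtain ⟨T, a', q', e', ha', hq'⟩ := repl hR (f.f ≫ a)
    have hw : WEq q' := WEq.right (hW _ _ _ ha') (e' ▸ hf.comp (hW _ _ _ ha))
    obtain ⟨t₀, H, k1, k2, k3⟩ := h1 T C q' (kan_of_fib hq hX) hq' hw
    have ht : TFib q' := h2 T C q' t₀ H hq' k1 k2 k3
    have : Mono (U.s ≫ a) := mono_of_mono_fac
      (show (U.s ≫ a) ≫ q = 𝟙 X by rw [Category.assoc, e, U.sr])
    obtain ⟨t, m1, m2⟩ := ex_lift (ht.lp (U.s ≫ a)) (V.s ≫ a') (𝟙 C)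
      (by rw [Category.assoc, e', reassoc_of% f.hs, Category.comp_id])
    have e2 : a' ≫ q' ≫ q = V.r := by rw [reassoc_of% e', e, f.hr]
    refine ⟨V.via a' (q' ≫ q) e2, ⟨V.toVia .., ha'⟩, ⟨⟨a ≫ t, ?_, ?_⟩,
      ha.comp (hS.2 _ _ q' t ht m2)⟩⟩
    · exact (Category.assoc _ _ _).symm.trans m1
    · change (a ≫ t) ≫ q' ≫ q = U.r
      rw [Category.assoc, reassoc_of% m2, e]
  refine ⟨key, ?_⟩
  rintro U ⟨Z, hZ, h⟩
  have : ∃ T : Ret X, U.AnE T ∧ Z.AnE T := by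
    clear hZ
    induction h with
    | rel A B h => exact key A B h
    | refl A => exact ⟨A, .refl A, .refl A⟩
    | symm A B _ ih => exact let ⟨T, a, b⟩ := ih; ⟨T, b, a⟩
    | trans A B C _ _ ih ih' =>
      obtain ⟨T, a, b⟩ := ih
      obtain ⟨T', a', b'⟩ := ih'
      obtain ⟨D, c, c'⟩ := b.amalg a'
      exact ⟨D, a.trans c, b'.trans c'⟩
  obtain ⟨T, a, b⟩ := this
  exact ⟨T, Z, a, b, hZ⟩

theorem st_fdc (hA : St_HFA) (hW : St_WEQ) : St_FDC := by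
  rintro X hX A B i ⟨U, i', p', hU, e⟩ hi
  obtain ⟨D, u, v, sq⟩ := Ret.ex_po i' i
  have hD : D.HFinite := by
    rcases hi with hi | ⟨K, L, a, j, b, hj, hL, sq0⟩
    · obtain ⟨Z, hZ, h⟩ := hU
      exact ⟨Z, hZ, .trans _ _ _ (.symm _ _ (.rel _ _ ⟨u, hW _ _ _ (An.po sq hi)⟩)) h⟩
    · exact hA X hX U D u hU ⟨K, L, _, j, _, hj, hL, sq0.paste_horiz sq⟩
  obtain ⟨f, -, hf⟩ := Ret.ex_desc sq (p'.comp i) (𝟙 _) (by
    change i'.f ≫ p'.f ≫ i.f = _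
    rw [reassoc_of% e, Category.comp_id]) (by rw [Category.id_comp, v.hr])
  exact ⟨D, v, f, hD, hf⟩

theorem st_pd (hL : St_LLP) (hC : St_COSP) (hF : St_FINC) : St_PD := by
  have k2 : ∀ (X : SSet.{0}) (d : ℕ) (A B : Ret X) (i : A.Hom B), Mono i.f → RelDim d i.f →
      A.PD d → B.PD d := fun X d A B i hm hd =>
    pd_lp i fun _ _ q hq => hL d _ _ _ _ i.f q hm hd hq.2
  refine ⟨fun X d A B h => pd_an h, k2, ?_⟩
  rintro X hX A ⟨U, i, p, hU, e⟩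
  obtain ⟨T, Z, a, b, hZ⟩ := (hC X hX).2 U hU
  obtain ⟨d, hd⟩ := hF.2.2.1 X Z hZ
  refine ⟨d, fun d' h => pd_retract i p e ((pd_an a).2 ((pd_an b).1 ?_))⟩
  exact k2 X d' _ Z Z.fromZero (inferInstanceAs (Mono Z.s))
    (fun n y hy k => (hd n y hy k).trans h) (pd_zero X d')

end Pool.Agent.AZero
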