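import Pool.Agent.Lib.AZero.Blue2

/-! The transport groupoid of an orbit is equivalent to the isotropy group. -/

noncomputable section

namespace Pool.Agent.AZero

open CategoryTheory Limits Simplicial SSet MonoidalCategory CartesianMonoidalCategory
  HomotopicalAlgebra Opposite
open scoped SSet.modelCategoryQuillen

namespace EQV

variable {C D : Type} [SmallCategory C] [SmallCategory D] {F F' : C ⥤ D}

/-- the homotopy given by a natural transformation -/
def hom (τ : F ⟶ F') : nerve C ⊗ Δ[1] ⟶ nerve D where
  app _ := ↾fun z => ((stdSimplex.objEquiv z.2).toOrderHom.monotone.functor.prod' z.1) ⋙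
    Functor.uncurry.obj (ComposableArrows.mk₁ τ)
  naturality _ _ _ := rfl

theorem hom_zero (τ : F ⟶ F') : ι₀ ≫ hom τ = nerveMap F := by
  ext n x
  exact CategoryTheory.Functor.hext (fun _ => rfl) fun _ _ _ => heq_of_eq (Category.id_comp _)

theorem hom_one (τ : F ⟶ F') : ι₁ ≫ hom τ = nerveMap F' := by
  ext n x
  exact CategoryTheory.Functor.hext (fun _ => rfl) fun _ _ _ => heq_of_eq (Category.id_comp _)

variable {G : Type} [Group G] (H : Subgroup G)

/-- the inclusion of the isotropy group -/
def inc : SingleObj H ⥤ ActionCategory G (G ⧸ H) where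
  obj _ := (((1 : G) : G ⧸ H) : ActionCategory G (G ⧸ H))
  map h := ⟨(show H from h).1, (QuotientGroup.eq (a := (show H from h).1 * 1) (b := 1)).2
    (by simp)⟩

/-- the retraction to the isotropy group -/
def ret : ActionCategory G (G ⧸ H) ⥤ SingleObj H where
  obj _ := SingleObj.star H
  map {s t} g := (⟨t.back.out⁻¹ * ((show G from g.1) * s.back.out), QuotientGroup.eq.1 (by
    rw [QuotientGroup.out_eq', ← smul_eq_mul, ← MulAction.Quotient.smul_mk,
      QuotientGroup.out_eq']
    exact g.2.symm)⟩ : H)
  map_id s := Subtype.ext (by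
    change s.back.out⁻¹ * (1 * s.back.out) = 1
    group)
  map_comp {s t u} f g := Subtype.ext (by
    change u.back.out⁻¹ * (((show G from g.1) * (show G from f.1)) * s.back.out) =
      u.back.out⁻¹ * ((show G from g.1) * t.back.out) *
        (t.back.out⁻¹ * ((show G from f.1) * s.back.out))
    group)

/-- the counit -/
def tau : ret H ⋙ inc H ⟶ 𝟭 _ where
  app s := ⟨s.back.out, (congrArg QuotientGroup.mk (mul_one s.back.out)).trans
    (QuotientGroup.out_eq' s.back)⟩
  naturality _ t _ := Subtype.ext (mul_inv_cancel_left t.back.out _)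

end EQV

theorem st_eqv : St_EQV := fun _ _ H =>
  ⟨nerveMap (EQV.inc H), nerveMap (EQV.ret H), EQV.hom (EQV.tau H), EQV.hom_zero _,
    EQV.hom_one _, ComposableArrows.ext₀ rfl⟩

end Pool.Agent.AZero
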