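import Pool.Agent.Lib.AZero.Blue

/-! Invariance and finiteness of the relative rational cohomology. -/

noncomputable section

namespace Pool.Agent.AZero

open CategoryTheory Limits Simplicial SSet MonoidalCategory CartesianMonoidalCategory
  HomotopicalAlgebra Opposite
open scoped SSet.modelCategoryQuillen

namespace EU1

variable {Γ : Type} [Group Γ] {A B : Ret (BG Γ)}

/-- restriction of cochains -/
def pull (f : A.Hom B) (n : ℕ) : (B.Y _⦋n⦌ → ℚ) →ₗ[ℚ] (A.Y _⦋n⦌ → ℚ) :=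
  LinearMap.funLeft ℚ ℚ (f.f.app (op ⦋n⦌))

theorem pull_RC (f : A.Hom B) {n : ℕ} {c : B.Y _⦋n⦌ → ℚ} (h : c ∈ RC B n) : pull f n c ∈ RC A n :=
  ⟨Nrm.comp f.f h.1, fun _ hy => h.2 _ (hy.hom f)⟩

theorem dQ_pull (f : A.Hom B) {n : ℕ} (c : B.Y _⦋n⦌ → ℚ) :
    dQ A n (pull f n c) = pull f (n + 1) (dQ B n c) := funext fun t => by
  have := cob_comp (Representation.trivial ℚ Γ ℚ) f.f B.r c t
  rw [f.hr] at this
  exact this

theorem pull_ZC (f : A.Hom B) (n : ℕ) : ∀ c ∈ ZC B n, pull f n c ∈ ZC A n := fun c h =>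
  ⟨pull_RC f h.1, by
    have : dQ B n c = 0 := h.2
    exact (dQ_pull f c).trans (by rw [this, map_zero])⟩

theorem pull_BC (f : A.Hom B) {n : ℕ} {c : B.Y _⦋n⦌ → ℚ} (h : c ∈ BC B n) :
    pull f n c ∈ BC A n := by
  cases n with
  | zero =>
    rw [BC_zero, Submodule.mem_bot] at h ⊢
    rw [h, map_zero]
  | succ n =>
    obtain ⟨b, hb, rfl⟩ := h
    exact ⟨_, pull_RC f hb, dQ_pull f b⟩

/-- the induced map on cohomology -/
def hq (f : A.Hom B) (n : ℕ) : HQ B n →ₗ[ℚ] HQ A n :=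
  Submodule.mapQ _ _ ((pull f n).restrict (pull_ZC f n)) fun _ h => pull_BC f h

theorem hq_surj (f : A.Hom B) (n : ℕ) (h : ∀ z ∈ ZC A n, ∃ c ∈ ZC B n, pull f n c = z) :
    Function.Surjective (hq f n) := fun x => by
  obtain ⟨z, rfl⟩ := Submodule.Quotient.mk_surjective _ x
  obtain ⟨c, hc, e⟩ := h z z.2
  exact ⟨Submodule.Quotient.mk ⟨c, hc⟩, congrArg Submodule.Quotient.mk (Subtype.ext e)⟩

theorem ext_RC (hE : St_EXT) (f : A.Hom B) (hf : An f.f) {n : ℕ} {b : A.Y _⦋n⦌ → ℚ}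
    (hb : b ∈ RC A n) {c : B.Y _⦋n + 1⦌ → ℚ} (hc : Nrm c) (h0 : dQ B (n + 1) c = 0)
    (h1 : dQ A n b = pull f (n + 1) c) : ∃ b' ∈ RC B n, pull f n b' = b ∧ dQ B n b' = c := by
  obtain ⟨b', k1, k2, k3⟩ := hE Γ ℚ ℚ (Representation.trivial ℚ Γ ℚ) _ _ f.f hf B.r n b c hb.1 hc h0
    fun t => by rw [f.hr]; exact congrFun h1 t
  refine ⟨b', ⟨k1, ?_⟩, funext k2, k3⟩
  rintro _ ⟨x, rfl⟩
  rw [← congr_ap f.hs, comp_ap, k2]
  exact hb.2 _ ⟨x, rfl⟩

theorem fin_RC (hF : St_FINC) (hA : A.IsFinite) (n : ℕ) : Module.Finite ℚ (RC A n) := by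
  have := (hF.2.2.2.2 _ A n hA).to_subtype
  refine Module.Finite.of_injective ((LinearMap.funLeft ℚ ℚ (Subtype.val : (Set.ofPred
    fun y : A.Y _⦋n⦌ => y ∈ A.Y.nonDegenerate n ∧ ¬ A.In y) → _)).comp (RC A n).subtype) ?_
  refine (injective_iff_map_eq_zero _).2 fun c hc => Subtype.ext (funext fun y => ?_)
  by_cases h1 : y ∈ A.Y.degenerate n
  · exact c.2.1 y h1
  by_cases h2 : A.In y
  · exact c.2.2 y h2
  exact congrFun hc ⟨y, (A.Y.mem_nonDegenerate_iff_notMem_degenerate y).2 h1, h2⟩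

theorem finH_fin (hF : St_FINC) (hA : A.IsFinite) : FinH A := by
  refine ⟨fun n => ?_, ?_⟩
  · have := fin_RC hF hA n
    have : Module.Finite ℚ (ZC A n) :=
      Module.Finite.of_injective (Submodule.inclusion inf_le_left) (Submodule.inclusion_injective _)
    infer_instance
  · obtain ⟨d, hd⟩ := hF.2.2.1 _ A hA
    refine ⟨d + 1, fun n hn => ?_⟩
    have : Subsingleton (ZC A n) := by
      refine subsingleton_of_forall_eq 0 fun c => Subtype.ext (funext fun y => ?_)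
      by_cases h1 : y ∈ A.Y.degenerate n
      · exact c.2.1.1 y h1
      by_cases h2 : A.In y
      · exact c.2.1.2 y h2
      exact absurd (hd n y ((A.Y.mem_nonDegenerate_iff_notMem_degenerate y).2 h1) h2) (by omega)
    exact (Submodule.Quotient.mk_surjective _).subsingleton

theorem finH_surj (h : FinH B) (φ : ∀ n, HQ B n →ₗ[ℚ] HQ A n)
    (hφ : ∀ n, Function.Surjective (φ n)) : FinH A :=
  ⟨fun n => have := h.1 n; Module.Finite.of_surjective (φ n) (hφ n),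
    let ⟨N, hN⟩ := h.2; ⟨N, fun n hn => have := hN n hn; (hφ n).subsingleton⟩⟩

end EU1

open EU1

theorem st_eu0 (hE : St_EXT) (hE0 : St_EXT0) : St_EU0 := by
  rintro Γ _ A B ⟨f, hf⟩ n
  refine ⟨LinearEquiv.ofBijective (hq f n) ⟨?_, hq_surj f n fun z hz => ?_⟩⟩
  · refine (injective_iff_map_eq_zero _).2 fun x hx => ?_
    obtain ⟨z, rfl⟩ := Submodule.Quotient.mk_surjective _ x
    have h1 : pull f n z ∈ BC A n :=
      (Submodule.Quotient.mk_eq_zero ((BC A n).submoduleOf (ZC A n))).1 hx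
    refine (Submodule.Quotient.mk_eq_zero _).2 (show z.1 ∈ BC B n from ?_)
    cases n with
    | zero =>
      rw [BC_zero, Submodule.mem_bot] at h1 ⊢
      exact hE0 Γ ℚ ℚ (Representation.trivial ℚ Γ ℚ) _ _ f.f B.r z hf z.2.2 (congrFun h1)
    | succ n =>
      obtain ⟨b, hb, e⟩ := h1
      obtain ⟨b', k1, -, k3⟩ := ext_RC hE f hf hb z.2.1.1 z.2.2 e
      exact ⟨b', k1, k3⟩
  · obtain ⟨b', k1, k2, k3⟩ := ext_RC hE f hf hz.1 (c := 0) (fun _ _ => rfl) (map_zero _)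
      (hz.2.trans (map_zero _).symm)
    exact ⟨b', ⟨k1, k3⟩, k2⟩

theorem st_eu1 (h0 : St_EU0) (hC : St_COSP) (hK : St_KAN) (hF : St_FINC) : St_EU1 := by
  rintro Γ _ A ⟨U, i, p, hU, e⟩
  obtain ⟨T, Z, h1, h2, h3⟩ := (hC _ (hK Γ)).2 U hU
  have hT : FinH T := finH_surj (finH_fin hF h3) (fun n => (h0 Γ Z T h2 n).some.symm.toLinearMap)
    fun n => (h0 Γ Z T h2 n).some.symm.surjective
  have hU' : FinH U := finH_surj hT (fun n => (h0 Γ U T h1 n).some.toLinearMap)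
    fun n => (h0 Γ U T h1 n).some.surjective
  refine finH_surj hU' (hq i) fun n => hq_surj i n fun z hz => ⟨_, pull_ZC p n z hz, ?_⟩
  exact funext fun y => congrArg z (congr_ap e _ y)

end Pool.Agent.AZero
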