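import Pool.Agent.Lib.AZero.Blue

/-! Additivity of the Euler characteristic on cofibration sequences. -/

noncomputable section

namespace Pool.Agent.AZero

open CategoryTheory Limits Simplicial SSet MonoidalCategory CartesianMonoidalCategory
  HomotopicalAlgebra Opposite
open scoped SSet.modelCategoryQuillen

namespace EU2

section ind

variable {U V W : Type} [AddCommGroup U] [Module ℚ U] [AddCommGroup V] [Module ℚ V]
  [AddCommGroup W] [Module ℚ W]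

/-- subquotients -/
abbrev SQ (Z B : Submodule ℚ U) : Type := Z ⧸ B.submoduleOf Z

theorem mk_zero {Z B : Submodule ℚ U} (x : Z) :
    (Submodule.Quotient.mk x : SQ Z B) = 0 ↔ x.1 ∈ B := Submodule.Quotient.mk_eq_zero _

/-- a map of subquotients -/
structure Good (Z B : Submodule ℚ U) (Z' B' : Submodule ℚ V) (f : U →ₗ[ℚ] V) : Prop where
  z : ∀ x ∈ Z, f x ∈ Z'
  b : ∀ x ∈ Z, x ∈ B → f x ∈ B'

/-- the induced map -/
def Good.ind {Z B : Submodule ℚ U} {Z' B' : Submodule ℚ V} {f : U →ₗ[ℚ] V}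
    (h : Good Z B Z' B' f) : SQ Z B →ₗ[ℚ] SQ Z' B' :=
  Submodule.mapQ _ _ (f.restrict h.z) fun x hx => h.b x.1 x.2 hx

/-- the rank of the induced map -/
def Good.rk {Z B : Submodule ℚ U} {Z' B' : Submodule ℚ V} {f : U →ₗ[ℚ] V}
    (h : Good Z B Z' B' f) : ℕ := Module.finrank ℚ (LinearMap.range h.ind)

theorem rk_add {Z B : Submodule ℚ U} {Z' B' : Submodule ℚ V} {Z'' B'' : Submodule ℚ W}
    {f : U →ₗ[ℚ] V} {g : V →ₗ[ℚ] W} (h : Good Z B Z' B' f) (k : Good Z' B' Z'' B'' g)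
    [Module.Finite ℚ (SQ Z' B')] (e : ∀ y ∈ Z', g y ∈ B'' ↔ ∃ x ∈ Z, y - f x ∈ B') :
    Module.finrank ℚ (SQ Z' B') = h.rk + k.rk := by
  have : LinearMap.range h.ind = LinearMap.ker k.ind := by
    ext y
    obtain ⟨y, rfl⟩ := Submodule.Quotient.mk_surjective _ y
    refine Iff.trans ?_ ((e y.1 y.2).symm.trans (mk_zero ⟨g y.1, k.z _ y.2⟩).symm)
    constructor
    · rintro ⟨x, hx⟩
      obtain ⟨x, rfl⟩ := Submodule.Quotient.mk_surjective _ x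
      exact ⟨x.1, x.2, (Submodule.Quotient.eq (x := y) (y := ⟨f x.1, h.z _ x.2⟩) _).1 hx.symm⟩
    · rintro ⟨x, hx, hy⟩
      exact ⟨Submodule.Quotient.mk ⟨x, hx⟩,
        ((Submodule.Quotient.eq (x := y) (y := ⟨f x, h.z x hx⟩) _).2 hy).symm⟩
  rw [Good.rk, Good.rk, this, add_comm, LinearMap.finrank_range_add_finrank_ker]

end ind

theorem tele (a b c F G D : ℕ → ℕ) (hb : ∀ n, b n = F n + G n) (ha : ∀ n, a n = G n + D (n + 1))
    (hc : ∀ n, c n = D n + F n) (h0 : D 0 = 0) (N : ℕ)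
    (hN : ∀ n, N ≤ n → a n = 0 ∧ b n = 0 ∧ c n = 0) :
    ∑ᶠ n : ℕ, (-1 : ℤ) ^ n * (b n : ℤ) =
      ∑ᶠ n : ℕ, (-1 : ℤ) ^ n * (a n : ℤ) + ∑ᶠ n : ℕ, (-1 : ℤ) ^ n * (c n : ℤ) := by
  have s : ∀ u : ℕ → ℕ, (∀ n, N ≤ n → u n = 0) →
      ∑ᶠ n : ℕ, (-1 : ℤ) ^ n * (u n : ℤ) = ∑ n ∈ Finset.range N, (-1 : ℤ) ^ n * (u n : ℤ) :=
    fun u hu => finsum_eq_sum_of_support_subset _ fun n hn => by
      by_contra k
      exact hn (by simp [hu n (by simpa using k)])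
  rw [s a fun n h => (hN n h).1, s b fun n h => (hN n h).2.1, s c fun n h => (hN n h).2.2]
  have t : ∀ m, ∑ n ∈ Finset.range m, (-1 : ℤ) ^ n * (b n : ℤ) =
      ∑ n ∈ Finset.range m, (-1 : ℤ) ^ n * (a n : ℤ) +
        ∑ n ∈ Finset.range m, (-1 : ℤ) ^ n * (c n : ℤ) + (-1) ^ m * (D m : ℤ) := by
    intro m
    induction m with
    | zero => simp [h0]
    | succ m ih =>
      simp only [Finset.sum_range_succ, ih, ha m, hb m, hc m]
      push_cast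
      ring
  have : D N = 0 := by
    have := (hN N le_rfl).2.2
    rw [hc] at this
    omega
  rw [t, this]
  simp

section les

variable {Γ : Type} [Group Γ]

theorem mem_ZC {A : Ret (BG Γ)} {n : ℕ} {c : A.Y _⦋n⦌ → ℚ} :
    c ∈ ZC A n ↔ c ∈ RC A n ∧ dQ A n c = 0 := Iff.rfl

/-- restriction of cochains -/
def res {A B : Ret (BG Γ)} (f : A.Hom B) (n : ℕ) : (B.Y _⦋n⦌ → ℚ) →ₗ[ℚ] (A.Y _⦋n⦌ → ℚ) :=
  LinearMap.funLeft ℚ ℚ (f.f.app _)

/-- extension of cochains by zero -/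
def ext {A B : Ret (BG Γ)} (f : A.Hom B) (n : ℕ) : (A.Y _⦋n⦌ → ℚ) →ₗ[ℚ] (B.Y _⦋n⦌ → ℚ) :=
  Function.ExtendByZero.linearMap ℚ (f.f.app _)

theorem res_RC {A B : Ret (BG Γ)} (f : A.Hom B) {n : ℕ} {c : B.Y _⦋n⦌ → ℚ} (h : c ∈ RC B n) :
    res f n c ∈ RC A n := ⟨h.1.comp f.f, fun _ hy => h.2 _ (hy.hom f)⟩

theorem res_d {A B : Ret (BG Γ)} (f : A.Hom B) {n : ℕ} (c : B.Y _⦋n⦌ → ℚ) :
    res f (n + 1) (dQ B n c) = dQ A n (res f n c) := funext fun t => by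
  have := cob_comp (Representation.trivial ℚ Γ ℚ) f.f B.r c t
  rw [f.hr] at this
  exact this.symm

theorem d_RC (hC : St_CO) (A : Ret (BG Γ)) {n : ℕ} {c : A.Y _⦋n⦌ → ℚ} (h : c ∈ RC A n) :
    dQ A n c ∈ RC A (n + 1) :=
  ⟨(hC Γ ℚ ℚ _ A.Y A.r n c).2 h.1, fun t ht => by
    have k : ∀ j, c (A.Y.δ j t) = 0 := fun j => h.2 _ (ht.map _)
    simp [cob_apply, k]⟩

theorem d_d (hC : St_CO) (A : Ret (BG Γ)) {n : ℕ} (c : A.Y _⦋n⦌ → ℚ) :
    dQ A (n + 1) (dQ A n c) = 0 := (hC Γ ℚ ℚ _ A.Y A.r n c).1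

theorem BC_le (hC : St_CO) (A : Ret (BG Γ)) (n : ℕ) : BC A n ≤ ZC A n := by
  cases n with
  | zero => exact bot_le
  | succ n =>
    rintro _ ⟨c, hc, rfl⟩
    exact ⟨d_RC hC A hc, d_d hC A c⟩

theorem res_BC {A B : Ret (BG Γ)} (f : A.Hom B) {n : ℕ} {c : B.Y _⦋n⦌ → ℚ} (h : c ∈ BC B n) :
    res f n c ∈ BC A n := by
  cases n with
  | zero =>
    obtain rfl : c = 0 := h
    exact (res f 0).map_zero
  | succ n =>
    obtain ⟨c, hc, rfl⟩ := h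
    exact ⟨_, res_RC f hc, (res_d f c).symm⟩

theorem good_res {A B : Ret (BG Γ)} (f : A.Hom B) (n : ℕ) :
    Good (ZC B n) (BC B n) (ZC A n) (BC A n) (res f n) :=
  ⟨fun c hc => ⟨res_RC f hc.1, mem_ZC.1 hc |>.2 ▸ (res_d f c).symm |>.trans (map_zero _)⟩,
    fun _ _ h => res_BC f h⟩

theorem res_ext {A B : Ret (BG Γ)} (i : A.Hom B) [Mono i.f] {n : ℕ} (c : A.Y _⦋n⦌ → ℚ) :
    res i n (ext i n c) = c := funext fun x => (inj_app i.f _).extend_apply c 0 x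

theorem ext_out {A B : Ret (BG Γ)} (i : A.Hom B) {n : ℕ} (c : A.Y _⦋n⦌ → ℚ) {y : B.Y _⦋n⦌}
    (h : y ∉ Set.range (i.f.app _)) : ext i n c y = 0 :=
  Function.extend_apply' c (0 : B.Y _⦋n⦌ → ℚ) y h

theorem ext_RC {A B : Ret (BG Γ)} (i : A.Hom B) [Mono i.f] {n : ℕ} {c : A.Y _⦋n⦌ → ℚ}
    (h : c ∈ RC A n) : ext i n c ∈ RC B n := by
  refine ⟨fun y hy => ?_, ?_⟩
  · by_cases k : y ∈ Set.range (i.f.app _)
    · obtain ⟨x, rfl⟩ := k
      exact (congrFun (res_ext i c) x).trans (h.1 x ((degenerate_iff_of_mono i.f x).1 hy))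
    · exact ext_out i c k
  · rintro _ ⟨x, rfl⟩
    rw [← congr_ap i.hs]
    exact (congrFun (res_ext i c) _).trans (h.2 _ ⟨x, rfl⟩)

theorem BC_surj {A B : Ret (BG Γ)} (i : A.Hom B) [Mono i.f] {n : ℕ} {c : A.Y _⦋n⦌ → ℚ}
    (h : c ∈ BC A n) : ∃ c' ∈ BC B n, res i n c' = c := by
  cases n with
  | zero => exact ⟨0, zero_mem _, (map_zero _).trans (Eq.symm h)⟩
  | succ n =>
    obtain ⟨c, hc, rfl⟩ := h
    exact ⟨_, ⟨_, ext_RC i hc, rfl⟩, by rw [res_d, res_ext]⟩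

variable {A B Q : Ret (BG Γ)} {i : A.Hom B} {q : B.Hom Q} [Mono i.f]
  (sq : IsPushout A.r i.f Q.s q.f)

include sq

omit [Mono i.f] in
theorem res_res {n : ℕ} {c : Q.Y _⦋n⦌ → ℚ} (h : c ∈ RC Q n) : res i n (res q n c) = 0 :=
  funext fun x => h.2 _ ⟨_, congr_ap sq.w _ x⟩

omit [Mono i.f] in
theorem res_inj {n : ℕ} {c c' : Q.Y _⦋n⦌ → ℚ} (h : c ∈ RC Q n) (h' : c' ∈ RC Q n)
    (e : res q n c = res q n c') : c = c' := funext fun y => by
  rcases po_surj sq y with k | ⟨z, rfl, -⟩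
  · rw [h.2 y k, h'.2 y k]
  · exact congrFun e z

theorem ext_ker {n : ℕ} {c : B.Y _⦋n⦌ → ℚ} (h : c ∈ RC B n) (e : res i n c = 0) :
    ext q n c ∈ RC Q n ∧ res q n (ext q n c) = c := by
  have z0 : ∀ z ∈ Set.range (i.f.app (op ⦋n⦌)), c z = 0 := by
    rintro _ ⟨x, rfl⟩
    exact congrFun e x
  have ft : c.FactorsThrough (q.f.app _) := fun z z' k => by
    by_cases h1 : z ∈ Set.range (i.f.app _)
    · by_cases h2 : z' ∈ Set.range (i.f.app _)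
      · rw [z0 z h1, z0 z' h2]
      · rw [po_inj sq h2 k.symm]
    · rw [po_inj sq h1 k]
  have e1 : ∀ z, ext q n c (q.f.app _ z) = c z := fun z => ft.extend_apply 0 z
  refine ⟨⟨fun y hy => ?_, fun y hy => ?_⟩, funext e1⟩
  all_goals
    by_cases k : y ∈ Set.range (q.f.app _)
    swap
    · exact ext_out q c k
    obtain ⟨z, rfl⟩ := k
    rw [e1]
  · by_cases h1 : z ∈ Set.range (i.f.app _)
    · exact z0 z h1
    · refine h.1 z ?_
      by_contra h2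
      exact (mem_nonDegenerate_iff_notMem_degenerate _ _).1
        (po_nd sq h1 ((mem_nonDegenerate_iff_notMem_degenerate _ _).2 h2)) hy
  · obtain ⟨x, hx⟩ := hy
    obtain ⟨k, -, hk⟩ := po_eq sq hx
    exact z0 z ⟨k, hk⟩

theorem ext_ZC (hC : St_CO) {n : ℕ} {c : B.Y _⦋n⦌ → ℚ} (h : c ∈ ZC B n) (e : res i n c = 0) :
    ext q n c ∈ ZC Q n :=
  have k := ext_ker sq h.1 e
  ⟨k.1, res_inj sq (d_RC hC Q k.1) (zero_mem _) (by
    rw [res_d, k.2, map_zero]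
    exact h.2)⟩

/-- the connecting map -/
def del (i : A.Hom B) (q : B.Hom Q) (n : ℕ) : (A.Y _⦋n⦌ → ℚ) →ₗ[ℚ] (Q.Y _⦋n + 1⦌ → ℚ) :=
  ext q (n + 1) ∘ₗ dQ B n ∘ₗ ext i n

theorem del_spec (hC : St_CO) {n : ℕ} {c : A.Y _⦋n⦌ → ℚ} (h : c ∈ ZC A n) :
    del i q n c ∈ ZC Q (n + 1) ∧ res q (n + 1) (del i q n c) = dQ B n (ext i n c) := by
  have h1 := d_RC hC B (ext_RC i h.1)
  have h2 : res i (n + 1) (dQ B n (ext i n c)) = 0 := by
    rw [res_d, res_ext]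
    exact h.2
  exact ⟨ext_ZC sq hC ⟨h1, d_d hC B _⟩ h2, (ext_ker sq h1 h2).2⟩

theorem ex_B (hC : St_CO) (n : ℕ) (y : B.Y _⦋n⦌ → ℚ) (hy : y ∈ ZC B n) :
    res i n y ∈ BC A n ↔ ∃ x ∈ ZC Q n, y - res q n x ∈ BC B n := by
  constructor
  · intro h
    obtain ⟨b, hb, e⟩ := BC_surj i h
    have h1 : y - b ∈ ZC B n := sub_mem hy (BC_le hC B n hb)
    have h2 : res i n (y - b) = 0 := by rw [map_sub, e, sub_self]
    exact ⟨_, ext_ZC sq hC h1 h2, by rwa [(ext_ker sq h1.1 h2).2, sub_sub_cancel]⟩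
  · rintro ⟨x, hx, h⟩
    have := res_BC i h
    rwa [map_sub, res_res sq hx.1, sub_zero] at this

theorem ex_A (hC : St_CO) (n : ℕ) (z : A.Y _⦋n⦌ → ℚ) (hz : z ∈ ZC A n) :
    del i q n z ∈ BC Q (n + 1) ↔ ∃ y ∈ ZC B n, z - res i n y ∈ BC A n := by
  have k := del_spec sq hC hz
  constructor
  · rintro ⟨x, hx, e⟩
    refine ⟨ext i n z - res q n x, ⟨sub_mem (ext_RC i hz.1) (res_RC q hx), ?_⟩, ?_⟩
    · change dQ B n _ = 0
      rw [map_sub, ← k.2, ← e, res_d, sub_self]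
    · rw [map_sub, res_ext, res_res sq hx, sub_zero, sub_self]
      exact zero_mem _
  · rintro ⟨y, hy, h⟩
    obtain ⟨b, hb, e⟩ := BC_surj i h
    have h0 : y + b ∈ ZC B n := add_mem hy (BC_le hC B n hb)
    have h1 : ext i n z - (y + b) ∈ RC B n := sub_mem (ext_RC i hz.1) h0.1
    have h2 : res i n (ext i n z - (y + b)) = 0 := by
      rw [map_sub, map_add, e, res_ext, add_sub_cancel, sub_self]
    have h3 := ext_ker sq h1 h2
    exact ⟨_, h3.1, res_inj sq (d_RC hC Q h3.1) k.1.1 (by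
      rw [res_d, h3.2, map_sub, (mem_ZC.1 h0).2, sub_zero, k.2])⟩

theorem ex_Q (hC : St_CO) (n : ℕ) (x : Q.Y _⦋n + 1⦌ → ℚ) (hx : x ∈ ZC Q (n + 1)) :
    res q (n + 1) x ∈ BC B (n + 1) ↔ ∃ z ∈ ZC A n, x - del i q n z ∈ BC Q (n + 1) := by
  constructor
  · rintro ⟨y, hy, e⟩
    have hz : res i n y ∈ ZC A n := ⟨res_RC i hy, by
      change dQ A n _ = 0
      rw [← res_d, e, res_res sq hx.1]⟩
    have k := del_spec sq hC hz
    have h1 : y - ext i n (res i n y) ∈ RC B n := sub_mem hy (ext_RC i hz.1)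
    have h2 : res i n (y - ext i n (res i n y)) = 0 := by rw [map_sub, res_ext, sub_self]
    have h3 := ext_ker sq h1 h2
    exact ⟨_, hz, _, h3.1, res_inj sq (d_RC hC Q h3.1) (sub_mem hx.1 k.1.1) (by
      rw [res_d, h3.2, map_sub, map_sub, e, k.2])⟩
  · rintro ⟨z, hz, h⟩
    have h1 := res_BC q h
    rw [map_sub, (del_spec sq hC hz).2] at h1
    simpa using add_mem h1 (show dQ B n (ext i n z) ∈ BC B (n + 1) from ⟨_, ext_RC i hz.1, rfl⟩)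

theorem good_del (hC : St_CO) (n : ℕ) :
    Good (ZC A n) (BC A n) (ZC Q (n + 1)) (BC Q (n + 1)) (del i q n) :=
  ⟨fun _ h => (del_spec sq hC h).1, fun z hz h =>
    (ex_A sq hC n z hz).2 ⟨0, zero_mem _, by rwa [map_zero, sub_zero]⟩⟩

end les

end EU2

open EU2 in
theorem st_eu2 (hC : St_CO) : St_EU2 := by
  rintro Γ _ A B Q ⟨i, q, _, sq⟩ ⟨fA, NA, hA⟩ ⟨fB, NB, hB⟩ ⟨fQ, NQ, hQ⟩
  have sq := sq.flip
  have g0 : Good (⊥ : Submodule ℚ ℚ) ⊥ (ZC Q 0) (BC Q 0) 0 :=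
    ⟨fun _ _ => zero_mem _, fun _ _ _ => zero_mem _⟩
  refine tele _ _ _ (fun n => (good_res q n).rk) (fun n => (good_res i n).rk)
    (fun n => Nat.casesOn n g0.rk fun n => (good_del sq hC n).rk)
    (fun n => rk_add _ _ (ex_B sq hC n)) (fun n => rk_add _ _ (ex_A sq hC n)) (fun n => ?_) ?_
    (NA + NB + NQ) fun n hn => ?_
  · cases n with
    | zero =>
      refine rk_add g0 (good_res q 0) fun x hx => ⟨fun h => ⟨0, zero_mem _, ?_⟩, ?_⟩
      · rw [map_zero, sub_zero]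
        exact res_inj sq hx.1 (zero_mem _) (Eq.trans h (res q 0).map_zero.symm)
      · rintro ⟨_, -, h⟩
        exact res_BC q (by simpa using h)
    | succ n => exact rk_add _ _ (ex_Q sq hC n)
  · exact Nat.le_zero.1 ((LinearMap.finrank_range_le g0.ind).trans
      (Module.finrank_zero_of_subsingleton).le)
  · have := hA n (by omega)
    have := hB n (by omega)
    have := hQ n (by omega)
    exact ⟨Module.finrank_zero_of_subsingleton, Module.finrank_zero_of_subsingleton,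
      Module.finrank_zero_of_subsingleton⟩

end Pool.Agent.AZero
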