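import Pool.Agent.Lib.AZero.Blue

/-! The Euler characteristic of a point. -/

noncomputable section

namespace Pool.Agent.AZero

open CategoryTheory Limits Simplicial SSet MonoidalCategory CartesianMonoidalCategory
  HomotopicalAlgebra Opposite

theorem eu3_of_one (CO : St_CO) {Γ : Type} [Group Γ] (A : Ret (BG Γ)) (h : One 0 A.s) :
    chi A = 1 := by
  classical
  obtain ⟨a, b, sq⟩ := h
  have hi : ∀ n (y : A.Y _⦋n + 1⦌), A.In y ∨ y ∈ A.Y.degenerate (n + 1) := fun n y =>
    (po_surj sq y).imp id fun ⟨z, e, _⟩ => e ▸ degenerate_app_apply (by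
      rw [degenerate_eq_univ_of_hasDimensionLT (Δ[0] : SSet.{0}) 1 (n + 1) (by omega)]
      trivial) b
  have h0 : ∀ y : A.Y _⦋0⦌, A.In y ∨ y = el b := fun y =>
    (po_surj sq y).imp id fun ⟨z, e, _⟩ => by
      rw [← e, app_eq, Subsingleton.elim (stdSimplex.objEquiv z) (𝟙 ⦋0⦌)]
      simp
  have hp : ¬ A.In (el b) := fun ⟨x, hx⟩ => by
    obtain ⟨k, -, hk⟩ := po_eq sq (hx.trans (el_eq b))
    have k2 := k.2
    rw [show k.1 = _ from hk] at k2
    exact stdSimplex.notMem_boundary 0 k2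
  have hs : ∀ n, Subsingleton (HQ A (n + 1)) := fun n => by
    have : Subsingleton (ZC A (n + 1)) := ⟨fun c c' => Subtype.ext (funext fun y =>
      (hi n y).elim (fun k => (c.2.1.2 y k).trans (c'.2.1.2 y k).symm)
        fun k => (c.2.1.1 y k).trans (c'.2.1.1 y k).symm)⟩
    exact (Submodule.Quotient.mk_surjective _).subsingleton
  have nr : ∀ c : A.Y _⦋0⦌ → ℚ, Nrm c := by
    rintro c _ ⟨m, hm, -⟩
    omega
  let φ : ZC A 0 →ₗ[ℚ] ℚ := (LinearMap.proj (el b)).comp (ZC A 0).subtype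
  have bij : Function.Bijective φ := by
    refine ⟨fun c c' e => Subtype.ext (funext fun y => (h0 y).elim
      (fun k => (c.2.1.2 y k).trans (c'.2.1.2 y k).symm) fun k => k ▸ e), fun q => ?_⟩
    let c : A.Y _⦋0⦌ → ℚ := fun y => if A.In y then 0 else q
    have hc : ∀ y, A.In y → c y = 0 := fun y k => if_pos k
    refine ⟨⟨c, ⟨nr c, hc⟩, funext fun t => (hi 0 t).elim (fun k => ?_) fun k => ?_⟩, if_neg hp⟩
    · have z : ∀ j, c (A.Y.δ j t) = 0 := fun j => hc _ (k.map _)
      simp [cob_apply, z]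
    · exact (CO Γ ℚ ℚ _ _ A.r 0 c).2 (nr c) t k
  have e0 : (BC A 0).submoduleOf (ZC A 0) = ⊥ := by
    rw [BC_zero, Submodule.submoduleOf, Submodule.comap_bot, Submodule.ker_subtype]
  have fr : Module.finrank ℚ (HQ A 0) = 1 := by
    rw [((Submodule.quotEquivOfEqBot _ e0).trans (LinearEquiv.ofBijective φ bij)).finrank_eq,
      Module.finrank_self]
  rw [chi, finsum_eq_single _ 0, fr]
  · simp
  · intro n hn
    obtain ⟨n, rfl⟩ := Nat.exists_eq_succ_of_ne_zero hn
    have := hs n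
    rw [Module.finrank_zero_of_subsingleton]
    simp

theorem st_eu3 (CO : St_CO) (FINC : St_FINC) : St_EU3 := fun _ _ =>
  eu3_of_one CO _ (FINC.2.2.2.1 _ _)

end Pool.Agent.AZero
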