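import Pool.Agent.Lib.AZero.Blue

/-! Extension of cochains along anodyne maps. -/

noncomputable section

namespace Pool.Agent.AZero

open CategoryTheory Limits Simplicial SSet MonoidalCategory CartesianMonoidalCategory
  HomotopicalAlgebra Opposite
open scoped SSet.modelCategoryQuillen

namespace EXT

variable {Γ k M : Type} [Group Γ] [CommRing k] [AddCommGroup M] [Module k M]
  (ρ : Representation k Γ M) {B : SSet.{0}} (r : B ⟶ BG Γ) {n : ℕ} (c : B _⦋n + 1⦌ → M)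

/-- a normalised cochain on `K` whose coboundary is the restriction of `c` -/
def Ok {K : SSet.{0}} (v : K ⟶ B) (β : K _⦋n⦌ → M) : Prop :=
  Nrm β ∧ ∀ t, cob ρ (v ≫ r) n β t = c (v.app _ t)

variable {ρ r c} in
theorem Ok.comp {K K' : SSet.{0}} {v : K ⟶ B} {β : K _⦋n⦌ → M} (h : Ok ρ r c v β)
    (f : K' ⟶ K) : Ok ρ r c (f ≫ v) fun y => β (f.app _ y) :=
  ⟨h.1.comp f, fun t => by rw [Category.assoc, cob_comp, h.2, comp_ap]⟩

theorem map_sx {Y : SSet.{0}} {m l : SimplexCategoryᵒᵖ} (θ : m ⟶ l) (y : Y.obj m) :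
    SSet.stdSimplex.map θ.unop ≫ sx (n := m.unop.len) y = sx (n := l.unop.len) (Y.map θ y) :=
  yonedaEquiv_symm_naturality_left _ _

/-- the space of primitives of `c` -/
def L : SSet.{0} where
  obj m := {p : B.obj m × ((Δ[m.unop.len] : SSet.{0}) _⦋n⦌ → M) //
    Ok ρ r c (sx (n := m.unop.len) p.1) p.2}
  map θ := ↾fun p =>
    ⟨(B.map θ p.1.1, fun t => p.1.2 ((SSet.stdSimplex.map θ.unop).app _ t)), by
    have := p.2.comp (SSet.stdSimplex.map θ.unop)
    rwa [map_sx] at this⟩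
  map_id m := by
    ext p : 3
    exact Subtype.ext (Prod.ext (Functor.map_id_apply _ _ _) (funext fun t =>
      congrArg p.1.2 (congr_ap (SSet.stdSimplex.map_id m.unop) _ t)))
  map_comp θ φ := by
    ext p : 3
    exact Subtype.ext (Prod.ext (Functor.map_comp_apply _ _ _ _) rfl)

/-- the projection -/
def q : L ρ r c ⟶ B where
  app m := ↾fun p => p.1.1

variable {ρ r c}

/-- the map given by a primitive -/
def mk {K : SSet.{0}} {v : K ⟶ B} {β : K _⦋n⦌ → M} (h : Ok ρ r c v β) : K ⟶ L ρ r c where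
  app m := ↾fun x => ⟨(v.app m x, fun t => β ((sx (n := m.unop.len) x).app _ t)), by
    have := h.comp (sx (n := m.unop.len) x)
    rwa [sx_comp] at this⟩
  naturality m l θ := by
    ext x : 3
    refine Subtype.ext (Prod.ext (nat_ap v θ x) (funext fun t => ?_))
    exact congrArg β (congr_ap (map_sx θ x).symm _ t)

theorem mk_q {K : SSet.{0}} {v : K ⟶ B} {β : K _⦋n⦌ → M} (h : Ok ρ r c v β) :
    mk h ≫ q ρ r c = v := rfl

/-- the primitive given by a map -/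
def bt {K : SSet.{0}} (u : K ⟶ L ρ r c) (x : K _⦋n⦌) : M :=
  (u.app _ x).1.2 (stdSimplex.objEquiv.symm (𝟙 ⦋n⦌))

theorem bt_sx {K : SSet.{0}} (u : K ⟶ L ρ r c) {m : SimplexCategoryᵒᵖ} (x : K.obj m)
    (t : (Δ[m.unop.len] : SSet.{0}) _⦋n⦌) :
    bt u ((sx (n := m.unop.len) x).app _ t) = (u.app m x).1.2 t := by
  have e := nat_ap u (stdSimplex.objEquiv t).op x
  refine (congrArg (fun p : (L ρ r c) _⦋n⦌ => p.1.2 (stdSimplex.objEquiv.symm (𝟙 ⦋n⦌))) e).trans ?_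
  refine congrArg (u.app m x).1.2 ?_
  exact stdSimplex.objEquiv.injective (Category.id_comp (stdSimplex.objEquiv t))

theorem sx_id {K : SSet.{0}} {m : ℕ} (x : K _⦋m⦌) :
    (sx x).app _ (stdSimplex.objEquiv.symm (𝟙 ⦋m⦌)) = x := el_sx x

theorem ok_bt {K : SSet.{0}} (u : K ⟶ L ρ r c) : Ok ρ r c (u ≫ q ρ r c) (bt u) := by
  constructor
  · rintro _ ⟨m, hm, f, z, rfl⟩
    refine (bt_sx u z (stdSimplex.objEquiv.symm f)).trans ((u.app _ z).2.1 _ ?_)
    exact ⟨m, hm, f, stdSimplex.objEquiv.symm (𝟙 ⦋m⦌),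
      stdSimplex.objEquiv.injective (Category.comp_id f)⟩
  · intro t
    have e := (u.app _ t).2.2 (stdSimplex.objEquiv.symm (𝟙 ⦋n + 1⦌))
    have e1 : (u.app _ t).1.2 = fun s => bt u ((sx t).app _ s) :=
      funext fun s => (bt_sx u t s).symm
    have e2 : sx (u.app _ t).1.1 = sx t ≫ u ≫ q ρ r c := (sx_comp t (u ≫ q ρ r c)).symm
    rw [e1, e2, Category.assoc, cob_comp, comp_ap, sx_id] at e
    exact e

theorem bt_mk {K : SSet.{0}} {v : K ⟶ B} {β : K _⦋n⦌ → M} (h : Ok ρ r c v β) (x : K _⦋n⦌) :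
    bt (mk h) x = β x := congrArg β (sx_id x)

theorem lp_q (hc : Nrm c) (hc' : cob ρ r (n + 1) c = 0) {A A' : SSet.{0}} {j : A ⟶ A'}
    (h : ExtP ρ j) : HasLiftingProperty j (q ρ r c) := by
  refine lp_of_ex fun u v w => ?_
  have hu := ok_bt u
  rw [w] at hu
  obtain ⟨b, h1, h2, h3⟩ := h (v ≫ r) n (bt u) (fun y => c (v.app _ y)) hu.1 (hc.comp v)
    (funext fun t => by rw [cob_comp, hc']; rfl) fun t => by
      rw [← Category.assoc]
      exact hu.2 t
  have hb : Ok ρ r c v b := ⟨h1, fun t => congrFun h3 t⟩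
  refine ⟨mk hb, ?_, mk_q hb⟩
  ext m x : 4
  refine Subtype.ext (Prod.ext (congr_ap w m x).symm (funext fun t => ?_))
  refine Eq.trans ?_ (bt_sx u x t)
  rw [← h2, ← comp_ap, sx_comp]
  rfl

/-- the simplices all of whose vertices are zeros of the cochain -/
def Z (e : B _⦋0⦌ → M) : B.Subcomplex where
  obj m := Set.ofPred fun y => ∀ θ : m ⟶ op ⦋0⦌, e (B.map θ y) = 0
  map φ y hy θ := by
    have := hy (φ ≫ θ)
    rwa [Functor.map_comp_apply] at this

theorem edge_iff {e : B _⦋0⦌ → M} (he : cob ρ r 0 e = 0) (t : B _⦋1⦌) :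
    e (B.δ 0 t) = 0 ↔ e (B.δ 1 t) = 0 := by
  have h : ρ (lab (r.app _ t)) (e (B.δ 0 t)) = e (B.δ 1 t) := by
    have := congrFun he t
    rw [cob_apply, Fin.sum_univ_one] at this
    simpa [← sub_eq_add_neg, sub_eq_zero] using this
  constructor
  · intro k
    rw [← h, k, map_zero]
  · intro k
    have := congrArg (ρ (lab (r.app _ t))⁻¹) (h.trans k)
    rwa [Representation.inv_self_apply, map_zero] at this

theorem vert_iff {e : B _⦋0⦌ → M} (he : cob ρ r 0 e = 0) {m : ℕ} (y : B _⦋m⦌)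
    {a b : Fin (m + 1)} (h : a ≤ b) :
    e (B.map (SimplexCategory.const ⦋0⦌ ⦋m⦌ b).op y) = 0 ↔
      e (B.map (SimplexCategory.const ⦋0⦌ ⦋m⦌ a).op y) = 0 := by
  have := edge_iff he (B.map (SimplexCategory.mkOfLe a b h).op y)
  have k : ∀ (i : Fin 2) (d : Fin (m + 1)),
      SimplexCategory.δ i ≫ SimplexCategory.mkOfLe a b h = SimplexCategory.const ⦋0⦌ ⦋m⦌ d →
      B.δ i (B.map (SimplexCategory.mkOfLe a b h).op y) =
        B.map (SimplexCategory.const ⦋0⦌ ⦋m⦌ d).op y := fun i d e1 => by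
    rw [← e1, op_comp, Functor.map_comp_apply]
    rfl
  rwa [k 0 b (SimplexCategory.Hom.ext_zero_left _ _ rfl),
    k 1 a (SimplexCategory.Hom.ext_zero_left _ _ rfl)] at this

theorem mem_Z {e : B _⦋0⦌ → M} (he : cob ρ r 0 e = 0) {m : ℕ} (y : B _⦋m⦌) (a : Fin (m + 1))
    (h : e (B.map (SimplexCategory.const ⦋0⦌ ⦋m⦌ a).op y) = 0) : y ∈ (Z e).obj _ := fun θ => by
  have e1 : θ = (SimplexCategory.const ⦋0⦌ ⦋m⦌ (θ.unop.toOrderHom 0)).op :=
    Quiver.Hom.unop_inj (SimplexCategory.Hom.ext_zero_left _ _ rfl)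
  rw [e1]
  exact (vert_iff he y (Fin.zero_le _)).2 ((vert_iff he y (Fin.zero_le a)).1 h)

theorem fib_Z {e : B _⦋0⦌ → M} (he : cob ρ r 0 e = 0) : Fib (Z e).ι := by
  refine fib_iff.2 fun m i => lp_of_ex fun u v w => ?_
  have hi : stdSimplex.const (m + 1) i (op ⦋0⦌) ∈ (Λ[m + 1, i] : (Δ[m + 1] : SSet.{0}).Subcomplex).obj
      (op ⦋0⦌) := by
    obtain ⟨j, hj⟩ := exists_ne i
    exact (mem_horn_iff_notMem_range _ _).2 ⟨j, hj, fun ⟨_, h⟩ => hj h.symm⟩
  have h0 : el v ∈ (Z e).obj _ := mem_Z he _ i (by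
    have := (u.app _ ⟨_, hi⟩).2 (𝟙 _)
    rw [Functor.map_id_apply] at this
    have e1 := (congr_ap w _ ⟨_, hi⟩).trans (app_eq v _)
    exact (congrArg e e1).symm.trans this)
  have hv : Subcomplex.range v ≤ Z e := by
    rintro l _ ⟨x, rfl⟩
    rw [app_eq]
    exact (Z e).map _ h0
  exact ⟨Subcomplex.lift v hv, by
    rw [← cancel_mono (Z e).ι, Category.assoc, Subcomplex.lift_ι, w], Subcomplex.lift_ι _ _⟩

end EXT

open EXT in
theorem st_ext (h : St_EXTH) : St_EXT := by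
  intro Γ k M _ _ _ _ ρ A B j hj r n b c hb hc hc' w
  have hq : Fib (q ρ r c) := fib_iff.2 fun m i => lp_q hc hc' (h Γ k M ρ m i)
  have hb' : Ok ρ r c j b := ⟨hb, w⟩
  obtain ⟨l, h1, h2⟩ := ex_lift (hj.lp hq) (mk hb') (𝟙 B) (by rw [mk_q, Category.comp_id])
  have hl := ok_bt l
  rw [h2] at hl
  refine ⟨bt l, hl.1, fun y => ?_, funext fun t => ?_⟩
  · rw [← bt_mk hb', ← h1]
    rfl
  · have := hl.2 t
    rwa [Category.id_comp] at this

open EXT in
theorem st_ext0 : St_EXT0 := by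
  intro Γ k M _ _ _ _ ρ A B j r c hj hc h
  have hA : Subcomplex.range j ≤ Z c := by
    rintro l _ ⟨x, rfl⟩ θ
    rw [← nat_ap]
    exact h _
  obtain ⟨l, -, h2⟩ := ex_lift (hj.lp (fib_Z hc)) (Subcomplex.lift j hA) (𝟙 B)
    (by rw [Subcomplex.lift_ι, Category.comp_id])
  funext y
  have := (l.app _ y).2 (𝟙 _)
  rw [Functor.map_id_apply] at this
  exact (congrArg c (congr_ap h2 _ y)).symm.trans this

end Pool.Agent.AZero
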