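import Pool.Agent.Lib.AZero.Blue

/-! Extension of cochains over horns. -/

noncomputable section

namespace Pool.Agent.AZero

open CategoryTheory Limits Simplicial SSet MonoidalCategory CartesianMonoidalCategory
  HomotopicalAlgebra Opposite
open scoped SSet.modelCategoryQuillen

namespace EXTH

/-- the top simplex -/
def top (m : ℕ) : (Δ[m] : SSet.{0}) _⦋m⦌ := stdSimplex.objEquiv.symm (𝟙 ⦋m⦌)

theorem δ_top {m : ℕ} (j : Fin (m + 2)) : (Δ[m + 1] : SSet.{0}).δ j (top (m + 1)) =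
    stdSimplex.objEquiv.symm (SimplexCategory.δ j) := by
  ext a
  rfl

theorem face_mem {m : ℕ} (i j : Fin (m + 2)) :
    (Δ[m + 1] : SSet.{0}).δ j (top (m + 1)) ∈ Λ[m + 1, i].obj (op ⦋m⦌) ↔ j ≠ i := by
  rw [δ_top]
  exact objEquiv_symm_δ_mem_horn_iff j i

theorem face_nd {m : ℕ} (j : Fin (m + 2)) :
    (Δ[m + 1] : SSet.{0}).δ j (top (m + 1)) ∉ (Δ[m + 1] : SSet.{0}).degenerate m := by
  rw [δ_top, ← mem_nonDegenerate_iff_notMem_degenerate,
    stdSimplex.objEquiv_symm_mem_nonDegenerate_iff_mono]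
  infer_instance

theorem eq_top {m : ℕ} {y : (Δ[m] : SSet.{0}) _⦋m⦌} (h : y ∉ (Δ[m] : SSet.{0}).degenerate m) :
    y = top m := by
  rw [← mem_nonDegenerate_iff_notMem_degenerate, stdSimplex.nonDegenerate_top_dim] at h
  exact h

theorem eq_face {m : ℕ} (i : Fin (m + 2)) {y : (Δ[m + 1] : SSet.{0}) _⦋m⦌}
    (h : y ∉ (Δ[m + 1] : SSet.{0}).degenerate m) (h' : y ∉ Λ[m + 1, i].obj (op ⦋m⦌)) :
    y = (Δ[m + 1] : SSet.{0}).δ i (top (m + 1)) := by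
  obtain ⟨f, rfl⟩ := stdSimplex.objEquiv.symm.surjective y
  rw [← mem_nonDegenerate_iff_notMem_degenerate,
    stdSimplex.objEquiv_symm_mem_nonDegenerate_iff_mono] at h
  obtain ⟨j, rfl⟩ := SimplexCategory.eq_δ_of_mono f
  obtain rfl := (objEquiv_symm_δ_notMem_horn_iff j i).1 h'
  exact (δ_top j).symm

theorem dim_cases {m n : ℕ} (i : Fin (m + 2)) {y : (Δ[m + 1] : SSet.{0}) _⦋n⦌}
    (h : y ∉ (Δ[m + 1] : SSet.{0}).degenerate n) (h' : y ∉ Λ[m + 1, i].obj (op ⦋n⦌)) :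
    n = m ∨ n = m + 1 := by
  have h1 := dim_lt_of_nonDegenerate (X := Δ[m + 1]) ⟨y, h⟩ (m + 2)
  have h2 : ¬ n + 1 < m + 1 := fun k => h' (by
    rw [horn_obj_eq_univ i n k]
    exact Set.mem_univ _)
  omega

variable {Γ k M : Type} [Group Γ] [CommRing k] [AddCommGroup M] [Module k M]
  (ρ : Representation k Γ M)

/-- the coefficient of a face in the coboundary -/
def co (g : Γ) {n : ℕ} (j : Fin (n + 2)) (v : M) : M :=
  Fin.cases (ρ g v) (fun j => (-1 : ℤ) ^ (j.1 + 1) • v) j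

theorem co_zero (g : Γ) {n : ℕ} (j : Fin (n + 2)) : co ρ g j 0 = 0 := by
  refine Fin.cases ?_ (fun j => ?_) j <;> simp [co]

theorem co_bij (g : Γ) {n : ℕ} (j : Fin (n + 2)) : Function.Bijective (co ρ g j) := by
  refine Fin.cases ?_ (fun j => ?_) j
  · refine Function.bijective_iff_has_inverse.2 ⟨ρ g⁻¹, fun v => ?_, fun v => ?_⟩
    · exact ρ.inv_self_apply g v
    · exact ρ.self_inv_apply g v
  · refine Function.Involutive.bijective fun v => ?_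
    simp only [co, Fin.cases_succ, smul_smul, ← mul_pow]
    simp

theorem cob_eq {Y : SSet.{0}} (r : Y ⟶ BG Γ) {n : ℕ} (c : Y _⦋n⦌ → M) (t : Y _⦋n + 1⦌) :
    cob ρ r n c t = ∑ j : Fin (n + 2), co ρ (lab (r.app _ t)) j (c (Y.δ j t)) := by
  rw [cob_apply, Fin.sum_univ_succ (n := n + 1)]
  rfl

theorem cob_top {m : ℕ} (i : Fin (m + 2)) (r : Δ[m + 1] ⟶ BG Γ)
    (e : (Δ[m + 1] : SSet.{0}) _⦋m⦌ → M) (h : ∀ y ∈ Λ[m + 1, i].obj (op ⦋m⦌), e y = 0) :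
    cob ρ r m e (top (m + 1)) =
      co ρ (lab (r.app _ (top (m + 1)))) i (e ((Δ[m + 1] : SSet.{0}).δ i (top (m + 1)))) := by
  rw [cob_eq]
  refine Finset.sum_eq_single i (fun j _ hj => ?_) (fun h => (h (Finset.mem_univ _)).elim)
  rw [h _ ((face_mem i j).2 hj), co_zero]

theorem vanish {m n : ℕ} (i : Fin (m + 2)) (r : Δ[m + 1] ⟶ BG Γ)
    (d : (Δ[m + 1] : SSet.{0}) _⦋n⦌ → M) (h1 : Nrm d) (h2 : cob ρ r n d = 0)
    (h3 : ∀ y ∈ Λ[m + 1, i].obj (op ⦋n⦌), d y = 0) (t : (Δ[m + 1] : SSet.{0}) _⦋n⦌)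
    (h4 : n = m + 1 → t ∉ (Δ[m + 1] : SSet.{0}).degenerate n → d t = 0) : d t = 0 := by
  by_cases k1 : t ∈ (Δ[m + 1] : SSet.{0}).degenerate n
  · exact h1 t k1
  by_cases k2 : t ∈ Λ[m + 1, i].obj (op ⦋n⦌)
  · exact h3 t k2
  rcases dim_cases i k1 k2 with rfl | h
  · have e := cob_top ρ i r d h3
    rw [h2, ← eq_face i k1 k2] at e
    exact (co_bij ρ _ i).1 (e.symm.trans (co_zero ρ _ i).symm)
  · exact h4 h k1

end EXTH

open EXTH in
theorem st_exth (hCO : St_CO) : St_EXTH := by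
  classical
  intro Γ k M _ _ _ _ ρ m i r n b c hb hc hcc hbc
  have key : ∀ b' : (Δ[m + 1] : SSet.{0}) _⦋n⦌ → M, Nrm b' →
      (∀ y, b' (Λ[m + 1, i].ι.app _ y) = b y) →
      (∀ t, n + 1 = m + 1 → t ∉ (Δ[m + 1] : SSet.{0}).degenerate (n + 1) →
        cob ρ r n b' t = c t) → cob ρ r n b' = c := by
    intro b' h1 h2 h3
    obtain ⟨c1, c2⟩ := hCO Γ k M ρ _ r n b'
    funext t
    refine sub_eq_zero.1 (vanish ρ i r (cob ρ r n b' - c) (fun y hy => ?_) ?_ (fun y hy => ?_) t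
      (fun e ht => sub_eq_zero.2 (h3 t e ht)))
    · rw [Pi.sub_apply, c2 h1 y hy, hc y hy, sub_zero]
    · rw [map_sub, c1, hcc, sub_zero]
    · have e1 := cob_comp ρ Λ[m + 1, i].ι r b' ⟨y, hy⟩
      rw [funext h2, hbc] at e1
      exact sub_eq_zero.2 e1.symm
  let b0 : (Δ[m + 1] : SSet.{0}) _⦋n⦌ → M := fun y =>
    if h : y ∈ Λ[m + 1, i].obj (op ⦋n⦌) then b ⟨y, h⟩ else 0
  have n0 : Nrm b0 := fun y hy => by
    by_cases h : y ∈ Λ[m + 1, i].obj (op ⦋n⦌)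
    · exact (dif_pos h).trans (hb _ ((Subcomplex.mem_degenerate_iff _ ⟨y, h⟩).2 hy))
    · exact dif_neg h
  have e0 : ∀ y, b0 (Λ[m + 1, i].ι.app _ y) = b y := fun y => dif_pos y.2
  by_cases hn : n = m
  swap
  · exact ⟨b0, n0, e0, key b0 n0 e0 fun t h _ => (hn (by omega)).elim⟩
  subst hn
  obtain ⟨v, hv⟩ := (co_bij ρ (lab (r.app _ (top (n + 1)))) i).2
    (c (top (n + 1)) - cob ρ r n b0 (top (n + 1)))
  let e : (Δ[n + 1] : SSet.{0}) _⦋n⦌ → M := fun y =>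
    if y = (Δ[n + 1] : SSet.{0}).δ i (top (n + 1)) then v else 0
  have e1 : ∀ y ∈ Λ[n + 1, i].obj (op ⦋n⦌), e y = 0 := fun y hy =>
    if_neg fun h => by
      rw [h] at hy
      exact (face_mem i i).1 hy rfl
  have n1 : Nrm (b0 + e) := fun y hy => by
    rw [Pi.add_apply, n0 y hy, zero_add]
    refine if_neg fun h => ?_
    rw [h] at hy
    exact face_nd i hy
  have e2 : ∀ y, (b0 + e) (Λ[n + 1, i].ι.app _ y) = b y := fun y => by
    rw [Pi.add_apply, e0]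
    exact (congrArg _ (e1 _ y.2)).trans (add_zero _)
  refine ⟨b0 + e, n1, e2, key _ n1 e2 fun t _ ht => ?_⟩
  rw [eq_top ht, map_add, Pi.add_apply, cob_top ρ i r e e1,
    show e ((Δ[n + 1] : SSet.{0}).δ i (top (n + 1))) = v from if_pos rfl, hv, add_sub_cancel]

end Pool.Agent.AZero
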