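import Pool.Agent.Lib.AZero.Blue

/-! The first relative homology module of a finitely dominated object is finitely generated. -/

noncomputable section

namespace Pool.Agent.AZero

open CategoryTheory Limits Simplicial SSet MonoidalCategory CartesianMonoidalCategory
  HomotopicalAlgebra Opposite
open scoped SSet.modelCategoryQuillen

theorem st_fg (hC : St_COSP) (hK : St_KAN) (hF : St_FINC) (hE : St_EXT) : St_FG := by
  intro Γ _ W n M _ _ cl hW hR hH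
  obtain ⟨U, i, p, hU, hip⟩ := hW
  obtain ⟨T, Z, ⟨g, hg⟩, ⟨e, he⟩, hZ⟩ := (hC _ (hK Γ)).2 U hU
  have hc := hH.coc.hom p
  obtain ⟨c, c1, c2, c3⟩ := hE Γ ℤ M (mrep Γ M) _ _ g.f hg T.r (n + 1)
    (fun y => cl (p.f.app _ y)) 0 ((hR.nrm hH.coc.1).comp p.f) (fun _ _ => rfl) (map_zero _)
    (fun t => by rw [g.hr, hc.2]; rfl)
  have hS := (hF.2.2.2.2 _ Z (n + 1) hZ).image fun y => c (e.f.app _ y)
  let M₀ := Submodule.span (RG Γ) ((fun y => c (e.f.app _ y)) ''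
    Set.ofPred fun y : Z.Y _⦋n + 1⦌ => y ∈ Z.Y.nonDegenerate (n + 1) ∧ ¬ Z.In y)
  have h0 : ∀ t : Z.Y _⦋n + 1⦌, M₀.mkQ (c (e.f.app _ t)) = 0 := fun t => by
    by_cases h1 : t ∈ Z.Y.nonDegenerate (n + 1)
    · by_cases h2 : Z.In t
      · obtain ⟨x, rfl⟩ := h2
        rw [← comp_ap, e.hs, ← g.hs, comp_ap, c2]
        exact (congrArg _ (hc.1 _ ⟨x, rfl⟩)).trans (map_zero _)
      · exact (Submodule.Quotient.mk_eq_zero _).2 (Submodule.subset_span ⟨t, ⟨h1, h2⟩, rfl⟩)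
    · rw [mem_nonDegenerate_iff_notMem_degenerate, not_not] at h1
      exact (congrArg _ (c1.comp e.f t h1)).trans (map_zero _)
  obtain ⟨b, -, b2, b3⟩ := hE Γ ℤ (M ⧸ M₀) (mrep Γ _) _ _ e.f he T.r n 0 (fun y => M₀.mkQ (c y))
    (fun _ _ => rfl) (fun y hy => by simp only [c1 y hy, map_zero])
    (funext fun t => by rw [cob_lin, c3]; exact map_zero _)
    (fun t => by rw [map_zero, h0]; rfl)
  have hb : (fun z : W.Y _⦋n⦌ => b ((i.comp g).f.app _ z)) = 0 := funext fun z => by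
    obtain ⟨x, hx⟩ := (hR n n.lt_succ_self z).hom (i.comp g)
    rw [← hx, ← e.hs, comp_ap, b2]
    rfl
  refine ⟨Submodule.fg_def.2 ⟨_, hS, top_le_iff.1 ?_⟩⟩
  rw [← hH.span, Submodule.span_le]
  rintro _ ⟨y, rfl⟩
  have k := cob_comp (mrep Γ (M ⧸ M₀)) (i.comp g).f T.r b y
  rw [hb, b3, map_zero] at k
  have k2 : c ((i.comp g).f.app _ y) = cl y :=
    (c2 (i.f.app _ y)).trans (congrArg cl (congr_ap hip _ y))
  exact (Submodule.Quotient.mk_eq_zero M₀).1 (k2 ▸ k.symm)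

end Pool.Agent.AZero
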