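import Pool.Agent.Lib.AZero.Blue

/-! The first homology module is projective; killing the finiteness obstruction. -/

noncomputable section

namespace Pool.Agent.AZero

open CategoryTheory Limits Simplicial SSet MonoidalCategory CartesianMonoidalCategory
  HomotopicalAlgebra Opposite
open scoped SSet.modelCategoryQuillen

theorem st_proj (hS : St_SEC) (h1 : St_HN1) (h2 : St_HN2) : St_PROJ := by
  intro Γ _ n W M _ _ cl hF hR hH hP
  obtain ⟨B, B', a, e, u, q, t, hc, hu, -, hB, hB', -, htq, -⟩ :=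
    hS Γ n W M cl hF hR hH hP (W.Y _⦋n + 2⦌) id hH.span
  obtain ⟨c, k1, -⟩ := h2.2 Γ B (n + 2) _ (W.Y _⦋n + 2⦌ →₀ RG Γ) Finsupp.basisSingleOne a e hc
  obtain ⟨c', k2, -⟩ := h1 Γ B B' u (n + 1) _ c hu hB hB' k1
  obtain ⟨φ, hφ⟩ := k2.lift M _ (hH.coc.hom q)
  obtain ⟨ψ, hψ⟩ := hH.lift _ _ (k2.coc.hom t)
  refine Module.Projective.of_split ψ φ (LinearMap.ext_on_range hH.span fun y => ?_)
  rw [LinearMap.comp_apply, hψ, hφ, ← comp_ap, htq]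
  rfl

theorem st_fin (h0 : St_HN0) (hG : St_FG) (hJ : St_PROJ) (h1 : St_HN1) (h2 : St_HN2)
    (hL : St_REPL) (hD : St_PD) (hE : St_FREE) : St_FIN := by
  intro Γ _ hΓ n W fd hF hR hP
  obtain ⟨M, _, _, cl, hH⟩ := h0 Γ W (n + 2)
  have := hG Γ W (n + 1) M cl fd hR hH
  have := hJ Γ n W M cl hF hR hH hP
  have := hΓ M
  obtain ⟨N, _, _, _, _, hN⟩ := Module.IsStablyFree.exist_free_prod (RG Γ) M
  obtain ⟨W', i, e, hc, -⟩ := W.ex_cells (ι := Module.Free.ChooseBasisIndex (RG Γ) N)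
    (fun _ => ∂Δ[n + 2].ι ≫ sx (cst Γ (n + 2)) ≫ W.s) (fun _ => sx (cst Γ (n + 2))) fun _ => by
      rw [Category.assoc, Category.assoc, W.sr, Category.comp_id]
  obtain ⟨c, k1⟩ := h2.1 Γ W W' i (n + 2) _ M N (Module.Free.chooseBasis (RG Γ) N) cl _ e hc hR hH
  have r1 : W'.Red (n + 2) := hR.of_surj i fun _ hm => hc.surj_lt hm
  obtain ⟨C, a, q, e1, e2, e3, e4⟩ := hL (n + 2) _ _ W'.r
  have an : W'.AnE (W'.via a q e1) := ⟨W'.toVia .., e2⟩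
  have r2 : (W'.via a q e1).Red (n + 2) := r1.of_surj (W'.toVia ..) e3
  obtain ⟨c', k2, -⟩ := h1 Γ W' _ (W'.toVia a q e1) (n + 1) _ c e2 r1 r2 k1
  obtain ⟨B, T, t1, t2, t3⟩ := hE Γ n _ _ c' (r2.fib e4) r2 k2
    ((hD.1 _ _ _ _ an).1 (hD.2.1 _ _ _ _ i hc.mono hc.relDim hP)) inferInstance hN
  exact ⟨W', B, T, i, hc.att, an.trans t1, t2, t3⟩

end Pool.Agent.AZero
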