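import Pool.Agent.Lib.AZero.Blue

/-! Finiteness bookkeeping for finite retractive simplicial sets. -/

noncomputable section

namespace Pool.Agent.AZero

open CategoryTheory Limits Simplicial SSet Opposite

namespace FinC

theorem nd_of_app {A B : SSet.{0}} (f : A ⟶ B) {n : ℕ} {x : A _⦋n⦌}
    (h : f.app _ x ∈ B.nonDegenerate n) : x ∈ A.nonDegenerate n := by
  rw [mem_nonDegenerate_iff_notMem_degenerate] at h ⊢
  exact fun hx => h (degenerate_app_apply hx f)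

theorem att_finite {X : SSet.{0}} {Z Z' : Ret X} (i : Z.Hom Z') (hZ : Z.IsFinite) (h : Att i.f) :
    Z'.IsFinite := by
  obtain ⟨K, L, a, j, b, _, _, sq⟩ := h
  have : Finite {y : Z.Y.N // y.simplex ∉ Set.range (Z.s.app _)} := hZ
  have hf := (Set.finite_range fun y : {y : Z.Y.N // y.simplex ∉ Set.range (Z.s.app _)} =>
    S.map i.f y.1.toS).union (Set.finite_range fun z : L.N => S.map b z.toS)
  refine Set.finite_univ_iff.1 (Set.Finite.of_finite_image (f := fun y => y.1.toS)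
    (hf.subset ?_) fun y _ y' _ e => Subtype.ext ((N.ext_iff _ _).2 e))
  rintro _ ⟨⟨⟨⟨y⟩, hy⟩, hn⟩, -, rfl⟩
  rcases po_surj sq y with ⟨x, rfl⟩ | ⟨z, rfl, -⟩
  · refine Or.inl ⟨⟨N.mk x (nd_of_app _ hy), ?_⟩, rfl⟩
    rintro ⟨w, hw⟩
    exact hn ⟨w, (congr_ap i.hs _ w).symm.trans (congrArg (i.f.app _) hw)⟩
  · exact Or.inr ⟨N.mk z (nd_of_app _ hy), rfl⟩

theorem rel_dim {X : SSet.{0}} (Z : Ret X) (hZ : Z.IsFinite) : ∃ d, RelDim d Z.s := by
  have : Finite {y : Z.Y.N // y.simplex ∉ Set.range (Z.s.app _)} := hZ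
  obtain ⟨d, hd⟩ := (Set.finite_range fun y : {y : Z.Y.N // y.simplex ∉ Set.range (Z.s.app _)} =>
    y.1.dim).bddAbove
  exact ⟨d, fun n y hy hn => hd ⟨⟨N.mk y hy, hn⟩, rfl⟩⟩

theorem bd_init : Nonempty (IsInitial (∂Δ[0] : SSet.{0})) := by
  rw [boundary_zero]
  exact ⟨Subcomplex.isInitialBot⟩

theorem one_point {X : SSet.{0}} (x : X _⦋0⦌) : One 0 (Ret.point x).s := by
  obtain ⟨h⟩ := bd_init
  refine ⟨h.to X, coprod.inr, ?_⟩
  rw [h.hom_ext ∂Δ[0].ι (h.to _)]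
  exact (IsPushout.of_isColimit_binaryCofan_of_isInitial (coprodIsCoprod X Δ[0]) h).flip

theorem level_finite {X : SSet.{0}} (Z : Ret X) (n : ℕ) (hZ : Z.IsFinite) :
    (Set.ofPred fun y : Z.Y _⦋n⦌ => y ∈ Z.Y.nonDegenerate n ∧ ¬ Z.In y).Finite := by
  have : Finite {y : Z.Y.N // y.simplex ∉ Set.range (Z.s.app _)} := hZ
  refine Set.Finite.of_finite_image (f := fun y => S.mk y) ((Set.finite_range
    fun y : {y : Z.Y.N // y.simplex ∉ Set.range (Z.s.app _)} => y.1.toS).subset ?_)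
    fun y _ y' _ e => (S.ext_iff _ _).1 e
  rintro _ ⟨y, ⟨hy, hn⟩, rfl⟩
  exact ⟨⟨N.mk y hy, hn⟩, rfl⟩

end FinC

theorem st_finc : St_FINC :=
  ⟨fun _ _ _ i hZ h => FinC.att_finite i hZ h,
    fun X Z h => FinC.att_finite Z.fromZero (Ret.zero_finite X) h,
    fun _ Z hZ => FinC.rel_dim Z hZ, fun _ x => FinC.one_point x,
    fun _ Z n hZ => FinC.level_finite Z n hZ⟩

end Pool.Agent.AZero
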