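import Pool.Agent.Lib.AZero.Blue

/-! An object with free homology module is equivalent to a finite wedge of cells. -/

noncomputable section

namespace Pool.Agent.AZero

open CategoryTheory Limits Simplicial SSet MonoidalCategory CartesianMonoidalCategory
  HomotopicalAlgebra Opposite
open scoped SSet.modelCategoryQuillen

theorem st_free (hHUR : St_HUR) (hSEC : St_SEC) (hHN1 : St_HN1) (hHN2 : St_HN2) (hHI : St_HI)
    (hPH : St_PH) (hT2 : St_TRIV2) (hSDR : St_SDR) (hF : St_FINC) : St_FREE := by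
  intro Γ _ n W M _ _ cl hW hR hH hP hfin hfree
  let v := Module.Free.chooseBasis (RG Γ) M
  obtain ⟨-, h1⟩ := hHUR Γ n W M cl hW hR hH Set.univ (fun _ _ => trivial)
    (fun _ _ _ => trivial) (by rw [Set.image_univ]; exact hH.span)
  choose y y1 y2 using fun l => h1 (v l)
  obtain ⟨B, B', a, e, u, q, t, hC, hu, hq, r1, r2, hB, tq, he⟩ :=
    hSEC Γ n W M cl hW hR hH hP _ y (by simp only [y2]; exact v.span_eq)
  obtain ⟨c0, d1, d2⟩ := hHN2.2 Γ B (n + 2) _ M v a e hC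
  obtain ⟨c1, d3, d4⟩ := hHN1 Γ B B' u (n + 1) M c0 hu r1 r2 d1
  obtain ⟨φ, hφ⟩ := d3.lift M _ (hH.coc.hom q)
  have e1 : ∀ l, q.f.app _ (u.f.app _ (el (e l))) = y l := fun l => by
    rw [← el_sx (y l), ← he l]; rfl
  have e2 : φ = LinearMap.id := v.ext fun l => by
    rw [← d2 l, ← d4, hφ, e1, y2, d4, d2]; rfl
  have e3 : ∀ z, c1 z = cl (q.f.app _ z) := fun z => by rw [← hφ, e2]; rfl
  have e4 : ∀ l, B'.PH (t.f.app _ (y l)) (u.f.app _ (el (e l))) := fun l => by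
    have a1 : B'.r.app _ (t.f.app _ (y l)) = cst Γ _ := by rw [t.r_f, y1]
    obtain ⟨w, w1, w2, w3, w4⟩ := hHI Γ n B' M c1 hB r2 d3 _ (u.f.app _ (el (e l))) a1
      (by rw [← q.r_f, e1, y1]) (by rw [e3, e3, e1, ← comp_ap, tq]; rfl)
    rw [← w2, ← w3]
    exact hPH _ B' (n + 2) w r2 (by rw [w1, w2, a1]; rfl) w4
  choose h k1 k2 k3 k4 using e4
  have e5 : ∀ l, sx (t.f.app _ (y l)) = e l ≫ u.f ≫ q.f ≫ t.f := fun l => by
    rw [← sx_comp, ← he l]; simp only [Category.assoc]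
  have e6 : ∀ l, sx (t.f.app _ (y l)) ≫ B'.r = e l ≫ B.r := fun l => by
    simp only [e5, Category.assoc, t.hr, q.hr, u.hr]
  obtain ⟨f, f1, f2⟩ := hC.hdesc (fst _ _ ≫ B'.s) h fun l => by
    rw [k4, whiskerRight_fst_assoc, ← r2.eq (∂Δ[n + 2].ι ≫ sx _), Category.assoc,
      reassoc_of% e6, ← reassoc_of% hC.comm l, reassoc_of% B.sr]
  have f3 : ι₀ ≫ f = u.f ≫ q.f ≫ t.f := hC.ext
    (by rw [← ι₀_comp_assoc, f1, ι₀_fst_assoc, reassoc_of% u.hs, reassoc_of% q.hs, t.hs])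
    fun l => by rw [← ι₀_comp_assoc, f2, k1, e5]
  have f4 : ι₁ ≫ f = u.f ≫ 𝟙 _ := hC.ext
    (by rw [← ι₁_comp_assoc, f1, ι₁_fst_assoc, Category.comp_id, u.hs])
    fun l => by rw [← ι₁_comp_assoc, f2, k2, ← sx_comp, sx_el, Category.comp_id]
  have f5 : f ≫ B'.r = u.f ▷ _ ≫ fst _ _ ≫ B'.r := hC.hext
    (by rw [reassoc_of% f1, whiskerRight_fst_assoc, whiskerRight_fst_assoc, reassoc_of% u.hs])
    fun l => by
      rw [reassoc_of% f2, k3, e6, whiskerRight_fst_assoc, whiskerRight_fst_assoc, u.hr]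
  obtain ⟨H, H1, H2, -⟩ := hep2 u.f (.inl ⟨hu, hB⟩) (q.f ≫ t.f) (𝟙 _) f (fst _ _ ≫ B'.r) f3 f4 f5
    (by rw [ι₀_fst_assoc, Category.assoc, t.hr, q.hr]) (by rw [ι₁_fst_assoc, Category.id_comp])
  exact ⟨B, B', ⟨t, hSDR.2 _ _ _ _ (hT2 _ _ _ _ H hq tq H1 H2) tq⟩, ⟨u, hu⟩, hF.2.1 _ B hC.att⟩

end Pool.Agent.AZero
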