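import Pool.Agent.Lib.AZero.Blue

/-! Block HAL: the homotopy addition lemma, combinatorially. -/

noncomputable section

namespace Pool.Agent.AZero

namespace HAL

/-- three consecutive entries -/
def A {S : Type} (o : S) (m : ℕ) (a b c : S) : ℕ → S := fun i =>
  if i = m then a else if i = m + 1 then b else if i = m + 2 then c else o

/-- the axioms -/
structure Sys (n : ℕ) {S : Type} (o : S) (Q : (ℕ → S) → Prop) : Prop where
  congr : ∀ {x y}, Q x → (∀ i < n + 4, x i = y i) → Q y
  fill : ∀ i < n + 4, ∀ x, ∃ y, Q (Function.update x i y)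
  tet : ∀ R : ℕ → ℕ → S, (∀ i j, i ≤ j → R (j + 1) i = R i j) → ∀ t < n + 5,
    (∀ j < n + 5, j ≠ t → Q (R j)) → Q (R t)
  deg : ∀ m < n + 3, ∀ y, Q (A o m y y o)

namespace Sys

variable {n : ℕ} {S : Type} {o : S} {Q : (ℕ → S) → Prop} (h : Sys n o Q)
include h

theorem deg' (m : ℕ) (hm : m < n + 2) (y : S) : Q (A o m o y y) :=
  h.congr (h.deg (m + 1) (by omega) y) fun i _ => by grind [A]

/-- arrays with three columns -/
theorem c3 (k : ℕ) (x y z : ℕ → S) (e1 : x k = y k) (e2 : x (k + 1) = z k)
    (e3 : y (k + 1) = z (k + 1)) (t : ℕ) (ht : t < n + 5) (w : ℕ → S)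
    (hl : ∀ j < k, j ≠ t → Q (A o (k - 1) (x j) (y j) (z j))) (hx : k ≠ t → Q x)
    (hy : k + 1 ≠ t → Q y) (hz : k + 2 ≠ t → Q z)
    (hr : ∀ j < n + 4, k + 2 ≤ j → j + 1 ≠ t → Q (A o k (x j) (y j) (z j)))
    (hw : w = if t < k then A o (k - 1) (x t) (y t) (z t) else if t = k then x else
      if t = k + 1 then y else if t = k + 2 then z else
        A o k (x (t - 1)) (y (t - 1)) (z (t - 1))) : Q w := by
  subst hw
  refine h.tet (fun j => if j < k then A o (k - 1) (x j) (y j) (z j) else if j = k then x else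
    if j = k + 1 then y else if j = k + 2 then z else
      A o k (x (j - 1)) (y (j - 1)) (z (j - 1))) (fun i j hij => ?_) t ht fun j hj hjt => ?_
  · clear hl hx hy hz hr
    simp only [ite_apply, A, Nat.add_sub_cancel]
    grind (splits := 40)
  · split_ifs with h1 h2 h3 h4
    · exact hl j h1 hjt
    · exact hx (h2 ▸ hjt)
    · exact hy (h3 ▸ hjt)
    · exact hz (h4 ▸ hjt)
    · exact hr _ (by omega) (by omega) (by omega)

theorem c1 (x y : ℕ → S) (e : x 0 = y 0) :
    ((∀ j < n + 4, 1 ≤ j → Q (A o 0 (x j) (y j) o)) → Q x → Q y) ∧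
    ∀ i < n + 4, 1 ≤ i → (∀ j, j ≠ i → x j = y j) → Q x → Q y → Q (A o 0 (x i) (y i) o) := by
  have k : ∀ j, 2 ≤ j → A o 0 (x 1) (y 1) o j = o := fun j hj => by grind [A]
  refine ⟨fun H hx => h.c3 0 x y (A o 0 (x 1) (y 1) o) e rfl rfl 1 (by omega) _ (by omega)
    (fun _ => hx) (by omega) (fun _ => H 1 (by omega) le_rfl)
    (fun j h1 h2 _ => by rw [k j h2]; exact H j h1 (by omega)) rfl, fun i h1 h2 H hx hy => ?_⟩
  refine h.c3 0 x y (A o 0 (x 1) (y 1) o) e rfl rfl (i + 1) (by omega) _ (by omega)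
    (fun _ => hx) (fun _ => hy) (fun a => by rw [← H 1 (by omega)]; exact h.deg 0 (by omega) _)
    (fun j _ h2 a => by rw [k j h2, ← H j (by omega)]; exact h.deg 0 (by omega) _) ?_
  grind

theorem c0 (x y : ℕ → S) (e : ∀ j, j ≠ 0 → x j = y j) :
    (Q (A o 0 (x 0) (y 0) o) → Q x → Q y) ∧ (Q x → Q y → Q (A o 0 (x 0) (y 0) o)) := by
  have k : ∀ j < n + 4, 1 + 2 ≤ j → Q (A o 1 (x j) (y j) (A o 1 (x 2) (x 2) o j)) :=
    fun j _ hj => by
      rw [← e j (by omega), show A o 1 (x 2) (x 2) o j = o by grind [A]]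
      exact h.deg 1 (by omega) _
  exact ⟨fun H hx => h.c3 1 x y (A o 1 (x 2) (x 2) o) (e 1 (by omega)) rfl (e 2 (by omega)).symm
    2 (by omega) _ (fun j hj _ => by obtain rfl : j = 0 := by omega
                                     exact H)
    (fun _ => hx) (by omega) (fun _ => h.deg 1 (by omega) _) (fun j h1 h2 _ => k j h1 h2) rfl,
    fun hx hy => h.c3 1 x y (A o 1 (x 2) (x 2) o) (e 1 (by omega)) rfl (e 2 (by omega)).symm
    0 (by omega) _ (by omega) (fun _ => hx) (fun _ => hy) (fun _ => h.deg 1 (by omega) _)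
    (fun j h1 h2 _ => k j h1 h2) rfl⟩

/-- the homotopy relation -/
def setoid : Setoid S where
  r a b := Q (A o 0 a b o)
  iseqv := ⟨h.deg 0 (by omega),
    fun {a b} k => (h.c0 (A o 0 a a o) (A o 0 b a o) (by grind [A])).1 k (h.deg 0 (by omega) a),
    fun {a b c} k l => (h.c1 (A o 0 a b o) (A o 0 a c o) rfl).1 (fun j _ hj => by
      by_cases e : j = 1
      · exact e ▸ l
      · rw [show A o 0 a b o j = A o 0 a c o j by grind [A]]
        exact h.deg 0 (by omega) _) k⟩

theorem repl {x y : ℕ → S} (hx : Q x) (e : ∀ j < n + 4, h.setoid (x j) (y j)) : Q y :=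
  (h.c1 (Function.update x 0 (y 0)) y (Function.update_self ..)).1
    (fun j h1 h2 => by rw [Function.update_of_ne (by omega)]; exact e j h1)
    ((h.c0 x _ fun j hj => (Function.update_of_ne hj ..).symm).1
      (by rw [Function.update_self]; exact e 0 (by omega)) hx)

theorem uniq {x y : ℕ → S} {i : ℕ} (hi : i < n + 4) (e : ∀ j, j ≠ i → x j = y j) (hx : Q x)
    (hy : Q y) : h.setoid (x i) (y i) := by
  by_cases h0 : i = 0
  · subst h0
    exact (h.c0 x y e).2 hx hy
  · exact (h.c1 x y (e 0 (Ne.symm h0))).2 i hi (by omega) e hx hy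

theorem quot : Sys n (Quotient.mk h.setoid o) fun x => Q fun i => (x i).out where
  congr k e := h.congr k fun i hi => congrArg _ (e i hi)
  fill i hi x := by
    obtain ⟨y, hy⟩ := h.fill i hi fun j => (x j).out
    refine ⟨Quotient.mk _ y, h.repl hy fun j _ => Quotient.exact ?_⟩
    by_cases e : j = i
    · simp [e]
    · simp [e]
  tet R hR t ht H := h.tet (fun j i => (R j i).out) (fun i j hij => congrArg _ (hR i j hij)) t ht H
  deg m hm y := h.repl (h.deg m hm y.out) fun j _ => Quotient.exact (by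
    simp only [A, Quotient.out_eq]
    split_ifs <;> simp)

theorem ex_op (m : ℕ) (a c : S) : ∃ b, m < n + 2 → Q (A o m a b c) := by
  by_cases hm : m < n + 2
  · obtain ⟨b, hb⟩ := h.fill (m + 1) (by omega) (A o m a o c)
    exact ⟨b, fun _ => h.congr hb fun i _ => by grind [A]⟩
  · exact ⟨a, fun k => absurd k hm⟩

/-- the addition at position `m` -/
def op (m : ℕ) (a c : S) : S := (h.ex_op m a c).choose

theorem op_spec {m : ℕ} (hm : m < n + 2) (a c : S) : Q (A o m a (h.op m a c) c) :=
  (h.ex_op m a c).choose_spec hm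

theorem move {m : ℕ} (hm : m < n + 2) (x : ℕ → S) : Q x ↔
    Q fun i => if i = m then h.op m (x m) (x (m + 2)) else if i = m + 2 then o else x i := by
  have H := fun t ht w => h.c3 (m + 1) x
    (fun i => if i = m then h.op m (x m) (x (m + 2)) else if i = m + 2 then o else x i)
    (A o m (x (m + 2)) (x (m + 2)) o) (by grind) (by grind [A]) (by grind [A]) t ht w
    (fun j hj _ => by
      by_cases e : j = m
      · subst e
        simpa [A] using h.op_spec hm (x j) (x (j + 2))
      · exact h.congr (h.deg m (by omega) (x j)) fun i _ => by grind [A])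
  have k : ∀ j < n + 4, m + 1 + 2 ≤ j → Q (A o (m + 1) (x j)
      (if j = m then h.op m (x m) (x (m + 2)) else if j = m + 2 then o else x j)
      (A o m (x (m + 2)) (x (m + 2)) o j)) := fun j _ hj =>
    h.congr (h.deg (m + 1) (by omega) (x j)) fun i _ => by grind [A]
  exact ⟨fun hx => H (m + 2) (by omega) _ (fun _ => hx) (by omega)
    (fun _ => h.deg m (by omega) _) (fun j h1 h2 _ => k j h1 h2) (by simp),
    fun hy => H (m + 1) (by omega) _ (by omega) (fun _ => hy)
    (fun _ => h.deg m (by omega) _) (fun j h1 h2 _ => k j h1 h2) (by simp)⟩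

variable (U : ∀ x y, ∀ i < n + 4, (∀ j, j ≠ i → x j = y j) → Q x → Q y → x i = y i)
include U

theorem op_eq {m : ℕ} (hm : m < n + 2) {a b c : S} (k : Q (A o m a b c)) : h.op m a c = b := by
  simpa [A] using U _ _ (m + 1) (by omega) (by grind [A]) (h.op_spec hm a c) k

theorem op_succ {m : ℕ} (hm : m < n + 1) (a v : S) : h.op (m + 1) v a = h.op m a v := by
  refine h.op_eq U (by omega) (h.c3 m (A o (m + 1) o a a) (A o (m + 1) v (h.op m a v) a)
    (A o m o v v) (by grind [A]) (by grind [A]) (by grind [A]) (m + 1) (by omega) _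
    (fun j hj _ => h.congr (h.deg 0 (by omega) o) fun i _ => by grind [A])
    (fun _ => h.deg' _ (by omega) _) (by omega) (fun _ => h.deg' _ (by omega) _)
    (fun j _ hj _ => ?_) (by simp))
  by_cases e : j = m + 2
  · exact h.congr (h.op_spec (m := m) (by omega) a v) fun i _ => by grind [A]
  · exact h.congr (h.deg m (by omega) (A o (m + 1) o a a j)) fun i _ => by grind [A]

theorem far (u v : S) : (Q fun i => if i = 0 then u else if i = 3 then v else o) ↔ u = v := by
  have e : h.op 1 o v = v := h.op_eq U (by omega) (h.deg' 1 (by omega) v)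
  rw [h.move (m := 1) (by omega)]
  simp only [OfNat.one_ne_ofNat, one_ne_zero, if_false, OfNat.ofNat_ne_zero, if_true, e]
  constructor
  · intro k
    simpa [A] using U _ _ 0 (by omega) (by grind [A]) k (h.deg 0 (by omega) v)
  · rintro rfl
    exact h.congr (h.deg 0 (by omega) u) fun i _ => by grind [A]

theorem op_comm (a b : S) : h.op 0 a b = h.op 0 b a := by
  rw [← h.op_succ U (by omega) b a, ← h.far U]
  refine h.c3 1 (fun i => if i = 0 then a else if i = 3 then a else o)
    (fun i => if i = 0 then h.op 0 a b else if i = 3 then h.op 1 a b else o)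
    (fun i => if i = 0 then b else if i = 3 then b else o) rfl rfl rfl 2 (by omega) _
    (fun j hj _ => ?_) (fun _ => (h.far U a a).2 rfl) (by omega) (fun _ => (h.far U b b).2 rfl)
    (fun j _ hj _ => ?_) rfl
  · obtain rfl : j = 0 := by omega
    exact h.op_spec (m := 0) (by omega) a b
  · by_cases e : j = 3
    · subst e
      exact h.op_spec (m := 1) (by omega) a b
    · exact h.congr (h.deg 0 (by omega) o) fun i _ => by grind [A]

theorem op_assoc (a b c : S) : h.op 0 (h.op 0 a b) c = h.op 0 a (h.op 0 b c) := by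
  refine (h.op_eq U (by omega) (h.c3 0 (A o 0 a (h.op 0 a b) b)
    (A o 0 a (h.op 0 (h.op 0 a b) c) (h.op 0 b c)) (A o 0 (h.op 0 a b) (h.op 0 (h.op 0 a b) c) c)
    rfl rfl rfl 1 (by omega) _ (by omega) (fun _ => h.op_spec (by omega) _ _) (by omega)
    (fun _ => h.op_spec (by omega) _ _) (fun j _ hj _ => ?_) rfl)).symm
  by_cases e : j = 2
  · subst e
    exact h.op_spec (m := 0) (by omega) b c
  · exact h.congr (h.deg 0 (by omega) o) fun i _ => by grind [A]

theorem op_all {m : ℕ} (hm : m < n + 2) (a b : S) : h.op m a b = h.op 0 a b := by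
  induction m generalizing a b with
  | zero => rfl
  | succ m ih => rw [h.op_succ U (by omega), ih (by omega), h.op_comm U]

theorem group : ∃ _ : AddCommGroup S, o = 0 ∧
    ∀ x, Q x → ∑ i ∈ Finset.range (n + 4), (-1 : ℤ) ^ i • x i = 0 := by
  have ng : ∀ c, ∃ a, h.op 0 a c = o := fun c =>
    let ⟨a, ha⟩ := h.fill 0 (by omega) (A o 0 o o c)
    ⟨a, h.op_eq U (by omega) (h.congr ha fun i _ => by grind [A])⟩
  let _ : Add S := ⟨h.op 0⟩
  let _ : Zero S := ⟨o⟩
  let _ : Neg S := ⟨fun c => (ng c).choose⟩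
  let G : AddGroup S := AddGroup.ofLeftAxioms (h.op_assoc U)
    (fun a => h.op_eq U (by omega) (h.deg' 0 (by omega) a)) fun c => (ng c).choose_spec
  let G' : AddCommGroup S := { G with add_comm := h.op_comm U }
  refine ⟨G', rfl, ?_⟩
  suffices H : ∀ r ≤ n + 2, ∀ x, (∀ j < n + 4, r + 2 ≤ j → x j = o) → Q x →
      ∑ i ∈ Finset.range (r + 2), (-1 : ℤ) ^ i • x i = 0 from
    fun x => H _ le_rfl x (by omega)
  intro r
  induction r with
  | zero =>
    intro _ x h1 h2
    have : x 1 = x 0 := by
      simpa [A] using U _ _ 1 (by omega) (by grind [A])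
        (h.congr (y := A o 0 (x 0) (x 1) o) h2 (by grind [A])) (h.deg 0 (by omega) (x 0))
    simp [Finset.sum_range_succ, this]
  | succ r ih =>
    intro hr x h1 h2
    have := ih (by omega) _ (by grind) ((h.move (m := r) (by omega) x).1 h2)
    rw [Finset.sum_range_succ, Finset.sum_range_succ, h.op_all U (by omega),
      Finset.sum_congr rfl fun i hi => congrArg _ ((if_neg (Finset.mem_range.1 hi).ne).trans
        (if_neg (by have := Finset.mem_range.1 hi; omega))), if_pos rfl, if_neg (by omega),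
      if_neg (by omega)] at this
    change _ + _ • (x r + x (r + 2)) + _ = _ at this
    rw [Finset.sum_range_succ, Finset.sum_range_succ, Finset.sum_range_succ, ← this, smul_add,
      show (-1 : ℤ) ^ (r + 1 + 1) = (-1) ^ r by ring]
    abel

end Sys

end HAL

open HAL in
theorem st_hal : St_HAL := by
  intro n S o P h1 h2 h3
  have h : Sys n o fun x => P fun i => x i :=
    { congr := fun k e => (funext fun i : Fin (n + 4) => e i i.2) ▸ k
      fill := fun i hi x => (h1 ⟨i, hi⟩ fun j => x j).imp fun y hy => by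
        convert hy using 2 with j
        simp [Function.update_apply, Fin.ext_iff]
      tet := fun R hR t ht H => h2 (fun j i => R j i) ⟨t, ht⟩ (fun i j hij => hR i j hij)
        fun j hj => H j j.2 fun e => hj (Fin.ext e)
      deg := fun m hm y => by
        convert h3 ⟨m, hm⟩ y using 2 with j
        simp only [A, Fin.ext_iff, Fin.val_castSucc, Fin.val_succ]
        grind }
  obtain ⟨G, e, H⟩ := h.quot.group fun x y i hi e hx hy =>
    Quotient.out_equiv_out.1 (h.uniq hi (fun j hj => congrArg _ (e j hj)) hx hy)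
  refine ⟨_, G, Quotient.mk h.setoid, e, fun x hx => ?_, fun y y' k => ?_⟩
  · let x' : ℕ → S := fun i => if k : i < n + 4 then x ⟨i, k⟩ else o
    have e' : (fun i : Fin (n + 4) => x' i) = x := funext fun i => dif_pos i.2
    have := H (fun i => Quotient.mk _ (x' i)) (h.repl (x := x') (e' ▸ hx) fun j _ =>
      Quotient.exact (Quotient.out_eq _).symm)
    rw [← Fin.sum_univ_eq_sum_range fun i => (-1 : ℤ) ^ i • Quotient.mk h.setoid (x' i)] at this
    rw [← e']
    exact this
  · have := h.repl (y := A o (n + 2) y' y o) (h.deg (n + 2) (by omega) y) fun j _ =>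
      Quotient.exact (by grind [A])
    convert this using 2 with j
    simp only [A, Fin.ext_iff, Fin.val_castSucc, Fin.val_last]
    grind

end Pool.Agent.AZero
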