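import Pool.Agent.Lib.AZero.Blue

/-! The boundary as a horn with one cell, quotients by attached pairs, homotopic attachments. -/

noncomputable section

namespace Pool.Agent.AZero

open CategoryTheory Limits Simplicial SSet MonoidalCategory CartesianMonoidalCategory
  HomotopicalAlgebra Opposite
open scoped SSet.modelCategoryQuillen

theorem st_hb : St_HB := by
  intro n i
  have le : Λ[n + 1, i] ≤ (∂Δ[n + 1] : (Δ[n + 1] : SSet.{0}).Subcomplex) := by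
    rintro ⟨⟨m⟩⟩ x hx
    obtain ⟨j, -, hj⟩ := (mem_horn_iff_notMem_range x i).1 hx
    exact (mem_boundary_iff_notMem_range x).2 ⟨j, hj⟩
  let a : (∂Δ[n] : SSet.{0}) ⟶ Λ[n + 1, i] := Subcomplex.lift (∂Δ[n].ι ≫ stdSimplex.δ i) (by
    rintro ⟨⟨m⟩⟩ _ ⟨x, rfl⟩
    obtain ⟨j, hj⟩ := (mem_boundary_iff_notMem_range x.1).1 x.2
    refine (mem_horn_iff_notMem_range _ i).2 ⟨i.succAbove j, Fin.succAbove_ne i j, ?_⟩
    rintro ⟨k, hk⟩
    exact hj ⟨k, Fin.succAbove_right_injective hk⟩)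
  refine ⟨a, Subcomplex.homOfLE le, rfl, po_intro rfl ?_ ?_ ?_⟩
  · rintro ⟨⟨m⟩⟩ x z h
    obtain ⟨j, h1, h2⟩ := (mem_horn_iff_notMem_range x.1 i).1 x.2
    obtain ⟨j, rfl⟩ := Fin.exists_succAbove_eq h1
    refine ⟨⟨z, (mem_boundary_iff_notMem_range z).2 ⟨j, ?_⟩⟩, rfl⟩
    rintro ⟨k, rfl⟩
    exact h2 ⟨k, congrArg (fun y : (∂Δ[n + 1] : SSet.{0}) _⦋m⦌ => y.1 k) h⟩
  · rintro ⟨⟨m⟩⟩ y
    obtain ⟨j, hj⟩ := (mem_boundary_iff_notMem_range y.1).1 y.2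
    by_cases h : j = i
    · subst h
      have : y.1 ∈ (Subcomplex.range (stdSimplex.δ j)).obj _ := by
        rw [stdSimplex.range_δ, stdSimplex.mem_face_iff]
        intro k
        simpa using fun e => hj ⟨k, e⟩
      obtain ⟨z, hz⟩ := this
      exact .inr ⟨z, Subtype.ext hz⟩
    · exact .inl ⟨⟨y.1, (mem_horn_iff_notMem_range _ i).2 ⟨j, h, hj⟩⟩, rfl⟩
  · exact fun m z z' _ _ h => inj_app _ m h

theorem st_quo : St_QUO := by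
  intro X K L A B Q i a j b c _ sq sq' hc
  obtain ⟨q, h1, h2⟩ := Ret.ex_desc sq (V := Q)
    ⟨A.r ≫ Q.s, by rw [reassoc_of% A.sr], by rw [Category.assoc, Q.sr, Category.comp_id]⟩ c
    ((Category.assoc _ _ _).symm.trans sq'.w) hc
  exact ⟨i, q, po_mono sq, (IsPushout.of_left (h2 ▸ sq') h1.symm sq).flip⟩

theorem cyl_end {X K L : SSet.{0}} {T V W : Ret X} {j : K ⟶ L} [Mono j] {x : L ⟶ X}
    {G : K ⊗ Δ[1] ⟶ T.Y} {i : T.Hom V} {c : L ⊗ Δ[1] ⟶ V.Y} (sq : IsPushout G (j ▷ _) i.f c)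
    (hc : c ≫ V.r = fst _ _ ≫ x) (e : Fin 2) {k : T.Hom W} {b : L ⟶ W.Y}
    (sq' : IsPushout (ιe e ≫ G) j k.f b) (hb : b ≫ W.r = x) : W.AnE V := by
  have n : (ιe e : K ⟶ _) ≫ j ▷ _ = j ≫ ιe e := rfl
  have m : (ιe e : L ⟶ _) ≫ fst _ _ = 𝟙 _ := rfl
  obtain ⟨f, h1, h2⟩ := Ret.ex_desc sq' i (ιe e ≫ c)
    (by rw [Category.assoc, sq.w, reassoc_of% n])
    (by rw [Category.assoc, hc, reassoc_of% m, hb])
  refine ⟨f, fun _ _ p hp => lp_of_ex fun u v w => ?_⟩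
  obtain ⟨l, e1, e2, e3⟩ := hepe e j ((fibration_iff p).2 hp) (b ≫ u) (G ≫ k.f ≫ u) (c ≫ v)
    (by simpa using sq'.w =≫ u)
    (by rw [Category.assoc, Category.assoc, w, reassoc_of% h1, reassoc_of% sq.w])
    (by rw [Category.assoc, w, reassoc_of% h2])
  refine ⟨sq.desc (k.f ≫ u) l e2.symm, sq'.hom_ext ?_ ?_, sq.hom_ext ?_ ?_⟩
  · rw [reassoc_of% h1, sq.inl_desc]
  · rw [reassoc_of% h2, sq.inr_desc, e1]
  · rw [sq.inl_desc_assoc, Category.assoc, w, reassoc_of% h1]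
  · rw [sq.inr_desc_assoc, e3]

theorem st_cyl : St_CYL := by
  intro X K L T V₀ V₁ j x G i₀ b₀ i₁ b₁ _ hG s₀ h₀ s₁ h₁
  obtain ⟨V, i, c, sq, hc⟩ := T.ex_att G (j ▷ _) (fst _ _ ≫ x)
    (by rw [hG, whiskerRight_fst_assoc])
  exact ⟨V, cyl_end sq hc 0 s₀ h₀, cyl_end sq hc 1 s₁ h₁⟩

end Pool.Agent.AZero
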