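import Pool.Agent.Lib.AZero.Blue

/-! Attaching a finite pair to a homotopy finite object gives a homotopy finite object. -/

noncomputable section

namespace Pool.Agent.AZero

open CategoryTheory Limits Simplicial SSet MonoidalCategory CartesianMonoidalCategory
  HomotopicalAlgebra Opposite
open scoped SSet.modelCategoryQuillen

namespace HFA

/-- pushing an attachment forward along an anodyne map -/
theorem push {X K L : SSet.{0}} {W W' T V : Ret X} {a : K ⟶ W.Y} {j : K ⟶ L} {i : W.Hom W'}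
    {b : L ⟶ W'.Y} (sq : IsPushout a j i.f b) (f : W.Hom T) (hf : An f.f) {c : K ⟶ T.Y}
    {i' : T.Hom V} {b' : L ⟶ V.Y} (sq' : IsPushout c j i'.f b') (hc : c = a ≫ f.f)
    (hb : b' ≫ V.r = b ≫ W'.r) : W'.AnE V := by
  subst hc
  obtain ⟨φ, h1, h2⟩ := Ret.ex_desc sq (f.comp i') b' ((Category.assoc _ _ _).symm.trans sq'.w) hb
  rw [← h2] at sq'
  exact ⟨φ, An.po (IsPushout.of_left sq' h1.symm sq).flip hf⟩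

theorem hmap (hW : St_WEQ) {X : SSet.{0}} {A B : Ret X} (h : A.AnE B) : A.HMap B :=
  let ⟨f, hf⟩ := h; ⟨f, hW _ _ _ hf⟩

end HFA

theorem st_hfa (hC : St_COSP) (hR : St_REPL) (hM : St_COMP) (hY : St_CYL) (hF : St_FINC)
    (hW : St_WEQ) : St_HFA := by
  rintro X hX U U' i hU ⟨K, L, a, j, b, hj, hL, sq⟩
  obtain ⟨T, Z, ⟨g, hg⟩, ⟨e, he⟩, hZ⟩ := (hC X hX).2 U hU
  have hK : K.Finite := finite_of_mono j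
  obtain ⟨A₀, B₀, e₀, α, β, ψ, hB, he₀, w1, w2⟩ := hM _ _ _ e.f (a ≫ g.f) he hK
  obtain ⟨Z₁, i₁, b₁, sq₁, r₁⟩ := Z.ex_att α e₀ (β ≫ T.r)
    (by rw [reassoc_of% w1, e.hr])
  have hZ₁ : Z₁.IsFinite := hF.1 X Z Z₁ i₁ hZ ⟨_, _, _, _, _, he₀.mono, hB, sq₁⟩
  have hi₁ : An i₁.f := An.po sq₁ he₀
  obtain ⟨γ, g1, g2⟩ := Ret.ex_desc sq₁ e β w1.symm r₁.symm
  obtain ⟨D, u, v, sqD⟩ := Ret.ex_po e i₁
  obtain ⟨C, c, q, hq, hc, -, hl⟩ := hR 0 _ _ D.r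
  have hfib : Fib (D.via c q hq).r := fib_iff.2 fun m k => hl m (Nat.zero_le m) k
  set T' := D.via c q hq
  let ιT : T.Hom T' := u.comp (D.toVia c q hq)
  let ιZ : Z₁.Hom T' := v.comp (D.toVia c q hq)
  have aT : An ιT.f := (An.po sqD hi₁).comp hc
  have aZ : An ιZ.f := (An.po sqD.flip he).comp hc
  have ag : i₁.f ≫ γ.f ≫ ιT.f = i₁.f ≫ ιZ.f := by
    rw [reassoc_of% g1]
    exact (Category.assoc _ _ _).symm.trans ((sqD.w =≫ c).trans (Category.assoc _ _ _))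
  obtain ⟨l, l0, l1, -, l3⟩ := hep2 i₁.f (.inl ⟨hi₁, hfib⟩) (γ.f ≫ ιT.f) ιZ.f
    (fst _ _ ≫ i₁.f ≫ ιZ.f) (fst _ _ ≫ Z₁.r)
    (by rw [ι₀_fst_assoc, ag]) (by rw [ι₁_fst_assoc])
    (by rw [Category.assoc, Category.assoc, ιZ.hr, whiskerRight_fst_assoc])
    (by rw [ι₀_fst_assoc, Category.assoc, ιT.hr, γ.hr]) (by rw [ι₁_fst_assoc, ιZ.hr])
  have wx : (ψ ≫ b₁) ≫ Z₁.r = j ≫ b ≫ U'.r := by
    rw [Category.assoc, r₁, reassoc_of% w2, g.hr, ← i.hr, reassoc_of% sq.w]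
  have G0 : ι₀ ≫ (ψ ≫ b₁) ▷ _ ≫ l = a ≫ (g.comp ιT).f := by
    rw [ι₀_comp_assoc, l0, Category.assoc, reassoc_of% g2, reassoc_of% w2]
    rfl
  have G1 : ι₁ ≫ (ψ ≫ b₁) ▷ _ ≫ l = (ψ ≫ b₁) ≫ ιZ.f := by rw [ι₁_comp_assoc, l1]
  have Gr : ((ψ ≫ b₁) ▷ _ ≫ l) ≫ T'.r = fst _ _ ≫ j ≫ b ≫ U'.r := by
    rw [Category.assoc, l3, whiskerRight_fst_assoc, wx]
  obtain ⟨V₀, i0, b0, s0, r0⟩ := T'.ex_att (ι₀ ≫ (ψ ≫ b₁) ▷ _ ≫ l) j (b ≫ U'.r)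
    (by rw [Category.assoc, Gr, ι₀_fst_assoc])
  obtain ⟨V₁, i1, b1, s1, r1⟩ := T'.ex_att (ι₁ ≫ (ψ ≫ b₁) ▷ _ ≫ l) j (b ≫ U'.r)
    (by rw [Category.assoc, Gr, ι₁_fst_assoc])
  obtain ⟨V, v0, v1⟩ := hY X K L T' V₀ V₁ j (b ≫ U'.r) _ i0 b0 i1 b1 hj Gr s0 r0 s1 r1
  obtain ⟨Z₂, i₂, b₂, sq₂, r₂⟩ := Z₁.ex_att (ψ ≫ b₁) j (b ≫ U'.r) wx
  have hZ₂ : Z₂.IsFinite := hF.1 X Z₁ Z₂ i₂ hZ₁ ⟨_, _, _, _, _, hj, hL, sq₂⟩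
  have p0 : U'.AnE V₀ := HFA.push sq (g.comp ιT) (hg.comp aT) s0 G0 r0
  have p1 : Z₂.AnE V₁ := HFA.push sq₂ ιZ aZ s1 G1 (r1.trans r₂.symm)
  exact ⟨Z₂, hZ₂, .trans _ V _ (.rel _ _ (HFA.hmap hW (p0.trans v0)))
    (.symm _ _ (.rel _ _ (HFA.hmap hW (p1.trans v1))))⟩

end Pool.Agent.AZero
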