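import Pool.Agent.Lib.AZero.Blue

/-! Injectivity of the Hurewicz map. -/

noncomputable section

namespace Pool.Agent.AZero

open CategoryTheory Limits Simplicial SSet MonoidalCategory CartesianMonoidalCategory
  HomotopicalAlgebra Opposite
open scoped SSet.modelCategoryQuillen

namespace HI

variable {Γ : Type} [Group Γ]

/-- simplices over the totally degenerate simplex -/
abbrev S (W : Ret (BG Γ)) (n : ℕ) : Type := {y : W.Y _⦋n⦌ // W.r.app _ y = cst Γ n}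

/-- the base point -/
def o (W : Ret (BG Γ)) (n : ℕ) : S W n := ⟨W.s.app _ (cst Γ n), W.r_s _⟩

theorem o_in (W : Ret (BG Γ)) (n : ℕ) : W.In (o W n).1 := ⟨_, rfl⟩

theorem eq_o {W : Ret (BG Γ)} {n : ℕ} {y : W.Y _⦋n⦌} (h : W.In y) (e : W.r.app _ y = cst Γ n) :
    y = (o W n).1 := h.ext (o_in W n) (e.trans (o W n).2.symm)

/-- faces -/
def fc {W : Ret (BG Γ)} {n : ℕ} (i : Fin (n + 2)) (t : S W (n + 1)) : S W n :=
  ⟨W.Y.δ i t.1, by rw [δ_ap, t.2, δ_cst]⟩

/-- the families that bound a simplex -/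
def P (W : Ret (BG Γ)) (n : ℕ) (x : Fin (n + 2) → S W n) : Prop :=
  ∃ t : S W (n + 1), ∀ i, fc i t = x i

theorem face_eq {W : Ret (BG Γ)} {n : ℕ} (h : W.Red (n + 1)) (i : Fin (n + 2))
    (y : S W (n + 1)) : W.Y.δ i y.1 = (o W n).1 :=
  eq_o (h n (Nat.lt_succ_self n) _) (fc i y).2

theorem fill {W : Ret (BG Γ)} {n : ℕ} (hF : Fib W.r) (i : Fin (n + 3))
    (x : Fin (n + 3) → S W (n + 1))
    (h : ∀ j k : Fin (n + 2), j ≤ k → j.castSucc ≠ i → k.succ ≠ i →
      fc j (x k.succ) = fc k (x j.castSucc)) :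
    ∃ t : S W (n + 2), ∀ j, j ≠ i → fc j t = x j := by
  obtain ⟨t, h1, h2⟩ := hF.fill i (fun j => (x j).1) (cst Γ (n + 2)) (fun j _ => (x j).2)
    fun j k a b c => congrArg Subtype.val (h j k a b c)
  exact ⟨⟨t, h1⟩, fun j hj => Subtype.ext (h2 j hj)⟩

theorem p1 {W : Ret (BG Γ)} {n : ℕ} (hF : Fib W.r) (h : W.Red (n + 1)) (i : Fin (n + 3))
    (x : Fin (n + 3) → S W (n + 1)) : ∃ y, P W (n + 1) (Function.update x i y) := by
  obtain ⟨t, ht⟩ := fill hF i x fun j k _ _ _ =>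
    Subtype.ext ((face_eq h _ _).trans (face_eq h _ _).symm)
  refine ⟨fc i t, t, fun j => ?_⟩
  by_cases e : j = i
  · rw [e, Function.update_self]
  · rw [Function.update_of_ne e, ht j e]

theorem fc_fc {W : Ret (BG Γ)} {n : ℕ} {i j : Fin (n + 2)} (h : i ≤ j) (t : S W (n + 2)) :
    fc i (fc j.succ t) = fc j (fc i.castSucc t) := Subtype.ext (δ_δ h t.1)

theorem p2 {W : Ret (BG Γ)} {n : ℕ} (hF : Fib W.r) (a : Fin (n + 3) → Fin (n + 2) → S W n)
    (k : Fin (n + 3)) (c : ∀ i j : Fin (n + 2), i ≤ j → a j.succ i = a i.castSucc j)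
    (h : ∀ j, j ≠ k → P W n (a j)) : P W n (a k) := by
  have h' : ∀ j, ∃ t : S W (n + 1), j ≠ k → ∀ i, fc i t = a j i := fun j => by
    by_cases e : j = k
    · exact ⟨o W _, fun x => absurd e x⟩
    · exact (h j e).imp fun t ht _ => ht
  choose t ht using h'
  obtain ⟨T, hT⟩ := fill hF k t fun i j e e1 e2 => by rw [ht _ e2, ht _ e1, c i j e]
  refine ⟨fc k T, fun i => ?_⟩
  rcases lt_or_ge i.castSucc k with e | e
  · obtain ⟨k, rfl⟩ := k.eq_succ_of_ne_zero (Fin.ne_zero_of_lt e)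
    have e' : i ≤ k := Fin.castSucc_lt_succ_iff.1 e
    rw [fc_fc e', hT _ e.ne, ht _ e.ne, c i k e']
  · obtain ⟨k, rfl⟩ := k.eq_castSucc_of_ne_last (e.trans_lt i.castSucc_lt_last).ne
    have e' : k ≤ i := Fin.castSucc_le_castSucc_iff.1 e
    have e2 : i.succ ≠ k.castSucc := (Fin.castSucc_lt_succ_iff.2 e').ne'
    rw [← fc_fc e', hT _ e2, ht _ e2, c k i e']

theorem p3 {W : Ret (BG Γ)} {n : ℕ} (h : W.Red (n + 1)) (m : Fin (n + 2)) (y : S W (n + 1)) :
    P W (n + 1) fun i => if i = m.castSucc ∨ i = m.succ then y else o W _ := by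
  refine ⟨⟨W.Y.σ m y.1, by rw [σ_ap, y.2, σ_cst]⟩, fun i => ?_⟩
  beta_reduce
  split_ifs with e
  · rcases e with rfl | rfl
    · exact Subtype.ext (W.Y.δ_comp_σ_self_apply m y.1)
    · exact Subtype.ext (W.Y.δ_comp_σ_succ_apply m y.1)
  refine Subtype.ext (eq_o ?_ (fc i _).2)
  rw [not_or] at e
  rcases lt_or_gt_of_ne e.1 with e1 | e1
  · obtain ⟨i, rfl⟩ := i.eq_castSucc_of_ne_last (e1.trans m.castSucc_lt_last).ne
    have e2 := Fin.castSucc_lt_castSucc_iff.1 e1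
    obtain ⟨m, rfl⟩ := m.eq_succ_of_ne_zero (Fin.ne_zero_of_lt e2)
    change W.In (W.Y.δ i.castSucc (W.Y.σ m.succ y.1))
    rw [δ_comp_σ_of_le_apply (Fin.le_castSucc_iff.2 e2)]
    exact (h n (Nat.lt_succ_self n) _).map _
  · obtain ⟨i, rfl⟩ := i.eq_succ_of_ne_zero (Fin.ne_zero_of_lt e1)
    have e2 : m < i :=
      lt_of_le_of_ne (Fin.castSucc_lt_succ_iff.1 e1) fun x => e.2 (congrArg Fin.succ x.symm)
    obtain ⟨m, rfl⟩ := m.eq_castSucc_of_ne_last (Fin.ne_last_of_lt e2)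
    change W.In (W.Y.δ i.succ (W.Y.σ m.castSucc y.1))
    rw [δ_comp_σ_of_gt_apply e2]
    exact (h n (Nat.lt_succ_self n) _).map _

/-- the coinduced representation -/
def coind (Γ A : Type) [Group Γ] [AddCommGroup A] : Representation ℤ Γ (Γ → A) where
  toFun h := LinearMap.funLeft ℤ A (· * h)
  map_one' := LinearMap.ext fun φ => funext fun g => congrArg φ (mul_one g)
  map_mul' a b := LinearMap.ext fun φ => funext fun g => congrArg φ (mul_assoc g a b).symm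

end HI

open HI in
theorem st_hi (h1 : St_HAL) (h2 : St_RHO) : St_HI := by
  intro Γ _ n W M _ _ cl hF hR hH y y' hy hy' e
  obtain ⟨A, _, κ, k0, k1, k2⟩ := h1 n (S W (n + 2)) (o W _) (P W (n + 2)) (p1 hF hR) (p2 hF)
    (p3 hR)
  obtain ⟨ρ, r1, r2, r3, r4, r5⟩ := h2 Γ W hF
  let c : W.Y _⦋n + 2⦌ → (coind Γ A).asModule := fun w =>
    (coind Γ A).asModuleEquiv.symm fun g => κ ⟨ρ _ w g, r1 _ w g⟩
  have hc : Coc W c := by
    refine ⟨fun w hw => (coind Γ A).asModuleEquiv.symm.map_eq_zero_iff.2 (funext fun g => ?_),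
      funext fun t => ?_⟩
    · exact (congrArg κ (Subtype.ext (eq_o (r3 _ w g hw) (r1 _ w g)))).trans k0
    · rw [cob_apply, mrep_apply, ← Representation.asModuleEquiv_symm_map_rho]
      simp only [c, ← map_zsmul, ← map_sum, ← map_add]
      refine (coind Γ A).asModuleEquiv.symm.map_eq_zero_iff.2 (funext fun g => ?_)
      have := k1 _ ⟨⟨ρ _ t g, r1 _ t g⟩, fun _ => rfl⟩
      rw [Fin.sum_univ_succ] at this
      simp only [fc, r4, r5, Fin.val_zero, pow_zero, one_smul, Fin.val_succ] at this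
      simp only [Pi.add_apply, Finset.sum_apply, Pi.smul_apply]
      exact this
  obtain ⟨φ, hφ⟩ := hH.lift _ c hc
  have e1 := congrFun ((coind Γ A).asModuleEquiv.symm.injective
    ((hφ y).symm.trans (e ▸ hφ y'))) 1
  simp only [r2 _ y hy, r2 _ y' hy'] at e1
  obtain ⟨u, hu⟩ := k2 ⟨y, hy⟩ ⟨y', hy'⟩ e1
  refine ⟨u.1, u.2, congrArg Subtype.val ((hu _).trans (if_pos rfl)),
    congrArg Subtype.val ((hu _).trans ((if_neg (Fin.castSucc_lt_last _).ne).trans (if_pos rfl))),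
    fun j => ?_⟩
  have := (hu j.castSucc.castSucc).trans ((if_neg (Fin.castSucc_lt_last _).ne).trans
    (if_neg (Fin.castSucc_lt_castSucc_iff.2 (Fin.castSucc_lt_last _)).ne))
  exact ⟨_, (congrArg Subtype.val this).symm⟩

end Pool.Agent.AZero
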