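import Pool.Agent.Lib.AZero.Blue

/-! Existence of the universal relative cocycle and its invariance under anodyne extensions. -/

noncomputable section

namespace Pool.Agent.AZero

open CategoryTheory Limits Simplicial SSet MonoidalCategory CartesianMonoidalCategory
  HomotopicalAlgebra Opposite
open scoped SSet.modelCategoryQuillen

theorem st_hn0 : St_HN0 := by
  intro Γ _ W n
  let e : W.Y _⦋n⦌ → (W.Y _⦋n⦌ →₀ RG Γ) := fun y => Finsupp.single y 1
  let S : Submodule (RG Γ) (W.Y _⦋n⦌ →₀ RG Γ) := Submodule.span (RG Γ)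
    (e '' (Set.ofPred fun y => W.In y) ∪ Set.range (cob (mrep Γ _) W.r n e))
  refine ⟨(W.Y _⦋n⦌ →₀ RG Γ) ⧸ S, inferInstance, inferInstance, fun y => S.mkQ (e y),
    ⟨fun y hy => (Submodule.Quotient.mk_eq_zero _).2
      (Submodule.subset_span (.inl ⟨y, hy, rfl⟩)), funext fun t => ?_⟩, ?_, fun N _ _ c hc => ?_⟩
  · rw [cob_lin]
    exact (Submodule.Quotient.mk_eq_zero _).2 (Submodule.subset_span (.inr ⟨t, rfl⟩))
  · have h : Submodule.span (RG Γ) (Set.range e) = ⊤ := by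
      simpa using (Finsupp.basisSingleOne (ι := W.Y _⦋n⦌) (R := RG Γ)).span_eq
    have : (Set.range fun y => S.mkQ (e y)) = S.mkQ '' Set.range e := Set.range_comp _ _
    rw [this, Submodule.span_image, h, Submodule.map_top, Submodule.range_mkQ]
  · let φ := Finsupp.linearCombination (RG Γ) c
    have hφ : ∀ y, φ (e y) = c y := fun y => by simp [φ, e]
    refine ⟨S.liftQ φ (Submodule.span_le.2 ?_), hφ⟩
    rintro _ (⟨y, hy, rfl⟩ | ⟨t, rfl⟩)
    · exact (hφ y).trans (hc.1 y hy)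
    · refine (cob_lin W.r φ e t).symm.trans ?_
      rw [funext hφ, hc.2]
      rfl

theorem st_hn1 (hE : St_EXT) : St_HN1 := by
  intro Γ _ W W' j n M _ _ cl hj hW hW' hH
  obtain ⟨cl', -, c2, c3⟩ := hE Γ ℤ M (mrep Γ M) _ _ j.f hj W'.r (n + 1) cl 0
    (hW.nrm hH.coc.1) (fun _ _ => rfl) (map_zero _) (fun t => by rw [j.hr, hH.coc.2]; rfl)
  have hin : ∀ {m : ℕ} (y : W'.Y _⦋m⦌), W'.In y → ∃ x, W.In x ∧ j.f.app _ x = y := by
    rintro m _ ⟨x, rfl⟩
    exact ⟨_, ⟨x, rfl⟩, congr_ap j.hs _ x⟩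
  have hc' : Coc W' cl' := ⟨fun y hy => by
    obtain ⟨x, hx, rfl⟩ := hin y hy
    rw [c2, hH.coc.1 x hx], c3⟩
  refine ⟨cl', ⟨hc', top_le_iff.1 ?_, fun N _ _ c hc => ?_⟩, c2⟩
  · rw [← hH.span]
    refine Submodule.span_mono ?_
    rintro _ ⟨y, rfl⟩
    exact ⟨_, c2 y⟩
  · obtain ⟨φ, hφ⟩ := hH.lift N _ (hc.hom j)
    have k := hc'.lin φ
    obtain ⟨b, -, b2, b3⟩ := hE Γ ℤ N (mrep Γ N) _ _ j.f hj W'.r n 0
      ((fun y => φ (cl' y)) - c)
      (fun _ _ => rfl) (hW'.nrm fun y hy => by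
        rw [Pi.sub_apply, hc.1 y hy, sub_zero]
        exact k.1 y hy)
      (by rw [map_sub, k.2, hc.2, sub_zero])
      (fun t => by rw [map_zero, Pi.sub_apply, c2, hφ, sub_self]; rfl)
    have hb : b = 0 := funext fun z => by
      obtain ⟨x, -, rfl⟩ := hin z (hW' n n.lt_succ_self z)
      exact b2 x
    rw [hb, map_zero] at b3
    exact ⟨φ, fun y => sub_eq_zero.1 (congrFun b3 y).symm⟩

end Pool.Agent.AZero
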