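import Pool.Agent.Lib.AZero.Blue

/-! The first homology module after attaching cells. -/

noncomputable section

namespace Pool.Agent.AZero

open CategoryTheory Limits Simplicial SSet MonoidalCategory CartesianMonoidalCategory
  HomotopicalAlgebra Opposite
open scoped SSet.modelCategoryQuillen

namespace HN2

theorem ext_coc (hCO : St_CO) {Γ : Type} [Group Γ] {W W' : Ret (BG Γ)} {i : W.Hom W'} {n : ℕ}
    {ι P : Type} [AddCommGroup P] [Module (RG Γ) P] {a : ι → ((∂Δ[n] : SSet.{0}) ⟶ W.Y)}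
    {e : ι → (Δ[n] ⟶ W'.Y)} (hC : Cells n i.f a e) (hR : W.Red n) {c : W.Y _⦋n⦌ → P}
    (hc : Coc W c) (x : ι → P) :
    ∃ c' : W'.Y _⦋n⦌ → P, Coc W' c' ∧ (∀ y, c' (i.f.app _ y) = c y) ∧
      ∀ l, c' (el (e l)) = x l := by
  classical
  have : Mono i.f := hC.mono
  let c' : W'.Y _⦋n⦌ → P :=
    Function.extend (i.f.app (op ⦋n⦌)) c (Function.extend (fun l => el (e l)) x 0)
  have h1 : ∀ y, c' (i.f.app _ y) = c y := fun y => (inj_app i.f _).extend_apply _ _ y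
  have h2 : ∀ l, c' (el (e l)) = x l := fun l =>
    (Function.extend_apply' _ _ _ (hC.notin l)).trans (hC.inj.extend_apply _ _ l)
  have h3 : ∀ y, W'.In y → c' y = 0 := by
    rintro _ ⟨z, rfl⟩
    rw [← i.hs, comp_ap, h1]
    exact hc.1 _ ⟨z, rfl⟩
  have h4 : W'.Red n := hR.of_surj i fun m hm => hC.surj_lt hm
  refine ⟨c', ⟨h3, funext fun t => ?_⟩, h1, h2⟩
  rcases hC.deg (Nat.lt_succ_self n) t with ⟨z, rfl⟩ | ht
  · rw [← cob_comp, i.hr, funext h1, hc.2]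
    rfl
  · exact (hCO Γ ℤ P (mrep Γ P) W'.Y W'.r n c').2 (h4.nrm h3) t ht

end HN2

theorem st_hn2 (hCO : St_CO) : St_HN2 := by
  refine ⟨?_, ?_⟩
  · intro Γ _ W W' i n ι M N _ _ _ _ v cl a e hC hR hH
    obtain ⟨c, h0, h1, h2⟩ := HN2.ext_coc hCO hC hR (hH.coc.lin (LinearMap.inl (RG Γ) M N))
      fun l => LinearMap.inr (RG Γ) M N (v l)
    refine ⟨c, h0, ?_, fun P _ _ d hd => ?_⟩
    · rw [eq_top_iff, ← LinearMap.sup_range_inl_inr, sup_le_iff, LinearMap.range_eq_map,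
        LinearMap.range_eq_map, ← hH.span, ← v.span_eq, Submodule.map_span, Submodule.map_span]
      constructor
      · refine Submodule.span_mono ?_
        rintro _ ⟨_, ⟨y, rfl⟩, rfl⟩
        exact ⟨_, h1 y⟩
      · refine Submodule.span_mono ?_
        rintro _ ⟨_, ⟨l, rfl⟩, rfl⟩
        exact ⟨_, h2 l⟩
    · obtain ⟨φ, hφ⟩ := hH.lift P _ (hd.hom i)
      refine ⟨φ.coprod (v.constr ℕ fun l => d (el (e l))), fun y => ?_⟩
      rcases hC.surj_eq y with ⟨z, rfl⟩ | ⟨l, rfl⟩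
      · rw [h1, LinearMap.coprod_apply, LinearMap.inl_apply, map_zero, add_zero, hφ]
      · rw [h2, LinearMap.coprod_apply, LinearMap.inr_apply, map_zero, zero_add,
          Module.Basis.constr_basis]
  · intro Γ _ B n ι N _ _ v a e hC
    obtain ⟨c, h0, h1, h2⟩ := HN2.ext_coc hCO (W := Ret.zero (BG Γ)) (i := B.fromZero) (a := a)
      (e := e) hC (fun _ _ y => ⟨y, rfl⟩) (c := fun _ => (0 : N))
      ⟨fun _ _ => rfl, map_zero (cob (mrep Γ N) (Ret.zero (BG Γ)).r n)⟩ v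
    refine ⟨c, ⟨h0, ?_, fun P _ _ d hd => ?_⟩, h2⟩
    · rw [eq_top_iff, ← v.span_eq]
      refine Submodule.span_mono ?_
      rintro _ ⟨l, rfl⟩
      exact ⟨_, h2 l⟩
    · refine ⟨v.constr ℕ fun l => d (el (e l)), fun y => ?_⟩
      rcases hC.surj_eq y with hy | ⟨l, rfl⟩
      · rw [h0.1 y hy, hd.1 y hy, map_zero]
      · rw [h2, Module.Basis.constr_basis]

end Pool.Agent.AZero
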