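import Pool.Agent.Lib.AZero.Blue

/-! Surjectivity in the Hurewicz theorem. -/

noncomputable section

namespace Pool.Agent.AZero

open CategoryTheory Limits Simplicial SSet MonoidalCategory CartesianMonoidalCategory
  HomotopicalAlgebra Opposite
open scoped SSet.modelCategoryQuillen

namespace HUR

theorem fill {X : SSet.{0}} {W : Ret X} {n : ℕ} (hF : Fib W.r) (hR : W.Red (n + 2))
    (i : Fin (n + 4)) (y : Fin (n + 4) → W.Y _⦋n + 2⦌) (x : X _⦋n + 3⦌)
    (h : ∀ j, j ≠ i → W.r.app _ (y j) = X.δ j x) :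
    ∃ t : W.Y _⦋n + 3⦌, W.r.app _ t = x ∧ ∀ j, j ≠ i → W.Y.δ j t = y j :=
  Fib.fill (n := n + 1) hF i y x h fun j k hjk hj hk =>
    Ret.In.ext (hR _ (Nat.lt_succ_self _) _) (hR _ (Nat.lt_succ_self _) _) (by
      rw [δ_ap, δ_ap, h _ hk, h _ hj]
      exact δ_δ hjk x)

theorem ins_succ {α : Type} {m : ℕ} (a : Fin (m + 1) → α) (j : Fin (m + 1)) (b : α)
    (k : Fin (m + 1)) :
    Function.update (fun i => a (j.predAbove i)) j.succ b (j.succ.succAbove k) = a k := by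
  rw [Function.update_of_ne (Fin.succAbove_ne _ _)]
  congr 1
  apply Fin.ext
  simp only [Fin.succAbove, Fin.predAbove, Fin.lt_def, apply_ite Fin.val, apply_dite Fin.val,
    Fin.val_castSucc, Fin.val_succ, Fin.val_pred, Fin.coe_castPred]
  split_ifs <;> omega

theorem ins_cast {α : Type} {m : ℕ} (a : Fin (m + 1) → α) (j : Fin (m + 1)) (b : α)
    (k : Fin (m + 1)) :
    Function.update (fun i => a (j.predAbove i)) j.succ b (j.castSucc.succAbove k) =
      Function.update a j b k := by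
  by_cases h : k = j
  · rw [h, Fin.succAbove_castSucc_self, Function.update_self, Function.update_self]
  · rw [Function.update_of_ne h, Function.update_of_ne, Fin.predAbove_succAbove]
    rw [← Fin.succAbove_castSucc_self]
    exact fun e => h (Fin.succAbove_right_injective e)

variable {Γ : Type} [Group Γ] {n : ℕ} {W : Ret (BG Γ)} {M : Type} [AddCommGroup M]
  [Module (RG Γ) M] {cl : W.Y _⦋n + 2⦌ → M}

theorem three (hc : Coc W cl) (t : W.Y _⦋n + 3⦌)
    (h : ∀ j : Fin (n + 1), W.In (W.Y.δ j.succ.succ.succ t)) :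
    MonoidAlgebra.of ℤ Γ (lab (W.r.app _ t)) • cl (W.Y.δ 0 t) - cl (W.Y.δ 1 t) +
      cl (W.Y.δ 2 t) = 0 := by
  have e := congrFun hc.2 t
  rw [cob_apply, mrep_apply, Fin.sum_univ_succ, Fin.sum_univ_succ,
    Finset.sum_eq_zero fun j _ => by rw [hc.1 _ (h j), smul_zero]] at e
  refine Eq.trans ?_ e
  simp [sub_eq_add_neg, add_assoc]

theorem two (hc : Coc W cl) (t : W.Y _⦋n + 3⦌) (j : Fin (n + 2))
    (h : ∀ i, i ≠ j.succ.succ → i ≠ j.succ.castSucc → W.In (W.Y.δ i t)) :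
    cl (W.Y.δ j.succ.castSucc t) = cl (W.Y.δ j.succ.succ t) := by
  have e := congrFun hc.2 t
  rw [cob_apply, hc.1 _ (h 0 (Fin.succ_ne_zero _).symm (Fin.succ_ne_zero j.castSucc).symm),
    map_zero, zero_add, Finset.sum_eq_add j.castSucc j.succ j.castSucc_lt_succ.ne
      (fun i _ hi => by
        rw [hc.1 _ (h _ (fun e => hi.2 (Fin.succ_injective _ e))
          fun e => hi.1 (Fin.succ_injective _ e)), smul_zero])
      (fun h => absurd (Finset.mem_univ _) h) (fun h => absurd (Finset.mem_univ _) h),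
    Fin.val_castSucc, Fin.val_succ, pow_succ (-1 : ℤ) (j.1 + 1), mul_neg_one, neg_smul,
    ← sub_eq_add_neg, ← smul_sub] at e
  rcases neg_one_pow_eq_or ℤ (j.1 + 1) with k | k <;> rw [k] at e
  · exact sub_eq_zero.1 ((one_smul _ _).symm.trans e)
  · exact sub_eq_zero.1 (neg_eq_zero.1 ((neg_one_smul ℤ _).symm.trans e))

theorem move (hF : Fib W.r) (hR : W.Red (n + 2)) (y : W.Y _⦋n + 2⦌) (a : Fin (n + 3) → Γ)
    (j : Fin (n + 3)) (b : Γ) (hy : W.r.app _ y = mkS a) :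
    ∃ t : W.Y _⦋n + 3⦌, W.r.app _ t = mkS (Function.update (fun i => a (j.predAbove i)) j.succ b) ∧
      W.Y.δ j.succ t = y ∧ W.r.app _ (W.Y.δ j.castSucc t) = mkS (Function.update a j b) ∧
      ∀ i, i ≠ j.succ → i ≠ j.castSucc → W.In (W.Y.δ i t) := by
  let x : BG Γ _⦋n + 3⦌ := mkS (Function.update (fun i => a (j.predAbove i)) j.succ b)
  obtain ⟨t, h1, h2⟩ := fill hF hR j.castSucc
    (Function.update (fun i => W.s.app _ ((BG Γ).δ i x)) j.succ y) x fun i _ => by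
      by_cases e : i = j.succ
      · rw [e, Function.update_self, hy]
        exact congrArg mkS (funext fun k => (ins_succ a j b k).symm)
      · rw [Function.update_of_ne e, Ret.r_s]
  refine ⟨t, h1, ?_, ?_, fun i e1 e2 => ?_⟩
  · rw [h2 _ j.castSucc_lt_succ.ne', Function.update_self]
  · rw [δ_ap, h1]
    exact congrArg mkS (funext fun k => ins_cast a j b k)
  · rw [h2 i e2, Function.update_of_ne e1]
    exact ⟨_, rfl⟩

variable {S : Set (W.Y _⦋n + 2⦌)}

theorem mem_iff (h0 : ∀ y, W.In y → y ∈ S)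
    (hS : ∀ (t : W.Y _⦋n + 3⦌) (i : Fin (n + 4)), (∀ j, j ≠ i → W.Y.δ j t ∈ S) → W.Y.δ i t ∈ S)
    (t : W.Y _⦋n + 3⦌) (p q : Fin (n + 4)) (h : ∀ i, i ≠ p → i ≠ q → W.In (W.Y.δ i t))
    (hp : W.Y.δ p t ∈ S) : W.Y.δ q t ∈ S :=
  hS t q fun i e => by
    by_cases k : i = p
    · rwa [k]
    · exact h0 _ (h i k e)

theorem norm (hF : Fib W.r) (hR : W.Red (n + 2)) (hc : Coc W cl) (h0 : ∀ y, W.In y → y ∈ S)
    (hS : ∀ (t : W.Y _⦋n + 3⦌) (i : Fin (n + 4)), (∀ j, j ≠ i → W.Y.δ j t ∈ S) → W.Y.δ i t ∈ S)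
    (y : W.Y _⦋n + 2⦌) :
    ∃ y₀, W.r.app _ y₀ = cst Γ _ ∧ cl y₀ = cl y ∧ (y ∈ S ↔ y₀ ∈ S) := by
  have key : ∀ (s : Finset (Fin (n + 2))) (y : W.Y _⦋n + 2⦌) (a : Fin (n + 3) → Γ),
      W.r.app _ y = mkS a → a 0 = 1 → (∀ j, j ∉ s → a j.succ = 1) →
      ∃ y₀, W.r.app _ y₀ = cst Γ _ ∧ cl y₀ = cl y ∧ (y ∈ S ↔ y₀ ∈ S) := by
    intro s
    induction s using Finset.induction_on with
    | empty =>
      intro y a h1 h2 h3
      refine ⟨y, h1.trans (congrArg mkS (funext fun j => ?_)), rfl, Iff.rfl⟩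
      exact Fin.cases h2 (fun j => h3 j (Finset.notMem_empty j)) j
    | insert j s _ ih =>
      intro y a h1 h2 h3
      obtain ⟨t, -, e2, e3, e4⟩ := move hF hR y a j.succ 1 h1
      obtain ⟨y₀, f1, f2, f3⟩ := ih _ _ e3
        ((Function.update_of_ne (Fin.succ_ne_zero j).symm _ _).trans h2) fun i hi => by
          by_cases e : i = j
          · rw [e, Function.update_self]
          · rw [Function.update_of_ne fun k => e (Fin.succ_injective _ k)]
            exact h3 i fun k => (Finset.mem_insert.1 k).elim e hi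
      refine ⟨y₀, f1, by rw [f2, two hc t j e4, e2], Iff.trans ?_ f3⟩
      rw [← e2]
      exact ⟨mem_iff h0 hS t _ _ e4, mem_iff h0 hS t _ _ fun i k1 k2 => e4 i k2 k1⟩
  exact key Finset.univ y _ (mkS_pot _ 1).symm (by rw [pot_zero, mul_one])
    fun j h => absurd (Finset.mem_univ j) h

theorem tri (hF : Fib W.r) (hR : W.Red (n + 2)) (hc : Coc W cl)
    (hS : ∀ (t : W.Y _⦋n + 3⦌) (i : Fin (n + 4)), (∀ j, j ≠ i → W.Y.δ j t ∈ S) → W.Y.δ i t ∈ S)
    (i : Fin (n + 4)) (y : Fin (n + 4) → W.Y _⦋n + 2⦌) (h1 : ∀ j, W.r.app _ (y j) = cst Γ _)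
    (h2 : ∀ j, y j ∈ S) (h3 : ∀ j : Fin (n + 1), j.succ.succ.succ ≠ i)
    (h4 : ∀ j : Fin (n + 1), W.In (y j.succ.succ.succ)) :
    ∃ z ∈ S, cl (Function.update y i z 0) - cl (Function.update y i z 1) +
      cl (Function.update y i z 2) = 0 := by
  obtain ⟨t, e1, e2⟩ := fill hF hR i y (cst Γ _) fun j _ => h1 j
  have e3 : ∀ j, Function.update y i (W.Y.δ i t) j = W.Y.δ j t := fun j => by
    by_cases k : j = i
    · rw [k, Function.update_self]
    · rw [Function.update_of_ne k, e2 j k]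
  refine ⟨W.Y.δ i t, hS t i fun j k => (e2 j k).symm ▸ h2 j, ?_⟩
  have := three hc t fun j => (e2 _ (h3 j)).symm ▸ h4 j
  rwa [e1, lab, pot_cst, map_one, one_smul, ← e3 0, ← e3 1, ← e3 2] at this

end HUR

open HUR in
theorem st_hur (hI : St_HI) : St_HUR := by
  intro Γ _ n W M _ _ cl hF hR hH S h0 hS hsp
  have hc := hH.coc
  have nm := norm hF hR hc h0 hS
  let o : W.Y _⦋n + 2⦌ := W.s.app _ (cst Γ _)
  have o1 : W.In o := ⟨_, rfl⟩
  let v : W.Y _⦋n + 2⦌ → W.Y _⦋n + 2⦌ → Fin (n + 4) → W.Y _⦋n + 2⦌ := fun u u' =>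
    Fin.cons u (Fin.cons o (Fin.cons u' fun _ => o))
  have key : ∀ (i : Fin (n + 4)) (y y' : W.Y _⦋n + 2⦌), y ∈ S → y' ∈ S → i = 1 ∨ i = 2 →
      ∃ (u u' : W.Y _⦋n + 2⦌) (z : W.Y _⦋n + 2⦌), cl u = cl y ∧ cl u' = cl y' ∧ z ∈ S ∧
        cl (Function.update (v u u') i z 0) - cl (Function.update (v u u') i z 1) +
        cl (Function.update (v u u') i z 2) = 0 := by
    intro i y y' hy hy' hi
    obtain ⟨u, a1, a2, a3⟩ := nm y
    obtain ⟨u', b1, b2, b3⟩ := nm y'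
    obtain ⟨z, c1, c2⟩ := tri hF hR hc hS i (v u u')
      (Fin.cases a1 (Fin.cases (W.r_s _) (Fin.cases b1 fun _ => W.r_s _)))
      (Fin.cases (a3.1 hy) (Fin.cases (h0 _ o1) (Fin.cases (b3.1 hy') fun _ => h0 _ o1)))
      (fun j e => by
        rcases hi with rfl | rfl
        · exact absurd (show j.1 + 1 + 1 + 1 = 1 from congrArg Fin.val e) (by omega)
        · exact absurd (show j.1 + 1 + 1 + 1 = 2 from congrArg Fin.val e) (by omega))
      fun _ => o1
    exact ⟨u, u', z, a2, b2, c1, c2⟩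
  let A : AddSubgroup M :=
    { carrier := cl '' S
      zero_mem' := ⟨o, h0 _ o1, hc.1 _ o1⟩
      add_mem' := by
        rintro _ _ ⟨y, hy, rfl⟩ ⟨y', hy', rfl⟩
        obtain ⟨u, u', z, a1, a2, a3, a4⟩ := key 1 y y' hy hy' (.inl rfl)
        refine ⟨z, a3, ?_⟩
        change cl u - cl z + cl u' = 0 at a4
        rw [← a1, ← a2, eq_comm, ← sub_eq_zero, ← a4]
        abel
      neg_mem' := by
        rintro _ ⟨y, hy, rfl⟩
        obtain ⟨u, u', z, a1, -, a3, a4⟩ := key 2 y y hy hy (.inr rfl)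
        refine ⟨z, a3, ?_⟩
        change cl u - cl o + cl z = 0 at a4
        rw [hc.1 _ o1, sub_zero, a1] at a4
        exact eq_neg_of_add_eq_zero_right a4 }
  have sm : ∀ (g : Γ) (m : M), m ∈ A → MonoidAlgebra.of ℤ Γ g • m ∈ A := by
    rintro g _ ⟨y, hy, rfl⟩
    obtain ⟨u, a1, a2, a3⟩ := nm y
    obtain ⟨t, e1, e2, -, e4⟩ := move hF hR u (fun _ => 1) 0 g⁻¹ a1
    have e5 := three hc t fun j => e4 _ (fun k => by simpa using congrArg Fin.val k)
      (Fin.succ_ne_zero _)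
    have e6 : lab (W.r.app _ t) = g⁻¹ := by
      rw [e1, lab, pot_mkS]
      exact (congrArg₂ (fun p q : Γ => p⁻¹ * q)
        (Function.update_of_ne (Fin.succ_ne_zero _).symm _ _) (Function.update_self _ _ _)).trans
        (by simp)
    rw [e6, hc.1 _ (e4 2 (fun k => absurd (show 2 = 1 from congrArg Fin.val k) (by omega))
      fun k => absurd (show 2 = 0 from congrArg Fin.val k) (by omega)), add_zero, sub_eq_zero] at e5
    refine ⟨W.Y.δ 0 t, mem_iff h0 hS t _ _ e4 (e2.symm ▸ a3.1 hy), ?_⟩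
    rw [← a2, ← e2]
    change _ = _ • cl (W.Y.δ 1 t)
    rw [← e5, ← mul_smul, ← map_mul, mul_inv_cancel, map_one, one_smul]
  let D : Submodule (RG Γ) M :=
    { A with
      smul_mem' := fun c m hm => by
        induction c using MonoidAlgebra.induction_on with
        | of g => exact sm g m hm
        | add f g hf hg => rw [add_smul]; exact A.add_mem hf hg
        | smul r f hf => rw [smul_assoc]; exact A.zsmul_mem hf r }
  have all : ∀ m, m ∈ cl '' S := fun m =>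
    (Submodule.span_le (p := D)).2 le_rfl (hsp ▸ Submodule.mem_top)
  refine ⟨fun y => ?_, fun m => ?_⟩
  · obtain ⟨u, a1, a2, a3⟩ := nm y
    obtain ⟨y', hy', e⟩ := all (cl y)
    obtain ⟨u', b1, b2, b3⟩ := nm y'
    obtain ⟨t, -, c1, c2, c3⟩ := hI Γ n W M cl hF hR hH u u' a1 b1 (by rw [a2, b2, e])
    refine a3.2 (c1 ▸ mem_iff h0 hS t _ _ (fun i k1 k2 => ?_) (c2.symm ▸ b3.1 hy'))
    obtain ⟨i, rfl⟩ := i.eq_castSucc_of_ne_last k2
    obtain ⟨i, rfl⟩ := i.eq_castSucc_of_ne_last fun k => k1 (congrArg _ k)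
    exact c3 i
  · obtain ⟨y, -, rfl⟩ := all m
    obtain ⟨u, a1, a2, -⟩ := nm y
    exact ⟨u, a1, a2⟩

end Pool.Agent.AZero
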