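import Pool.Agent.Lib.AZero.Blue

/-! Block IND: induction over the cells of a finite object. -/

noncomputable section

namespace Pool.Agent.AZero

open CategoryTheory Limits Simplicial SSet Opposite

namespace IND

variable {X : SSet.{0}} (Z : Ret X) {m : ℕ} (y : Z.Y _⦋m⦌) (hy : y ∈ Z.Y.nonDegenerate m)
  (hn : ¬ Z.In y) (hm : RelDim m Z.s)

/-- the complement of an open simplex of maximal dimension -/
def sub : Z.Y.Subcomplex where
  obj n := Set.ofPred fun z => ∀ θ : n.unop ⟶ ⦋m⦌, Epi θ → Z.Y.map θ.op y ≠ z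
  map := by
    rintro ⟨⟨n⟩⟩ n' φ z hz θ _ e
    obtain ⟨σ, hσ⟩ := (isSplitEpi_of_epi θ).exists_splitEpi.some
    obtain ⟨k, η, _, w, rfl⟩ := Z.Y.exists_nonDegenerate z
    have e1 : Z.Y.map (σ ≫ φ.unop ≫ η).op w = y := by
      rw [op_comp, op_comp, Functor.map_comp_apply, Functor.map_comp_apply, Quiver.Hom.op_unop,
        ← e, ← Functor.map_comp_apply, ← op_comp, hσ, op_id, Functor.map_id_apply]
    have := Z.Y.mono_of_nonDegenerate ⟨y, hy⟩ _ _ e1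
    obtain rfl : k = m := le_antisymm (hm k w w.2 fun h => hn (e1 ▸ Ret.In.map h _))
      (SimplexCategory.len_le_of_mono (σ ≫ φ.unop ≫ η))
    rw [SimplexCategory.eq_id_of_mono (σ ≫ φ.unop ≫ η), op_id, Functor.map_id_apply] at e1
    exact hz η ‹_› (e1 ▸ rfl)

include hy in
theorem epi_iff {n : SimplexCategory} {θ θ' : n ⟶ ⦋m⦌} [Epi θ']
    (e : Z.Y.map θ'.op y = Z.Y.map θ.op y) : θ' = θ :=
  Z.Y.unique_nonDegenerate_map _ θ' ⟨y, hy⟩ rfl θ ⟨y, hy⟩ e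

/-- the smaller object -/
def ret : Ret X where
  Y := sub Z y hy hn hm
  s := Subcomplex.lift Z.s (by
    rintro n _ ⟨x, rfl⟩ θ _ e
    obtain ⟨σ, hσ⟩ := (isSplitEpi_of_epi θ).exists_splitEpi.some
    have := Ret.In.map (A := Z) ⟨x, e.symm⟩ σ.op
    rw [← Functor.map_comp_apply, ← op_comp, hσ, op_id, Functor.map_id_apply] at this
    exact hn this)
  r := (sub Z y hy hn hm).ι ≫ Z.r
  sr := Z.sr

theorem one : One m (sub Z y hy hn hm).ι := by
  have k : ∀ {n} (θ : (Δ[m] : SSet.{0}).obj n), θ ∈ Set.range (∂Δ[m].ι.app n) ↔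
      ¬ Epi (stdSimplex.objEquiv θ) := fun θ => by
    rw [SimplexCategory.epi_iff_surjective]
    exact ⟨fun ⟨x, e⟩ => e ▸ x.2, fun h => ⟨⟨θ, h⟩, rfl⟩⟩
  refine ⟨Subcomplex.lift (∂Δ[m].ι ≫ sx y) ?_, sx y, po_intro rfl ?_ ?_ ?_⟩
  · rintro n _ ⟨x, rfl⟩ θ _ e
    exact (k _).1 ⟨x, rfl⟩ ((congrArg Epi (epi_iff Z y hy e)).mp ‹_›)
  · exact fun n x θ e => (k θ).2 fun h => x.2 _ h e.symm
  · intro n z
    by_cases h : z ∈ (sub Z y hy hn hm).obj n
    · exact .inl ⟨⟨z, h⟩, rfl⟩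
    · simp only [sub, Set.mem_ofPred_eq, not_forall, ne_eq, not_not] at h
      obtain ⟨θ, -, e⟩ := h
      exact .inr ⟨stdSimplex.objEquiv.symm θ, e⟩
  · intro n θ θ' h _ e
    rw [k, not_not] at h
    exact stdSimplex.objEquiv.injective (epi_iff Z y hy e)

end IND

open IND in
theorem st_ind : St_IND := by
  intro X P h0 h1 Z hZ
  induction hc : Nat.card {y : Z.Y.N // y.simplex ∉ Set.range (Z.s.app _)}
    using Nat.strong_induction_on generalizing Z with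
  | _ c ih =>
  have fin : Finite {y : Z.Y.N // y.simplex ∉ Set.range (Z.s.app _)} := hZ
  rcases isEmpty_or_nonempty {y : Z.Y.N // y.simplex ∉ Set.range (Z.s.app _)} with h | h
  · obtain ⟨g, hg⟩ := ex_factor Z.s (𝟙 _) fun n x hx => by_contra fun k => h.1 ⟨N.mk x hx, k⟩
    exact h0 Z ⟨g, by rw [← cancel_mono Z.s, Category.assoc, hg]; simp, hg⟩
  obtain ⟨⟨⟨⟨y⟩, hy⟩, hn⟩, hm⟩ := Finite.exists_max
    fun y : {y : Z.Y.N // y.simplex ∉ Set.range (Z.s.app _)} => y.1.dim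
  have hm' : RelDim _ Z.s := fun n x hx k => hm ⟨N.mk x hx, k⟩
  let Z' := ret Z y hy hn hm'
  let f : {y : Z'.Y.N // y.simplex ∉ Set.range (Z'.s.app _)} →
      {y : Z.Y.N // y.simplex ∉ Set.range (Z.s.app _)} := fun w =>
    ⟨N.mk w.1.simplex.1 ((Subcomplex.mem_nonDegenerate_iff _ _).1 w.1.nonDegenerate),
      fun ⟨x, e⟩ => w.2 ⟨x, Subtype.ext e⟩⟩
  have inj : Function.Injective f := by
    rintro ⟨⟨⟨a⟩, ha⟩, _⟩ ⟨⟨⟨b⟩, hb⟩, _⟩ e
    have e1 := congrArg (fun w => w.1.toS) e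
    obtain rfl := congrArg S.dim e1
    obtain rfl : a = b := Subtype.ext ((S.ext_iff _ _).1 e1)
    rfl
  have f' : Z'.IsFinite := Finite.of_injective f inj
  refine h1 Z' Z ⟨(sub Z y hy hn hm').ι, rfl, rfl⟩ _ f' hZ (one Z y hy hn hm')
    (ih _ ?_ Z' f' rfl)
  rw [← hc]
  refine not_le.1 fun k => ?_
  obtain ⟨w, e⟩ := (inj.bijective_of_nat_card_le k).2 ⟨N.mk y hy, hn⟩
  have key : ∀ (d : ℕ) (a : Z.Y _⦋d⦌), S.mk a = S.mk y → a ∉ (sub Z y hy hn hm').obj _ := by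
    intro d a e1 ha
    obtain rfl := congrArg S.dim e1
    exact ha (𝟙 _) inferInstance (by simpa using ((S.ext_iff _ _).1 e1).symm)
  exact key _ _ (congrArg (fun w => w.1.toS) e) w.1.simplex.2

end Pool.Agent.AZero
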