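import Pool.Agent.Lib.AZero.Blue

/-! The nerve of a group is a Kan complex. -/

noncomputable section

namespace Pool.Agent.AZero

open CategoryTheory Limits Simplicial SSet MonoidalCategory CartesianMonoidalCategory
  HomotopicalAlgebra Opposite
open scoped SSet.modelCategoryQuillen

section kan

variable {Γ : Type} [Group Γ] {m : ℕ} {i : Fin (m + 2)}

open Classical in
/-- the label of an edge of the horn -/
def hornLab (u : (Λ[m + 1, i] : SSet.{0}) ⟶ BG Γ) (a b : Fin (m + 2)) : Γ :=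
  if h : ∃ z : (Λ[m + 1, i] : SSet.{0}) _⦋1⦌, z.1 0 = a ∧ z.1 1 = b then
    lab (u.app _ h.choose) else 1

theorem hornLab_edge (u : (Λ[m + 1, i] : SSet.{0}) ⟶ BG Γ)
    (z : (Λ[m + 1, i] : SSet.{0}) _⦋1⦌) : hornLab u (z.1 0) (z.1 1) = lab (u.app _ z) := by
  have h : ∃ z' : (Λ[m + 1, i] : SSet.{0}) _⦋1⦌, z'.1 0 = z.1 0 ∧ z'.1 1 = z.1 1 := ⟨z, rfl, rfl⟩
  have e : h.choose = z := Subtype.ext (SSet.stdSimplex.ext _ _ fun j => by
    fin_cases j
    · exact h.choose_spec.1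
    · exact h.choose_spec.2)
  rw [hornLab, dif_pos h, e]

theorem hornLab_eq (u : (Λ[m + 1, i] : SSet.{0}) ⟶ BG Γ) {n : ℕ}
    (y : (Λ[m + 1, i] : SSet.{0}) _⦋n⦌) (s t : Fin (n + 1)) (h : s ≤ t) :
    hornLab u (y.1 s) (y.1 t) = (pot (u.app _ y) s)⁻¹ * pot (u.app _ y) t := by
  have e := hornLab_edge u ((Λ[m + 1, i] : SSet.{0}).map (SimplexCategory.mkOfLe s t h).op y)
  rw [nat_ap, lab, pot_map] at e
  exact e

/-- the potentials of the filler -/
def hornPot (u : (Λ[m + 1, i] : SSet.{0}) ⟶ BG Γ) (j : Fin (m + 2)) : Γ :=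
  if i ≤ j then hornLab u i j else (hornLab u j i)⁻¹

theorem hornPot_face (u : (Λ[m + 1, i] : SSet.{0}) ⟶ BG Γ) (k : Fin (m + 2)) (hk : k ≠ i)
    (s : Fin (m + 1)) (hs : k.succAbove s = i) (t : Fin (m + 1)) :
    hornPot u (k.succAbove t) =
      (pot (u.app _ (horn.face i k hk)) s)⁻¹ * pot (u.app _ (horn.face i k hk)) t := by
  have v : ∀ j, (horn.face.{0} i k hk).1 j = k.succAbove j := fun j => rfl
  rw [hornPot]
  split_ifs with h
  · have := hornLab_eq u (horn.face i k hk) s t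
      (Fin.succAbove_le_succAbove_iff.1 (hs.le.trans h))
    rwa [v, v, hs] at this
  · have := hornLab_eq u (horn.face i k hk) t s
      (Fin.succAbove_le_succAbove_iff.1 ((not_le.1 h).le.trans hs.ge))
    rw [v, v, hs] at this
    rw [this]
    group

end kan

theorem st_kan : St_KAN := fun Γ _ => by
  refine fib_iff.2 fun m i => lp_of_ex fun u v _ =>
    ⟨sx (mkS (hornPot u)), horn.hom_ext _ _ fun k hk => ?_, terminal.hom_ext _ _⟩
  obtain ⟨s, hs⟩ := Fin.exists_succAbove_eq hk.symm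
  refine pot_ext fun t => ?_
  refine (pot_mkS (n := op ⦋m⦌) (fun j => hornPot u (k.succAbove j)) t).trans ?_
  rw [hornPot_face u k hk s hs, hornPot_face u k hk s hs, pot_zero]
  group

end Pool.Agent.AZero
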