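import Pool.Agent.Lib.AZero.Blue2

/-! The nerve of a transport groupoid is a Kan complex. -/

noncomputable section

namespace Pool.Agent.AZero

open CategoryTheory Limits Simplicial SSet MonoidalCategory CartesianMonoidalCategory
  HomotopicalAlgebra Opposite
open scoped SSet.modelCategoryQuillen

section kant

variable {G S : Type} [Group G] [MulAction G S] {n : SimplexCategoryᵒᵖ}

theorem kant_back (x : (BT G S).obj n) (j : Fin (n.unop.len + 1)) :
    (x.obj j).back = (pot ((BT.pr G S).app n x) j)⁻¹ • (x.obj 0).back := by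
  rw [pot, inv_inv]
  exact (x.map (homOfLE (Fin.zero_le j))).2.symm

theorem kant_ext {x y : (BT G S).obj n} (h : (BT.pr G S).app n x = (BT.pr G S).app n y)
    (s : Fin (n.unop.len + 1)) (hs : (x.obj s).back = (y.obj s).back) : x = y := by
  have e0 : (x.obj 0).back = (y.obj 0).back := by
    rw [kant_back x, kant_back y, h] at hs
    exact smul_left_cancel _ hs
  have e : ∀ j, x.obj j = y.obj j := fun j => by
    rw [← ActionCategory.back_coe (x.obj j), ← ActionCategory.back_coe (y.obj j), kant_back x,
      kant_back y, h, e0]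
  refine CategoryTheory.Functor.hext e fun j k f => ?_
  have e1 : (x.map f).1 = (y.map f).1 :=
    (map_eq_pot ((BT.pr G S).app n x) f).trans
      (by rw [h]; exact (map_eq_pot ((BT.pr G S).app n y) f).symm)
  generalize x.map f = a at e1
  generalize y.map f = b at e1
  have ej := e j
  have ek := e k
  generalize x.obj j = p at a ej e1
  generalize x.obj k = q at a ek e1
  subst ej ek
  exact heq_of_eq (Subtype.ext e1)

/-- the lift of a simplex of the nerve of the group -/
def kantLift (y : (BG G).obj n) (s : S) : (BT G S).obj n where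
  obj j := ((pot y j)⁻¹ • s : S)
  map {j k} f := ⟨y.map f, by
    change (show G from y.map f) • ((pot y j)⁻¹ • s) = (pot y k)⁻¹ • s
    rw [map_eq_pot, smul_smul, mul_inv_cancel_right]⟩
  map_id j := Subtype.ext (y.map_id j)
  map_comp f g := Subtype.ext (y.map_comp f g)

theorem kant_fib (G S : Type) [Group G] [MulAction G S] : Fib (BT.pr G S) := by
  refine fib_iff.2 fun m i => lp_of_ex fun u v w => ?_
  let vt := fun (k : Fin (m + 2)) (hk : k ≠ i) (s : Fin (m + 1)) =>
    (Λ[m + 1, i] : SSet.{0}).map (SimplexCategory.const ⦋0⦌ ⦋m⦌ s).op (horn.face i k hk)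
  obtain ⟨k0, hk0⟩ := exists_ne i
  obtain ⟨s0, hs0⟩ := Fin.exists_succAbove_eq hk0.symm
  let l := sx (kantLift (el v) (pot (el v) i • ((u.app _ (vt k0 hk0 s0)).obj 0).back))
  have e : l ≫ BT.pr G S = v := (sx_comp _ _).trans (sx_el v)
  refine ⟨l, horn.hom_ext _ _ fun k hk => ?_, e⟩
  obtain ⟨s, hs⟩ := Fin.exists_succAbove_eq hk.symm
  refine kant_ext ?_ s ?_
  · rw [← comp_ap, ← comp_ap u, w, Category.assoc, e]
  · have e1 : vt k0 hk0 s0 = vt k hk s :=
      Subtype.ext (SSet.stdSimplex.ext _ _ fun _ => hs0.trans hs.symm)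
    change (pot (el v) (k.succAbove s))⁻¹ • pot (el v) i • _ = _
    rw [hs, inv_smul_smul, e1, nat_ap]
    rfl

end kant

theorem st_kant (hK : St_KAN) : St_KANT := fun G S _ _ => by
  have h := (kant_fib G S).comp (hK G)
  rwa [terminal.comp_from] at h

end Pool.Agent.AZero
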