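import Pool.Agent.Lib.AZero.Blue

/-! The reduced subobject is fibrant, and finitely many simplices can be killed by cells. -/

noncomputable section

namespace Pool.Agent.AZero

open CategoryTheory Limits Simplicial SSet MonoidalCategory CartesianMonoidalCategory
  HomotopicalAlgebra Opposite
open scoped SSet.modelCategoryQuillen

theorem st_efib : St_EFIB := fun X W n hW => by
  refine (Ret.eilR_red n W).fib fun m hm i => lp_of_ex fun u v w => ?_
  obtain ⟨l, h1, h2⟩ := ex_lift (fib_iff.1 hW m i) (u ≫ (W.eil n).ι) v w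
  have hl : Subcomplex.range l ≤ W.eil n := by
    rintro k _ ⟨z, rfl⟩ d hd θ
    have hz : (Δ[m + 1] : SSet.{0}).map θ z ∈ Λ[m + 1, i].obj (op ⦋d⦌) := by
      rw [horn_obj_eq_univ i d (by omega)]
      trivial
    rw [← nat_ap l θ z]
    have e : l.app _ ((Δ[m + 1] : SSet.{0}).map θ z) = (u.app _ ⟨_, hz⟩).1 :=
      congr_ap h1 _ ⟨_, hz⟩
    rw [e]
    exact Ret.in_of_eil hd (u.app _ ⟨_, hz⟩).2
  exact ⟨Subcomplex.lift l hl, (cancel_mono (W.eil n).ι).1 h1, h2⟩

theorem st_kill (hHB : St_HB) (hPH : St_PH) : St_KILL := fun X W n ι _ y hW => by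
  obtain ⟨a, u, hu, sq⟩ := hHB n (Fin.last _)
  let x : ι → (Δ[n + 1] ⟶ X) := fun l => sx (X.σ (Fin.last n) (W.r.app _ (y l)))
  have hx : ∀ l, stdSimplex.δ (Fin.last _) ≫ x l = sx (y l) ≫ W.r := fun l => by
    rw [δ_sx, X.δ_comp_σ_succ'_apply (Fin.succ_last _).symm, sx_comp]
  have w : ∀ l, a ≫ Λ[n + 1, Fin.last _].ι ≫ x l ≫ W.s = ∂Δ[n].ι ≫ sx (y l) := fun l => by
    rw [← hu, Category.assoc, sq.w_assoc, boundary.ι_ι_assoc, reassoc_of% hx l,
      ← Category.assoc, hW.eq]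
  obtain ⟨B, i, e, hc, he⟩ := W.ex_cells (fun l => sq.desc _ _ (w l)) x fun l => sq.hom_ext
    (by rw [sq.inl_desc_assoc, reassoc_of% hu, Category.assoc, Category.assoc, W.sr,
      Category.comp_id])
    (by rw [sq.inr_desc_assoc, boundary.ι_ι_assoc, hx])
  refine ⟨B, i, hc.att, hc.relDim, fun m hm => hc.surj_lt hm, fun l => ?_⟩
  have e1 : B.Y.δ (Fin.last _) (el (e l)) = i.f.app _ (y l) := by
    rw [← el_δ, ← boundary.ι_ι, Category.assoc, ← hc.comm, sq.inr_desc_assoc, el_comp, el_sx]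
  have e2 : ∀ j, j ≠ Fin.last _ → B.In (B.Y.δ j (el (e l))) := fun j hj => by
    rw [← el_δ, ← horn.ι_ι _ j hj, ← hu, Category.assoc, Category.assoc, ← hc.comm,
      sq.inl_desc_assoc, Category.assoc, Category.assoc, i.hs, ← Category.assoc,
      ← Category.assoc, el_comp]
    exact ⟨_, rfl⟩
  refine ⟨_, e2 (Fin.last n).castSucc (Fin.castSucc_ne_last _), ?_⟩
  rw [← e1]
  refine hPH X B n _ (hW.of_surj i fun m hm => hc.surj_lt (by omega)) ?_
    fun j => e2 _ (Fin.castSucc_ne_last _)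
  rw [e1, i.r_f, ← el_comp, he, el_sx]

end Pool.Agent.AZero
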