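import Pool.Agent.Lib.AZero.Blue

/-! Deformation of a map into the reduced subobject. -/

noncomputable section

namespace Pool.Agent.AZero

open CategoryTheory Limits Simplicial SSet MonoidalCategory CartesianMonoidalCategory
  HomotopicalAlgebra Opposite
open scoped SSet.modelCategoryQuillen

theorem LD.in_skel {X B : SSet.{0}} {W : Ret X} {n : ℕ} (hW : W.Red n) (f : B ⟶ W.Y)
    {m : SimplexCategoryᵒᵖ} {x : B.obj m} (hx : x ∈ (B.skeleton n).obj m) :
    W.In (f.app m x) := by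
  simp only [skeleton, OrderHom.coe_mk, Subfunctor.iSup_obj, Set.iUnion_coe_set,
    Set.mem_iUnion, exists_prop] at hx
  obtain ⟨⟨i, hi⟩, y, -, θ, rfl⟩ := hx
  rw [nat_ap]
  exact (hW i hi _).map θ

open relativeCellComplexOfMono in
theorem st_ld : St_LD := by
  intro X A B W n j f hF hW hj hA hN
  let a : Cell j n → ((∂Δ[n] : SSet.{0}) ⟶ skeletonOfMono j n) := fun c =>
    Subcomplex.lift (∂Δ[n].ι ≫ c.map) (by simp [Subcomplex.range_comp, Subcomplex.image_le_iff])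
  let e : Cell j n → (Δ[n] ⟶ (skeletonOfMono j (n + 1) : SSet.{0})) := fun c =>
    Subcomplex.lift c.map c.range_map_le
  have hc : Cells n (r j n) a e := isPushout j n
  choose y hy h h1 h2 h3 h4 using fun c : Cell j n => hN c.simplex c.nonDegenerate c.notMem
  have ea : ∀ c, a c ≫ (skeletonOfMono j n).ι ≫ f = ∂Δ[n].ι ≫ sx (f.app _ c.simplex) :=
    fun c => by rw [← sx_comp]; rfl
  have ee : ∀ c, e c ≫ (skeletonOfMono j (n + 1)).ι ≫ f = sx (f.app _ c.simplex) :=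
    fun c => by rw [← sx_comp]; rfl
  have er : r j n ≫ (skeletonOfMono j (n + 1)).ι = (skeletonOfMono j n).ι := rfl
  obtain ⟨u, u1, u2⟩ := hc.hdesc (fst _ _ ≫ (skeletonOfMono j n).ι ≫ f) h fun c => by
    rw [whiskerRight_fst_assoc, ea, h4]
  obtain ⟨l, l1, l2, l3⟩ := hep0 (skeletonOfMono j (n + 1)).ι hF f u (fst _ _ ≫ f ≫ W.r)
    (hc.ext (by rw [← ι₀_comp_assoc, u1, ι₀_fst_assoc, reassoc_of% er])
      fun c => by rw [← ι₀_comp_assoc, u2, h1, ee])
    (hc.hext (by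
        rw [reassoc_of% u1, whiskerRight_fst_assoc, whiskerRight_fst_assoc, reassoc_of% er])
      fun c => by
        rw [reassoc_of% u2, h3, whiskerRight_fst_assoc, whiskerRight_fst_assoc, reassoc_of% ee])
    (ι₀_fst_assoc _ _)
  refine ⟨l, l1, ?_, l3, ?_⟩
  · rintro m _ ⟨z, rfl⟩ k hk θ
    rw [← nat_ap]
    have hz : B.map θ z ∈ (skeletonOfMono j (n + 1)).obj (op ⦋k⦌) := by
      rw [skeletonOfMono_obj_eq_top j hk]
      trivial
    have e1 : (skeletonOfMono j (n + 1)).ι ≫ ι₁ ≫ l = ι₁ ≫ u := by rw [← ι₁_comp_assoc, l2]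
    change W.In (((skeletonOfMono j (n + 1)).ι ≫ ι₁ ≫ l).app _ ⟨_, hz⟩)
    rw [e1]
    rcases hc.surj ⟨_, hz⟩ with ⟨x, hx⟩ | ⟨c, φ, -, hx⟩
    · rw [← hx, ← comp_ap, ← ι₁_comp_assoc, u1, ι₁_fst_assoc]
      rcases x with ⟨x, ⟨w, rfl⟩ | hx'⟩
      · exact Ret.in_of_eil hk (hA _ ⟨w, rfl⟩)
      · exact LD.in_skel hW f hx'
    · rw [← hx, nat_ap, ← el_comp, ← ι₁_comp_assoc, u2, h2, el_sx]
      exact (hy c).map _
  · let j₀ : A ⟶ skeletonOfMono j n := Subcomplex.lift j le_sup_left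
    have e1 : j ▷ Δ[1] = j₀ ▷ _ ≫ r j n ▷ _ ≫ (skeletonOfMono j (n + 1)).ι ▷ _ := rfl
    rw [e1, Category.assoc, Category.assoc, l2, u1, whiskerRight_fst_assoc]
    rfl

end Pool.Agent.AZero
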