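import Pool.Agent.Lib.AZero.Blue2

/-! Induction along a map of the base preserves finite domination. -/

noncomputable section

namespace Pool.Agent.AZero

open CategoryTheory Limits Simplicial SSet Opposite

namespace PFD

variable {X X' : SSet.{0}} {f : X ⟶ X'}

/-- the map of induced objects given by a map of retractive objects -/
theorem ind {A A' : Ret X} {B B' : Ret X'} (g : A.Hom A') {u : A.Y ⟶ B.Y} {u' : A'.Y ⟶ B'.Y}
    (h1 : IsPushout A.s f u B.s) (h2 : u ≫ B.r = A.r ≫ f) (k1 : IsPushout A'.s f u' B'.s)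
    (k2 : u' ≫ B'.r = A'.r ≫ f) : ∃ g' : B.Hom B', IsPushout g.f u u' g'.f := by
  have w : A.s ≫ g.f ≫ u' = f ≫ B'.s := by rw [reassoc_of% g.hs, k1.w]
  refine ⟨⟨h1.desc (g.f ≫ u') B'.s w, h1.inr_desc .., h1.hom_ext ?_ ?_⟩,
    IsPushout.of_left ?_ (h1.inl_desc ..).symm h1⟩
  · rw [h1.inl_desc_assoc, Category.assoc, k2, reassoc_of% g.hr, h2]
  · rw [h1.inr_desc_assoc, B'.sr, B.sr]
  · rw [g.hs, h1.inr_desc]
    exact k1

theorem an {A A' : Ret X} {B B' : Ret X'} (h : A.Push f B) (k : A'.Push f B') (e : A.AnE A') :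
    B.AnE B' :=
  let ⟨_, h1, h2⟩ := h; let ⟨_, k1, k2⟩ := k; let ⟨g, hg⟩ := e
  let ⟨g', sq⟩ := ind g h1 h2 k1 k2
  ⟨g', An.po sq.flip hg⟩

theorem nd_of_app {A B : SSet.{0}} (f : A ⟶ B) {n : ℕ} {x : A _⦋n⦌}
    (h : f.app _ x ∈ B.nonDegenerate n) : x ∈ A.nonDegenerate n := by
  rw [mem_nonDegenerate_iff_notMem_degenerate] at h ⊢
  exact fun hx => h (degenerate_app_apply hx f)

theorem fin {A : Ret X} {B : Ret X'} (h : A.Push f B) (hA : A.IsFinite) : B.IsFinite := by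
  obtain ⟨u, sq, -⟩ := h
  have : Finite {y : A.Y.N // y.simplex ∉ Set.range (A.s.app _)} := hA
  have hf := Set.finite_range fun y : {y : A.Y.N // y.simplex ∉ Set.range (A.s.app _)} =>
    S.map u y.1.toS
  refine Set.finite_univ_iff.1 (Set.Finite.of_finite_image (f := fun y => y.1.toS)
    (hf.subset ?_) fun y _ y' _ e => Subtype.ext ((N.ext_iff _ _).2 e))
  rintro _ ⟨⟨⟨⟨y⟩, hy⟩, hn⟩, -, rfl⟩
  rcases po_surj sq.flip y with ⟨x, rfl⟩ | ⟨z, rfl, hz⟩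
  · exact (hn ⟨x, rfl⟩).elim
  · exact ⟨⟨N.mk z (nd_of_app _ hy), hz⟩, rfl⟩

end PFD

theorem st_pfd (hC : St_COSP) (hW : St_WEQ) : St_PFD := by
  rintro X X' f A B hX ⟨u, h1, h2⟩ ⟨U, i, p, hU, e⟩
  obtain ⟨T, Z, a1, a2, hZ⟩ := (hC X hX).2 U hU
  obtain ⟨U', hU'⟩ := U.ex_push f
  obtain ⟨T', hT'⟩ := T.ex_push f
  obtain ⟨Z', hZ'⟩ := Z.ex_push f
  obtain ⟨g1, b1⟩ := PFD.an hU' hT' a1
  obtain ⟨g2, b2⟩ := PFD.an hZ' hT' a2
  obtain ⟨v, k1, k2⟩ := hU'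
  obtain ⟨i', s1⟩ := PFD.ind i h1 h2 k1 k2
  obtain ⟨p', s2⟩ := PFD.ind p k1 k2 h1 h2
  refine ⟨U', i', p', ⟨Z', PFD.fin hZ' hZ, .trans _ T' _ (.rel _ _ ⟨g1, hW _ _ _ b1⟩)
    (.symm _ _ (.rel _ _ ⟨g2, hW _ _ _ b2⟩))⟩, h1.hom_ext ?_ ?_⟩
  · rw [← reassoc_of% s1.w, ← s2.w, reassoc_of% e, Category.comp_id]
  · rw [reassoc_of% i'.hs, p'.hs, Category.comp_id]

end Pool.Agent.AZero
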