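import Pool.Agent.Lib.AZero.Blue

/-! A simplex gives a homotopy between its two last faces. -/

noncomputable section

namespace Pool.Agent.AZero

open CategoryTheory Limits Simplicial SSet MonoidalCategory CartesianMonoidalCategory
  HomotopicalAlgebra Opposite

namespace PHB

/-- the vertex function of the collapse of the prism -/
def pv {n : ℕ} (a : Fin (n + 1)) (b : Fin 2) : Fin (n + 2) :=
  ⟨if a.val = n then n + b.val else a.val, by have := a.2; have := b.2; split_ifs <;> omega⟩

theorem pv_val {n : ℕ} (a : Fin (n + 1)) (b : Fin 2) :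
    (pv a b).val = if a.val = n then n + b.val else a.val := rfl

/-- the collapse of the prism onto a simplex -/
def phi (n : ℕ) : (Δ[n] ⊗ Δ[1] : SSet.{0}) ⟶ Δ[n + 1] where
  app m := ↾fun x => stdSimplex.objMk
    ⟨fun k => pv (stdSimplex.asOrderHom x.1 k) (stdSimplex.asOrderHom x.2 k), fun k l h => by
      have h1 : (stdSimplex.asOrderHom x.1 k).val ≤ (stdSimplex.asOrderHom x.1 l).val :=
        (stdSimplex.asOrderHom x.1).monotone h
      have h2 : (stdSimplex.asOrderHom x.2 k).val ≤ (stdSimplex.asOrderHom x.2 l).val :=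
        (stdSimplex.asOrderHom x.2).monotone h
      have h3 := (stdSimplex.asOrderHom x.1 l).2
      rw [Fin.le_def, pv_val, pv_val]
      split_ifs <;> omega⟩
  naturality _ _ _ := rfl

theorem hom_ext' {K : SSet.{0}} {n : ℕ} {f g : K ⟶ Δ[n]}
    (h : ∀ m (x : K.obj m) k, (stdSimplex.asOrderHom (f.app m x) k).val =
      (stdSimplex.asOrderHom (g.app m x) k).val) : f = g := by
  ext m x : 4
  apply stdSimplex.objEquiv.injective
  ext k : 3
  exact Fin.ext (h m x k)

theorem i0 (n : ℕ) : ι₀ ≫ phi n = stdSimplex.δ (Fin.last (n + 1)) := hom_ext' fun m x k => by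
  change (pv (stdSimplex.asOrderHom x k) 0).val =
    ((Fin.last (n + 1)).succAbove (stdSimplex.asOrderHom x k)).val
  rw [Fin.succAbove_last, pv_val]
  split_ifs with h
  · exact h.symm
  · rfl

theorem i1 (n : ℕ) : ι₁ ≫ phi n = stdSimplex.δ (Fin.last n).castSucc := hom_ext' fun m x k => by
  change (pv (stdSimplex.asOrderHom x k) 1).val =
    ((Fin.last n).castSucc.succAbove (stdSimplex.asOrderHom x k)).val
  generalize stdSimplex.asOrderHom x k = a
  have := a.2
  rw [pv_val, Fin.succAbove]
  split_ifs with h1 h2 h2 <;> simp [Fin.lt_def] at h2 ⊢ <;> omega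

theorem ps (n : ℕ) : phi n ≫ stdSimplex.σ (Fin.last n) = fst _ _ := hom_ext' fun m x k => by
  change ((Fin.last n).predAbove
    (pv (stdSimplex.asOrderHom x.1 k) (stdSimplex.asOrderHom x.2 k))).val =
    (stdSimplex.asOrderHom x.1 k).val
  generalize stdSimplex.asOrderHom x.1 k = a
  generalize stdSimplex.asOrderHom x.2 k = b
  have := a.2
  have := b.2
  have e := pv_val a b
  rw [Fin.predAbove]
  split_ifs with h1
  · have h2 : n < (pv a b).val := h1
    rw [Fin.val_pred]
    split_ifs at e <;> omega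
  · have h2 : ¬ n < (pv a b).val := h1
    rw [Fin.coe_castPred]
    split_ifs at e <;> omega

theorem in_face {X : SSet.{0}} {W : Ret X} {n : ℕ} (u : W.Y _⦋n + 1⦌) (j : Fin (n + 2))
    (hj : W.In (W.Y.δ j u)) {m : SimplexCategoryᵒᵖ} (θ : (Δ[n + 1] : SSet.{0}).obj m)
    (h : ∀ k, stdSimplex.asOrderHom θ k ≠ j) : W.In ((sx u).app m θ) := by
  obtain ⟨g, hg⟩ := SimplexCategory.eq_comp_δ_of_not_surjective' (stdSimplex.objEquiv θ) j h
  rw [sx_app, hg, op_comp, Functor.map_comp_apply]
  exact hj.map _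

end PHB

open PHB

theorem st_ph : St_PH := fun X W n u hW hr hj => by
  have e : (phi n ≫ sx u) ≫ W.r = fst _ _ ≫ sx (W.Y.δ (Fin.last _) u) ≫ W.r := by
    rw [Category.assoc, sx_comp, hr, ← σ_sx, reassoc_of% ps n, sx_comp]
  refine ⟨phi n ≫ sx u, by rw [reassoc_of% i0 n, δ_sx], by rw [reassoc_of% i1 n, δ_sx], e, ?_⟩
  ext m x : 4
  obtain ⟨⟨a, ha⟩, b⟩ := x
  change (sx u).app m ((phi n).app m (a, b)) = (sx (W.Y.δ (Fin.last _) u)).app m a
  obtain ⟨k, hk⟩ : ∃ k, ∀ l, stdSimplex.asOrderHom a l ≠ k := by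
    by_contra hc
    push Not at hc
    exact ha hc
  by_cases h : k.val = n
  · rw [← δ_sx]
    change _ = (sx u).app m ((stdSimplex.δ (Fin.last (n + 1))).app m a)
    congr 1
    apply stdSimplex.objEquiv.injective
    ext l : 3
    change pv (stdSimplex.asOrderHom a l) (stdSimplex.asOrderHom b l) =
      (Fin.last (n + 1)).succAbove (stdSimplex.asOrderHom a l)
    rw [Fin.succAbove_last]
    apply Fin.ext
    rw [pv_val, if_neg fun c => hk l (Fin.ext (c.trans h.symm))]
    rfl
  · have hn : k.val < n := by have := k.2; omega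
    refine Ret.In.ext (in_face u _ (hj ⟨k.val, hn⟩) _ fun l c => ?_) ?_ (congr_ap e m (a, b))
    · have c' : (pv (stdSimplex.asOrderHom a l) (stdSimplex.asOrderHom b l)).val = k.val :=
        congrArg Fin.val c
      rw [pv_val] at c'
      split_ifs at c' with h1
      · omega
      · exact hk l (Fin.ext c')
    · obtain ⟨n, rfl⟩ : ∃ n', n = n' + 1 := ⟨n - 1, by omega⟩
      exact in_face _ k (hW n (by omega) _) a hk

end Pool.Agent.AZero
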