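import Pool.Agent.Lib.AZero.Blue2

/-! Induced objects: points, and homotopy invariance. -/

noncomputable section

namespace Pool.Agent.AZero

open CategoryTheory Limits Simplicial SSet MonoidalCategory CartesianMonoidalCategory
  HomotopicalAlgebra Opposite
open scoped SSet.modelCategoryQuillen

theorem st_ppt : St_PPT := fun _ _ f x =>
  ⟨coprod.map f (𝟙 _), IsPushout.of_coprod_inl_with_id f _, coprod.hom_ext
    (by simp [Ret.point]) (by simp [Ret.point])⟩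

theorem phom_end {X K L : SSet.{0}} {T V W : Ret X} {j : K ⟶ L} [Mono j]
    {G : K ⊗ Δ[1] ⟶ T.Y} {i : T.Hom V} {c : L ⊗ Δ[1] ⟶ V.Y} (sq : IsPushout G (j ▷ _) i.f c)
    (e : Fin 2) {k : T.Hom W} {b : L ⟶ W.Y} (sq' : IsPushout (ιe e ≫ G) j k.f b)
    (hb : (ιe e ≫ c) ≫ V.r = b ≫ W.r) : W.AnE V := by
  have n : (ιe e : K ⟶ _) ≫ j ▷ _ = j ≫ ιe e := rfl
  obtain ⟨f, h1, h2⟩ := Ret.ex_desc sq' i (ιe e ≫ c)
    (by rw [Category.assoc, sq.w, reassoc_of% n]) hb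
  refine ⟨f, fun _ _ p hp => lp_of_ex fun u v w => ?_⟩
  obtain ⟨l, e1, e2, e3⟩ := hepe e j ((fibration_iff p).2 hp) (b ≫ u) (G ≫ k.f ≫ u) (c ≫ v)
    (by simpa using sq'.w =≫ u)
    (by rw [Category.assoc, Category.assoc, w, reassoc_of% h1, reassoc_of% sq.w])
    (by rw [Category.assoc, w, reassoc_of% h2])
  refine ⟨sq.desc (k.f ≫ u) l e2.symm, sq'.hom_ext ?_ ?_, sq.hom_ext ?_ ?_⟩
  · rw [reassoc_of% h1, sq.inl_desc]
  · rw [reassoc_of% h2, sq.inr_desc, e1]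
  · rw [sq.inl_desc_assoc, Category.assoc, w, reassoc_of% h1]
  · rw [sq.inr_desc_assoc, e3]

theorem st_phom : St_PHOM := by
  rintro X X' h A B₀ B₁ ⟨u₀, s₀, h₀⟩ ⟨u₁, s₁, h₁⟩
  obtain ⟨V, i, c, sq, hc⟩ := (Ret.zero X').ex_att h (A.s ▷ _) (A.r ▷ _ ≫ h) (by
    rw [← comp_whiskerRight_assoc, A.sr, id_whiskerRight, Category.id_comp]
    exact Category.comp_id _)
  exact ⟨V, phom_end sq 0 (k := B₀.fromZero) s₀.flip (by rw [Category.assoc, hc, h₀]; rfl),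
    phom_end sq 1 (k := B₁.fromZero) s₁.flip (by rw [Category.assoc, hc, h₁]; rfl)⟩

end Pool.Agent.AZero
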