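import Pool.Agent.Lib.AZero.B_PFD

/-! The map of Grothendieck groups induced by a map of the base. -/

noncomputable section

namespace Pool.Agent.AZero

open CategoryTheory Limits Simplicial SSet Opposite

theorem PFD.cof {X X' : SSet.{0}} {f : X ⟶ X'} {A B Q : Ret X} {A' B' Q' : Ret X'}
    (hA : A.Push f A') (hB : B.Push f B') (hQ : Q.Push f Q') (h : A.Cofib B Q) :
    A'.Cofib B' Q' := by
  obtain ⟨u, a1, a2⟩ := hA
  obtain ⟨v, b1, b2⟩ := hB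
  obtain ⟨w, c1, c2⟩ := hQ
  obtain ⟨i, q, hi, sq⟩ := h
  obtain ⟨i', s1⟩ := PFD.ind i a1 a2 b1 b2
  obtain ⟨q', s2⟩ := PFD.ind q b1 b2 c1 c2
  refine ⟨i', q', po_mono s1.flip, IsPushout.of_top ?_ (a1.hom_ext ?_ ?_) s1⟩
  · rw [a2, ← s2.w]
    exact sq.paste_vert c1
  · rw [← reassoc_of% s1.w, ← s2.w, reassoc_of% sq.w, reassoc_of% a2, c1.w]
  · rw [reassoc_of% i'.hs, q'.hs, reassoc_of% A'.sr]

theorem st_pmap (hC : St_COSP) (hW : St_WEQ) (hD : St_FDC) (hP : St_PFD) : St_PMAP := by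
  intro X X' f hX
  choose P hp using fun A : Obj X => A.1.ex_push f
  let c : Obj X → Obj X' := fun A => ⟨P A, hP _ _ f _ _ hX (hp A) A.2⟩
  have an : ∀ A B : Obj X, A.1.AnE B.1 → cls (c A) = cls (c B) := fun A B h =>
    cls_an hW (PFD.an (hp A) (hp B) h)
  refine ⟨QuotientAddGroup.lift _ (FreeAbelianGroup.lift fun A => cls (c A))
    ((AddSubgroup.closure_le _).2 ?_), fun A B h => (FreeAbelianGroup.lift_apply_of _ _).trans
      (cls_an hW (PFD.an (hp A) h (.refl _)))⟩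
  rintro _ (⟨A, B, k, rfl⟩ | ⟨A, B, Q, k, rfl⟩)
  · obtain ⟨T, k1, k2⟩ := (hC _ hX).1 _ _ k
    have fT : T.FinDom := let ⟨g, hg⟩ := k1; hD _ hX _ _ g A.2 (.inl hg)
    simp [an A ⟨T, fT⟩ k1, an B ⟨T, fT⟩ k2]
  · simp [cls_cofib (A := c A) (B := c B) (Q := c Q) (PFD.cof (hp A) (hp B) (hp Q) k)]

end Pool.Agent.AZero
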