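import Pool.Agent.Lib.AZero.Blue

/-! Factorisations by the small object argument, and lifting in bounded relative dimension. -/

noncomputable section

namespace Pool.Agent.AZero

open CategoryTheory Limits Simplicial SSet MonoidalCategory CartesianMonoidalCategory
  HomotopicalAlgebra Opposite MorphismProperty
open scoped SSet.modelCategoryQuillen

namespace REPL

/-- the horn inclusions in dimensions greater than `k` -/
def JK (k : ℕ) : MorphismProperty SSet.{0} :=
  ⨆ m : ℕ, MorphismProperty.ofHoms.{0} fun i : Fin (m + k + 2) => Λ[m + k + 1, i].ι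

theorem mem_JK (k m : ℕ) (i : Fin (m + k + 2)) : JK k Λ[m + k + 1, i].ι := by
  simp only [JK, iSup_iff]
  exact ⟨m, ⟨i⟩⟩

attribute [local instance] Cardinal.fact_isRegular_aleph0 Cardinal.orderBotAleph0OrdToType

theorem hasSOA (k : ℕ) : HasSmallObjectArgument.{0} (JK k) := by
  have h1 : MorphismProperty.IsSmall.{0} (JK k) := isSmall_iSup ..
  have h2 : IsCardinalForSmallObjectArgument (JK k) Cardinal.aleph0.{0} :=
    { preservesColimit := fun {A B X Y} i hi f hf => by
        have : IsFinitelyPresentable.{0} A := by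
          simp only [JK, iSup_iff] at hi
          obtain ⟨n, ⟨i⟩⟩ := hi
          infer_instance
        infer_instance }
  exact ⟨.aleph0, inferInstance, inferInstance, h2⟩

theorem JK_le (k : ℕ) : JK k ≤ modelCategoryQuillen.J := by
  intro _ _ g hg
  simp only [JK, iSup_iff] at hg
  obtain ⟨m, ⟨i⟩⟩ := hg
  exact modelCategoryQuillen.horn_ι_mem_J _ i

/-- the simplices all of whose faces of dimension less than `k` lie in the image -/
def low (k : ℕ) {A C : SSet.{0}} (a : A ⟶ C) : C.Subcomplex where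
  obj n := Set.ofPred fun y => ∀ l < k, ∀ θ : n ⟶ op ⦋l⦌, C.map θ y ∈ Set.range (a.app _)
  map f y hy l hl θ := by
    have := hy l hl (f ≫ θ)
    rwa [Functor.map_comp] at this

theorem low_rlp (k : ℕ) {A C : SSet.{0}} (a : A ⟶ C) : (JK k).rlp (low k a).ι := by
  intro _ _ g hg
  simp only [JK, iSup_iff] at hg
  obtain ⟨m, ⟨i⟩⟩ := hg
  refine lp_of_ex fun u v w => ⟨Subcomplex.lift v ?_, ?_, Subcomplex.lift_ι _ _⟩
  · rintro n _ ⟨x, rfl⟩ l hl θ
    have hx : (Δ[m + k + 1] : SSet.{0}).map θ x ∈ Λ[m + k + 1, i].obj (op ⦋l⦌) := by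
      rw [horn_obj_eq_univ i l (by omega)]
      trivial
    have h1 := (u.app _ ⟨_, hx⟩).2 l hl (𝟙 _)
    rw [CategoryTheory.Functor.map_id] at h1
    have h2 : (u.app _ ⟨_, hx⟩).1 = v.app _ ((Δ[m + k + 1] : SSet.{0}).map θ x) :=
      congr_ap w _ ⟨_, hx⟩
    rw [← nat_ap, ← h2]
    exact h1
  · rw [← cancel_mono (low k a).ι, Category.assoc, Subcomplex.lift_ι, w]

end REPL

open REPL in
theorem st_repl : St_REPL := by
  intro k A B f
  have := hasSOA k
  obtain ⟨⟨C, a, q, e, ha, hq⟩⟩ :=
    (inferInstance : HasFactorization (JK k).rlp.llp (JK k).rlp).nonempty_mapFactorizationData f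
  refine ⟨C, a, q, e, antitone_llp (antitone_rlp (JK_le k)) a ha, fun m hm y => ?_,
    fun m hm i => ?_⟩
  · have hr : Subcomplex.range a ≤ low k a := by
      rintro n _ ⟨x, rfl⟩ l - θ
      exact ⟨_, nat_ap a θ x⟩
    obtain ⟨l, -, h2⟩ := ex_lift (ha _ (low_rlp k a)) (Subcomplex.lift a hr) (𝟙 C)
      (by rw [Subcomplex.lift_ι, Category.comp_id])
    have h1 := (l.app _ y).2 m hm (𝟙 _)
    rw [CategoryTheory.Functor.map_id] at h1
    have h3 : (l.app _ y).1 = y := congr_ap h2 _ y
    rw [← h3]
    exact h1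
  · obtain ⟨m, rfl⟩ := Nat.exists_eq_add_of_le' hm
    exact hq _ (mem_JK k m i)

theorem st_llp : St_LLP := by
  intro d A B E W j q _ hj hq
  have h : (MorphismProperty.single q).llp j :=
    transfiniteCompositionsOfShape_le _ _ _
      ⟨(relativeCellComplexOfMono j).toTransfiniteCompositionOfShape, fun n _ => by
        refine (MorphismProperty.single q).llp.of_isPushout
          (relativeCellComplexOfMono.isPushout j n) ?_
        rintro _ _ _ ⟨⟩
        have : ∀ c : relativeCellComplexOfMono.Cell j n, HasLiftingProperty ∂Δ[n].ι q :=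
          fun c => hq n (hj n _ c.nonDegenerate c.notMem)
        infer_instance⟩
  exact h q ⟨()⟩

end Pool.Agent.AZero
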