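import Pool.Agent.Lib.AZero.Blue

/-! Transport of simplices into the fibre, along the universal cover. -/

noncomputable section

namespace Pool.Agent.AZero

open CategoryTheory Limits Simplicial SSet MonoidalCategory CartesianMonoidalCategory
  HomotopicalAlgebra Opposite
open scoped SSet.modelCategoryQuillen

namespace RHO

variable {Γ : Type} [Group Γ] (W : Ret (BG Γ))

/-- the pullback of the universal cover -/
def Wt : SSet.{0} where
  obj n := W.Y.obj n × Γ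
  map θ := ↾fun z => (W.Y.map θ z.1, z.2 * pot (W.r.app _ z.1) (θ.unop.toOrderHom 0))
  map_id n := by
    ext z : 3
    refine Prod.ext (Functor.map_id_apply _ _ _) ?_
    exact (congrArg (z.2 * ·) (pot_zero _)).trans (mul_one _)
  map_comp θ φ := by
    ext z : 3
    refine Prod.ext (Functor.map_comp_apply _ _ _ _) ?_
    change z.2 * pot (W.r.app _ z.1) (θ.unop.toOrderHom (φ.unop.toOrderHom 0)) =
      z.2 * pot (W.r.app _ z.1) (θ.unop.toOrderHom 0) *
        pot (W.r.app _ (W.Y.map θ z.1)) (φ.unop.toOrderHom 0)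
    rw [nat_ap, pot_map]
    group

/-- the covering projection -/
def pr : Wt W ⟶ W.Y where
  app n := ↾fun z => z.1

/-- the base homotopy, on simplices -/
def bf {n : SimplexCategoryᵒᵖ} (t : W.Y.obj n) (g : Γ) (ε : (Δ[1] : SSet.{0}).obj n) :
    (BG Γ).obj n :=
  mkS fun j => if (stdSimplex.objEquiv ε).toOrderHom j = 0 then g * pot (W.r.app _ t) j else 1

theorem bf_map {m n : SimplexCategoryᵒᵖ} (θ : m ⟶ n) (t : W.Y.obj m) (g : Γ)
    (ε : (Δ[1] : SSet.{0}).obj m) :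
    bf W (W.Y.map θ t) (g * pot (W.r.app _ t) (θ.unop.toOrderHom 0)) ((Δ[1] : SSet.{0}).map θ ε) =
      (BG Γ).map θ (bf W t g ε) := by
  rw [bf, bf, map_mkS]
  refine congrArg mkS (funext fun j => ?_)
  refine if_congr Iff.rfl ?_ rfl
  rw [nat_ap, pot_map]
  group

theorem bf_triv {n : SimplexCategoryᵒᵖ} {t : W.Y.obj n} (h : ∀ j, pot (W.r.app _ t) j = 1)
    (ε : (Δ[1] : SSet.{0}).obj n) : bf W t 1 ε = W.r.app _ t := pot_ext fun j => by
  simp only [bf, pot_mkS, h, mul_one, ite_self, inv_one]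

/-- the base homotopy -/
def β : Wt W ⊗ Δ[1] ⟶ BG Γ where
  app n := ↾fun z => bf W z.1.1 z.1.2 z.2
  naturality m n θ := by
    ext z : 3
    exact bf_map W θ _ _ _

theorem β0 : ι₀ ≫ β W = pr W ≫ W.r := by
  ext n z : 4
  exact (congrArg mkS (funext fun j => if_pos rfl)).trans (mkS_pot (W.r.app n z.1) z.2)

theorem β1 (n : ℕ) (z : Wt W _⦋n⦌) : (ι₁ ≫ β W).app _ z = cst Γ n :=
  congrArg mkS (funext fun _ => if_neg (show ¬ ((1 : Fin 2) = 0) by decide))

/-- the subcomplex on which the homotopy is prescribed -/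
def S : (Wt W).Subcomplex where
  obj n := Set.ofPred fun z => W.In z.1 ∨ (z.2 = 1 ∧ ∀ j, pot (W.r.app n z.1) j = 1)
  map θ z hz := by
    refine hz.imp (fun h => h.map θ) fun h => ⟨?_, fun j => ?_⟩
    · change z.2 * pot (W.r.app _ z.1) (θ.unop.toOrderHom 0) = 1
      rw [h.1, h.2, mul_one]
    · change pot (W.r.app _ (W.Y.map θ z.1)) j = 1
      rw [nat_ap, pot_map, h.2, h.2, mul_one, inv_one]

open Classical in
/-- the prescribed homotopy, on simplices -/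
def uf {n : SimplexCategoryᵒᵖ} (t : W.Y.obj n) (g : Γ) (ε : (Δ[1] : SSet.{0}).obj n) :
    W.Y.obj n := if W.In t then W.s.app n (bf W t g ε) else t

theorem uf_in {n : SimplexCategoryᵒᵖ} {t : W.Y.obj n} (h : W.In t) (g : Γ)
    (ε : (Δ[1] : SSet.{0}).obj n) : uf W t g ε = W.s.app n (bf W t g ε) := if_pos h

theorem uf_triv {n : SimplexCategoryᵒᵖ} {t : W.Y.obj n} {g : Γ}
    (h : g = 1 ∧ ∀ j, pot (W.r.app _ t) j = 1) (ε : (Δ[1] : SSet.{0}).obj n) :
    uf W t g ε = t := by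
  by_cases k : W.In t
  · rw [uf_in W k, h.1, bf_triv W h.2, k.eq]
  · exact if_neg k

/-- the prescribed homotopy -/
def u : (S W : SSet.{0}) ⊗ Δ[1] ⟶ W.Y where
  app n := ↾fun z => uf W z.1.1.1 z.1.1.2 z.2
  naturality m n θ := by
    ext z : 3
    change uf W (W.Y.map θ z.1.1.1) (z.1.1.2 * pot (W.r.app _ z.1.1.1) (θ.unop.toOrderHom 0))
      ((Δ[1] : SSet.{0}).map θ z.2) = W.Y.map θ (uf W z.1.1.1 z.1.1.2 z.2)
    rcases z.1.2 with h | h
    · rw [uf_in W h, uf_in W (h.map θ), bf_map, nat_ap]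
    · rw [uf_triv W h, uf_triv]
      refine ⟨by rw [h.1, h.2, mul_one], fun j => ?_⟩
      rw [nat_ap, pot_map, h.2, h.2, mul_one, inv_one]

theorem u0 : ι₀ ≫ u W = (S W).ι ≫ pr W := by
  ext n z : 4
  rcases z.2 with h | h
  · exact (uf_in W h _ _).trans ((congrArg (W.s.app n) (congr_ap (β0 W) n z.1)).trans h.eq)
  · exact uf_triv W h _

theorem ur : u W ≫ W.r = (S W).ι ▷ _ ≫ β W := by
  ext n z : 4
  change W.r.app n (uf W z.1.1.1 z.1.1.2 z.2) = bf W z.1.1.1 z.1.1.2 z.2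
  rcases z.1.2 with h | h
  · rw [uf_in W h, W.r_s]
  · rw [uf_triv W h, h.1, bf_triv W h.2]

end RHO

open RHO in
theorem st_rho : St_RHO := by
  intro Γ _ W hW
  obtain ⟨l, -, h1, h2⟩ := hep0 (S W).ι hW (pr W) (u W) (β W) (u0 W) (ur W) (β0 W)
  have key : ∀ (n : ℕ) (w : W.Y _⦋n⦌) (g : Γ), (w, g) ∈ (S W).obj (op ⦋n⦌) →
      ∃ ε, (ι₁ ≫ l).app (op ⦋n⦌) (w, g) = uf W w g ε := fun n w g h =>
    ⟨_, congr_ap h1 (op ⦋n⦌) ((ι₁ : (S W : SSet.{0}) ⟶ _).app _ ⟨(w, g), h⟩)⟩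
  refine ⟨fun n w g => (ι₁ ≫ l).app (op ⦋n⦌) (w, g), fun n w g => ?_, fun n w h => ?_,
    fun n w g h => ?_, fun n t g => ?_, fun n t g j => ?_⟩
  · exact (congr_ap h2 _ _).trans (β1 W n (w, g))
  · have k : (1 : Γ) = 1 ∧ ∀ j, pot (W.r.app _ w) j = 1 := ⟨rfl, fun j => by rw [h, pot_cst]⟩
    obtain ⟨ε, e⟩ := key n w 1 (.inr k)
    exact e.trans (uf_triv W k ε)
  · obtain ⟨ε, e⟩ := key n w g (.inl h)
    exact ⟨_, (e.trans (uf_in W h g ε)).symm⟩
  · exact (δ_ap (ι₁ ≫ l) 0 (t, g)).symm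
  · refine (δ_ap (ι₁ ≫ l) j.succ (t, g)).symm.trans (congrArg _ (Prod.ext rfl ?_))
    change g * pot (W.r.app _ t) (j.succ.succAbove 0) = g
    rw [Fin.succ_succAbove_zero, pot_zero, mul_one]

end Pool.Agent.AZero
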