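import Pool.Agent.Lib.AZero.Blue

/-! The section of the free cover of a reduced object of small homotopy dimension. -/

noncomputable section

namespace Pool.Agent.AZero

open CategoryTheory Limits Simplicial SSet MonoidalCategory CartesianMonoidalCategory
  HomotopicalAlgebra Opposite
open scoped SSet.modelCategoryQuillen

namespace SEC

variable {X : SSet.{0}}

theorem low {N m : ℕ} {E W : Ret X} (q : E.Hom W) (hE : E.Red N) {K : SSet.{0}}
    [K.HasDimensionLT N] (j : K ⟶ Δ[m]) (hs : Function.Surjective (q.f.app (op ⦋m⦌))) :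
    HasLiftingProperty j q.f := lp_of_ex fun u v w => by
  obtain ⟨z, hz⟩ := hs (el v)
  have e : sx z ≫ q.f = v := by rw [sx_comp, hz, sx_el]
  refine ⟨sx z, ?_, e⟩
  rw [← hE.eq (j ≫ sx z), ← hE.eq u, ← q.hr, Category.assoc, Category.assoc, reassoc_of% e,
    reassoc_of% w]

theorem surj_low {N m : ℕ} {E W : Ret X} (q : E.Hom W) (hW : W.Red N) (hm : m < N) :
    Function.Surjective (q.f.app (op ⦋m⦌)) := fun y =>
  let ⟨x, hx⟩ := hW m hm y
  ⟨E.s.app _ x, (congr_ap q.hs _ x).trans hx⟩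

theorem closed {n : ℕ} {E W : Ret X} (q : E.Hom W) (hE : E.Red (n + 1)) (i : Fin (n + 3))
    (h : HasLiftingProperty Λ[n + 2, i].ι q.f) (t : W.Y _⦋n + 2⦌)
    (ht : ∀ j, j ≠ i → W.Y.δ j t ∈ Set.range (q.f.app (op ⦋n + 1⦌))) :
    W.Y.δ i t ∈ Set.range (q.f.app (op ⦋n + 1⦌)) := by
  choose z hz using ht
  have c : horn.IsCompatible (i := i) fun j hj => sx (z j hj) := fun j k hj hk hjk => by
    obtain ⟨j, rfl⟩ := j.eq_castSucc_of_ne_last (Fin.ne_last_of_lt hjk)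
    obtain ⟨k, rfl⟩ := k.eq_succ_of_ne_zero (Fin.ne_zero_of_lt hjk)
    rw [Fin.pred_succ, Fin.castPred_castSucc, δ_sx, δ_sx]
    refine congrArg sx (Ret.In.ext (hE _ (Nat.lt_succ_self _) _) (hE _ (Nat.lt_succ_self _) _) ?_)
    rw [← q.r_f, ← q.r_f, δ_ap q.f, δ_ap q.f, hz, hz, δ_δ (Fin.castSucc_lt_succ_iff.1 hjk)]
  obtain ⟨l, -, h2⟩ := ex_lift h c.desc (sx t) (horn.hom_ext' fun j hj => by
    rw [c.ι_desc_assoc, horn.ι_ι_assoc, sx_comp, δ_sx, hz])
  exact ⟨E.Y.δ i (el l), by rw [δ_ap, ← el_comp, h2, el_sx]⟩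

theorem ex_cells0 {m : ℕ} {ι : Type} (x : ι → (Δ[m] ⟶ X)) :
    ∃ (B : Ret X) (e : ι → (Δ[m] ⟶ B.Y)), Cells m B.s (fun l => ∂Δ[m].ι ≫ x l) e ∧
      ∀ l, e l ≫ B.r = x l := by
  obtain ⟨B, i, e, hc, he⟩ := (Ret.zero X).ex_cells (fun l => ∂Δ[m].ι ≫ x l) x
    (fun l => Category.comp_id _)
  have hi : i.f = B.s := (Category.id_comp _).symm.trans i.hs
  rw [hi] at hc
  exact ⟨B, e, hc, he⟩

end SEC

theorem st_sec (hR : St_REPL) (hH : St_HUR) (_hL : St_LLP) : St_SEC := by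
  intro Γ _ n W M _ _ cl hF hW hcl hPD ι y hy
  obtain ⟨B, e, hc, he⟩ := SEC.ex_cells0 (m := n + 2) fun l => sx (y l) ≫ W.r
  obtain ⟨φ, h1, h2⟩ := hc.desc W.s (fun l => sx (y l)) fun l => by
    have := hW.eq (∂Δ[n + 2].ι ≫ sx (y l))
    simpa only [Category.assoc] using this
  have hφ : φ ≫ W.r = B.r := hc.ext (by rw [reassoc_of% h1, W.sr, B.sr]) fun l => by
    rw [reassoc_of% h2, he]
  obtain ⟨C, a, q, k1, k2, k3, k4⟩ := hR (n + 2) _ _ φ
  let B' : Ret (BG Γ) := B.via a (q ≫ W.r) (by rw [reassoc_of% k1, hφ])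
  let u : B.Hom B' := B.toVia ..
  let qh : B'.Hom W := ⟨q, by
    change (B.s ≫ a) ≫ q = W.s
    rw [Category.assoc, k1, h1], rfl⟩
  have r1 : B.Red (n + 2) := fun m hm z => hc.surj_lt hm z
  have r2 : B'.Red (n + 2) := r1.of_surj u k3
  have f2 : Fib B'.r := r2.fib fun m hm j =>
    have := k4 m hm j
    have := fib_iff.1 hF m j
    show HasLiftingProperty _ (q ≫ W.r) from inferInstance
  have e3 : ∀ l, e l ≫ a ≫ q = sx (y l) := fun l => by rw [k1, h2]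
  have s1 : Function.Surjective (qh.f.app (op ⦋n + 2⦌)) := by
    refine (hH Γ n W M cl hF hW hcl (Set.range (qh.f.app _)) ?_ ?_ ?_).1
    · rintro _ ⟨x, rfl⟩
      exact ⟨B'.s.app _ x, congr_ap qh.hs _ x⟩
    · exact fun t j ht => SEC.closed qh r2 j (k4 (n + 2) le_rfl j) t ht
    · rw [eq_top_iff, ← hy]
      refine Submodule.span_mono ?_
      rintro _ ⟨l, rfl⟩
      refine ⟨y l, ⟨el (e l ≫ a), ?_⟩, rfl⟩
      change el ((e l ≫ a) ≫ q) = _
      rw [Category.assoc, e3, el_sx]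
  have s2 : ∀ m ≤ n + 2, Function.Surjective (qh.f.app (op ⦋m⦌)) := fun m hm => by
    rcases hm.lt_or_eq with h | rfl
    · exact SEC.surj_low qh hW h
    · exact s1
  have f1 : Fib qh.f := fib_iff.2 fun m j => by
    by_cases hm : n + 2 ≤ m
    · exact k4 m hm j
    · have := hasDimensionLT_of_le (Λ[m + 1, j] : SSet.{0}) (m + 1) (n + 2) (by omega)
      exact SEC.low qh r2 _ (s2 _ (by omega))
  obtain ⟨t, ht⟩ := hPD B' W qh hF ⟨f1, fun m hm =>
    have := hasDimensionLT_of_le (∂Δ[m] : SSet.{0}) m (n + 2) hm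
    SEC.low qh r2 _ (s2 m hm)⟩ (.id W)
  exact ⟨B, B', _, e, u, qh, t, hc, k2, f1, r1, r2, f2, ht, e3⟩

end Pool.Agent.AZero
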