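import Pool.Agent.Lib.AZero.Blue

/-! Classes of spheres and of attached finite pairs. -/

noncomputable section

namespace Pool.Agent.AZero

open CategoryTheory Limits Simplicial SSet MonoidalCategory CartesianMonoidalCategory
  HomotopicalAlgebra Opposite
open scoped SSet.modelCategoryQuillen

namespace SPH

theorem zero_hom {X : SSet.{0}} {S : Ret X} (i : (Ret.zero X).Hom S) : i.f = S.s :=
  (Category.id_comp _).symm.trans i.hs

theorem ex_quot (hQ : St_QUO) {X K L : SSet.{0}} {A B : Ret X} (i : A.Hom B) {a : K ⟶ A.Y}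
    {j : K ⟶ L} {b : L ⟶ B.Y} (hj : Mono j) (sq : IsPushout a j i.f b) :
    ∃ (Q : Ret X) (c : L ⟶ Q.Y), IsPushout (a ≫ A.r) j Q.s c ∧ A.Cofib B Q := by
  obtain ⟨Q, q, c, sq', hc⟩ := (Ret.zero X).ex_att (a ≫ A.r) j (b ≫ B.r) (by
    rw [← sq.w_assoc, i.hr]
    exact Category.comp_id _)
  rw [zero_hom q] at sq'
  exact ⟨Q, c, sq', hQ X K L A B Q i a j b c hj sq sq' hc⟩

theorem point_an {Γ : Type} [Group Γ] (Q : Ret (BG Γ)) (h : One 0 Q.s) :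
    (Ret.point (vtx Γ)).AnE Q := by
  obtain ⟨a, b, sq⟩ := h
  let f : BG Γ ⨿ Δ[0] ⟶ Q.Y := coprod.desc Q.s b
  have e : b ≫ Q.r = sx (vtx Γ) := el_inj ((vtx_eq _).trans (vtx_eq _).symm)
  have e1 : coprod.inl ≫ f = Q.s := coprod.inl_desc _ _
  have e2 : coprod.inr ≫ f = b := coprod.inr_desc _ _
  have : IsIso f := ⟨⟨sq.desc coprod.inl coprod.inr boundary.hom_ext₀,
    coprod.hom_ext (by rw [reassoc_of% e1, sq.inl_desc, Category.comp_id])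
      (by rw [reassoc_of% e2, sq.inr_desc, Category.comp_id]),
    sq.hom_ext (by rw [sq.inl_desc_assoc, e1, Category.comp_id])
      (by rw [sq.inr_desc_assoc, e2, Category.comp_id])⟩⟩
  refine ⟨⟨f, coprod.inl_desc _ _, coprod.hom_ext ?_ ?_⟩, anodyneExtensions.of_isIso f⟩
  · exact (coprod.inl_desc_assoc _ _ _).trans (Q.sr.trans (coprod.inl_desc _ _).symm)
  · exact (coprod.inr_desc_assoc _ _ _).trans (e.trans (coprod.inr_desc _ _).symm)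

end SPH

open SPH

theorem st_sph (hB : St_HB) (hQ : St_QUO) (hF : St_FINC) (hW : St_WEQ) : St_SPH := by
  intro Γ _ h m
  induction m with
  | zero =>
    intro Q hQ0
    rw [← cls_an hW (A := ⟨_, h⟩) (B := Q) (point_an Q.1 hQ0)]
    exact AddSubgroup.mem_zmultiples _
  | succ m ih =>
    rintro Q ⟨a, b, sq⟩
    obtain ⟨a0, u, hu, sq0⟩ := hB m 0
    have ha : a = ∂Δ[m + 1].ι ≫ b ≫ Q.1.r := by
      rw [← sq.w_assoc, Q.1.sr, Category.comp_id]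
    obtain ⟨S, iS, bS, sqS, hS⟩ := (Ret.zero (BG Γ)).ex_att (Λ[m + 1, 0].ι ≫ b ≫ Q.1.r) u
      (∂Δ[m + 1].ι ≫ b ≫ Q.1.r) (by
        rw [← Category.assoc u, hu]
        exact Category.comp_id _)
    obtain ⟨D, iD, bD, sqD, hD⟩ := S.ex_att bS ∂Δ[m + 1].ι (b ≫ Q.1.r) hS
    have oS : One m S.s := ⟨_, _, zero_hom iS ▸ sq0.paste_horiz sqS⟩
    have fS : S.IsFinite := hF.2.1 _ _ oS.att
    have fD : D.IsFinite := hF.1 _ _ _ iD fS (One.att ⟨_, _, sqD⟩)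
    have aD : (Ret.zero (BG Γ)).AnE D := ⟨iS.comp iD, An.po (sqS.paste_vert sqD) (by
      rw [hu]
      exact anodyneExtensions.horn_ι 0)⟩
    have cf : S.Cofib D Q.1 := hQ _ _ _ S D Q.1 iD bS _ bD b inferInstance sqD
      (by rw [hS, ← ha]; exact sq) hD.symm
    have e1 : cls ⟨D, fD.hf.fd⟩ = cls ⟨S, fS.hf.fd⟩ + cls Q := cls_cofib cf
    have e2 : cls ⟨D, fD.hf.fd⟩ = 0 :=
      (cls_an hW (A := ⟨_, (Ret.zero_finite _).hf.fd⟩) (B := ⟨D, fD.hf.fd⟩) aD).symm.trans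
        (cls_iso _ (IsIso.id (BG Γ)))
    rw [eq_neg_of_add_eq_zero_right (e1.symm.trans e2)]
    exact neg_mem (ih ⟨S, fS.hf.fd⟩ oS)

theorem st_att (hI : St_IND) (hQ : St_QUO) (hS : St_SPH) (hF : St_FINC) : St_ATT := by
  intro Γ _ h
  have h1 : ∀ Z : Obj (BG Γ), Z.1.IsFinite → cls Z ∈ Mult Γ h := by
    intro Z hZ
    refine hI _ (fun Z => ∀ k : Z.FinDom, cls ⟨Z, k⟩ ∈ Mult Γ h) ?_ ?_ Z.1 hZ Z.2
    · intro Z hZ k
      rw [cls_iso ⟨Z, k⟩ hZ]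
      exact zero_mem _
    · rintro Z' Z i m f' - ⟨a, b, sq⟩ ih k
      obtain ⟨Q, c, sq', cf⟩ := ex_quot hQ i inferInstance sq
      have oQ : One m Q.s := ⟨_, _, sq'⟩
      have fQ : Q.FinDom := (hF.2.1 _ _ oQ.att).hf.fd
      rw [cls_cofib (A := ⟨Z', f'.hf.fd⟩) (B := ⟨Z, k⟩) (Q := ⟨Q, fQ⟩) cf]
      exact add_mem (ih _) (hS Γ h m ⟨Q, fQ⟩ oQ)
  refine ⟨h1, ?_⟩
  rintro A B i ⟨K, L, a, j, b, hj, hL, sq⟩
  obtain ⟨Q, c, sq', cf⟩ := ex_quot hQ i hj sq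
  have fQ : Q.IsFinite := hF.2.1 _ _ ⟨K, L, _, j, c, hj, hL, sq'⟩
  rw [cls_cofib (A := A) (B := B) (Q := ⟨Q, fQ.hf.fd⟩) cf, add_sub_cancel_left]
  exact h1 _ fQ

end Pool.Agent.AZero
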