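import Pool.Agent.Lib.AZero.Blue

/-! Raising the connectivity of a finitely dominated object by one. -/

noncomputable section

namespace Pool.Agent.AZero

open CategoryTheory Limits Simplicial SSet MonoidalCategory CartesianMonoidalCategory
  HomotopicalAlgebra Opposite
open scoped SSet.modelCategoryQuillen

namespace STEP

/-- if all `n`-simplices can be deformed into `X`, the reduced subobject is anodyne -/
theorem an_eil (h5 : St_LD) (h7 : St_SDR) {X : SSet.{0}} (V : Ret X) (n : ℕ) (hF : Fib V.r)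
    (hR : V.Red n) (h : ∀ y : V.Y _⦋n⦌, V.PNull y) : (V.eilR (n + 1)).AnE V := by
  obtain ⟨k, k0, k1, -, k3⟩ := h5 X _ _ V n (V.eil (n + 1)).ι (𝟙 _) hF hR inferInstance
    (by rintro m _ ⟨x, rfl⟩; exact x.2) fun y _ _ => h y
  rw [Category.comp_id] at k3
  refine ⟨V.eilι (n + 1), h7.1 _ _ (V.eil (n + 1)).ι (Subcomplex.lift (ι₁ ≫ k) k1) k ?_ k0
    (Subcomplex.lift_ι _ _).symm k3⟩
  rw [← cancel_mono (V.eil (n + 1)).ι, Category.assoc, Subcomplex.lift_ι, ← ι₁_comp_assoc, k3,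
    ι₁_fst_assoc, Category.id_comp]

/-- a deformation on a finite model extends to the whole object -/
theorem pnull (h5 : St_LD) (h6 : St_EFIB) {X : SSet.{0}} {Z T V : Ret X} (n : ℕ) (e : Z.Hom T)
    (he : An e.f) (q : T.Hom V) (hF : Fib V.r) (hR : V.Red n)
    (h : ∀ y ∈ Z.Y.nonDegenerate n, ¬ Z.In y → V.PNull (q.f.app _ (e.f.app _ y)))
    (t : T.Y _⦋n⦌) (x : (∂Δ[n] : SSet.{0}) ⟶ X) (hx : ∂Δ[n].ι ≫ sx t = x ≫ T.s) :
    V.PNull (q.f.app _ t) := by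
  have es : Z.s ≫ e.f ≫ q.f = V.s := (e.comp q).hs
  have er : (e.f ≫ q.f) ≫ V.r = Z.r := (e.comp q).hr
  obtain ⟨k, k0, k1, k2, k3⟩ := h5 X _ _ V n Z.s (e.f ≫ q.f) hF hR inferInstance
    (by rw [es]; rintro m _ ⟨x, rfl⟩; exact Ret.In.eil ⟨x, rfl⟩ _) h
  rw [es] at k3
  rw [er] at k2
  let c : Z.Hom (V.eilR (n + 1)) := ⟨Subcomplex.lift (ι₁ ≫ k) k1,
    (cancel_mono (V.eil (n + 1)).ι).1 (by
      change Z.s ≫ ι₁ ≫ k = V.s
      rw [← ι₁_comp_assoc, k3, ι₁_fst_assoc]), by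
    change (ι₁ ≫ k) ≫ V.r = Z.r
    rw [Category.assoc, k2, ι₁_fst_assoc]⟩
  obtain ⟨d, hd⟩ := Ret.ex_ext e he (h6 X V (n + 1) hF) c
  have dr : (d.f ≫ (V.eil (n + 1)).ι) ≫ V.r = T.r := d.hr
  obtain ⟨H, H0, H1, H2, H3⟩ := hep2 e.f (.inl ⟨he, hF⟩) q.f (d.f ≫ (V.eil (n + 1)).ι) k
    (fst _ _ ≫ T.r) k0 (by rw [reassoc_of% hd]; rfl)
    (by rw [k2, whiskerRight_fst_assoc, e.hr]) (by rw [ι₀_fst_assoc, q.hr])
    (by rw [ι₁_fst_assoc, dr])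
  refine ⟨(d.f.app _ t).1, Ret.in_of_eil n.lt_succ_self (d.f.app _ t).2, sx t ▷ _ ≫ H,
    ?_, ?_, ?_, ?_⟩
  · rw [ι₀_comp_assoc, H0, sx_comp]
  · rw [ι₁_comp_assoc, H1, sx_comp]
    rfl
  · rw [Category.assoc, H3, whiskerRight_fst_assoc, ← sx_comp t q.f, Category.assoc, q.hr]
  · rw [← comp_whiskerRight_assoc, hx, ← e.hs, comp_whiskerRight_assoc, comp_whiskerRight_assoc,
      H2, k3, whiskerRight_fst_assoc, ← sx_comp t q.f, reassoc_of% hx, q.hs]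

end STEP

theorem st_step (h1 : St_COSP) (h2 : St_FINC) (h3 : St_KILL) (h4 : St_REPL) (h5 : St_LD)
    (h6 : St_EFIB) (h7 : St_SDR) : St_STEP := by
  intro X hX W n hW hF hR
  obtain ⟨U, i, p, hU, hip⟩ := hW
  obtain ⟨T, Z, ⟨u, hu⟩, ⟨e, he⟩, hZ⟩ := (h1 X hX).2 U hU
  obtain ⟨p', hp'⟩ := Ret.ex_ext u hu hF p
  have := (h2.2.2.2.2 X Z n hZ).to_subtype
  obtain ⟨W₁, j, j1, j2, j3, j4⟩ := h3 X W n
    (Set.ofPred fun y : Z.Y _⦋n⦌ => y ∈ Z.Y.nonDegenerate n ∧ ¬ Z.In y)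
    (fun y => p'.f.app _ (e.f.app _ y.1)) hR
  obtain ⟨C, a, q, haq, ha, a1, a2⟩ := h4 (n + 1) _ _ W₁.r
  let W₂ := W₁.via a q haq
  let b : W₁.Hom W₂ := W₁.toVia a q haq
  let g : W.Hom W₂ := j.comp b
  have gs : ∀ m < n + 1, Function.Surjective (g.f.app (op ⦋m⦌)) := fun m hm =>
    (a1 m hm).comp (j3 m hm)
  have : Mono g.f := mono_comp' j1.mono ha.mono
  have F2 : Fib W₂.r := Ret.fib_low hF g gs a2
  have R2 : W₂.Red n := hR.of_surj g fun m hm => gs m (by omega)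
  refine ⟨W₁, W₂, W₂.eilR (n + 1), j, j1, j2, ⟨b, ha⟩, STEP.an_eil h5 h7 W₂ n F2 R2 fun y => ?_,
    h6 X W₂ (n + 1) F2, Ret.eilR_red _ _⟩
  obtain ⟨y, rfl⟩ := gs n n.lt_succ_self y
  have k := STEP.pnull h5 h6 n e he (p'.comp g) F2 R2 (fun z hz hz' => (j4 ⟨z, hz, hz'⟩).hom b)
    ((i.comp u).f.app _ y) (∂Δ[n].ι ≫ sx y ≫ W.r) (by
      rw [← sx_comp, ← (i.comp u).hs, ← Category.assoc, ← hR.eq (∂Δ[n].ι ≫ sx y)]
      simp only [Category.assoc])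
  have e1 : p'.f.app _ ((i.comp u).f.app _ y) = y :=
    (congr_ap hp' _ (i.f.app _ y)).trans (congr_ap hip _ y)
  exact (congrArg (fun z => W₂.PNull (g.f.app _ z)) e1).mp k

end Pool.Agent.AZero
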