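import Pool.Agent.Lib.AZero.Blue

/-! A fibration of Kan complexes that is a weak equivalence has a section that is a homotopy
inverse. -/

noncomputable section

namespace Pool.Agent.AZero

open CategoryTheory Limits Simplicial SSet MonoidalCategory CartesianMonoidalCategory
  HomotopicalAlgebra Opposite
open scoped SSet.modelCategoryQuillen

namespace TRIV1

theorem eucl {Y : SSet.{0}} (hY : KanComplex Y) {x y z : Y _⦋0⦌} (a : Edge x y) (b : Edge x z) :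
    Nonempty (Edge y z) := by
  have hp : Fib (terminal.from Y) := hY
  have sub : ∀ (n : ℕ) (u v : (⊤_ SSet.{0}) _⦋n⦌), u = v := fun n u v => by
    rw [← el_sx u, ← el_sx v, terminal.hom_ext (sx u) (sx v)]
  obtain ⟨t, -, h⟩ := hp.fill (n := 0) 0 ![a.edge, b.edge, a.edge] (el (terminal.from _))
    (fun _ _ => sub _ _ _) (by
      intro j k hjk hj _
      fin_cases j
      · exact absurd rfl hj
      · fin_cases k
        · exact absurd hjk (by decide)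
        · exact a.src_eq.trans b.src_eq.symm)
  have h1 : Y.δ 1 t = b.edge := h 1 (by decide)
  have h2 : Y.δ 2 t = a.edge := h 2 (by decide)
  refine ⟨Edge.mk (Y.δ 0 t) ?_ ?_⟩
  · exact (δ_δ (n := 0) (i := 0) (j := 1) (by decide) t).symm.trans
      ((congrArg (Y.δ 0) h2).trans a.tgt_eq)
  · exact (δ_δ (n := 0) (i := 0) (j := 0) le_rfl t).symm.trans
      ((congrArg (Y.δ 0) h1).trans b.tgt_eq)

theorem edge_of {Y : SSet.{0}} (hY : KanComplex Y) {x y : Y _⦋0⦌} (h : π₀.mk x = π₀.mk y) :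
    Nonempty (Edge x y) := by
  rw [π₀.mk_eq_mk_iff] at h
  induction h with
  | rel _ _ h => exact h
  | refl x => exact ⟨Edge.id x⟩
  | symm _ _ _ h => exact h.elim fun a => eucl hY a (Edge.id _)
  | trans _ _ _ _ _ h k =>
    exact h.elim fun a => k.elim fun b => (eucl hY a (Edge.id _)).elim fun c => eucl hY c b

variable {A B Z : SSet.{0}}

/-- the vertex of the function complex given by a map -/
def V (f : A ⟶ Z) : ((ihom A).obj Z) _⦋0⦌ := el (MonoidalClosed.curry (fst A Δ[0] ≫ f))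

theorem V_inj {f g : A ⟶ Z} (h : V f = V g) : f = g := by
  have := lift (𝟙 A) (stdSimplex.isTerminalObj₀.from _) ≫= MonoidalClosed.curry_injective (el_inj h)
  rwa [lift_fst_assoc, lift_fst_assoc, Category.id_comp, Category.id_comp] at this

theorem V_surj (x : ((ihom A).obj Z) _⦋0⦌) : ∃ f, V f = x := by
  refine ⟨lift (𝟙 A) (stdSimplex.isTerminalObj₀.from _) ≫ MonoidalClosed.uncurry (sx x), ?_⟩
  have : fst A Δ[0] ≫ lift (𝟙 A) (stdSimplex.isTerminalObj₀.from _) = 𝟙 _ :=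
    CartesianMonoidalCategory.hom_ext _ _ (by simp) stdSimplex.ext₀
  rw [V, reassoc_of% this, MonoidalClosed.curry_uncurry, el_sx]

theorem V_pre (q : B ⟶ A) (f : A ⟶ Z) :
    ((MonoidalClosed.pre q).app Z).app _ (V f) = V (q ≫ f) := by
  rw [V, ← el_comp, MonoidalClosed.curry_pre_app, whiskerRight_fst_assoc, V]

theorem δ_one (H : A ⊗ Δ[1] ⟶ Z) :
    ((ihom A).obj Z).δ 1 (el (MonoidalClosed.curry H)) = V (ι₀ ≫ H) := by
  rw [← el_δ, ← MonoidalClosed.curry_natural_left, stdSimplex.δ_one_eq_const]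
  rfl

theorem δ_zero (H : A ⊗ Δ[1] ⟶ Z) :
    ((ihom A).obj Z).δ 0 (el (MonoidalClosed.curry H)) = V (ι₁ ≫ H) := by
  rw [← el_δ, ← MonoidalClosed.curry_natural_left, stdSimplex.δ_zero_eq_const]
  rfl

theorem of_htp (H : A ⊗ Δ[1] ⟶ Z) : π₀.mk (V (ι₀ ≫ H)) = π₀.mk (V (ι₁ ≫ H)) :=
  π₀.sound (Edge.mk _ (δ_one H) (δ_zero H))

theorem to_htp (hZ : KanComplex Z) {f g : A ⟶ Z} (h : π₀.mk (V f) = π₀.mk (V g)) :
    ∃ H : A ⊗ Δ[1] ⟶ Z, ι₀ ≫ H = f ∧ ι₁ ≫ H = g := by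
  obtain ⟨e⟩ := edge_of inferInstance h
  refine ⟨MonoidalClosed.uncurry (sx e.edge), V_inj ?_, V_inj ?_⟩
  · rw [← δ_one, MonoidalClosed.curry_uncurry, el_sx, e.src_eq]
  · rw [← δ_zero, MonoidalClosed.curry_uncurry, el_sx, e.tgt_eq]

end TRIV1

open TRIV1 in
theorem st_triv1 : St_TRIV1 := by
  intro T U q hU hq hw
  have hT : KanComplex T := by
    have h1 : Fib (terminal.from U) := hU
    have h2 : Fib (q ≫ terminal.from U) := hq.comp h1
    rw [terminal.comp_from] at h2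
    exact h2
  obtain ⟨y, hy⟩ := (hw T).2 (π₀.mk (V (𝟙 T)))
  obtain ⟨x, rfl⟩ := π₀.mk_surjective y
  obtain ⟨g, rfl⟩ := V_surj x
  rw [mapπ₀_mk, V_pre] at hy
  obtain ⟨H, h0, h1⟩ := to_htp hT hy
  have e : π₀.mk (V (g ≫ q)) = π₀.mk (V (𝟙 U)) := (hw U).1 (by
    have := of_htp (H ≫ q)
    rw [reassoc_of% h0, reassoc_of% h1] at this
    rw [mapπ₀_mk, mapπ₀_mk, V_pre, V_pre, Category.comp_id, this])
  obtain ⟨K, k0, k1⟩ := to_htp hU e
  obtain ⟨l, l0, -, l1⟩ := hep0 (⊥ : U.Subcomplex).ι hq g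
    (fst _ _ ≫ (⊥ : U.Subcomplex).ι ≫ g) K rfl (by
      ext n ⟨⟨x, hx⟩, _⟩; exact hx.elim) k0
  have e2 := of_htp (q ▷ Δ[1] ≫ l)
  rw [ι₀_comp_assoc, ι₁_comp_assoc, l0] at e2
  obtain ⟨H', a0, a1⟩ := to_htp hT (e2.symm.trans hy)
  exact ⟨ι₁ ≫ l, H', by rw [Category.assoc, l1, k1], a0, a1⟩

end Pool.Agent.AZero
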