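import Pool.Agent.Lib.AZero.Blue

noncomputable section

namespace Pool.Agent.AZero

open CategoryTheory Limits Simplicial SSet MonoidalCategory CartesianMonoidalCategory
  HomotopicalAlgebra Opposite
open scoped SSet.modelCategoryQuillen

theorem st_triv2 : St_TRIV2 := fun T U q t H hq htq h0 h1 => by
  obtain ⟨l, l0, l1, -, l3⟩ := hep2 (ι₀ : T ⟶ T ⊗ Δ[1]) (.inl ⟨an_ιe 0 T, hq⟩) (H ≫ q ≫ t) H
    (fst _ _ ≫ q ≫ t) (fst _ _ ≫ H ≫ q)
    (by rw [ι₀_fst_assoc, reassoc_of% h0, reassoc_of% htq]) (by rw [ι₁_fst_assoc, h0])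
    (by rw [whiskerRight_fst_assoc, reassoc_of% h0, Category.assoc, Category.assoc])
    (by rw [ι₀_fst_assoc, Category.assoc, Category.assoc, htq, Category.comp_id])
    (by rw [ι₁_fst_assoc])
  intro A B j hj
  have : Mono j := hj
  refine lp_of_ex fun u v w => ?_
  obtain ⟨k, -, k1, k2⟩ := hep0 j hq (v ≫ t) (u ▷ _ ≫ ι₁ ▷ _ ≫ l) (fst _ _ ≫ v)
    (by rw [ι₀_comp_assoc, ι₀_comp_assoc, l0, reassoc_of% h1, reassoc_of% w])
    (by rw [Category.assoc, Category.assoc, l3, whiskerRight_fst_assoc, whiskerRight_fst_assoc,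
      whiskerRight_fst_assoc, reassoc_of% h1, w])
    (by rw [ι₀_fst_assoc, Category.assoc, htq, Category.comp_id])
  exact ⟨ι₁ ≫ k, by rw [← ι₁_comp_assoc, k1, ι₁_comp_assoc, ι₁_comp_assoc, l1, h1,
    Category.comp_id], by rw [Category.assoc, k2, ι₁_fst_assoc]⟩

theorem TRIV2.sdr (A B : SSet.{0}) (j : A ⟶ B) (ρ : B ⟶ A) (h : B ⊗ Δ[1] ⟶ B) (hj : j ≫ ρ = 𝟙 A)
    (h0 : ι₀ ≫ h = 𝟙 B) (h1 : ι₁ ≫ h = ρ ≫ j) (h2 : j ▷ _ ≫ h = fst _ _ ≫ j) : An j :=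
  fun E X p hp => lp_of_ex fun u v w => by
    have hp' : Fib p := (fibration_iff p).2 hp
    have : Mono j := mono_of_mono_fac hj
    obtain ⟨l, -, l1, l2⟩ := hep1 j hp' (ρ ≫ u) (fst _ _ ≫ u) (h ≫ v)
      (by rw [ι₁_fst_assoc, reassoc_of% hj]) (by rw [reassoc_of% h2, Category.assoc, w])
      (by rw [reassoc_of% h1, Category.assoc, w])
    exact ⟨ι₀ ≫ l, by rw [← ι₀_comp_assoc, l1, ι₀_fst_assoc],
      by rw [Category.assoc, l2, reassoc_of% h0]⟩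

theorem st_sdr : St_SDR := ⟨TRIV2.sdr, fun T U q t hq htq => by
  have : Mono t := mono_of_mono_fac htq
  obtain ⟨l, l0, l1, l2, -⟩ := hep2 t (.inr ⟨this, hq⟩) (𝟙 T) (q ≫ t) (fst _ _ ≫ t) (fst _ _ ≫ q)
    (by rw [ι₀_fst_assoc, Category.comp_id]) (by rw [ι₁_fst_assoc, reassoc_of% htq])
    (by rw [whiskerRight_fst_assoc, Category.assoc]) (by rw [ι₀_fst_assoc, Category.id_comp])
    (by rw [ι₁_fst_assoc, Category.assoc, htq, Category.comp_id])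
  exact TRIV2.sdr U T t q l htq l0 l1 l2⟩

end Pool.Agent.AZero
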