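import Pool.Agent.Lib.AZero.Blue

/-! Anodyne extensions are weak homotopy equivalences. -/

noncomputable section

namespace Pool.Agent.AZero

open CategoryTheory Limits Simplicial SSet MonoidalCategory CartesianMonoidalCategory
  HomotopicalAlgebra Opposite
open scoped SSet.modelCategoryQuillen

namespace WEQ

theorem tfib_pre {A B : SSet.{0}} {f : A ⟶ B} (hf : An f) (Z : SSet.{0}) [hZ : KanComplex Z] :
    TFib ((MonoidalClosed.pre f).app Z) := fun K L j hj => lp_of_ex fun u v w => by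
  have hm : Mono j := hj
  have hp : Fib (terminal.from Z) := hZ
  have w' : f ▷ K ≫ MonoidalClosed.uncurry u = A ◁ j ≫ MonoidalClosed.uncurry v := by
    rw [← MonoidalClosed.uncurry_pre_app, w, MonoidalClosed.uncurry_natural_left]
  obtain ⟨l, h1, h2, -⟩ := lift_pp f j (terminal.from Z) (.inr (.inl ⟨hf, hm, hp⟩))
    (MonoidalClosed.uncurry v) (MonoidalClosed.uncurry u) (terminal.from _) w'
    (terminal.hom_ext _ _) (terminal.hom_ext _ _)
  refine ⟨MonoidalClosed.curry l, ?_, ?_⟩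
  · rw [← MonoidalClosed.curry_natural_left, h2, MonoidalClosed.curry_uncurry]
  · rw [MonoidalClosed.curry_pre_app, h1, MonoidalClosed.curry_uncurry]

theorem mk_eq_of_homotopy {E F : SSet.{0}} (H : E ⊗ Δ[1] ⟶ F) (x : E _⦋0⦌) :
    π₀.mk ((ι₀ ≫ H).app _ x) = π₀.mk ((ι₁ ≫ H).app _ x) := by
  refine π₀.sound (Edge.mk (H.app _ (E.σ 0 x, stdSimplex.objEquiv.symm (𝟙 ⦋1⦌))) ?_ ?_)
  · rw [← δ_ap]
    refine congrArg (H.app _) (Prod.ext ?_ ?_)
    · exact ConcreteCategory.congr_hom (E.δ_comp_σ_succ (i := 0)) x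
    · ext i
      fin_cases i
      rfl
  · rw [← δ_ap]
    refine congrArg (H.app _) (Prod.ext ?_ ?_)
    · exact ConcreteCategory.congr_hom (E.δ_comp_σ_self (i := 0)) x
    · ext i
      fin_cases i
      rfl

theorem bij_of_tfib {E F : SSet.{0}} {p : E ⟶ F} (hp : TFib p) :
    Function.Bijective (mapπ₀ p) := by
  obtain ⟨t, -, ht⟩ := ex_lift (hp.lp (⊥ : F.Subcomplex).ι)
    (((Subcomplex.isInitialBot (X := F)).to E)) (𝟙 F)
    ((Subcomplex.isInitialBot (X := F)).hom_ext _ _)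
  have e : ∀ {C : SSet.{0}} (a b : ((⊥ : E.Subcomplex) : SSet.{0}) ⊗ Δ[1] ⟶ C), a = b := by
    intro C a b
    ext n ⟨⟨x, hx⟩, _⟩
    exact hx.elim
  obtain ⟨H, h0, h1, -, -⟩ := hep2 (⊥ : E.Subcomplex).ι (.inr ⟨inferInstance, hp⟩) (p ≫ t) (𝟙 E)
    (fst _ _ ≫ (⊥ : E.Subcomplex).ι) (fst _ _ ≫ p)
    ((Subcomplex.isInitialBot (X := E)).hom_ext _ _)
    ((Subcomplex.isInitialBot (X := E)).hom_ext _ _) (e _ _)
    (by rw [ι₀_fst_assoc, Category.assoc, ht, Category.comp_id])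
    (by rw [ι₁_fst_assoc, Category.id_comp])
  refine Function.bijective_iff_has_inverse.2 ⟨mapπ₀ t, fun x => ?_, fun y => ?_⟩
  · induction x with
    | mk x =>
      have := mk_eq_of_homotopy H x
      rw [h0, h1] at this
      exact this
  · rw [← mapπ₀_comp_apply, ht, mapπ₀_id_apply]

end WEQ

theorem st_weq : St_WEQ := fun _ _ _ hf Z _ => WEQ.bij_of_tfib (WEQ.tfib_pre hf Z)

end Pool.Agent.AZero
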