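import Pool.Agent.Lib.AZero.Defs

/-! Pushouts along monomorphisms of simplicial sets, and homotopy lifting. -/

namespace Pool.Agent.AZero

open CategoryTheory Limits Simplicial SSet MonoidalCategory CartesianMonoidalCategory
  HomotopicalAlgebra Opposite
open scoped SSet.modelCategoryQuillen

/-- anodyne extensions -/
abbrev An {A B : SSet.{0}} (f : A ⟶ B) : Prop := anodyneExtensions f

/-- Kan fibrations -/
abbrev Fib {A B : SSet.{0}} (p : A ⟶ B) : Prop := Fibration p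

/-- trivial fibrations -/
abbrev TFib {A B : SSet.{0}} (p : A ⟶ B) : Prop := (MorphismProperty.monomorphisms _).rlp p

theorem An.lp {A B E X : SSet.{0}} {f : A ⟶ B} (h : An f) {p : E ⟶ X} (hp : Fib p) :
    HasLiftingProperty f p := h p ((fibration_iff p).1 hp)

theorem TFib.lp {A B E X : SSet.{0}} {p : E ⟶ X} (hp : TFib p) (f : A ⟶ B) [Mono f] :
    HasLiftingProperty f p := hp f (MorphismProperty.monomorphisms.infer_property f)

theorem TFib.fib {E X : SSet.{0}} {p : E ⟶ X} (hp : TFib p) : Fib p :=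
  (modelCategoryQuillen.fibration_iff p).2 fun _ _ g hg =>
    hp g (modelCategoryQuillen.J_le_monomorphisms g hg)

theorem fib_iff {E X : SSet.{0}} {p : E ⟶ X} :
    Fib p ↔ ∀ (m : ℕ) (i : Fin (m + 2)), HasLiftingProperty Λ[m + 1, i].ι p := by
  refine ⟨fun h m i => inferInstance, fun h => (modelCategoryQuillen.fibration_iff p).2 ?_⟩
  intro _ _ g hg
  simp only [modelCategoryQuillen.J, MorphismProperty.iSup_iff] at hg
  obtain ⟨m, ⟨i⟩⟩ := hg
  exact h m i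

theorem tfib_iff {E X : SSet.{0}} {p : E ⟶ X} :
    TFib p ↔ ∀ m : ℕ, HasLiftingProperty ∂Δ[m].ι p := by
  rw [TFib, rlp_monomorphisms]
  exact ⟨fun h m => h _ (modelCategoryQuillen.boundary_ι_mem_I m), fun h _ _ _ ⟨m⟩ => h m⟩

theorem ex_lift {A B E X : SSet.{0}} {f : A ⟶ B} {p : E ⟶ X} (h : HasLiftingProperty f p)
    (u : A ⟶ E) (v : B ⟶ X) (w : u ≫ p = f ≫ v) : ∃ l : B ⟶ E, f ≫ l = u ∧ l ≫ p = v :=
  ⟨(CommSq.mk w).lift, (CommSq.mk w).fac_left, (CommSq.mk w).fac_right⟩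

theorem lp_of_ex {A B E X : SSet.{0}} {f : A ⟶ B} {p : E ⟶ X}
    (h : ∀ (u : A ⟶ E) (v : B ⟶ X), u ≫ p = f ≫ v → ∃ l : B ⟶ E, f ≫ l = u ∧ l ≫ p = v) :
    HasLiftingProperty f p :=
  ⟨fun sq => let ⟨l, h1, h2⟩ := h _ _ sq.w; ⟨⟨⟨l, h1, h2⟩⟩⟩⟩

theorem An.id (A : SSet.{0}) : An (𝟙 A) := anodyneExtensions.of_isIso _

theorem An.comp {A B C : SSet.{0}} {f : A ⟶ B} {g : B ⟶ C} (hf : An f) (hg : An g) :
    An (f ≫ g) := anodyneExtensions.comp_mem _ _ hf hg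

theorem An.po {K A L B : SSet.{0}} {a : K ⟶ A} {j : K ⟶ L} {i : A ⟶ B} {b : L ⟶ B}
    (sq : IsPushout a j i b) (hj : An j) : An i :=
  anodyneExtensions.of_isPushout sq hj

theorem Fib.comp {A B C : SSet.{0}} {f : A ⟶ B} {g : B ⟶ C} (hf : Fib f) (hg : Fib g) :
    Fib (f ≫ g) := inferInstance

theorem An.mono {A B : SSet.{0}} {f : A ⟶ B} (h : An f) : Mono f := by
  have : anodyneExtensions.{0} ≤ MorphismProperty.monomorphisms _ := by
    rw [anodyneExtensions_eq_retracts_transfiniteCompositions, MorphismProperty.retracts_le_iff,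
      MorphismProperty.transfiniteCompositions_le_iff, MorphismProperty.pushouts_le_iff,
      MorphismProperty.coproducts_le_iff]
    exact modelCategoryQuillen.J_le_monomorphisms
  exact this f h

theorem inj_app {A B : SSet.{0}} (f : A ⟶ B) [Mono f] (n : SimplexCategoryᵒᵖ) :
    Function.Injective (f.app n) := injective_of_mono (f.app n)

theorem mono_of_inj {A B : SSet.{0}} {f : A ⟶ B} (h : ∀ n, Function.Injective (f.app n)) :
    Mono f := (NatTrans.mono_iff_mono_app f).2 fun n => (mono_iff_injective _).2 (h n)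

theorem comp_ap {A B C : SSet.{0}} (f : A ⟶ B) (g : B ⟶ C) (n : SimplexCategoryᵒᵖ) (x : A.obj n) :
    (f ≫ g).app n x = g.app n (f.app n x) := rfl

theorem congr_ap {A B : SSet.{0}} {f g : A ⟶ B} (h : f = g) (n : SimplexCategoryᵒᵖ)
    (x : A.obj n) : f.app n x = g.app n x := h ▸ rfl

theorem nat_ap {A B : SSet.{0}} (f : A ⟶ B) {m n : SimplexCategoryᵒᵖ} (θ : m ⟶ n)
    (x : A.obj m) : f.app n (A.map θ x) = B.map θ (f.app m x) :=
  NatTrans.naturality_apply f θ x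

section po

variable {K A L B : SSet.{0}} {a : K ⟶ A} {j : K ⟶ L} {i : A ⟶ B} {b : L ⟶ B}

theorem po_mono (sq : IsPushout a j i b) [Mono j] : Mono i :=
  (MorphismProperty.monomorphisms SSet).of_isPushout sq
    (MorphismProperty.monomorphisms.infer_property j)

theorem po_surj (sq : IsPushout a j i b) {n : SimplexCategoryᵒᵖ} (y : B.obj n) :
    (∃ x, i.app n x = y) ∨ ∃ z, b.app n z = y ∧ z ∉ Set.range (j.app n) :=
  Types.eq_or_eq_of_isPushout' (sq.map ((evaluation _ _).obj n)) y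

theorem po_eq (sq : IsPushout a j i b) [Mono j] {n : SimplexCategoryᵒᵖ} {x : A.obj n}
    {z : L.obj n} (h : i.app n x = b.app n z) : ∃ k, a.app n k = x ∧ j.app n k = z :=
  let ⟨k, h1, h2⟩ := (Types.pushoutCocone_inl_eq_inr_iff_of_isColimit
    (sq.map ((evaluation _ _).obj n)).flip.isColimit (inj_app j n) z x).1 h.symm
  ⟨k, h2, h1⟩

theorem po_inj (sq : IsPushout a j i b) [Mono j] {n : SimplexCategoryᵒᵖ} {z z' : L.obj n}
    (hz : z ∉ Set.range (j.app n)) (h : b.app n z = b.app n z') : z = z' := by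
  classical
  let q := (sq.map ((evaluation _ _).obj n)).desc
    (W := Option (L.obj n)) (↾fun _ => none)
    (↾fun y => if y ∈ Set.range (j.app n) then none else some y) (by
      ext k : 3
      exact (if_pos (Set.mem_range_self (f := j.app n) k)).symm)
  have e : ∀ y, q (b.app n y) = if y ∈ Set.range (j.app n) then none else some y := fun y =>
    ConcreteCategory.congr_hom ((sq.map ((evaluation _ _).obj n)).inr_desc _ _ _) y
  have h1 := e z
  rw [h, e, if_neg hz] at h1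
  split_ifs at h1
  exact (Option.some.inj h1).symm

theorem po_intro [Mono i] (w : a ≫ i = j ≫ b) [Mono j]
    (h1 : ∀ n (x : A.obj n) z, i.app n x = b.app n z → z ∈ Set.range (j.app n))
    (h2 : ∀ n (y : B.obj n), y ∈ Set.range (i.app n) ∨ y ∈ Set.range (b.app n))
    (h3 : ∀ n (z z' : L.obj n), z ∉ Set.range (j.app n) → z' ∉ Set.range (j.app n) →
      b.app n z = b.app n z' → z = z') : IsPushout a j i b where
  w := w
  isColimit' := ⟨evaluationJointlyReflectsColimits _ fun n => by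
    refine (isColimitMapCoconePushoutCoconeEquiv _ _).2 (IsPushout.isColimit ?_)
    have : Mono (((evaluation _ _).obj n).map i) := (mono_iff_injective _).2 (inj_app i n)
    refine Types.isPushout_of_isPullback_of_mono' ?_ (Set.eq_univ_of_forall (h2 n)) (h3 n)
    rw [Types.isPullback_iff]
    refine ⟨NatTrans.congr_app w n, fun x y h => inj_app j n h.2, fun x z h => ?_⟩
    obtain ⟨k, rfl⟩ := h1 n x z h
    exact ⟨k, inj_app i n ((congr_ap w n k).trans h.symm), rfl⟩⟩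

theorem po_nd (sq : IsPushout a j i b) [Mono j] {n : ℕ} {z : L _⦋n⦌}
    (hz : z ∉ Set.range (j.app _)) (hn : z ∈ L.nonDegenerate n) :
    b.app _ z ∈ B.nonDegenerate n := by
  rw [mem_nonDegenerate_iff_notMem_degenerate] at hn ⊢
  rintro ⟨m, hm, f, y, e⟩
  rcases po_surj sq y with ⟨x, rfl⟩ | ⟨z', rfl, -⟩
  · obtain ⟨k, -, hk⟩ := po_eq sq ((nat_ap i f.op x).trans e)
    exact hz ⟨k, hk⟩
  · exact hn ⟨m, hm, f, z', (po_inj sq hz ((nat_ap b f.op z').trans e).symm).symm⟩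

theorem po_whisker (sq : IsPushout a j i b) (Z : SSet.{0}) :
    IsPushout (a ▷ Z) (j ▷ Z) (i ▷ Z) (b ▷ Z) := sq.map (tensorRight Z)

end po

/-- a map factors through a monomorphism if its nondegenerate simplices do -/
theorem ex_factor {K A B : SSet.{0}} (j : A ⟶ B) [Mono j] (f : K ⟶ B)
    (h : ∀ n, ∀ x ∈ K.nonDegenerate n, f.app _ x ∈ Set.range (j.app _)) :
    ∃ g : K ⟶ A, g ≫ j = f := by
  have : Subcomplex.range f ≤ Subcomplex.range j := by
    rw [← Subcomplex.preimage_eq_top_iff, Subcomplex.eq_top_iff_contains_nonDegenerate]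
    exact h
  exact ⟨Subcomplex.lift f this ≫ inv (Subcomplex.toRange j), by
    have e : inv (Subcomplex.toRange j) ≫ j = (Subcomplex.range j).ι := by
      rw [IsIso.inv_comp_eq, Subcomplex.toRange_ι]
    rw [Category.assoc, e, Subcomplex.lift_ι]⟩

section hep

variable {A B K L E X : SSet.{0}}

theorem pp_mono (j : A ⟶ B) (k : K ⟶ L) [Mono j] [Mono k]
    (sq : (curriedTensor SSet.{0}).PushoutObjObj j k) : Mono sq.ι := by
  refine (NatTrans.mono_iff_mono_app _).2 fun n => ?_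
  have : Mono ((B ◁ k).app n) := (mono_iff_injective _).2 fun x y h =>
    Prod.ext (congrArg Prod.fst h :) (inj_app k n (congrArg Prod.snd h))
  refine Types.mono_of_isPushout_of_isPullback (sq.isPushout.map ((evaluation _ _).obj n))
    (r' := (B ◁ k).app n) (b' := (j ▷ L).app n) ?_ (NatTrans.congr_app sq.inl_ι n)
    (NatTrans.congr_app sq.inr_ι n) fun x y _ _ h =>
      Prod.ext (inj_app j n (congrArg Prod.fst h)) (congrArg Prod.snd h :)
  rw [Types.isPullback_iff]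
  exact ⟨rfl, fun x y h => Prod.ext (congrArg Prod.fst h.2 :) (congrArg Prod.snd h.1 :),
    fun x y h => ⟨(y.1, x.2), Prod.ext (congrArg Prod.fst h :).symm rfl,
      Prod.ext rfl (congrArg Prod.snd h :)⟩⟩

/-- lifting against a pushout product -/
theorem lift_pp (j : A ⟶ B) (k : K ⟶ L) (p : E ⟶ X)
    (h : Mono j ∧ An k ∧ Fib p ∨ An j ∧ Mono k ∧ Fib p ∨ Mono j ∧ Mono k ∧ TFib p)
    (u : A ⊗ L ⟶ E) (v : B ⊗ K ⟶ E) (H : B ⊗ L ⟶ X) (w : j ▷ K ≫ v = A ◁ k ≫ u)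
    (hu : u ≫ p = j ▷ L ≫ H) (hv : v ≫ p = B ◁ k ≫ H) :
    ∃ l : B ⊗ L ⟶ E, j ▷ L ≫ l = u ∧ B ◁ k ≫ l = v ∧ l ≫ p = H := by
  let sq := Functor.PushoutObjObj.ofHasPushout (curriedTensor SSet.{0}) j k
  have lp : HasLiftingProperty sq.ι p := by
    rcases h with ⟨h1, h2, h3⟩ | ⟨h1, h2, h3⟩ | ⟨h1, h2, h3⟩
    · exact An.lp (anodyneExtensions_pushoutObjObjι sq h2) h3
    · exact An.lp (anodyneExtensions_pushoutObjObjι' sq h1) h3
    · have := pp_mono j k sq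
      exact h3.lp _
  have e1 : sq.inl ≫ sq.ι = B ◁ k := sq.inl_ι
  have e2 : sq.inr ≫ sq.ι = j ▷ L := sq.inr_ι
  obtain ⟨l, h1, h2⟩ := ex_lift lp (sq.isPushout.desc v u w) H (sq.isPushout.hom_ext
    (by rw [IsPushout.inl_desc_assoc, reassoc_of% e1, hv])
    (by rw [IsPushout.inr_desc_assoc, reassoc_of% e2, hu]))
  exact ⟨l, by rw [← e2, Category.assoc, h1, IsPushout.inr_desc],
    by rw [← e1, Category.assoc, h1, IsPushout.inl_desc], h2⟩

/-- the vertices of the interval -/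
noncomputable def pt (e : Fin 2) : (Δ[0] : SSet.{0}) ⟶ Δ[1] := const (stdSimplex.obj₀Equiv.symm e)

theorem an_pt (e : Fin 2) : An (pt e) := by
  have h := anodyneExtensions.horn_ι.{0} (n := 1) e
  have m : ∀ n (x : (Δ[1] : SSet.{0}).obj n), x ∈ Λ[1, e].obj n ↔
      x = (pt e).app n (stdSimplex.objMk (OrderHom.const _ 0)) := by
    rintro ⟨⟨n⟩⟩ x
    rw [mem_horn_iff_notMem_range]
    constructor
    · rintro ⟨j, h1, h2⟩
      ext i
      have h3 : x i ≠ j := fun h => h2 ⟨i, h⟩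
      change (x i).1 = e.1
      omega
    · rintro rfl
      refine ⟨e.rev, by fin_cases e <;> decide, ?_⟩
      rintro ⟨i, hi⟩
      change e = e.rev at hi
      fin_cases e <;> simp at hi
  let f : (Δ[0] : SSet.{0}) ⟶ Λ[1, e] := Subcomplex.lift (pt e) (by
    rintro n _ ⟨x, rfl⟩
    exact (m n _).2 rfl)
  have : IsIso f := ⟨⟨stdSimplex.isTerminalObj₀.from _, stdSimplex.ext₀, by
    ext n x
    exact Subtype.ext ((m n _).1 x.2).symm⟩⟩
  exact An.comp (f := f) (anodyneExtensions.of_isIso f) h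

/-- the end inclusions -/
noncomputable def ιe (e : Fin 2) {A : SSet.{0}} : A ⟶ A ⊗ Δ[1] :=
  lift (𝟙 A) (const (stdSimplex.obj₀Equiv.symm e))

theorem ιe_zero : (ιe 0 : A ⟶ _) = ι₀ := rfl

theorem ιe_one : (ιe 1 : A ⟶ _) = ι₁ := rfl

theorem an_ιe (e : Fin 2) (A : SSet.{0}) : An (ιe e : A ⟶ _) := by
  let f : A ⟶ A ⊗ Δ[0] := lift (𝟙 A) (stdSimplex.isTerminalObj₀.from _)
  have : IsIso f := ⟨⟨fst _ _, lift_fst _ _, CartesianMonoidalCategory.hom_ext _ _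
    (by simp [f]) stdSimplex.ext₀⟩⟩
  exact An.comp (f := f) (anodyneExtensions.of_isIso f) ((an_pt e).whiskerLeft A)

theorem hepe (e : Fin 2) (j : A ⟶ B) [Mono j] {p : E ⟶ X} (hp : Fib p) (f : B ⟶ E)
    (u : A ⊗ Δ[1] ⟶ E) (H : B ⊗ Δ[1] ⟶ X) (w : ιe e ≫ u = j ≫ f) (hu : u ≫ p = j ▷ _ ≫ H)
    (hf : ιe e ≫ H = f ≫ p) :
    ∃ l : B ⊗ Δ[1] ⟶ E, ιe e ≫ l = f ∧ j ▷ _ ≫ l = u ∧ l ≫ p = H := by
  have k : ∀ C : SSet.{0}, C ◁ pt e = fst C Δ[0] ≫ ιe e := fun C => rfl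
  obtain ⟨l, h1, h2, h3⟩ := lift_pp j (pt e) p (.inl ⟨‹_›, an_pt e, hp⟩) u (fst _ _ ≫ f) H
    (by rw [k, Category.assoc, w, whiskerRight_fst_assoc]) hu
    (by rw [k, Category.assoc, Category.assoc, hf])
  refine ⟨l, ?_, h1, h3⟩
  have := lift (𝟙 B) (stdSimplex.isTerminalObj₀.from _) ≫= h2
  rwa [k, Category.assoc, lift_fst_assoc, lift_fst_assoc, Category.id_comp,
    Category.id_comp] at this

/-- homotopy extension and lifting from the end `0` -/
theorem hep0 (j : A ⟶ B) [Mono j] {p : E ⟶ X} (hp : Fib p) (f : B ⟶ E)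
    (u : A ⊗ Δ[1] ⟶ E) (H : B ⊗ Δ[1] ⟶ X) (w : ι₀ ≫ u = j ≫ f) (hu : u ≫ p = j ▷ _ ≫ H)
    (hf : ι₀ ≫ H = f ≫ p) :
    ∃ l : B ⊗ Δ[1] ⟶ E, ι₀ ≫ l = f ∧ j ▷ _ ≫ l = u ∧ l ≫ p = H :=
  hepe 0 j hp f u H w hu hf

/-- homotopy extension and lifting from the end `1` -/
theorem hep1 (j : A ⟶ B) [Mono j] {p : E ⟶ X} (hp : Fib p) (f : B ⟶ E)
    (u : A ⊗ Δ[1] ⟶ E) (H : B ⊗ Δ[1] ⟶ X) (w : ι₁ ≫ u = j ≫ f) (hu : u ≫ p = j ▷ _ ≫ H)
    (hf : ι₁ ≫ H = f ≫ p) :
    ∃ l : B ⊗ Δ[1] ⟶ E, ι₁ ≫ l = f ∧ j ▷ _ ≫ l = u ∧ l ≫ p = H :=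
  hepe 1 j hp f u H w hu hf

theorem bd_one {n : SimplexCategoryᵒᵖ} (x : (∂Δ[1] : SSet.{0}).obj n) :
    x.1 = (pt 0).app n (stdSimplex.objMk (OrderHom.const _ 0)) ∨
      x.1 = (pt 1).app n (stdSimplex.objMk (OrderHom.const _ 0)) := by
  obtain ⟨⟨n⟩⟩ := n
  obtain ⟨j, hj⟩ := (mem_boundary_iff_notMem_range _).1 x.2
  have h3 : ∀ i, x.1 i ≠ j := fun i h => hj ⟨i, h⟩
  have k : ∀ a j : Fin 2, a ≠ j → (j = 0 → a.1 = 1) ∧ (j ≠ 0 → a.1 = 0) := by decide
  by_cases h : j = 0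
  · right
    ext i
    exact (k _ _ (h3 i)).1 h
  · left
    ext i
    exact (k _ _ (h3 i)).2 h

theorem ends_ne {n : SimplexCategoryᵒᵖ} :
    (pt 0).app n (stdSimplex.objMk (OrderHom.const _ 0)) ≠
      (pt 1).app n (stdSimplex.objMk (OrderHom.const _ 0)) := fun h => by
  obtain ⟨⟨n⟩⟩ := n
  exact absurd (congrArg (fun x : (Δ[1] : SSet.{0}) _⦋n⦌ => x 0) h) (by
    change (0 : Fin 2) ≠ 1
    decide)

open Classical in
/-- two maps define a map on the product with the boundary of the interval -/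
noncomputable def ends (f g : B ⟶ E) : B ⊗ (∂Δ[1] : SSet.{0}) ⟶ E where
  app n := ↾fun z => if z.2.1 = (pt 0).app n (stdSimplex.objMk (OrderHom.const _ 0))
    then f.app n z.1 else g.app n z.1
  naturality m n θ := by
    ext z
    rcases bd_one z.2 with h | h
    · refine (if_pos ?_).trans ((nat_ap f θ z.1).trans (congrArg (E.map θ) (if_pos h).symm))
      exact congrArg ((Δ[1] : SSet.{0}).map θ) h
    · refine (if_neg ?_).trans ((nat_ap g θ z.1).trans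
        (congrArg (E.map θ) (if_neg fun k => ends_ne (k.symm.trans h)).symm))
      exact fun k => ends_ne (k.symm.trans (congrArg ((Δ[1] : SSet.{0}).map θ) h))

theorem ends_eq {f g : B ⟶ E} {l : B ⊗ Δ[1] ⟶ E} :
    B ◁ ∂Δ[1].ι ≫ l = ends f g ↔ ι₀ ≫ l = f ∧ ι₁ ≫ l = g := by
  constructor
  · intro h
    refine ⟨?_, ?_⟩
    · ext n x
      exact (congr_ap h n (x, (boundary.ι 1).app n
        (stdSimplex.objMk (OrderHom.const _ 0)))).trans (if_pos rfl)
    · ext n x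
      exact (congr_ap h n (x, (boundary.ι 0).app n
        (stdSimplex.objMk (OrderHom.const _ 0)))).trans (if_neg ends_ne.symm)
  · rintro ⟨rfl, rfl⟩
    ext n z
    rcases bd_one z.2 with h | h
    · exact (congrArg (fun w => l.app n (z.1, w)) h).trans (if_pos h).symm
    · exact (congrArg (fun w => l.app n (z.1, w)) h).trans
        (if_neg fun k => ends_ne (k.symm.trans h)).symm

theorem ends_pre (j : A ⟶ B) (f g : B ⟶ E) : j ▷ _ ≫ ends f g = ends (j ≫ f) (j ≫ g) := rfl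

theorem ends_post (f g : B ⟶ E) (p : E ⟶ X) : ends f g ≫ p = ends (f ≫ p) (g ≫ p) := by
  ext n z
  exact apply_ite (p.app n) _ _ _

/-- homotopies with both ends prescribed -/
theorem hep2 (j : A ⟶ B) {p : E ⟶ X} (h : An j ∧ Fib p ∨ Mono j ∧ TFib p) (f g : B ⟶ E)
    (u : A ⊗ Δ[1] ⟶ E) (H : B ⊗ Δ[1] ⟶ X) (w0 : ι₀ ≫ u = j ≫ f) (w1 : ι₁ ≫ u = j ≫ g)
    (hu : u ≫ p = j ▷ _ ≫ H) (hf : ι₀ ≫ H = f ≫ p) (hg : ι₁ ≫ H = g ≫ p) :
    ∃ l : B ⊗ Δ[1] ⟶ E, ι₀ ≫ l = f ∧ ι₁ ≫ l = g ∧ j ▷ _ ≫ l = u ∧ l ≫ p = H := by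
  obtain ⟨l, h1, h2, h3⟩ := lift_pp j ∂Δ[1].ι p
    (.inr (h.imp (fun h => ⟨h.1, inferInstance, h.2⟩) fun h => ⟨h.1, inferInstance, h.2⟩))
    u (ends f g) H (by rw [ends_pre, ends_eq.2 ⟨w0, w1⟩]) hu
    (by rw [ends_post, ends_eq.2 ⟨hf, hg⟩])
  exact ⟨l, (ends_eq.1 h2).1, (ends_eq.1 h2).2, h1, h3⟩

end hep

end Pool.Agent.AZero
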