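import Pool.Agent.Lib.AZero.Basic

/-! Retractive simplicial sets, cells, and the nerve of a group. -/

noncomputable section

namespace Pool.Agent.AZero

open CategoryTheory Limits Simplicial SSet MonoidalCategory CartesianMonoidalCategory
  HomotopicalAlgebra Opposite
open scoped SSet.modelCategoryQuillen

section weq

variable {A B C : SSet.{0}} {f : A ⟶ B} {g : B ⟶ C}

theorem pre_comp (f : A ⟶ B) (g : B ⟶ C) (Z : SSet.{0}) :
    mapπ₀ ((MonoidalClosed.pre (f ≫ g)).app Z) =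
      mapπ₀ ((MonoidalClosed.pre f).app Z) ∘ mapπ₀ ((MonoidalClosed.pre g).app Z) := by
  funext x
  rw [MonoidalClosed.pre_map, NatTrans.comp_app, mapπ₀_comp_apply, Function.comp_apply]

theorem WEq.comp (hf : WEq f) (hg : WEq g) : WEq (f ≫ g) := fun Z _ => by
  rw [pre_comp]
  exact (hf Z).comp (hg Z)

theorem WEq.right (hf : WEq f) (h : WEq (f ≫ g)) : WEq g := fun Z _ =>
  (Function.Bijective.of_comp_iff' (hf Z) _).1 (pre_comp f g Z ▸ h Z)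

theorem WEq.left (hg : WEq g) (h : WEq (f ≫ g)) : WEq f := fun Z _ =>
  (Function.Bijective.of_comp_iff _ (hg Z)).1 (pre_comp f g Z ▸ h Z)

end weq

/-- the nondegenerate simplices outside the image have dimension at most `d` -/
def RelDim (d : ℕ) {A B : SSet.{0}} (j : A ⟶ B) : Prop :=
  ∀ n, ∀ y ∈ B.nonDegenerate n, y ∉ Set.range (j.app _) → n ≤ d

/-- attaching one cell -/
def One (m : ℕ) {A B : SSet.{0}} (i : A ⟶ B) : Prop :=
  ∃ (a : (∂Δ[m] : SSet.{0}) ⟶ A) (b : Δ[m] ⟶ B), IsPushout a ∂Δ[m].ι i b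

/-- attaching a finite pair -/
def Att {A B : SSet.{0}} (i : A ⟶ B) : Prop :=
  ∃ (K L : SSet.{0}) (a : K ⟶ A) (j : K ⟶ L) (b : L ⟶ B), Mono j ∧ L.Finite ∧ IsPushout a j i b

theorem Att.mono {A B : SSet.{0}} {i : A ⟶ B} (h : Att i) : Mono i :=
  let ⟨_, _, _, _, _, _, _, sq⟩ := h; po_mono sq

theorem One.att {m : ℕ} {A B : SSet.{0}} {i : A ⟶ B} (h : One m i) : Att i :=
  let ⟨a, b, sq⟩ := h; ⟨_, _, a, _, b, inferInstance, inferInstance, sq⟩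

/-- attaching a family of cells -/
def Cells (m : ℕ) {ι : Type} {A B : SSet.{0}} (i : A ⟶ B) (a : ι → ((∂Δ[m] : SSet.{0}) ⟶ A))
    (e : ι → (Δ[m] ⟶ B)) : Prop :=
  IsPushout (Sigma.desc a) (Limits.Sigma.map fun _ : ι => ∂Δ[m].ι) i (Sigma.desc e)

theorem sigma_surj {ι : Type} (F : ι → SSet.{0}) {n : SimplexCategoryᵒᵖ} (z : (∐ F).obj n) :
    ∃ l x, (Sigma.ι F l).app n x = z :=
  Cofan.inj_jointly_surjective_of_isColimit
    (isColimitCofanMkObjOfIsColimit ((evaluation _ _).obj n) _ _ (coproductIsCoproduct F)) z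

theorem sigma_idx {ι : Type} (F : ι → SSet.{0}) {n : SimplexCategoryᵒᵖ} {l l' : ι}
    {x : (F l).obj n} {x' : (F l').obj n}
    (h : (Sigma.ι F l).app n x = (Sigma.ι F l').app n x') : l = l' :=
  Cofan.eq_of_inj_apply_eq_of_isColimit
    (isColimitCofanMkObjOfIsColimit ((evaluation _ _).obj n) _ _ (coproductIsCoproduct F)) _ _ h

theorem sigma_inj {ι : Type} (F : ι → SSet.{0}) (n : SimplexCategoryᵒᵖ) (l : ι) :
    Function.Injective ((Sigma.ι F l).app n) :=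
  Cofan.inj_injective_of_isColimit
    (isColimitCofanMkObjOfIsColimit ((evaluation _ _).obj n) _ _ (coproductIsCoproduct F)) l

/-- the simplex given by a map from the standard simplex -/
def el {n : ℕ} {Y : SSet.{0}} (f : Δ[n] ⟶ Y) : Y _⦋n⦌ := SSet.yonedaEquiv f

/-- the map from the standard simplex given by a simplex -/
def sx {n : ℕ} {Y : SSet.{0}} (y : Y _⦋n⦌) : Δ[n] ⟶ Y := SSet.yonedaEquiv.symm y

section yon

variable {n : ℕ} {Y Y' : SSet.{0}}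

@[simp] theorem el_sx (y : Y _⦋n⦌) : el (sx y) = y := Equiv.apply_symm_apply _ _

@[simp] theorem sx_el (f : Δ[n] ⟶ Y) : sx (el f) = f := Equiv.symm_apply_apply _ _

theorem el_inj {f g : Δ[n] ⟶ Y} (h : el f = el g) : f = g := SSet.yonedaEquiv.injective h

theorem el_eq (f : Δ[n] ⟶ Y) : el f = f.app _ (stdSimplex.objEquiv.symm (𝟙 ⦋n⦌)) := rfl

theorem el_comp (f : Δ[n] ⟶ Y) (g : Y ⟶ Y') : el (f ≫ g) = g.app _ (el f) := rfl

theorem sx_comp (y : Y _⦋n⦌) (g : Y ⟶ Y') : sx y ≫ g = sx (g.app _ y) :=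
  yonedaEquiv_symm_comp _ _

theorem sx_app (y : Y _⦋n⦌) {m : SimplexCategoryᵒᵖ} (θ : (Δ[n] : SSet.{0}).obj m) :
    (sx y).app m θ = Y.map (stdSimplex.objEquiv θ).op y := rfl

theorem app_eq (f : Δ[n] ⟶ Y) {m : SimplexCategoryᵒᵖ} (θ : (Δ[n] : SSet.{0}).obj m) :
    f.app m θ = Y.map (stdSimplex.objEquiv θ).op (el f) := by rw [← sx_app, sx_el]

theorem el_δ (j : Fin (n + 2)) (f : Δ[n + 1] ⟶ Y) : el (stdSimplex.δ j ≫ f) = Y.δ j (el f) :=
  (SSet.yonedaEquiv_naturality _ _).symm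

theorem el_σ (j : Fin (n + 1)) (f : Δ[n] ⟶ Y) : el (stdSimplex.σ j ≫ f) = Y.σ j (el f) :=
  (SSet.yonedaEquiv_naturality _ _).symm

theorem δ_sx (j : Fin (n + 2)) (y : Y _⦋n + 1⦌) : stdSimplex.δ j ≫ sx y = sx (Y.δ j y) :=
  yonedaEquiv_symm_naturality_left _ _

theorem σ_sx (j : Fin (n + 1)) (y : Y _⦋n⦌) : stdSimplex.σ j ≫ sx y = sx (Y.σ j y) :=
  yonedaEquiv_symm_naturality_left _ _

theorem δ_ap (g : Y ⟶ Y') (j : Fin (n + 2)) (y : Y _⦋n + 1⦌) :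
    g.app _ (Y.δ j y) = Y'.δ j (g.app _ y) := nat_ap g _ y

theorem σ_ap (g : Y ⟶ Y') (j : Fin (n + 1)) (y : Y _⦋n⦌) :
    g.app _ (Y.σ j y) = Y'.σ j (g.app _ y) := nat_ap g _ y

/-- horn filling for a compatible family of simplices -/
theorem Fib.fill {p : Y ⟶ Y'} (hp : Fib p) (i : Fin (n + 3)) (y : Fin (n + 3) → Y _⦋n + 1⦌)
    (x : Y' _⦋n + 2⦌) (h1 : ∀ j, j ≠ i → p.app _ (y j) = Y'.δ j x)
    (h2 : ∀ j k : Fin (n + 2), j ≤ k → j.castSucc ≠ i → k.succ ≠ i →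
      Y.δ j (y k.succ) = Y.δ k (y j.castSucc)) :
    ∃ t : Y _⦋n + 2⦌, p.app _ t = x ∧ ∀ j, j ≠ i → Y.δ j t = y j := by
  have c : horn.IsCompatible (i := i) fun j _ => sx (y j) := fun j k hj hk hjk => by
    obtain ⟨j, rfl⟩ := j.eq_castSucc_of_ne_last (Fin.ne_last_of_lt hjk)
    obtain ⟨k, rfl⟩ := k.eq_succ_of_ne_zero (Fin.ne_zero_of_lt hjk)
    rw [Fin.pred_succ, Fin.castPred_castSucc, δ_sx, δ_sx,
      h2 j k (Fin.castSucc_lt_succ_iff.1 hjk) hj hk]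
  obtain ⟨φ, e1, e2⟩ := c.exists_lift p (sx x) fun j hj => by rw [sx_comp, δ_sx, h1 j hj]
  exact ⟨el φ, by rw [← el_comp, e2, el_sx], fun j hj => by rw [← el_δ, e1 j hj, el_sx]⟩

theorem δ_δ {i j : Fin (n + 2)} (h : i ≤ j) (t : Y _⦋n + 2⦌) :
    Y.δ i (Y.δ j.succ t) = Y.δ j (Y.δ i.castSucc t) :=
  ConcreteCategory.congr_hom (Y.δ_comp_δ h) t

end yon

theorem id_notin_bd {m : ℕ} {ι : Type} (l : ι) :
    (Sigma.ι (fun _ : ι => (Δ[m] : SSet.{0})) l).app _ (stdSimplex.objEquiv.symm (𝟙 ⦋m⦌)) ∉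
      Set.range ((Limits.Sigma.map fun _ : ι => ∂Δ[m].ι).app (op ⦋m⦌)) := by
  rintro ⟨z, hz⟩
  obtain ⟨l', x, rfl⟩ := sigma_surj _ z
  have e := (congr_ap (Sigma.ι_map (fun _ : ι => ∂Δ[m].ι) l') _ x).symm.trans hz
  obtain rfl := sigma_idx _ e
  have k := x.2
  rw [show x.1 = _ from sigma_inj (fun _ : ι => (Δ[m] : SSet.{0})) _ _ e] at k
  exact stdSimplex.notMem_boundary m k

namespace Cells

variable {m : ℕ} {ι : Type} {A B V : SSet.{0}} {i : A ⟶ B} {a : ι → ((∂Δ[m] : SSet.{0}) ⟶ A)}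
  {e : ι → (Δ[m] ⟶ B)} (h : Cells m i a e)
include h

theorem comm (l : ι) : a l ≫ i = ∂Δ[m].ι ≫ e l := by
  simpa using Sigma.ι _ l ≫= (IsPushout.toCommSq h).w

theorem mono : Mono i := po_mono h

theorem att [Finite ι] : Att i := ⟨_, _, _, _, _, inferInstance, inferInstance, h⟩

theorem ext {f g : B ⟶ V} (h1 : i ≫ f = i ≫ g) (h2 : ∀ l, e l ≫ f = e l ≫ g) : f = g :=
  IsPushout.hom_ext h h1 (Sigma.hom_ext _ _ fun l => by simpa using h2 l)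

theorem desc (g : A ⟶ V) (v : ι → (Δ[m] ⟶ V)) (w : ∀ l, a l ≫ g = ∂Δ[m].ι ≫ v l) :
    ∃ f : B ⟶ V, i ≫ f = g ∧ ∀ l, e l ≫ f = v l := by
  have w' : Sigma.desc a ≫ g = (Limits.Sigma.map fun _ : ι => ∂Δ[m].ι) ≫ Sigma.desc v :=
    Sigma.hom_ext _ _ fun l => by simpa using w l
  exact ⟨IsPushout.desc h g _ w', IsPushout.inl_desc .., fun l => by
    have := Sigma.ι _ l ≫= IsPushout.inr_desc h g _ w'
    rwa [Sigma.ι_desc_assoc, Sigma.ι_desc] at this⟩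

theorem surj {n : ℕ} (y : B _⦋n⦌) : y ∈ Set.range (i.app _) ∨
    ∃ (l : ι) (θ : ⦋n⦌ ⟶ ⦋m⦌), Epi θ ∧ B.map θ.op (el (e l)) = y := by
  refine (po_surj h y).imp id fun ⟨z, h1, h2⟩ => ?_
  obtain ⟨l, x, rfl⟩ := sigma_surj _ z
  refine ⟨l, stdSimplex.objEquiv x, ?_, ?_⟩
  · by_contra k
    refine h2 ⟨(Sigma.ι (fun _ : ι => (∂Δ[m] : SSet.{0})) l).app _ ⟨x, ?_⟩, ?_⟩
    · rwa [SimplexCategory.epi_iff_surjective] at k
    · exact congr_ap (Sigma.ι_map (fun _ : ι => ∂Δ[m].ι) l) _ _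
  · rw [← h1, ← comp_ap, Sigma.ι_desc, app_eq]

theorem notin (l : ι) : el (e l) ∉ Set.range (i.app _) := by
  rintro ⟨x, hx⟩
  have e1 := congr_ap (Sigma.ι_desc e l) _ (stdSimplex.objEquiv.symm (𝟙 ⦋m⦌))
  obtain ⟨k, -, hk⟩ := po_eq h (hx.trans e1.symm)
  exact id_notin_bd l ⟨k, hk⟩

theorem inj : Function.Injective fun l => el (e l) := fun l l' k =>
  sigma_idx _ (po_inj h (id_notin_bd l)
    ((congr_ap (Sigma.ι_desc e l) _ (stdSimplex.objEquiv.symm (𝟙 ⦋m⦌))).trans (k.trans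
      (congr_ap (Sigma.ι_desc e l') _ (stdSimplex.objEquiv.symm (𝟙 ⦋m⦌))).symm)))

theorem surj_lt {n : ℕ} (hn : n < m) : Function.Surjective (i.app (op ⦋n⦌)) := fun y =>
  (h.surj y).resolve_right fun ⟨_, θ, _, _⟩ =>
    absurd (SimplexCategory.len_le_of_epi θ) (by simpa using hn)

theorem surj_eq (y : B _⦋m⦌) : y ∈ Set.range (i.app _) ∨ ∃ l, el (e l) = y :=
  (h.surj y).imp id fun ⟨l, θ, _, k⟩ => ⟨l, by
    obtain rfl := SimplexCategory.eq_id_of_epi θ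
    simpa using k⟩

theorem relDim : RelDim m i := fun n y hy k =>
  let ⟨_, θ, _, e1⟩ := (h.surj y).resolve_left k
  have := B.mono_of_nonDegenerate ⟨y, hy⟩ θ _ e1
  SimplexCategory.len_le_of_mono θ

theorem deg {n : ℕ} (hn : m < n) (y : B _⦋n⦌) :
    y ∈ Set.range (i.app _) ∨ y ∈ B.degenerate n := by
  by_contra k
  rw [not_or, ← mem_nonDegenerate_iff_notMem_degenerate] at k
  exact absurd (h.relDim n y k.2 k.1) (by omega)

theorem hext {Z : SSet.{0}} {f g : B ⊗ Z ⟶ V} (h1 : i ▷ Z ≫ f = i ▷ Z ≫ g)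
    (h2 : ∀ l, e l ▷ Z ≫ f = e l ▷ Z ≫ g) : f = g := by
  ext n z
  rcases po_surj h z.1 with ⟨x, k⟩ | ⟨y, k, -⟩
  · have e1 : z = (i ▷ Z).app n (x, z.2) := Prod.ext k.symm rfl
    rw [e1]
    exact congr_ap h1 n _
  · obtain ⟨l, x, rfl⟩ := sigma_surj _ y
    have e1 : z = (e l ▷ Z).app n (x, z.2) :=
      Prod.ext (k.symm.trans (congr_ap (Sigma.ι_desc e l) n x)) rfl
    rw [e1]
    exact congr_ap (h2 l) n _

theorem hdesc {Z : SSet.{0}} (g : A ⊗ Z ⟶ V) (v : ι → (Δ[m] ⊗ Z ⟶ V))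
    (w : ∀ l, a l ▷ Z ≫ g = ∂Δ[m].ι ▷ Z ≫ v l) :
    ∃ f : B ⊗ Z ⟶ V, i ▷ Z ≫ f = g ∧ ∀ l, e l ▷ Z ≫ f = v l := by
  let c : ∀ {C : SSet.{0}}, (C ⊗ Z ⟶ V) → (C ⟶ (ihom Z).obj V) := fun u =>
    MonoidalClosed.curry ((β_ _ _).hom ≫ u)
  have c1 : ∀ {C D : SSet.{0}} (t : C ⟶ D) (u : D ⊗ Z ⟶ V), t ≫ c u = c (t ▷ Z ≫ u) :=
    fun t u => by
      simp only [c]
      rw [← MonoidalClosed.curry_natural_left, BraidedCategory.braiding_naturality_right_assoc]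
  have c2 : ∀ {C : SSet.{0}} (u u' : C ⊗ Z ⟶ V), c u = c u' → u = u' := fun u u' k =>
    (cancel_epi _).1 (MonoidalClosed.curry_injective k)
  obtain ⟨f, h1, h2⟩ := h.desc (c g) (fun l => c (v l)) fun l => by rw [c1, c1, w]
  have c3 : c ((β_ _ _).inv ≫ MonoidalClosed.uncurry f) = f := by simp [c]
  exact ⟨(β_ _ _).inv ≫ MonoidalClosed.uncurry f, c2 _ _ (by rw [← c1, c3, h1]),
    fun l => c2 _ _ (by rw [← c1, c3, h2])⟩

end Cells

namespace Ret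

variable {X : SSet.{0}}

/-- the identity -/
def Hom.id (A : Ret X) : A.Hom A := ⟨𝟙 _, Category.comp_id _, Category.id_comp _⟩

/-- composition -/
def Hom.comp {A B C : Ret X} (f : A.Hom B) (g : B.Hom C) : A.Hom C :=
  ⟨f.f ≫ g.f, by rw [← Category.assoc, f.hs, g.hs], by rw [Category.assoc, g.hr, f.hr]⟩

/-- the zero object -/
def zero (X : SSet.{0}) : Ret X := ⟨X, 𝟙 X, 𝟙 X, Category.id_comp _⟩

/-- the map from the zero object -/
def fromZero (A : Ret X) : (zero X).Hom A := ⟨A.s, Category.id_comp _, A.sr⟩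

/-- an object under `A` and over `X` -/
def via (A : Ret X) {C : SSet.{0}} (u : A.Y ⟶ C) (v : C ⟶ X) (h : u ≫ v = A.r) : Ret X :=
  ⟨C, A.s ≫ u, v, by rw [Category.assoc, h, A.sr]⟩

/-- the structure map -/
def toVia (A : Ret X) {C : SSet.{0}} (u : A.Y ⟶ C) (v : C ⟶ X) (h : u ≫ v = A.r) :
    A.Hom (A.via u v h) := ⟨u, rfl, h⟩

instance (A : Ret X) : Mono A.s := mono_of_mono_fac A.sr

/-- pushouts -/
theorem ex_att (A : Ret X) {K L : SSet.{0}} (a : K ⟶ A.Y) (j : K ⟶ L) (x : L ⟶ X)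
    (w : a ≫ A.r = j ≫ x) :
    ∃ (B : Ret X) (i : A.Hom B) (b : L ⟶ B.Y), IsPushout a j i.f b ∧ b ≫ B.r = x :=
  ⟨A.via (pushout.inl a j) (pushout.desc A.r x w) (pushout.inl_desc ..), A.toVia .., pushout.inr a j,
    IsPushout.of_hasPushout a j, pushout.inr_desc ..⟩

/-- pushouts of maps of retractive objects -/
theorem ex_po {A B C : Ret X} (f : A.Hom B) (g : A.Hom C) :
    ∃ (D : Ret X) (u : B.Hom D) (v : C.Hom D), IsPushout f.f g.f u.f v.f :=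
  let ⟨D, u, b, sq, h⟩ := B.ex_att f.f g.f C.r (f.hr.trans g.hr.symm)
  ⟨D, u, ⟨b, by rw [← g.hs, Category.assoc, ← sq.w, ← Category.assoc, f.hs, u.hs], h⟩, sq⟩

/-- maps out of pushouts -/
theorem ex_desc {A B V : Ret X} {K L : SSet.{0}} {a : K ⟶ A.Y} {j : K ⟶ L} {i : A.Hom B}
    {b : L ⟶ B.Y} (sq : IsPushout a j i.f b) (g : A.Hom V) (v : L ⟶ V.Y) (w : a ≫ g.f = j ≫ v)
    (hv : v ≫ V.r = b ≫ B.r) : ∃ f : B.Hom V, i.f ≫ f.f = g.f ∧ b ≫ f.f = v :=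
  ⟨⟨sq.desc g.f v w, by rw [← i.hs, Category.assoc, sq.inl_desc, g.hs], sq.hom_ext
    (by rw [sq.inl_desc_assoc, g.hr, i.hr]) (by rw [sq.inr_desc_assoc, hv])⟩,
    sq.inl_desc .., sq.inr_desc ..⟩

theorem ex_cells (A : Ret X) {m : ℕ} {ι : Type} (a : ι → ((∂Δ[m] : SSet.{0}) ⟶ A.Y))
    (x : ι → (Δ[m] ⟶ X)) (w : ∀ l, a l ≫ A.r = ∂Δ[m].ι ≫ x l) :
    ∃ (B : Ret X) (i : A.Hom B) (e : ι → (Δ[m] ⟶ B.Y)), Cells m i.f a e ∧
      ∀ l, e l ≫ B.r = x l := by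
  obtain ⟨B, i, b, sq, h⟩ := A.ex_att (Sigma.desc a) (Limits.Sigma.map fun _ : ι => ∂Δ[m].ι)
    (Sigma.desc x) (Sigma.hom_ext _ _ fun l => by simpa using w l)
  have e : Sigma.desc (fun l => Sigma.ι (fun _ : ι => (Δ[m] : SSet.{0})) l ≫ b) = b :=
    Sigma.hom_ext _ _ fun l => Sigma.ι_desc _ _
  exact ⟨B, i, fun l => Sigma.ι (fun _ : ι => (Δ[m] : SSet.{0})) l ≫ b,
    by rw [Cells, e]; exact sq, fun l => by rw [Category.assoc, h, Sigma.ι_desc]⟩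

/-- extension along anodyne maps -/
theorem ex_ext {A B V : Ret X} (u : A.Hom B) (hu : An u.f) (hV : Fib V.r) (g : A.Hom V) :
    ∃ f : B.Hom V, u.f ≫ f.f = g.f :=
  let ⟨l, h1, h2⟩ := ex_lift (hu.lp hV) g.f B.r (g.hr.trans u.hr.symm)
  ⟨⟨l, by rw [← u.hs, Category.assoc, h1, g.hs], h2⟩, h1⟩

/-- an anodyne map of retractive objects -/
def AnE (A B : Ret X) : Prop := ∃ f : A.Hom B, An f.f

theorem AnE.refl (A : Ret X) : A.AnE A := ⟨.id A, An.id _⟩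

theorem AnE.trans {A B C : Ret X} (h : A.AnE B) (k : B.AnE C) : A.AnE C :=
  let ⟨f, hf⟩ := h; let ⟨g, hg⟩ := k; ⟨f.comp g, hf.comp hg⟩

theorem AnE.amalg {A B C : Ret X} (h : A.AnE B) (k : A.AnE C) : ∃ D : Ret X, B.AnE D ∧ C.AnE D :=
  let ⟨f, hf⟩ := h; let ⟨g, hg⟩ := k; let ⟨D, u, v, sq⟩ := ex_po f g
  ⟨D, ⟨u, An.po sq hg⟩, ⟨v, An.po sq.flip hf⟩⟩

/-- the simplex lies in `X` -/
def In (A : Ret X) {n : SimplexCategoryᵒᵖ} (y : A.Y.obj n) : Prop := y ∈ Set.range (A.s.app n)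

theorem r_s (A : Ret X) {n : SimplexCategoryᵒᵖ} (x : X.obj n) :
    A.r.app n (A.s.app n x) = x := congr_ap A.sr n x

theorem In.eq {A : Ret X} {n : SimplexCategoryᵒᵖ} {y : A.Y.obj n} (h : A.In y) :
    A.s.app n (A.r.app n y) = y := by
  obtain ⟨x, rfl⟩ := h
  rw [r_s]

theorem In.ext {A : Ret X} {n : SimplexCategoryᵒᵖ} {y y' : A.Y.obj n} (h : A.In y)
    (h' : A.In y') (e : A.r.app n y = A.r.app n y') : y = y' := by rw [← h.eq, e, h'.eq]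

theorem In.map {A : Ret X} {m n : SimplexCategoryᵒᵖ} {y : A.Y.obj m} (h : A.In y) (θ : m ⟶ n) :
    A.In (A.Y.map θ y) := by
  obtain ⟨x, rfl⟩ := h
  exact ⟨_, nat_ap A.s θ x⟩

theorem In.hom {A B : Ret X} {n : SimplexCategoryᵒᵖ} {y : A.Y.obj n} (h : A.In y) (f : A.Hom B) :
    B.In (f.f.app n y) := by
  obtain ⟨x, rfl⟩ := h
  exact ⟨x, (congr_ap f.hs n x).symm⟩

theorem Hom.r_f {A B : Ret X} (f : A.Hom B) {n : SimplexCategoryᵒᵖ} (y : A.Y.obj n) :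
    B.r.app n (f.f.app n y) = A.r.app n y := congr_ap f.hr n y

/-- all simplices of dimension less than `n` lie in `X` -/
def Red (n : ℕ) (A : Ret X) : Prop := ∀ m < n, ∀ y : A.Y _⦋m⦌, A.In y

theorem Red.of_surj {n : ℕ} {A B : Ret X} (h : A.Red n) (f : A.Hom B)
    (hf : ∀ m < n, Function.Surjective (f.f.app (op ⦋m⦌))) : B.Red n := fun m hm y =>
  let ⟨x, e⟩ := hf m hm y; e ▸ (h m hm x).hom f

/-- maps from low dimensional complexes to reduced objects factor through `X` -/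
theorem Red.eq {n : ℕ} {A : Ret X} (h : A.Red n) {K : SSet.{0}} [K.HasDimensionLT n]
    (f : K ⟶ A.Y) : f ≫ A.r ≫ A.s = f := by
  obtain ⟨g, rfl⟩ := ex_factor A.s f fun m x hx => h m (K.dim_lt_of_nonDegenerate ⟨x, hx⟩ n) _
  rw [Category.assoc, reassoc_of% A.sr]

theorem fib_low {k : ℕ} {W V : Ret X} (hW : Fib W.r) (g : W.Hom V) [Mono g.f]
    (hg : ∀ m < k, Function.Surjective (g.f.app (op ⦋m⦌)))
    (h : ∀ m, k ≤ m → ∀ i : Fin (m + 2), HasLiftingProperty Λ[m + 1, i].ι V.r) : Fib V.r := by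
  refine fib_iff.2 fun m i => ?_
  by_cases hm : k ≤ m
  · exact h m hm i
  refine lp_of_ex fun u v w => ?_
  obtain ⟨u', rfl⟩ := ex_factor g.f u fun n x hx => hg n (by
    have := dim_lt_of_nonDegenerate (X := Λ[m + 1, i]) ⟨x, hx⟩ (m + 1)
    omega) _
  obtain ⟨l, h1, h2⟩ := ex_lift (fib_iff.1 hW m i) u' v (by rw [← w, Category.assoc, g.hr])
  exact ⟨l ≫ g.f, by rw [reassoc_of% h1], by rw [Category.assoc, g.hr, h2]⟩

theorem Red.fib {k : ℕ} {V : Ret X} (hV : V.Red k)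
    (h : ∀ m, k ≤ m → ∀ i : Fin (m + 2), HasLiftingProperty Λ[m + 1, i].ι V.r) : Fib V.r :=
  have : Mono V.fromZero.f := inferInstanceAs (Mono V.s)
  fib_low (W := zero X) (inferInstanceAs (Fibration (𝟙 X))) V.fromZero hV h

theorem IsFinite.hf {A : Ret X} (h : A.IsFinite) : A.HFinite := ⟨A, h, .refl A⟩

theorem HFinite.fd {A : Ret X} (h : A.HFinite) : A.FinDom :=
  ⟨A, .id A, .id A, h, Category.id_comp _⟩

theorem FinDom.retract {A B : Ret X} (h : A.FinDom) (i : B.Hom A) (p : A.Hom B)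
    (e : i.f ≫ p.f = 𝟙 _) : B.FinDom :=
  let ⟨U, i', p', h1, h2⟩ := h
  ⟨U, i.comp i', p'.comp p, h1, by
    change (i.f ≫ i'.f) ≫ p'.f ≫ p.f = _
    rw [Category.assoc, reassoc_of% h2, e]⟩

theorem zero_finite (X : SSet.{0}) : (zero X).IsFinite :=
  have : IsEmpty {y : (zero X).Y.N // y.simplex ∉ Set.range ((zero X).s.app _)} :=
    ⟨fun y => y.2 ⟨y.1.simplex, rfl⟩⟩
  Finite.of_subsingleton

end Ret

section nerve

variable {Γ : Type} [Group Γ]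

/-- the potential of a vertex of a simplex of the nerve -/
def pot {n : SimplexCategoryᵒᵖ} (x : (BG Γ).obj n) (j : Fin (n.unop.len + 1)) : Γ :=
  (show Γ from x.map (homOfLE (Fin.zero_le j)))⁻¹

theorem pot_zero {n : SimplexCategoryᵒᵖ} (x : (BG Γ).obj n) : pot x 0 = 1 :=
  inv_eq_one.2 (x.map_id 0)

theorem map_eq_pot {n : SimplexCategoryᵒᵖ} (x : (BG Γ).obj n) {j k : Fin (n.unop.len + 1)}
    (h : j ⟶ k) : (show Γ from x.map h) = (pot x k)⁻¹ * pot x j := by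
  have : (show Γ from x.map (homOfLE (Fin.zero_le k))) = (show Γ from x.map h) *
      (show Γ from x.map (homOfLE (Fin.zero_le j))) := x.map_comp (homOfLE (Fin.zero_le j)) h
  simp only [pot, this, inv_inv, mul_inv_cancel_right]

theorem pot_map {m n : SimplexCategoryᵒᵖ} (θ : m ⟶ n) (x : (BG Γ).obj m)
    (j : Fin (n.unop.len + 1)) : pot ((BG Γ).map θ x) j =
      (pot x (θ.unop.toOrderHom 0))⁻¹ * pot x (θ.unop.toOrderHom j) := by
  have := map_eq_pot x (homOfLE (θ.unop.toOrderHom.monotone (Fin.zero_le j)))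
  exact (congrArg (·⁻¹) this).trans (by simp)

theorem pot_ext {n : SimplexCategoryᵒᵖ} {x y : (BG Γ).obj n} (h : ∀ j, pot x j = pot y j) :
    x = y :=
  CategoryTheory.Functor.hext (fun _ => rfl) fun j k f => heq_of_eq
    ((map_eq_pot x f).trans (by rw [h, h]; exact (map_eq_pot y f).symm))

/-- the simplex with given potentials -/
def mkS {n : SimplexCategoryᵒᵖ} (a : Fin (n.unop.len + 1) → Γ) : (BG Γ).obj n where
  obj _ := SingleObj.star Γ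
  map {j k} _ := (a k)⁻¹ * a j
  map_id j := inv_mul_cancel (a j)
  map_comp {i j k} _ _ := by
    change (a k)⁻¹ * a i = ((a k)⁻¹ * a j) * ((a j)⁻¹ * a i)
    group

theorem pot_mkS {n : SimplexCategoryᵒᵖ} (a : Fin (n.unop.len + 1) → Γ)
    (j : Fin (n.unop.len + 1)) : pot (mkS a) j = (a 0)⁻¹ * a j := by
  change ((a j)⁻¹ * a 0)⁻¹ = _
  group

theorem map_mkS {m n : SimplexCategoryᵒᵖ} (θ : m ⟶ n) (a : Fin (m.unop.len + 1) → Γ) :
    (BG Γ).map θ (mkS a) = mkS fun j => a (θ.unop.toOrderHom j) := rfl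

theorem mkS_pot {n : SimplexCategoryᵒᵖ} (x : (BG Γ).obj n) (g : Γ) :
    mkS (fun j => g * pot x j) = x := pot_ext fun j => by
  rw [pot_mkS, pot_zero]
  group

/-- the totally degenerate simplex -/
def cst (Γ : Type) [Group Γ] (n : ℕ) : BG Γ _⦋n⦌ := mkS fun _ => 1

theorem map_cst {m n : ℕ} (θ : (op ⦋m⦌ : SimplexCategoryᵒᵖ) ⟶ op ⦋n⦌) :
    (BG Γ).map θ (cst Γ m) = cst Γ n := rfl

theorem δ_cst {n : ℕ} (j : Fin (n + 2)) : (BG Γ).δ j (cst Γ (n + 1)) = cst Γ n := rfl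

theorem σ_cst {n : ℕ} (j : Fin (n + 1)) : (BG Γ).σ j (cst Γ n) = cst Γ (n + 1) := rfl

theorem pot_cst {n : ℕ} (j : Fin (n + 1)) : pot (cst Γ n) j = 1 := by
  rw [cst, pot_mkS, mul_one, inv_one]

theorem vtx_eq (x : BG Γ _⦋0⦌) : x = vtx Γ := pot_ext fun j => by
  obtain rfl : j = 0 := Subsingleton.elim (α := Fin 1) _ _
  rw [pot_zero, pot_zero]

/-- the label of the first edge -/
def lab {n : ℕ} (x : BG Γ _⦋n + 1⦌) : Γ := pot x (1 : Fin (n + 2))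

variable {k M : Type} [CommRing k] [AddCommGroup M] [Module k M] (ρ : Representation k Γ M)

/-- the twisted coboundary -/
def cob {Y : SSet.{0}} (r : Y ⟶ BG Γ) (n : ℕ) : (Y _⦋n⦌ → M) →ₗ[k] (Y _⦋n + 1⦌ → M) where
  toFun c t := ρ (lab (r.app _ t)) (c (Y.δ 0 t)) +
    ∑ j : Fin (n + 1), (-1 : ℤ) ^ (j.1 + 1) • c (Y.δ j.succ t)
  map_add' c c' := by
    ext t
    simp only [Pi.add_apply, map_add, smul_add, Finset.sum_add_distrib]
    abel
  map_smul' a c := by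
    ext t
    simp only [Pi.smul_apply, map_smul, smul_add, Finset.smul_sum, RingHom.id_apply, smul_comm a]

theorem cob_apply {Y : SSet.{0}} (r : Y ⟶ BG Γ) {n : ℕ} (c : Y _⦋n⦌ → M) (t : Y _⦋n + 1⦌) :
    cob ρ r n c t = ρ (lab (r.app _ t)) (c (Y.δ 0 t)) +
      ∑ j : Fin (n + 1), (-1 : ℤ) ^ (j.1 + 1) • c (Y.δ j.succ t) := rfl

theorem cob_comp {Y Y' : SSet.{0}} (f : Y' ⟶ Y) (r : Y ⟶ BG Γ) {n : ℕ} (c : Y _⦋n⦌ → M)
    (t : Y' _⦋n + 1⦌) :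
    cob ρ (f ≫ r) n (fun y => c (f.app _ y)) t = cob ρ r n c (f.app _ t) := by
  simp only [cob_apply, δ_ap, comp_ap]

/-- normalised cochains -/
def Nrm {Y : SSet.{0}} {n : ℕ} (c : Y _⦋n⦌ → M) : Prop := ∀ y ∈ Y.degenerate n, c y = 0

theorem Nrm.comp {Y Y' : SSet.{0}} (f : Y' ⟶ Y) {n : ℕ} {c : Y _⦋n⦌ → M} (h : Nrm c) :
    Nrm fun y => c (f.app _ y) := fun _ hy => h _ (degenerate_app_apply hy f)

theorem Ret.Red.nrm {X : SSet.{0}} {W : Ret X} {n : ℕ} (h : W.Red n) {c : W.Y _⦋n⦌ → M}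
    (hc : ∀ y, W.In y → c y = 0) : Nrm c := by
  rintro _ ⟨m, hm, f, y, rfl⟩
  exact hc _ ((h m hm y).map _)

/-- the group ring -/
abbrev RG (Γ : Type) [Group Γ] : Type := MonoidAlgebra ℤ Γ

/-- the representation given by a module over the group ring -/
def mrep (Γ M : Type) [Group Γ] [AddCommGroup M] [Module (RG Γ) M] : Representation ℤ Γ M :=
  (Algebra.lsmul ℤ ℤ M : RG Γ →ₐ[ℤ] Module.End ℤ M).toMonoidHom.comp (MonoidAlgebra.of ℤ Γ)

theorem mrep_apply {M : Type} [AddCommGroup M] [Module (RG Γ) M] (g : Γ) (m : M) :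
    mrep Γ M g m = MonoidAlgebra.of ℤ Γ g • m := rfl

end nerve

end Pool.Agent.AZero
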