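import Pool.Agent.Lib.AZero.Basic2

/-! The blueprint: working definitions and the statements of the blocks. -/

noncomputable section

namespace Pool.Agent.AZero

open CategoryTheory Limits Simplicial SSet MonoidalCategory CartesianMonoidalCategory
  HomotopicalAlgebra Opposite
open scoped SSet.modelCategoryQuillen

/-- Kan fibrations with the lifting property for boundaries of dimension at most `d` -/
def FF (d : ℕ) {E W : SSet.{0}} (q : E ⟶ W) : Prop :=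
  Fib q ∧ ∀ m ≤ d, HasLiftingProperty ∂Δ[m].ι q

namespace Ret

variable {X : SSet.{0}}

/-- homotopy dimension at most `d` -/
def PD (d : ℕ) (A : Ret X) : Prop :=
  ∀ (E W : Ret X) (q : E.Hom W), Fib W.r → FF d q.f → ∀ f : A.Hom W,
    ∃ g : A.Hom E, g.f ≫ q.f = f.f

/-- a homotopy over `X` and relative to the boundary between two simplices -/
def PH (W : Ret X) {n : ℕ} (y y' : W.Y _⦋n⦌) : Prop :=
  ∃ h : Δ[n] ⊗ Δ[1] ⟶ W.Y, ι₀ ≫ h = sx y ∧ ι₁ ≫ h = sx y' ∧ h ≫ W.r = fst _ _ ≫ sx y ≫ W.r ∧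
    ∂Δ[n].ι ▷ _ ≫ h = fst _ _ ≫ ∂Δ[n].ι ≫ sx y

/-- the simplex can be deformed into `X` -/
def PNull (W : Ret X) {n : ℕ} (y : W.Y _⦋n⦌) : Prop := ∃ y', W.In y' ∧ W.PH y y'

/-- the simplices all of whose faces of dimension less than `n` lie in `X` -/
def eil (n : ℕ) (W : Ret X) : W.Y.Subcomplex where
  obj m := Set.ofPred fun y => ∀ l < n, ∀ θ : m ⟶ op ⦋l⦌, W.In (W.Y.map θ y)
  map φ y hy l hl θ := by
    have := hy l hl (φ ≫ θ)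
    rwa [Functor.map_comp_apply] at this

theorem In.eil {W : Ret X} {m : SimplexCategoryᵒᵖ} {y : W.Y.obj m} (h : W.In y) (n : ℕ) :
    y ∈ (W.eil n).obj m := fun _ _ θ => h.map θ

theorem in_of_eil {W : Ret X} {m n : ℕ} (hm : m < n) {y : W.Y _⦋m⦌}
    (h : y ∈ (W.eil n).obj _) : W.In y := by simpa using h m hm (𝟙 _)

/-- the reduced subobject -/
def eilR (n : ℕ) (W : Ret X) : Ret X where
  Y := W.eil n
  s := Subcomplex.lift W.s (by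
    rintro m _ ⟨x, rfl⟩
    exact In.eil ⟨x, rfl⟩ n)
  r := (W.eil n).ι ≫ W.r
  sr := W.sr

/-- the inclusion of the reduced subobject -/
def eilι (n : ℕ) (W : Ret X) : (W.eilR n).Hom W := ⟨(W.eil n).ι, rfl, rfl⟩

theorem PH.hom {W V : Ret X} {n : ℕ} {y y' : W.Y _⦋n⦌} (h : W.PH y y') (f : W.Hom V) :
    V.PH (f.f.app _ y) (f.f.app _ y') :=
  let ⟨k, h1, h2, h3, h4⟩ := h
  ⟨k ≫ f.f, by rw [reassoc_of% h1, sx_comp], by rw [reassoc_of% h2, sx_comp],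
    by rw [Category.assoc, f.hr, h3, ← sx_comp y f.f, Category.assoc, f.hr],
    by rw [reassoc_of% h4, sx_comp]⟩

theorem PNull.hom {W V : Ret X} {n : ℕ} {y : W.Y _⦋n⦌} (h : W.PNull y) (f : W.Hom V) :
    V.PNull (f.f.app _ y) :=
  let ⟨_, h1, h2⟩ := h; ⟨_, h1.hom f, h2.hom f⟩

theorem eilR_red (n : ℕ) (W : Ret X) : (W.eilR n).Red n := fun _ hm y =>
  let ⟨x, e⟩ := in_of_eil hm y.2; ⟨x, Subtype.ext e⟩

end Ret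

section

variable {Γ : Type} [Group Γ]

/-- relative twisted cocycles -/
def Coc (W : Ret (BG Γ)) {n : ℕ} {M : Type} [AddCommGroup M] [Module (RG Γ) M]
    (c : W.Y _⦋n⦌ → M) : Prop :=
  (∀ y, W.In y → c y = 0) ∧ cob (mrep Γ M) W.r n c = 0

theorem cob_lin {Y : SSet.{0}} (r : Y ⟶ BG Γ) {n : ℕ} {M N : Type} [AddCommGroup M]
    [Module (RG Γ) M] [AddCommGroup N] [Module (RG Γ) N] (φ : M →ₗ[RG Γ] N) (c : Y _⦋n⦌ → M)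
    (t : Y _⦋n + 1⦌) :
    cob (mrep Γ N) r n (fun y => φ (c y)) t = φ (cob (mrep Γ M) r n c t) := by
  simp only [cob_apply, mrep_apply, map_add, map_sum, map_zsmul, map_smul]

theorem Coc.hom {W V : Ret (BG Γ)} {n : ℕ} {M : Type} [AddCommGroup M] [Module (RG Γ) M]
    {c : V.Y _⦋n⦌ → M} (h : Coc V c) (f : W.Hom V) : Coc W fun y => c (f.f.app _ y) :=
  ⟨fun _ hy => h.1 _ (hy.hom f), funext fun t => by
    rw [← f.hr, cob_comp, h.2]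
    rfl⟩

theorem Coc.lin {W : Ret (BG Γ)} {n : ℕ} {M N : Type} [AddCommGroup M] [Module (RG Γ) M]
    [AddCommGroup N] [Module (RG Γ) N] {c : W.Y _⦋n⦌ → M} (h : Coc W c) (φ : M →ₗ[RG Γ] N) :
    Coc W fun y => φ (c y) :=
  ⟨fun y hy => by simp only [h.1 y hy, map_zero], funext fun t => by
    rw [cob_lin, h.2]
    exact φ.map_zero⟩

/-- the universal relative cocycle -/
structure IsHn (W : Ret (BG Γ)) (n : ℕ) (M : Type) [AddCommGroup M] [Module (RG Γ) M]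
    (cl : W.Y _⦋n⦌ → M) : Prop where
  coc : Coc W cl
  span : Submodule.span (RG Γ) (Set.range cl) = ⊤
  lift : ∀ (N : Type) [AddCommGroup N] [Module (RG Γ) N] (c : W.Y _⦋n⦌ → N), Coc W c →
    ∃ φ : M →ₗ[RG Γ] N, ∀ y, φ (cl y) = c y

/-- relative normalised rational cochains -/
def RC (A : Ret (BG Γ)) (n : ℕ) : Submodule ℚ (A.Y _⦋n⦌ → ℚ) where
  carrier := Set.ofPred fun c => Nrm c ∧ ∀ y, A.In y → c y = 0
  add_mem' h k := ⟨fun y hy => by simp [h.1 y hy, k.1 y hy], fun y hy => by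
    simp [h.2 y hy, k.2 y hy]⟩
  zero_mem' := ⟨fun _ _ => rfl, fun _ _ => rfl⟩
  smul_mem' a c h := ⟨fun y hy => by simp [h.1 y hy], fun y hy => by simp [h.2 y hy]⟩

/-- the rational coboundary -/
abbrev dQ (A : Ret (BG Γ)) (n : ℕ) : (A.Y _⦋n⦌ → ℚ) →ₗ[ℚ] (A.Y _⦋n + 1⦌ → ℚ) :=
  cob (Representation.trivial ℚ Γ ℚ) A.r n

/-- cocycles -/
def ZC (A : Ret (BG Γ)) (n : ℕ) : Submodule ℚ (A.Y _⦋n⦌ → ℚ) := RC A n ⊓ LinearMap.ker (dQ A n)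

/-- coboundaries -/
def BC (A : Ret (BG Γ)) (n : ℕ) : Submodule ℚ (A.Y _⦋n⦌ → ℚ) :=
  Nat.casesOn (motive := fun n => Submodule ℚ (A.Y _⦋n⦌ → ℚ)) n ⊥ fun n => (RC A n).map (dQ A n)

theorem BC_zero (A : Ret (BG Γ)) : BC A 0 = ⊥ := rfl

theorem BC_succ (A : Ret (BG Γ)) (n : ℕ) : BC A (n + 1) = (RC A n).map (dQ A n) := rfl

/-- relative rational cohomology -/
abbrev HQ (A : Ret (BG Γ)) (n : ℕ) : Type := ZC A n ⧸ (BC A n).submoduleOf (ZC A n)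

/-- the cohomology is finite dimensional -/
def FinH (A : Ret (BG Γ)) : Prop :=
  (∀ n, Module.Finite ℚ (HQ A n)) ∧ ∃ N, ∀ n, N ≤ n → Subsingleton (HQ A n)

/-- the Euler characteristic -/
def chi (A : Ret (BG Γ)) : ℤ := ∑ᶠ n : ℕ, (-1) ^ n * (Module.finrank ℚ (HQ A n) : ℤ)

end

/-- finitely generated projective modules are stably free -/
def PSF (R : Type) [Ring R] : Prop :=
  ∀ (P : Type) [AddCommGroup P] [Module R P] [Module.Finite R P] [Module.Projective R P],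
    Module.IsStablyFree R P

/-! ### Homotopy theory of simplicial sets -/

def St_WEQ : Prop := ∀ (A B : SSet.{0}) (f : A ⟶ B), An f → WEq f

def St_TRIV1 : Prop :=
  ∀ (T U : SSet.{0}) (q : T ⟶ U), KanComplex U → Fib q → WEq q →
    ∃ (t : U ⟶ T) (H : T ⊗ Δ[1] ⟶ T), t ≫ q = 𝟙 U ∧ ι₀ ≫ H = q ≫ t ∧ ι₁ ≫ H = 𝟙 T

def St_TRIV2 : Prop :=
  ∀ (T U : SSet.{0}) (q : T ⟶ U) (t : U ⟶ T) (H : T ⊗ Δ[1] ⟶ T), Fib q → t ≫ q = 𝟙 U →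
    ι₀ ≫ H = q ≫ t → ι₁ ≫ H = 𝟙 T → TFib q

def St_SDR : Prop :=
  (∀ (A B : SSet.{0}) (j : A ⟶ B) (ρ : B ⟶ A) (h : B ⊗ Δ[1] ⟶ B), j ≫ ρ = 𝟙 A →
    ι₀ ≫ h = 𝟙 B → ι₁ ≫ h = ρ ≫ j → j ▷ _ ≫ h = fst _ _ ≫ j → An j) ∧
  ∀ (T U : SSet.{0}) (q : T ⟶ U) (t : U ⟶ T), TFib q → t ≫ q = 𝟙 U → An t

def St_REPL : Prop :=
  ∀ (k : ℕ) (A B : SSet.{0}) (f : A ⟶ B), ∃ (C : SSet.{0}) (a : A ⟶ C) (q : C ⟶ B),
    a ≫ q = f ∧ An a ∧ (∀ m < k, Function.Surjective (a.app (op ⦋m⦌))) ∧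
    ∀ m, k ≤ m → ∀ i : Fin (m + 2), HasLiftingProperty Λ[m + 1, i].ι q

def St_LLP : Prop :=
  ∀ (d : ℕ) (A B E W : SSet.{0}) (j : A ⟶ B) (q : E ⟶ W), Mono j → RelDim d j →
    (∀ m ≤ d, HasLiftingProperty ∂Δ[m].ι q) → HasLiftingProperty j q

def St_HB : Prop :=
  ∀ (n : ℕ) (i : Fin (n + 2)), ∃ (a : (∂Δ[n] : SSet.{0}) ⟶ Λ[n + 1, i])
    (u : (Λ[n + 1, i] : SSet.{0}) ⟶ ∂Δ[n + 1]), u ≫ ∂Δ[n + 1].ι = Λ[n + 1, i].ι ∧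
      IsPushout a ∂Δ[n].ι u (boundary.ι i)

def St_COMP : Prop :=
  ∀ (A B K : SSet.{0}) (e : A ⟶ B) (φ : K ⟶ B), An e → K.Finite →
    ∃ (A₀ B₀ : SSet.{0}) (e₀ : A₀ ⟶ B₀) (α : A₀ ⟶ A) (β : B₀ ⟶ B) (ψ : K ⟶ B₀),
      B₀.Finite ∧ An e₀ ∧ e₀ ≫ β = α ≫ e ∧ ψ ≫ β = φ

/-! ### Finiteness -/

def St_COSP : Prop :=
  ∀ X : SSet.{0}, KanComplex X → (∀ V U : Ret X, V.HMap U → ∃ T : Ret X, V.AnE T ∧ U.AnE T) ∧
    ∀ U : Ret X, U.HFinite → ∃ T Z : Ret X, U.AnE T ∧ Z.AnE T ∧ Z.IsFinite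

def St_FINC : Prop :=
  (∀ (X : SSet.{0}) (Z Z' : Ret X) (i : Z.Hom Z'), Z.IsFinite → Att i.f → Z'.IsFinite) ∧
  (∀ (X : SSet.{0}) (Z : Ret X), Att Z.s → Z.IsFinite) ∧
  (∀ (X : SSet.{0}) (Z : Ret X), Z.IsFinite → ∃ d, RelDim d Z.s) ∧
  (∀ (X : SSet.{0}) (x : X _⦋0⦌), One 0 (Ret.point x).s) ∧
  ∀ (X : SSet.{0}) (Z : Ret X) (n : ℕ), Z.IsFinite →
    (Set.ofPred fun y : Z.Y _⦋n⦌ => y ∈ Z.Y.nonDegenerate n ∧ ¬ Z.In y).Finite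

def St_IND : Prop :=
  ∀ (X : SSet.{0}) (P : Ret X → Prop), (∀ Z : Ret X, IsIso Z.s → P Z) →
    (∀ (Z' Z : Ret X) (i : Z'.Hom Z) (m : ℕ), Z'.IsFinite → Z.IsFinite → One m i.f → P Z' → P Z) →
    ∀ Z : Ret X, Z.IsFinite → P Z

def St_CYL : Prop :=
  ∀ (X K L : SSet.{0}) (T V₀ V₁ : Ret X) (j : K ⟶ L) (x : L ⟶ X) (G : K ⊗ Δ[1] ⟶ T.Y)
    (i₀ : T.Hom V₀) (b₀ : L ⟶ V₀.Y) (i₁ : T.Hom V₁) (b₁ : L ⟶ V₁.Y), Mono j →
    G ≫ T.r = fst _ _ ≫ j ≫ x → IsPushout (ι₀ ≫ G) j i₀.f b₀ → b₀ ≫ V₀.r = x →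
    IsPushout (ι₁ ≫ G) j i₁.f b₁ → b₁ ≫ V₁.r = x → ∃ V : Ret X, V₀.AnE V ∧ V₁.AnE V

def St_HFA : Prop :=
  ∀ X : SSet.{0}, KanComplex X → ∀ (U U' : Ret X) (i : U.Hom U'), U.HFinite → Att i.f →
    U'.HFinite

def St_FDC : Prop :=
  ∀ X : SSet.{0}, KanComplex X → ∀ (A B : Ret X) (i : A.Hom B), A.FinDom → An i.f ∨ Att i.f →
    B.FinDom

def St_PD : Prop :=
  (∀ (X : SSet.{0}) (d : ℕ) (A B : Ret X), A.AnE B → (A.PD d ↔ B.PD d)) ∧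
  (∀ (X : SSet.{0}) (d : ℕ) (A B : Ret X) (i : A.Hom B), Mono i.f → RelDim d i.f → A.PD d →
    B.PD d) ∧
  ∀ X : SSet.{0}, KanComplex X → ∀ A : Ret X, A.FinDom → ∃ d, ∀ d', d ≤ d' → A.PD d'

/-! ### Raising the connectivity -/

def St_PH : Prop :=
  ∀ (X : SSet.{0}) (W : Ret X) (n : ℕ) (u : W.Y _⦋n + 1⦌), W.Red n →
    W.r.app _ u = X.σ (Fin.last n) (W.r.app _ (W.Y.δ (Fin.last _) u)) →
    (∀ j : Fin n, W.In (W.Y.δ j.castSucc.castSucc u)) →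
    W.PH (W.Y.δ (Fin.last _) u) (W.Y.δ (Fin.last n).castSucc u)

def St_EFIB : Prop := ∀ (X : SSet.{0}) (W : Ret X) (n : ℕ), Fib W.r → Fib (W.eilR n).r

def St_LD : Prop :=
  ∀ (X A B : SSet.{0}) (W : Ret X) (n : ℕ) (j : A ⟶ B) (f : B ⟶ W.Y), Fib W.r → W.Red n →
    Mono j → Subcomplex.range (j ≫ f) ≤ W.eil (n + 1) →
    (∀ y ∈ B.nonDegenerate n, y ∉ Set.range (j.app _) → W.PNull (f.app _ y)) →
    ∃ h : B ⊗ Δ[1] ⟶ W.Y, ι₀ ≫ h = f ∧ Subcomplex.range (ι₁ ≫ h) ≤ W.eil (n + 1) ∧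
      h ≫ W.r = fst _ _ ≫ f ≫ W.r ∧ j ▷ _ ≫ h = fst _ _ ≫ j ≫ f

def St_KILL : Prop :=
  ∀ (X : SSet.{0}) (W : Ret X) (n : ℕ) (ι : Type) [Finite ι] (y : ι → W.Y _⦋n⦌), W.Red n →
    ∃ (W₁ : Ret X) (i : W.Hom W₁), Att i.f ∧ RelDim (n + 1) i.f ∧
      (∀ m < n + 1, Function.Surjective (i.f.app (op ⦋m⦌))) ∧ ∀ l, W₁.PNull (i.f.app _ (y l))

def St_STEP : Prop :=
  ∀ X : SSet.{0}, KanComplex X → ∀ (W : Ret X) (n : ℕ), W.FinDom → Fib W.r → W.Red n →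
    ∃ (W₁ W₂ E : Ret X) (i : W.Hom W₁), Att i.f ∧ RelDim (n + 1) i.f ∧ W₁.AnE W₂ ∧ E.AnE W₂ ∧
      Fib E.r ∧ E.Red (n + 1)

/-! ### Cochains -/

def St_KAN : Prop := ∀ (Γ : Type) [Group Γ], KanComplex (BG Γ)

/-- a property of coefficient systems -/
def AllR (P : ∀ (Γ k M : Type) [Group Γ] [CommRing k] [AddCommGroup M] [Module k M],
    Representation k Γ M → Prop) : Prop :=
  ∀ (Γ k M : Type) [Group Γ] [CommRing k] [AddCommGroup M] [Module k M]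
    (ρ : Representation k Γ M), P Γ k M ρ

def St_CO : Prop := AllR fun Γ _ M _ _ _ _ ρ =>
  ∀ (Y : SSet.{0}) (r : Y ⟶ BG Γ) (n : ℕ) (c : Y _⦋n⦌ → M),
    cob ρ r (n + 1) (cob ρ r n c) = 0 ∧ (Nrm c → Nrm (cob ρ r n c))

/-- cochains extend along `j` with prescribed coboundary -/
def ExtP {Γ k M : Type} [Group Γ] [CommRing k] [AddCommGroup M] [Module k M]
    (ρ : Representation k Γ M) {A B : SSet.{0}} (j : A ⟶ B) : Prop :=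
  ∀ (r : B ⟶ BG Γ) (n : ℕ) (b : A _⦋n⦌ → M) (c : B _⦋n + 1⦌ → M), Nrm b → Nrm c →
    cob ρ r (n + 1) c = 0 → (∀ t, cob ρ (j ≫ r) n b t = c (j.app _ t)) →
    ∃ b' : B _⦋n⦌ → M, Nrm b' ∧ (∀ y, b' (j.app _ y) = b y) ∧ cob ρ r n b' = c

def St_EXTH : Prop := AllR fun _ _ _ _ _ _ _ ρ =>
  ∀ (m : ℕ) (i : Fin (m + 2)), ExtP ρ Λ[m + 1, i].ι

def St_EXT : Prop := AllR fun _ _ _ _ _ _ _ ρ =>
  ∀ (A B : SSet.{0}) (j : A ⟶ B), An j → ExtP ρ j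

def St_EXT0 : Prop := AllR fun Γ _ M _ _ _ _ ρ =>
  ∀ (A B : SSet.{0}) (j : A ⟶ B) (r : B ⟶ BG Γ) (c : B _⦋0⦌ → M), An j → cob ρ r 0 c = 0 →
    (∀ y, c (j.app _ y) = 0) → c = 0

/-! ### The Euler characteristic -/

def St_EU0 : Prop :=
  ∀ (Γ : Type) [Group Γ] (A B : Ret (BG Γ)), A.AnE B → ∀ n, Nonempty (HQ B n ≃ₗ[ℚ] HQ A n)

def St_EU1 : Prop := ∀ (Γ : Type) [Group Γ] (A : Ret (BG Γ)), A.FinDom → FinH A

def St_EU2 : Prop :=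
  ∀ (Γ : Type) [Group Γ] (A B Q : Ret (BG Γ)), A.Cofib B Q → FinH A → FinH B → FinH Q →
    chi B = chi A + chi Q

def St_EU3 : Prop := ∀ (Γ : Type) [Group Γ], chi (Ret.point (vtx Γ)) = 1

/-! ### The Hurewicz theorem -/

def St_HAL : Prop :=
  ∀ (n : ℕ) (S : Type) (o : S) (P : (Fin (n + 4) → S) → Prop),
    (∀ (i : Fin (n + 4)) (x : Fin (n + 4) → S), ∃ y, P (Function.update x i y)) →
    (∀ (a : Fin (n + 5) → Fin (n + 4) → S) (k : Fin (n + 5)),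
      (∀ i j : Fin (n + 4), i ≤ j → a j.succ i = a i.castSucc j) → (∀ j, j ≠ k → P (a j)) →
      P (a k)) →
    (∀ (m : Fin (n + 3)) (y : S), P fun i => if i = m.castSucc ∨ i = m.succ then y else o) →
    ∃ (π : Type) (_ : AddCommGroup π) (κ : S → π), κ o = 0 ∧
      (∀ x, P x → ∑ i : Fin (n + 4), (-1 : ℤ) ^ i.1 • κ (x i) = 0) ∧
      ∀ y y', κ y = κ y' → P fun i =>
        if i = Fin.last _ then y else if i = (Fin.last (n + 2)).castSucc then y' else o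

def St_RHO : Prop :=
  ∀ (Γ : Type) [Group Γ] (W : Ret (BG Γ)), Fib W.r →
    ∃ ρ : ∀ n : ℕ, W.Y _⦋n⦌ → Γ → W.Y _⦋n⦌,
      (∀ n w g, W.r.app _ (ρ n w g) = cst Γ n) ∧
      (∀ n w, W.r.app _ w = cst Γ n → ρ n w 1 = w) ∧
      (∀ n w g, W.In w → W.In (ρ n w g)) ∧
      (∀ n t g, W.Y.δ 0 (ρ (n + 1) t g) = ρ n (W.Y.δ 0 t) (g * lab (W.r.app _ t))) ∧
      ∀ n t g (j : Fin (n + 1)), W.Y.δ j.succ (ρ (n + 1) t g) = ρ n (W.Y.δ j.succ t) g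

/-- a property of fibrant reduced objects with their first homology module -/
def AllH (P : ∀ (Γ : Type) [Group Γ] (n : ℕ) (W : Ret (BG Γ)) (M : Type) [AddCommGroup M]
    [Module (RG Γ) M], (W.Y _⦋n + 2⦌ → M) → Prop) : Prop :=
  ∀ (Γ : Type) [Group Γ] (n : ℕ) (W : Ret (BG Γ)) (M : Type) [AddCommGroup M]
    [Module (RG Γ) M] (cl : W.Y _⦋n + 2⦌ → M), Fib W.r → W.Red (n + 2) → IsHn W (n + 2) M cl →
    P Γ n W M cl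

def St_HI : Prop := AllH fun Γ _ n W _ _ _ cl =>
  ∀ y y', W.r.app _ y = cst Γ _ → W.r.app _ y' = cst Γ _ → cl y = cl y' →
    ∃ u : W.Y _⦋n + 3⦌, W.r.app _ u = cst Γ _ ∧ W.Y.δ (Fin.last _) u = y ∧
      W.Y.δ (Fin.last (n + 2)).castSucc u = y' ∧
      ∀ j : Fin (n + 2), W.In (W.Y.δ j.castSucc.castSucc u)

def St_HUR : Prop := AllH fun Γ _ n W _ _ _ cl =>
  ∀ S : Set (W.Y _⦋n + 2⦌), (∀ y, W.In y → y ∈ S) →
    (∀ (t : W.Y _⦋n + 3⦌) (i : Fin (n + 4)), (∀ j, j ≠ i → W.Y.δ j t ∈ S) → W.Y.δ i t ∈ S) →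
    Submodule.span (RG Γ) (cl '' S) = ⊤ →
    (∀ y, y ∈ S) ∧ ∀ m, ∃ y, W.r.app _ y = cst Γ _ ∧ cl y = m

def St_HN0 : Prop :=
  ∀ (Γ : Type) [Group Γ] (W : Ret (BG Γ)) (n : ℕ),
    ∃ (M : Type) (_ : AddCommGroup M) (_ : Module (RG Γ) M) (cl : W.Y _⦋n⦌ → M), IsHn W n M cl

def St_HN1 : Prop :=
  ∀ (Γ : Type) [Group Γ] (W W' : Ret (BG Γ)) (j : W.Hom W') (n : ℕ) (M : Type) [AddCommGroup M]
    [Module (RG Γ) M] (cl : W.Y _⦋n + 1⦌ → M), An j.f → W.Red (n + 1) → W'.Red (n + 1) →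
    IsHn W (n + 1) M cl →
    ∃ cl' : W'.Y _⦋n + 1⦌ → M, IsHn W' (n + 1) M cl' ∧ ∀ y, cl' (j.f.app _ y) = cl y

def St_HN2 : Prop :=
  (∀ (Γ : Type) [Group Γ] (W W' : Ret (BG Γ)) (i : W.Hom W') (n : ℕ) (ι M N : Type)
    [AddCommGroup M] [Module (RG Γ) M] [AddCommGroup N] [Module (RG Γ) N]
    (v : Module.Basis ι (RG Γ) N) (cl : W.Y _⦋n⦌ → M) (a : ι → ((∂Δ[n] : SSet.{0}) ⟶ W.Y))
    (e : ι → (Δ[n] ⟶ W'.Y)), Cells n i.f a e → W.Red n → IsHn W n M cl →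
    ∃ cl' : W'.Y _⦋n⦌ → M × N, IsHn W' n (M × N) cl') ∧
  ∀ (Γ : Type) [Group Γ] (B : Ret (BG Γ)) (n : ℕ) (ι N : Type) [AddCommGroup N]
    [Module (RG Γ) N] (v : Module.Basis ι (RG Γ) N) (a : ι → ((∂Δ[n] : SSet.{0}) ⟶ BG Γ))
    (e : ι → (Δ[n] ⟶ B.Y)), Cells n B.s a e →
    ∃ cl : B.Y _⦋n⦌ → N, IsHn B n N cl ∧ ∀ l, cl (el (e l)) = v l

def St_FG : Prop :=
  ∀ (Γ : Type) [Group Γ] (W : Ret (BG Γ)) (n : ℕ) (M : Type) [AddCommGroup M] [Module (RG Γ) M]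
    (cl : W.Y _⦋n + 1⦌ → M), W.FinDom → W.Red (n + 1) → IsHn W (n + 1) M cl →
    Module.Finite (RG Γ) M

def St_SEC : Prop := AllH fun Γ _ n W _ _ _ cl =>
  W.PD (n + 2) → ∀ (ι : Type) (y : ι → W.Y _⦋n + 2⦌),
    Submodule.span (RG Γ) (Set.range fun l => cl (y l)) = ⊤ →
    ∃ (B B' : Ret (BG Γ)) (a : ι → ((∂Δ[n + 2] : SSet.{0}) ⟶ BG Γ)) (e : ι → (Δ[n + 2] ⟶ B.Y))
      (u : B.Hom B') (q : B'.Hom W) (t : W.Hom B'), Cells (n + 2) B.s a e ∧ An u.f ∧ Fib q.f ∧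
      B.Red (n + 2) ∧ B'.Red (n + 2) ∧ Fib B'.r ∧ t.f ≫ q.f = 𝟙 _ ∧
      ∀ l, e l ≫ u.f ≫ q.f = sx (y l)

def St_PROJ : Prop := AllH fun Γ _ n W M _ _ _ =>
  W.PD (n + 2) → Module.Projective (RG Γ) M

def St_FREE : Prop := AllH fun Γ _ n W M _ _ _ =>
  W.PD (n + 2) → Module.Finite (RG Γ) M → Module.Free (RG Γ) M →
    ∃ B T : Ret (BG Γ), W.AnE T ∧ B.AnE T ∧ B.IsFinite

def St_FIN : Prop :=
  ∀ (Γ : Type) [Group Γ], PSF (RG Γ) → ∀ (n : ℕ) (W : Ret (BG Γ)), W.FinDom → Fib W.r →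
    W.Red (n + 2) → W.PD (n + 2) →
    ∃ (W' B T : Ret (BG Γ)) (i : W.Hom W'), Att i.f ∧ W'.AnE T ∧ B.AnE T ∧ B.IsFinite

/-! ### Classes in the Grothendieck group -/

def St_QUO : Prop :=
  ∀ (X K L : SSet.{0}) (A B Q : Ret X) (i : A.Hom B) (a : K ⟶ A.Y) (j : K ⟶ L) (b : L ⟶ B.Y)
    (c : L ⟶ Q.Y), Mono j → IsPushout a j i.f b → IsPushout (a ≫ A.r) j Q.s c →
    c ≫ Q.r = b ≫ B.r → A.Cofib B Q

/-- the multiples of the class of a point -/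
def Mult (Γ : Type) [Group Γ] (h : (Ret.point (vtx Γ)).FinDom) : AddSubgroup (A0 (BG Γ)) :=
  AddSubgroup.zmultiples (cls ⟨_, h⟩)

def St_SPH : Prop :=
  ∀ (Γ : Type) [Group Γ] (h : (Ret.point (vtx Γ)).FinDom) (m : ℕ) (Q : Obj (BG Γ)),
    One m Q.1.s → cls Q ∈ Mult Γ h

def St_ATT : Prop :=
  ∀ (Γ : Type) [Group Γ] (h : (Ret.point (vtx Γ)).FinDom),
    (∀ Z : Obj (BG Γ), Z.1.IsFinite → cls Z ∈ Mult Γ h) ∧
    ∀ (A B : Obj (BG Γ)) (i : A.1.Hom B.1), Att i.f → cls B - cls A ∈ Mult Γ h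

theorem cls_hmap {X : SSet.{0}} {A B : Obj X} (h : A.1.HMap B.1) : cls A = cls B :=
  (QuotientAddGroup.eq_iff_sub_mem).2 (AddSubgroup.subset_closure (.inl ⟨A, B, h, rfl⟩))

theorem cls_cofib {X : SSet.{0}} {A B Q : Obj X} (h : A.1.Cofib B.1 Q.1) :
    cls B = cls A + cls Q :=
  (QuotientAddGroup.eq_iff_sub_mem).2 (AddSubgroup.subset_closure
    (.inr ⟨A, B, Q, h, (sub_sub _ _ _).symm⟩))

theorem cls_an (hW : St_WEQ) {X : SSet.{0}} {A B : Obj X} (h : A.1.AnE B.1) : cls A = cls B :=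
  let ⟨f, hf⟩ := h; cls_hmap ⟨f, hW _ _ _ hf⟩

theorem cls_iso {X : SSet.{0}} (Z : Obj X) (h : IsIso Z.1.s) : cls Z = 0 := by
  have e : Z.1.r ≫ Z.1.s = 𝟙 _ := by
    rw [← cancel_epi Z.1.s, reassoc_of% Z.1.sr, Category.comp_id]
  have : cls Z = cls Z + cls Z := cls_cofib ⟨.id _, .id _, inferInstanceAs (Mono (𝟙 _)),
    IsPushout.of_horiz_isIso (f := 𝟙 _) ⟨(Category.id_comp _).trans e.symm⟩⟩
  simpa using this

end Pool.Agent.AZero
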