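import Pool.Agent.Lib.AZero.Defs

/-! The assembly map in degree zero. -/

namespace Pool.Agent.AZero

open CategoryTheory Limits

/-- `B` is the retractive simplicial set over `X'` induced from `A` along `f`. -/
def Ret.Push {X X' : SSet.{0}} (f : X ⟶ X') (A : Ret X) (B : Ret X') : Prop :=
  ∃ u : A.Y ⟶ B.Y, IsPushout A.s f u B.s ∧ u ≫ B.r = A.r ≫ f

/-- The subgroup is virtually cyclic. -/
def IsVC {G : Type} [Group G] (H : Subgroup G) : Prop :=
  ∃ C : Subgroup H, IsCyclic C ∧ C.FiniteIndex

/-- The virtually cyclic subgroups. -/
def VCY (G : Type) [Group G] : Type := {H : Subgroup G // IsVC H}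

/-- The nerve of the transport groupoid of a `G`-set. -/
abbrev BT (G S : Type) [Group G] [MulAction G S] : SSet.{0} := nerve (ActionCategory G S)

variable {G S T : Type} [Group G] [MulAction G S] [MulAction G T]

/-- A `G`-map as a natural transformation. -/
def nat (φ : S →[G] T) : actionAsFunctor G S ⟶ actionAsFunctor G T where
  app _ := ↾φ
  naturality _ _ g := ConcreteCategory.hom_ext _ _ (φ.map_smul g)

/-- The map of nerves induced by a `G`-map. -/
def BT.map (φ : S →[G] T) : BT G S ⟶ BT G T := nerveMap (CategoryOfElements.map (nat φ))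

/-- The projection to the nerve of the group. -/
def BT.pr (G S : Type) [Group G] [MulAction G S] : BT G S ⟶ BG G :=
  nerveMap (ActionCategory.π G S)

/-- The nerve of the transport groupoid of an orbit. -/
abbrev BO (H : VCY G) : SSet.{0} := BT G (G ⧸ H.1)

open Classical in
/-- The direct sum of the groups `M i` modulo the identifications given by `R`. -/
noncomputable def Colim {ι : Type} (M : ι → Type 1) [∀ i, AddCommGroup (M i)]
    (R : ∀ i j, M i → M j → Prop) : Type 1 :=
  DirectSum ι M ⧸ AddSubgroup.closure
    {z | ∃ i j a b, R i j a b ∧ z = DirectSum.of M i a - DirectSum.of M j b}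

/-- The quotient group structure. -/
noncomputable instance {ι : Type} (M : ι → Type 1) [∀ i, AddCommGroup (M i)]
    (R : ∀ i j, M i → M j → Prop) : AddCommGroup (Colim M R) :=
  QuotientAddGroup.Quotient.addCommGroup _

open Classical in
/-- The class of an element of a summand. -/
noncomputable def Colim.mk {ι : Type} {M : ι → Type 1} [∀ i, AddCommGroup (M i)]
    (R : ∀ i j, M i → M j → Prop) (i : ι) (a : M i) : Colim M R :=
  QuotientAddGroup.mk (DirectSum.of M i a)

/-- `b` is the class of the object induced along a `G`-map from an object with class `a`. -/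
def Rel (H K : VCY G) (a : A0 (BO H)) (b : A0 (BO K)) : Prop :=
  ∃ (φ : G ⧸ H.1 →[G] G ⧸ K.1) (A : Obj (BO H)) (B : Obj (BO K)),
    A.1.Push (BT.map φ) B.1 ∧ a = cls A ∧ b = cls B

/-- The colimit of the groups `A0` over the orbit category of `G` with virtually cyclic isotropy. -/
abbrev Src (G : Type) [Group G] : Type 1 := Colim (fun H : VCY G => A0 (BO H)) Rel

/-- `α` is the assembly map: it sends the class of an object over an orbit to the class of the
induced object over the nerve of the group. -/
def IsAssembly (α : Src G → A0 (BG G)) : Prop :=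
  ∀ (H : VCY G) (A : Obj (BO H)), (∃ B : Obj (BG G), A.1.Push (BT.pr G _) B.1) ∧
    ∀ B : Obj (BG G), A.1.Push (BT.pr G _) B.1 → α (Colim.mk Rel H (cls A)) = cls B

end Pool.Agent.AZero
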