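import Pool.Agent.Lib.AZero.Blue
import Pool.Agent.Lib.AZero.Defs2

/-! The blueprint for the assembly map. -/

noncomputable section

namespace Pool.Agent.AZero

open CategoryTheory Limits Simplicial SSet MonoidalCategory CartesianMonoidalCategory
  HomotopicalAlgebra Opposite
open scoped SSet.modelCategoryQuillen

theorem Ret.ex_push {X X' : SSet.{0}} (f : X ⟶ X') (A : Ret X) : ∃ B, A.Push f B :=
  let ⟨B, i, b, sq, h⟩ := (Ret.zero X').ex_att f A.s (A.r ≫ f)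
    (by rw [reassoc_of% A.sr]; exact Category.comp_id _)
  ⟨B, b, (((Category.id_comp _).symm.trans i.hs) ▸ sq :).flip, h⟩

theorem Ret.Push.comp {X X' X'' : SSet.{0}} {f : X ⟶ X'} {g : X' ⟶ X''} {A : Ret X} {B : Ret X'}
    {C : Ret X''} (h : A.Push f B) (k : B.Push g C) : A.Push (f ≫ g) C :=
  let ⟨u, h1, h2⟩ := h; let ⟨v, k1, k2⟩ := k
  ⟨u ≫ v, h1.paste_vert k1, by rw [Category.assoc, k2, reassoc_of% h2]⟩

theorem Ret.Push.id {X : SSet.{0}} (A : Ret X) : A.Push (𝟙 X) A :=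
  ⟨𝟙 _, IsPushout.of_vert_isIso ⟨by simp⟩, by simp⟩

/-- the vertex of the nerve of the transport groupoid given by a point -/
def tv (G : Type) [Group G] {S : Type} [MulAction G S] (s : S) : BT G S _⦋0⦌ :=
  ComposableArrows.mk₀ (s : ActionCategory G S)

def St_KANT : Prop := ∀ (G S : Type) [Group G] [MulAction G S], KanComplex (BT G S)

def St_PFD : Prop :=
  ∀ (X X' : SSet.{0}) (f : X ⟶ X') (A : Ret X) (B : Ret X'), KanComplex X → A.Push f B →
    A.FinDom → B.FinDom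

def St_PMAP : Prop :=
  ∀ (X X' : SSet.{0}) (f : X ⟶ X'), KanComplex X →
    ∃ φ : A0 X →+ A0 X', ∀ (A : Obj X) (B : Obj X'), A.1.Push f B.1 → φ (cls A) = cls B

def St_PPT : Prop :=
  ∀ (X X' : SSet.{0}) (f : X ⟶ X') (x : X _⦋0⦌), (Ret.point x).Push f (Ret.point (f.app _ x))

def St_PHOM : Prop :=
  ∀ (X X' : SSet.{0}) (h : X ⊗ Δ[1] ⟶ X') (A : Ret X) (B₀ B₁ : Ret X'),
    A.Push (ι₀ ≫ h) B₀ → A.Push (ι₁ ≫ h) B₁ → ∃ V : Ret X', B₀.AnE V ∧ B₁.AnE V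

def St_EQV : Prop :=
  ∀ (G : Type) [Group G] (H : Subgroup G), ∃ (i : BG H ⟶ BT G (G ⧸ H)) (p : BT G (G ⧸ H) ⟶ BG H)
    (h : BT G (G ⧸ H) ⊗ Δ[1] ⟶ BT G (G ⧸ H)), ι₀ ≫ h = p ≫ i ∧ ι₁ ≫ h = 𝟙 _ ∧
      i.app _ (vtx H) = tv G ((1 : G) : G ⧸ H)

/-- the group is generated freely by the class of a point -/
def Free1 (Γ : Type) [Group Γ] : Prop :=
  ∃ h : (Ret.point (vtx Γ)).FinDom, Function.Bijective fun k : ℤ => k • cls ⟨_, h⟩

theorem asm_of (hW : St_WEQ) (hC : St_FDC) (hF : St_FINC) (hK : St_KAN) (hT : St_KANT)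
    (hD : St_PFD) (hM : St_PMAP) (hP : St_PPT) (hH : St_PHOM) (hE : St_EQV) (G : Type) [Group G]
    (hG : Free1 G) (hV : ∀ H : VCY G, Free1 H.1) :
    ∃ α : Src G ≃+ A0 (BG G), IsAssembly α := by
  suffices ∃ α : Src G →+ A0 (BG G), IsAssembly α ∧ Function.Bijective α from
    let ⟨α, h1, h2⟩ := this; ⟨AddEquiv.ofBijective α h2, h1⟩
  classical
  have pf : ∀ {X : SSet.{0}} (x : X _⦋0⦌), (Ret.point x).FinDom := fun x =>
    (hF.2.1 _ _ (hF.2.2.2.1 _ _).att).hf.fd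
  have ex : ∀ {X X' : SSet.{0}} (f : X ⟶ X'), KanComplex X → ∀ A : Obj X,
      ∃ B : Obj X', A.1.Push f B.1 := fun f k A =>
    let ⟨B, h⟩ := A.1.ex_push f; ⟨⟨B, hD _ _ f _ _ k h A.2⟩, h⟩
  choose p hp using fun H : VCY G => hM _ _ (BT.pr G (G ⧸ H.1)) (hT _ _)
  let α : Src G →+ A0 (BG G) := QuotientAddGroup.lift _ (DirectSum.toAddMonoid p)
    ((AddSubgroup.closure_le _).2 (by
      rintro _ ⟨H, K, _, _, ⟨φ, A, B, h, rfl, rfl⟩, rfl⟩
      obtain ⟨C, k⟩ := ex (BT.pr G _) (hT _ _) B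
      simp only [SetLike.mem_coe, AddMonoidHom.mem_ker, map_sub, DirectSum.toAddMonoid_of]
      rw [hp K B C k, hp H A C (h.comp k), sub_self]))
  let inc : ∀ H : VCY G, A0 (BO H) →+ Src G := fun H =>
    (QuotientAddGroup.mk' _).comp (DirectSum.of (fun H : VCY G => A0 (BO H)) H)
  have e : ∀ H z, α (inc H z) = p H z := fun H z =>
    DirectSum.toAddMonoid_of p H z
  let O : VCY G := ⟨⊥, ⊤, inferInstance, inferInstance⟩
  let u : Src G := inc O (cls ⟨_, pf (tv G ((1 : G) : G ⧸ O.1))⟩)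
  obtain ⟨h0, hG⟩ := hG
  have eu : α u = cls ⟨_, h0⟩ := (e _ _).trans (hp O _ _ (by
    have := hP _ _ (BT.pr G _) (tv G ((1 : G) : G ⧸ O.1))
    rwa [vtx_eq ((BT.pr G _).app _ _)] at this))
  have gen : ∀ z : Src G, z ∈ AddSubgroup.zmultiples u := by
    intro z
    obtain ⟨z, rfl⟩ := QuotientAddGroup.mk_surjective z
    induction z using DirectSum.induction_on with
    | zero => exact zero_mem _
    | add x y hx hy => exact add_mem hx hy
    | of H z =>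
      change inc H z ∈ _
      obtain ⟨i, q, h, h1, h2, h3⟩ := hE G H.1
      obtain ⟨φ, hφ⟩ := hM _ _ i (hK H.1)
      obtain ⟨k0, hH'⟩ := hV H
      have e1 : φ (cls ⟨_, k0⟩) = cls ⟨_, pf (tv G ((1 : G) : G ⧸ H.1))⟩ :=
        hφ _ _ (h3 ▸ hP _ _ i _)
      have e2 : u = inc H (φ (cls ⟨_, k0⟩)) :=
        QuotientAddGroup.eq_iff_sub_mem.2 (AddSubgroup.subset_closure ⟨O, H, _, _,
          ⟨⟨Subgroup.quotientMapOfLE bot_le, fun g x => Quotient.inductionOn' x fun _ => rfl⟩,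
            _, ⟨_, pf _⟩, hP _ _ _ _, rfl, e1⟩, rfl⟩)
      suffices ∃ w, φ w = z by
        obtain ⟨w, rfl⟩ := this
        obtain ⟨k, rfl⟩ := hH'.2 w
        exact ⟨k, by simp only [e2, map_zsmul]⟩
      obtain ⟨z, rfl⟩ := QuotientAddGroup.mk_surjective z
      change _ ∈ φ.range
      induction z using FreeAbelianGroup.induction_on with
      | zero => exact zero_mem _
      | neg A k => exact neg_mem k
      | add x y hx hy => exact add_mem hx hy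
      | of A =>
        obtain ⟨B, k1⟩ := ex q (hT _ _) A
        obtain ⟨C, k2⟩ := ex i (hK _) B
        obtain ⟨V, k3, ⟨f, k4⟩⟩ := hH _ _ h _ _ _ (h1 ▸ k1.comp k2) (h2 ▸ Ret.Push.id A.1)
        have fV : V.FinDom := hC _ (hT _ _) _ _ f A.2 (.inl k4)
        exact ⟨cls B, (hφ B C k2).trans ((cls_an hW (B := ⟨V, fV⟩) k3).trans
          (cls_an hW (A := A) ⟨f, k4⟩).symm)⟩
  refine ⟨α, fun H A => ⟨ex _ (hT _ _) A, fun B h => (e _ _).trans (hp H A B h)⟩,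
    (injective_iff_map_eq_zero α).2 fun z hz => ?_, fun y => ?_⟩
  · obtain ⟨k, rfl⟩ := gen z
    have : k = 0 := hG.1 (by simpa [eu] using hz)
    simp [this]
  · obtain ⟨k, rfl⟩ := hG.2 y
    exact ⟨k • u, by rw [map_zsmul, eu]⟩

end Pool.Agent.AZero
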