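import Mathlib

/-! The group of components of Waldhausen's algebraic `K`-theory of spaces. -/

namespace Pool.Agent.AZero

open CategoryTheory Limits Simplicial

/-- Weak homotopy equivalences of simplicial sets: for every Kan complex `Z`, restriction along
`f` is a bijection on the components of the function complexes into `Z`. -/
def WEq {A B : SSet.{0}} (f : A ⟶ B) : Prop :=
  ∀ (Z : SSet.{0}) [SSet.KanComplex Z],
    Function.Bijective (SSet.mapπ₀ ((MonoidalClosed.pre f).app Z))

/-- Retractive simplicial sets over `X`. -/
structure Ret (X : SSet.{0}) where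
  Y : SSet.{0}
  s : X ⟶ Y
  r : Y ⟶ X
  sr : s ≫ r = 𝟙 X

namespace Ret

variable {X : SSet.{0}}

/-- Maps under and over `X`. -/
structure Hom (A B : Ret X) where
  f : A.Y ⟶ B.Y
  hs : A.s ≫ f = B.s
  hr : f ≫ B.r = A.r

/-- Only finitely many nondegenerate simplices lie outside `X`. -/
def IsFinite (A : Ret X) : Prop :=
  Finite {y : A.Y.N // y.simplex ∉ Set.range (A.s.app _)}

/-- There is a map from `A` to `B` that is a weak homotopy equivalence. -/
def HMap (A B : Ret X) : Prop := ∃ f : A.Hom B, WEq f.f

/-- Homotopy finite: related to a finite object by a chain of weak equivalences. -/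
def HFinite (A : Ret X) : Prop := ∃ Z : Ret X, Z.IsFinite ∧ Relation.EqvGen HMap A Z

/-- Finitely dominated: a retract of a homotopy finite object. -/
def FinDom (A : Ret X) : Prop :=
  ∃ (U : Ret X) (i : A.Hom U) (p : U.Hom A), U.HFinite ∧ i.f ≫ p.f = 𝟙 A.Y

/-- A cofibration sequence: `A` injects into `B` and `Q` is the pushout of `B` and `X` over `A`. -/
def Cofib (A B Q : Ret X) : Prop :=
  ∃ (i : A.Hom B) (q : B.Hom Q), Mono i.f ∧ IsPushout i.f A.r q.f Q.s

/-- `X` together with a disjoint point lying over the vertex `x`. -/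
noncomputable def point (x : X _⦋0⦌) : Ret X where
  Y := X ⨿ Δ[0]
  s := coprod.inl
  r := coprod.desc (𝟙 X) (SSet.yonedaEquiv.symm x)
  sr := coprod.inl_desc _ _

end Ret

/-- The objects of Waldhausen's category of finitely dominated retractive simplicial sets. -/
abbrev Obj (X : SSet.{0}) : Type 1 := {A : Ret X // A.FinDom}

open FreeAbelianGroup in
/-- The relations given by weak equivalences and by cofibration sequences. -/
def rels (X : SSet.{0}) : Set (FreeAbelianGroup (Obj X)) :=
  {z | (∃ A B : Obj X, A.1.HMap B.1 ∧ z = of A - of B) ∨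
    ∃ A B Q : Obj X, A.1.Cofib B.1 Q.1 ∧ z = of B - of A - of Q}

/-- The Grothendieck group of the Waldhausen category of finitely dominated retractive simplicial
sets over `X`. -/
abbrev A0 (X : SSet.{0}) : Type 1 := FreeAbelianGroup (Obj X) ⧸ AddSubgroup.closure (rels X)

/-- The class of an object. -/
def cls {X : SSet.{0}} (A : Obj X) : A0 X := QuotientAddGroup.mk (FreeAbelianGroup.of A)

/-- The nerve of a group. -/
abbrev BG (G : Type) [Group G] : SSet.{0} := nerve (SingleObj G)

/-- The vertex of the nerve of a group. -/
def vtx (G : Type) [Group G] : BG G _⦋0⦌ := ComposableArrows.mk₀ (SingleObj.star G)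

end Pool.Agent.AZero
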