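import Pool.Agent.Lib.NIL.EA.Final
import Pool.Agent.Lib.AZero.EA0a

/-! The downward induction over the strata, modulo an arbitrary subgroup of `K1`. -/

namespace Pool.Agent.Lib.AZero.EA0

open Finsupp Pointwise NIL NIL.EA NIL.EA.CC Pool.Agent.WhDet

def St_CQ : Prop := AllK fun G D _ _ _ _ _ _ k _ _ _ S _ ent =>
  1 ≤ k → ∀ (Z : Raw (RG G) (Pt D)) Y, (T0 G D).Obj Z → Z.Fin1 → Hk k Z →
    (S.cat (gfam G (Str D k))).Obj Y → Y.Fin1 → (T1 G D).Eqv (Φ ent Y) (Mk k Z) →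
    ∃ Z' : Raw (RG G) (Pt D), (T0 G D).Obj Z' ∧ Z'.Fin1 ∧ Hk (k + 1) Z' ∧
      ∀ Q : AddSubgroup (K1 (RG G)), whQ G ≤ Q → Tors Q Z' → Tors Q Z

theorem st_cq (hL : St_LAM) (hP : St_PSI) (h1 : St_C1) : St_CQ := by
  classical
  intro G D _ _ _ _ _ _ k E Λ _ S ξ ent hK hk Z Y hZ hZ1 hH hY hY1 ⟨φ, hφ⟩
  obtain ⟨hΛ, -, hL'⟩ := hL G D
  obtain ⟨-, -, hΦ, -, hΦ1⟩ := hP G D k E Λ S ξ ent hK
  have g0 : (T0 G D).Good := isRel0.good
  have g1 : (T1 G D).Good := isRel1.good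
  have hU := hΦ.obj hY
  have hU1 := hΦ1 Y hY1
  have := hU1.1
  have hM := ((hL' Z hZ).2.1 k).1
  obtain ⟨ρ, hρ⟩ := hY1.rank
  let cou : Lin (Mk k Z) (Z.relab fun c => (∅, c)) := inc fun p => p.1.1
  have hcou : ∀ v, Z.δ (cou v) = cou ((Mk k Z).δ v) := by
    have : Z.δ ∘ₗ cou = cou ∘ₗ (Mk k Z).δ := lin_ext fun p z' => MonoidAlgebra.ext <| Finsupp.ext fun g => by
      obtain ⟨⟨z, I⟩, hI⟩ := p
      rw [LinearMap.comp_apply, LinearMap.comp_apply, inc_single]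
      refine (sum_pent hI z' _ g _ fun I' hI' => ?_).symm
      rw [Raw.res_δ]
      exact lam_coeff Z z z' I I' g
    exact fun v => LinearMap.congr_fun this v
  let f := cou ∘ₗ φ
  have hφc := rc_hom.1 hφ.1.1
  have hf : ∀ i z g, (f (single i 1) z).coeff g =
      (φ (single i 1) ⟨(z, g⁻¹ • (Y.lab i.1.1).I),
        (Finset.card_smul_finset _ _).trans (Y.lab i.1.1).card⟩).coeff g := fun i z g =>
    sum_pent (Y.lab i.1.1).card z _ g _ fun I' hI' => by
      split_ifs with e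
      · congr 4
        rw [← e, inv_smul_smul]
      · by_contra h
        exact e (hφc i _ g h).1.1.symm
  obtain ⟨pos, hp1, hp2, hUp, hf0⟩ := exists_low (Z := Z) hU (fun i => ρ i.1.1)
    (fun i i' g h => by
      rw [Raw.res_δ, bm_δ hK.bm.act_zero] at h
      by_cases e : i.1.1 = i'.1.1
      · right
        refine ⟨?_, congrArg ρ e.symm⟩
        rw [if_pos e, ← e, diag_zero hY1.2, hK.bm.act_zero, Finsupp.zero_apply, zero_add,
          Units.smul_def, MonoidAlgebra.coeff_smul, Finsupp.smul_apply] at h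
        refine (coeff_intCast (n := kz i.1.2 i'.1.2) fun h' => h ?_).1
        rw [zc_apply, h', smul_zero]
      · left
        refine hρ _ _ fun h' => h ?_
        rw [if_neg e, h', hK.bm.act_zero]
        rfl) f
    (fun i z g h => by
      rw [hf] at h
      have := hφc i _ g h
      exact ⟨by simpa using this.2, this.1.2⟩)
  have hpos : Pos ent Y pos := ⟨hp1, fun i i' e x hx => hp2 i i' x (congrArg ρ e) hx
    (by change x ∉ (Y.lab i'.1.1).I; rw [← e]; exact hx)⟩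
  obtain ⟨c1, c2, c3⟩ := h1 G D k E Λ S ξ ent hK Y pos hY hY1 hpos hUp
  have hfc : (T0 G D).Ch (Up ent Y pos) Z f := ⟨hf0, fun v => by
    have := hφ.1.2 v
    rw [bcat_D, bcat_D] at this ⊢
    exact (hcou _).trans (congrArg cou this)⟩
  have hZ' := g0.obj_cone hUp hZ hfc
  refine ⟨(Up ent Y pos).cone Z f, hZ', hZ1.ext (Raw.Fin1.sh ⟨hU1.1, hU1.2⟩) _, ?_, fun Q hQ t =>
    ((tors_cone (hQ negCl_mem) (bcat_obj_tcat hUp) (bcat_obj_tcat hZ')).2 t).2 ((c1 hk).mono hQ)⟩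
  let Z' := (Up ent Y pos).cone Z f
  have hV : (T1 G D).Obj (Z'.bm (ΛB G D)) := (hΛ.isFn g0 g1).obj hZ'
  have hcl := (hL' Z' hZ').1
  have hp := hcl (fun I => I.card < k + 1) fun g I h => by rwa [Finset.card_smul_finset] at h
  have hp0 := hcl (fun I => I.card < k) fun g I h => by rwa [Finset.card_smul_finset] at h
  have hlr : ∀ z I i I', (Z'.bm (ΛB G D)).δ (single (Sum.inl z, I) 1) (Sum.inr i, I') = 0 :=
    fun z I i I' => by rw [lam_δ, Raw.ext_lr, map_zero]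
  have hll : ∀ z I z' I', (Z'.bm (ΛB G D)).δ (single (Sum.inl z, I) 1) (Sum.inl z', I') =
      (Z.bm (ΛB G D)).δ (single (z, I) 1) (z', I') := fun z I z' I' => by
    rw [lam_δ, lam_δ, Raw.ext_ll]
  have hrr : ∀ i I i' I', (Z'.bm (ΛB G D)).δ (single (Sum.inr i, I) 1) (Sum.inr i', I') =
      -((Up ent Y pos).bm (ΛB G D)).δ (single (i, I) 1) (i', I') := fun i I i' I' => by
    rw [lam_δ, lam_δ, Raw.ext_rr, ← map_neg]
    rfl
  let q₀ : Z'.ι × Finset D → Prop := fun x => x.2.card < k ∧ x.1.isLeft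
  let q₁ : Z'.ι × Finset D → Prop := fun x => x.2.card < k + 1 ∧
    ∀ i, x.1 = Sum.inr i → x.2 = (Y.lab i.1.1).I
  have hq₀ : (Z'.bm (ΛB G D)).Closed q₀ := by
    rintro ⟨a | a, I⟩ ⟨b | b, I'⟩ h h'
    · exact ⟨hp0 _ _ h.1 h', rfl⟩
    · exact (h' (hlr _ _ _ _)).elim
    · exact absurd h.2 (by simp)
    · exact absurd h.2 (by simp)
  have hq₁ : (Z'.bm (ΛB G D)).Closed q₁ := by
    rintro ⟨a | a, I⟩ ⟨b | b, I'⟩ h h'
    · exact ⟨hp _ _ h.1 h', fun _ e => nomatch e⟩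
    · exact (h' (hlr _ _ _ _)).elim
    · exact ⟨hp _ _ h.1 h', fun _ e => nomatch e⟩
    · refine ⟨hp _ _ h.1 h', fun i e => ?_⟩
      obtain rfl := Sum.inr_injective e
      rw [hrr, neg_ne_zero] at h'
      exact c2 (a, I) (b, I') (h.2 a rfl) h'
  have one : ∀ o, (1 : RG G) ∈ (T1 G D).H 0 o o := g1.one_mem
  refine ctr_res_of g1 hV hp hq₁ (fun _ h => h.1) (ctr_res_of g1 hV hq₁ hq₀
    (fun x h => ⟨h.1.trans (Nat.lt_succ_self k), fun i e => absurd h.2 (by simp [e])⟩) ?_ ?_) ?_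
  · refine g1.ctr_of_retr (eqv_res_of_emb (V := Z'.bm (ΛB G D))
      (A := (Z.bm (ΛB G D)).res fun p => p.2.card < k) g1 q₀ (fun x => (Sum.inl x.1.1, x.1.2))
      ?_ ?_ (fun _ => rfl) (fun _ => ⟨one _, one _⟩) fun i i' => ?_).symm.retr hH
    · rintro ⟨⟨z, I⟩, h⟩ ⟨⟨z', I'⟩, h'⟩ e
      obtain ⟨e1, e2⟩ := Prod.ext_iff.1 e
      exact Subtype.ext (Prod.ext (Sum.inl_injective e1) e2)
    · rintro ⟨a | a, I⟩
      · exact ⟨fun h => ⟨⟨(a, I), h.1⟩, rfl⟩, fun ⟨x, e⟩ => e ▸ ⟨x.2, rfl⟩⟩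
      · exact ⟨fun h => absurd h.2 (by simp), fun ⟨x, e⟩ => nomatch congrArg Prod.fst e⟩
    · rw [Raw.res_δ]
      exact hll _ _ _ _
  · refine g1.ctr_of_retr (eqv_res_of_emb (A := (Φ ent Y).cone (Mk k Z) φ) g1 _
      (Sum.elim (fun x => (Sum.inl x.1.1, x.1.2)) fun i => (Sum.inr i, (Y.lab i.1.1).I))
      ?_ ?_ ?_ ?_ ?_).symm.retr ((g1.ctr_cone_iff hU hM hφ.1).2 hφ)
    · rintro (⟨⟨z, I⟩, h⟩ | i) (⟨⟨z', I'⟩, h'⟩ | i') e
      · obtain ⟨e1, e2⟩ := Prod.ext_iff.1 e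
        exact congrArg Sum.inl (Subtype.ext (Prod.ext (Sum.inl_injective e1) e2))
      · exact nomatch congrArg Prod.fst e
      · exact nomatch congrArg Prod.fst e
      · exact congrArg Sum.inr (Sum.inr_injective (congrArg Prod.fst e))
    · rintro ⟨a | a, I⟩
      · refine ⟨fun h => ⟨Sum.inl ⟨(a, I), ?_⟩, rfl⟩, ?_⟩
        · have h1 : I.card < k + 1 := h.1.1
          have h2 : ¬ I.card < k := fun e => h.2 ⟨e, rfl⟩
          change I.card = k
          omega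
        · rintro ⟨x | x, e⟩
          · have h1 : I.card = k := (congrArg (fun p => Finset.card p.2) e).symm.trans x.2
            exact ⟨⟨h1.trans_lt (Nat.lt_succ_self k), fun _ e => nomatch e⟩,
              fun h => h1.not_lt h.1⟩
          · exact nomatch congrArg Prod.fst e
      · refine ⟨fun h => ⟨Sum.inr a, Prod.ext rfl (h.1.2 a rfl).symm⟩, ?_⟩
        rintro ⟨x | x, e⟩
        · exact nomatch congrArg Prod.fst e
        · rw [← e]
          exact ⟨⟨(Y.lab x.1.1).card.trans_lt (Nat.lt_succ_self k),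
            fun i e => Sum.inr_injective e ▸ rfl⟩, fun h => absurd h.2 (by simp)⟩
    · rintro (x | i)
      · rfl
      · exact add_zero _
    · rintro (x | i)
      · exact ⟨one _, one _⟩
      · exact ⟨one_mem_rc ⟨rfl, fun x hx => (hp1 i x hx).ge⟩,
          one_mem_rc ⟨rfl, fun x hx => (hp1 i x hx).le⟩⟩
    · rintro (x | i) (x' | i')
      · rw [Raw.ext_ll, Raw.res_δ]
        exact hll _ _ _ _
      · rw [Raw.ext_lr]
        exact hlr _ _ _ _
      · rw [Raw.ext_rl]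
        refine (lam_δ Z' _ _ _ _).trans (MonoidAlgebra.ext (Finsupp.ext fun g => ?_))
        rw [pent_coeff, one_mul, Raw.ext_rl]
        split_ifs with e
        · rw [hf]
          congr 4
          exact Prod.ext rfl (by rw [← e, inv_smul_smul])
        · by_contra h
          exact e (hφc i _ g (Ne.symm h)).1.1.symm
      · rw [Raw.ext_rr]
        refine (lam_δ Z' _ _ _ _).trans (MonoidAlgebra.ext (Finsupp.ext fun g => ?_))
        rw [pent_coeff, one_mul, Raw.ext_rr]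
        split_ifs with e
        · rfl
        · by_contra h
          refine e (rc_hom.1 hU.1 i i' g fun h' => h ?_).1.1.symm
          change 0 = (-(Φ ent Y).δ (single i 1) i').coeff g
          rw [MonoidAlgebra.coeff_neg, Finsupp.neg_apply, h', neg_zero]
  · refine g1.ctr_of_retr (eqv_res_of_emb (A := (((Up ent Y pos).bm (ΛB G D)).res
      fun p => p.2.card < k + 1 ∧ ¬ p.2 = (Y.lab p.1.1.1).I).sh) g1 _
      (fun x => (Sum.inr x.1.1, x.1.2)) ?_ ?_ (fun _ => ?_) (fun _ => ⟨one _, one _⟩)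
      fun i i' => ?_).symm.retr (Cat.ctr_sh.2 c3)
    · rintro ⟨⟨z, I⟩, h⟩ ⟨⟨z', I'⟩, h'⟩ e
      obtain ⟨e1, e2⟩ := Prod.ext_iff.1 e
      exact Subtype.ext (Prod.ext (Sum.inr_injective e1) e2)
    · rintro ⟨a | a, I⟩
      · exact ⟨fun h => (h.2 ⟨h.1, fun _ e => nomatch e⟩).elim,
          fun ⟨x, e⟩ => nomatch congrArg Prod.fst e⟩
      · refine ⟨fun h => ⟨⟨(a, I), h.1, fun e => h.2 ⟨h.1, fun i e' => ?_⟩⟩, rfl⟩, fun ⟨x, e⟩ => ?_⟩
        · exact Sum.inr_injective e' ▸ e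
        · rw [← e]
          exact ⟨x.2.1, fun h => x.2.2 (h.2 _ rfl)⟩
    · exact (add_zero _).trans (congrArg (· - 1) (add_zero _).symm)
    · refine (hrr _ _ _ _).trans ?_
      rw [← Raw.res_δ]
      rfl

theorem mainQ (G D : Type) [Group G] [LinearOrder D] [MulAction G D] [MulAction G (Pt D)]
    [Aff G D] [Fintype D] (Q : AddSubgroup (K1 (RG G))) (hQ : whQ G ≤ Q)
    (hsum : ∀ (g : G) (c : Pt D), ∑ i, (g • c) i = ∑ i, c i)
    (hW : ∀ c : Pt D, StIn Q (MulAction.stabilizer G c))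
    (hLQ : ∀ k, 1 ≤ k → Lev (gfam G (Str D k)) ℤ 1 ∧ QO G (Str D k) ℤ) (x : K1 (RG G)) :
    x ∈ Q := by
  have hS := st_ks
  have hL := st_lam
  have hB := st_b st_lam st_psi (st_pp st_psi) (st_kz st_lam st_psi) (st_a (st_a1 st_lam))
  have hC := st_cq st_lam st_psi (st_c1 st_lam st_psi)
  have key : ∀ j k : ℕ, k + j = Fintype.card D + 1 → 1 ≤ k → ∀ Z : Raw (RG G) (Pt D),
      (T0 G D).Obj Z → Z.Fin1 → Hk k Z → Tors Q Z := by
    intro j
    induction j with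
    | zero =>
      intro k hk _ Z hZ hf hH
      obtain rfl : k = Fintype.card D + 1 := hk
      have := hf.1
      refine tors_of_ctr hQ (Tf := rf G r0) (fun c => -∑ i, c i) (fun g s => by rw [hsum])
        (fun s s' a ha g hg => ?_) hW hZ (((hL G D).2.2 Z hZ).2.2.2.1 hH)
      have h1 : ∀ i, s i ≤ (g • s') i := ha g hg
      by_cases h2 : g • s' = s
      · exact .inl h2
      · refine .inr (neg_lt_neg ?_)
        rw [← hsum g s']
        refine Finset.sum_lt_sum (fun i _ => h1 i) ?_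
        by_contra hn
        exact h2 (funext fun i => le_antisymm
          (not_lt.1 fun h => hn ⟨i, Finset.mem_univ i, h⟩) (h1 i))
    | succ j ih =>
      intro k hk h1 Z hZ hf hH
      obtain ⟨E, Λ, _, S, ξ, ent, hK⟩ := hS G D k (by omega)
      obtain ⟨Y, hY, hYf, e⟩ := hB G D k E Λ S ξ ent hK (hLQ k h1).1 (hLQ k h1).2 Z hZ hf hH
      obtain ⟨Z', hZ', hf', hH', ht⟩ := hC G D k E Λ S ξ ent hK h1 Z Y hZ hf hH hY hYf e
      exact ht Q hQ (ih (k + 1) (by omega) (by omega) Z' hZ' hf' hH')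
  refine k1_eq_top (fun n M hM => ?_) x
  let A : Raw (RG G) (Finset D × Pt D) := ⟨Fin n, fun _ => 0 + 1, fun _ => (∅, 0), 0⟩
  let B : Raw (RG G) (Finset D × Pt D) := ⟨Fin n, fun _ => 0, fun _ => (∅, 0), 0⟩
  have two := fun Q hQ => tors_two (Q := Q) (A := A) (B := B) (θ := unmat M) hQ rfl rfl
    (fun _ => rfl) (fun _ => rfl) (Equiv.refl _)
  simp only [mtx_unmat, Equiv.coe_refl, Matrix.submatrix_id_id] at two
  have hV := (two _ (hQ negCl_mem)).1
  have hf := (tcat_good _ _).fin1_of_zero (fun k o o' a hk ha => by_contra fun h0 =>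
    hk ((mem_bcat.1 ha).2 h0)) hV inferInstance
  have lab : ∀ i, (A.ext B (unmat M)).lab i = (∅, 0) := by rintro (i | i) <;> rfl
  have hV1 : (T1 G D).Obj (A.ext B (unmat M)) := by
    refine ⟨bcat_hom.2 fun i i' => ⟨fun g _ => ?_, (bcat_hom.1 hV.1 i i').2⟩, hV.2⟩
    rw [lab, lab]
    exact ⟨(Finset.smul_finset_empty g).symm, fun x hx => absurd hx (Finset.notMem_empty x)⟩
  obtain ⟨ρ, hρ⟩ := hf.rank
  obtain ⟨pos, -, -, hZ, -⟩ := exists_low (Z := ⟨Empty, fun _ => 0, fun _ => 0, 0⟩) hV1 ρ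
    (fun i i' g h => .inl (hρ i i' fun h0 => h (by rw [h0]; rfl))) 0 fun _ z => z.elim
  have t0 : Tors ⊤ (A.ext B (unmat M)) := (two _ negCl_top).2.2 ⟨hM, trivial⟩
  have t1 := key (Fintype.card D) 1 (by omega) le_rfl _ hZ hf
    (((hL G D).2.2 _ hZ).2.2.2.2 (Tors.ctr (Q := ⊤) t0))
  exact ((two _ (hQ negCl_mem)).2.1 t1).2

end Pool.Agent.Lib.AZero.EA0
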