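import Pool.Agent.Lib.NIL.B_QB
import Pool.Agent.Lib.AZero.EA0a

/-! Naturality of the boundary map `K₁(A[t,t⁻¹]) → K₀(A)`, and the subgroup of classes with free
boundary. -/

noncomputable section

namespace Pool.Agent.Lib.AZero.EA0

open Matrix LaurentPolynomial Pool.Agent.Lib.KM1 Pool.Agent.Lib.KM1.IDX Pool.Agent.WhDet NIL
  NIL.BHS0

section nat

variable {A B : Type} [Ring A] [Ring B] (f : A →+* B)

/-- the coefficientwise map of Laurent rings -/
def lmap : LaurentPolynomial A →+* LaurentPolynomial B := AddMonoidAlgebra.mapRingHom ℤ f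

theorem lmap_coeff (x : LaurentPolynomial A) (n : ℤ) : (lmap f x).coeff n = f (x.coeff n) :=
  AddMonoidAlgebra.coeff_mapRingHom f x n

theorem lmap_CT (a : A) (n : ℤ) : lmap f (C a * T n) = C (f a) * T n := by
  rw [← single_eq_C_mul_T, ← single_eq_C_mul_T]
  exact AddMonoidAlgebra.mapRingHom_single f n a

theorem lmap_T (n : ℤ) : lmap f (T n) = T n := by
  simpa using lmap_CT f 1 n

variable {ι : Type} [Fintype ι] [DecidableEq ι]

/-- related matrices of operators -/
def Rel (x : Matrix ι ι (En A)) (x' : Matrix ι ι (En B)) : Prop :=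
  ∀ i j y, x' i j (lmap f y) = lmap f (x i j y)

variable {f}

omit [DecidableEq ι] in
theorem Rel.mul {x y : Matrix ι ι (En A)} {x' y' : Matrix ι ι (En B)} (h : Rel f x x')
    (h' : Rel f y y') : Rel f (x * y) (x' * y') := fun i j z => by
  rw [Matrix.mul_apply, Matrix.mul_apply, LinearMap.sum_apply, LinearMap.sum_apply, map_sum]
  refine Finset.sum_congr rfl fun k _ => ?_
  rw [Module.End.mul_apply, Module.End.mul_apply, h', h]

omit [Fintype ι] [DecidableEq ι] in
theorem Rel.sub {x y : Matrix ι ι (En A)} {x' y' : Matrix ι ι (En B)} (h : Rel f x x')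
    (h' : Rel f y y') : Rel f (x - y) (x' - y') := fun i j z => by
  rw [Matrix.sub_apply, Matrix.sub_apply, LinearMap.sub_apply, LinearMap.sub_apply, map_sub, h, h']

omit [Fintype ι] in
theorem rel_dg (k : ℤ) : Rel f (dg A ι k) (dg B ι k) := fun i j z => by
  by_cases e : i = j
  · subst e
    simp only [dg, diagonal_apply_eq]
    refine LaurentPolynomial.ext fun n => ?_
    rw [pr_coeff, lmap_coeff, lmap_coeff, pr_coeff]
    split_ifs
    · rfl
    · rw [map_zero]
  · simp only [dg, diagonal_apply_ne _ e, LinearMap.zero_apply, map_zero]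

omit [Fintype ι] [DecidableEq ι] in
theorem rel_lm (x : Matrix ι ι (LaurentPolynomial A)) :
    Rel f (x.map lm) ((x.map (lmap f)).map lm) := fun i j z => by
  simp only [map_apply, lm_apply, map_mul]

omit [Fintype ι] [DecidableEq ι] in
theorem Rel.comp {x : Matrix ι ι (En A)} {x' : Matrix ι ι (En B)} (h : Rel f x x') (a : ℤ) (n : ℕ) :
    comp a n a n x' = (comp a n a n x).map f := by
  ext ⟨i, r⟩ ⟨j, s⟩
  simp only [BHS0.comp, map_apply, of_apply]
  rw [← lmap_T f, h, lmap_coeff]

theorem Rel.cc {x : Matrix ι ι (En A)} {x' : Matrix ι ι (En B)} (h : Rel f x x') (hx : Fi x)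
    (hx' : Fi x') : cc x' = K0.map f (cc x) := by
  obtain ⟨h1, a, n, h2⟩ := hx
  obtain ⟨h3, b, m, h4⟩ := hx'
  have s1 : Sp (min a b) (n + m + (a - b).natAbs) x := h2.mono (by omega) (by omega)
  have s2 : Sp (min a b) (n + m + (a - b).natAbs) x' := h4.mono (by omega) (by omega)
  rw [cc_eq h1 s1, cc_eq h3 s2, map_cls _ (comp_idem h1 s1), h.comp]

variable (f)

theorem bdry_nat (x : K1 (LaurentPolynomial A)) :
    bdry B (K1.map (lmap f) x) = K0.map f (bdry A x) := by
  have : (bdry B).comp (K1.map (lmap f)) = (K0.map f).comp (bdry A) := K1.hom_ext fun n M => by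
    rw [AddMonoidHom.comp_apply, AddMonoidHom.comp_apply, K1.map_mk, bdry_mk, bdry_mk]
    obtain ⟨a, ha⟩ := exists_bd M
    obtain ⟨b, hb⟩ := exists_bd (mapGL (lmap f) n M)
    have h1 := ha (a + b) (by omega)
    have h2 := hb (a + b) (by omega)
    have h0 : (0 : ℤ) ≤ (a + b : ℕ) := by omega
    have r : Rel f (cj M (dg A (Fin n) 0)) (cj (mapGL (lmap f) n M) (dg B (Fin n) 0)) :=
      ((rel_lm M.val).mul (rel_dg 0)).mul (rel_lm M.inv)
    rw [ind_eq h1 (k := 0) (D := (a + b : ℕ)) (by omega),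
      ind_eq h2 (k := 0) (D := (a + b : ℕ)) (by omega), ff, ff, map_sub,
      (r.sub (rel_dg _)).cc (ne_bd h1 (by omega)).fi (ne_bd h2 (by omega)).fi,
      ((rel_dg (f := f) 0).sub (rel_dg _)).cc (ne_dg h0).fi (ne_dg h0).fi]
  exact DFunLike.congr_fun this x

end nat

/-- the classes of free modules -/
def fr (A : Type) [Ring A] : AddSubgroup (K0 A) :=
  AddSubgroup.zmultiples (cls (1 : Matrix (Fin 1) (Fin 1) A))

theorem cls_one {A : Type} [Ring A] (m : ℕ) : cls (1 : Matrix (Fin m) (Fin m) A) =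
    m • cls (1 : Matrix (Fin 1) (Fin 1) A) := by
  induction m with
  | zero => rw [zero_smul, Subsingleton.elim (1 : Matrix (Fin 0) (Fin 0) A) 0, cls_zero]
  | succ m ih =>
    rw [succ_nsmul, ← ih, ← cls_one_sum, ← cls_reindex finSumFinEquiv (by simp)]
    simp

theorem one_mem_fr {A : Type} [Ring A] (m : ℕ) : cls (1 : Matrix (Fin m) (Fin m) A) ∈ fr A :=
  cls_one (A := A) m ▸ nsmul_mem (AddSubgroup.mem_zmultiples _) _

theorem mem_fr {A : Type} [Ring A] (h : SFree A) (y : K0 A) : y ∈ fr A := by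
  induction y using K0.induction with
  | h0 => exact zero_mem _
  | hc n e he =>
    obtain ⟨k, l, hk⟩ := h n e he
    have := cls_equiv (idem_blocks he (mul_one _)) (mul_one _) hk
    rw [cls_blocks he (mul_one _)] at this
    rw [eq_sub_of_add_eq this]
    exact sub_mem (one_mem_fr l) (one_mem_fr k)
  | hn y hy => exact neg_mem hy
  | ha y z hy hz => exact add_mem hy hz

theorem map_fr {A B : Type} [Ring A] [Ring B] (f : A →+* B) {y : K0 A} (h : y ∈ fr A) :
    K0.map f y ∈ fr B := by
  obtain ⟨z, rfl⟩ := h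
  simp only [map_zsmul, map_cls_one]
  exact zsmul_mem (AddSubgroup.mem_zmultiples _) _

theorem sfree_of_fr {A : Type} [Ring A] (h : ∀ y, y ∈ fr A) : SFree A := by
  intro n e he
  obtain ⟨z, hz⟩ := h (-cls e)
  have hz' : z • cls (1 : Matrix (Fin 1) (Fin 1) A) = -cls e := hz
  have h3 : cls (fromBlocks e 0 0 (1 : Matrix (Fin z.toNat) (Fin z.toNat) A)) =
      cls (1 : Matrix (Fin (-z).toNat) (Fin (-z).toNat) A) := by
    rw [cls_blocks he (by simp), cls_one z.toNat, cls_one (-z).toNat, ← neg_neg (cls e), ← hz',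
      ← natCast_zsmul, ← natCast_zsmul, ← neg_zsmul, ← add_zsmul]
    congr 1
    omega
  obtain ⟨k, hk⟩ := KM1.stab (idem_blocks he (by simp)) (by simp) h3
  refine ⟨z.toNat + k, (-z).toNat + k, ?_⟩
  have i1 := idem_blocks (idem_blocks he (mul_one (1 : Matrix (Fin z.toNat) (Fin z.toNat) A)))
    (mul_one (1 : Matrix (Fin k) (Fin k) A))
  have r1 := MEq.reindex ((Equiv.sumAssoc _ _ _).trans
    ((Equiv.refl (Fin n)).sumCongr finSumFinEquiv)) i1
  have r2 := MEq.reindex (R := A) (finSumFinEquiv (m := (-z).toNat) (n := k)) (mul_one 1)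
  rw [fromBlocks_one] at hk
  have e1 : reindex ((Equiv.sumAssoc _ _ _).trans ((Equiv.refl (Fin n)).sumCongr finSumFinEquiv))
      ((Equiv.sumAssoc _ _ _).trans ((Equiv.refl (Fin n)).sumCongr finSumFinEquiv))
      (fromBlocks (fromBlocks e 0 0 (1 : Matrix (Fin z.toNat) (Fin z.toNat) A)) 0 0
        (1 : Matrix (Fin k) (Fin k) A)) = fromBlocks e 0 0 1 := by
    ext a b
    obtain ⟨a, rfl⟩ := ((Equiv.sumAssoc _ _ _).trans
      ((Equiv.refl (Fin n)).sumCongr (finSumFinEquiv (m := z.toNat) (n := k)))).surjective a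
    obtain ⟨b, rfl⟩ := ((Equiv.sumAssoc _ _ _).trans
      ((Equiv.refl (Fin n)).sumCongr (finSumFinEquiv (m := z.toNat) (n := k)))).surjective b
    rw [reindex_apply, submatrix_apply, Equiv.symm_apply_apply, Equiv.symm_apply_apply]
    rcases a with (a | a) | a <;> rcases b with (b | b) | b <;>
      simp [one_apply, -finSumFinEquiv_apply_left, -finSumFinEquiv_apply_right]
  rw [e1] at r1
  have e2 : reindex (finSumFinEquiv (m := (-z).toNat) (n := k))
      (finSumFinEquiv (m := (-z).toNat) (n := k)) (1 : Matrix _ _ A) = 1 := by simp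
  rw [e2] at r2
  exact MEq.trans (idem_blocks he (by simp)) i1 (by simp) r1.symm
    (MEq.trans i1 (by simp) (by simp) hk r2)

/-- every class of an idempotent is a boundary -/
theorem bdry_surj {A S : Type} [Ring A] [Ring S] (ψ : S →+* LaurentPolynomial A) (i : A →+* S)
    (τ τ' : S) (hi : ∀ a, ψ (i a) = C a) (h1 : ψ τ = T 1) (h2 : ψ τ' = T (-1)) (hτ : τ * τ' = 1)
    (hτ' : τ' * τ = 1) (hc : ∀ a, τ * i a = i a * τ) (y : K0 A) :
    ∃ x, bdry A (K1.map ψ x) = y := by
  change y ∈ ((bdry A).comp (K1.map ψ)).range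
  induction y using K0.induction with
  | h0 => exact zero_mem _
  | hn y hy => exact neg_mem hy
  | ha y z hy hz => exact add_mem hy hz
  | hc n e he =>
  have hc' : ∀ a, τ' * i a = i a * τ' := fun a => by
    rw [← mul_one (τ' * i a), ← hτ, ← mul_assoc, mul_assoc τ', ← hc, ← mul_assoc, hτ', one_mul]
  have key : ∀ s s' : S, s * s' = 1 → (∀ a, s * i a = i a * s) →
      ((1 - e).map i + e.map i * diagonal fun _ => s) *
        ((1 - e).map i + e.map i * diagonal fun _ => s') = 1 := fun s s' h hs => by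
    have d1 : ∀ f : Matrix (Fin n) (Fin n) A,
        (diagonal fun _ => s) * f.map i = f.map i * diagonal fun _ => s := fun f => by
      ext a b; rw [diagonal_mul, mul_diagonal, map_apply, hs]
    have d2 : ∀ f g : Matrix (Fin n) (Fin n) A, (f.map i * diagonal fun _ => s) * g.map i =
        (f * g).map i * diagonal fun _ => s := fun f g => by
      rw [mul_assoc, d1, ← mul_assoc, Matrix.map_mul]
    rw [add_mul, mul_add, mul_add, ← mul_assoc, ← mul_assoc, d2, d2, mul_assoc ((e * e).map i),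
      diagonal_mul_diagonal]
    simp only [← Matrix.map_mul, idem_compl he, he, h, diagonal_one, mul_one]
    simp [sub_mul, mul_sub, he, ← map_add']
  let M : (Matrix (Fin n) (Fin n) S)ˣ := ⟨_, _, key τ τ' hτ hc, key τ' τ hτ' hc'⟩
  have hM : bdry A (K1.map ψ (K1.mk M)) = -cls e := by
    rw [K1.map_mk, bdry_mk]
    refine ind_idem he _ ?_ ?_
    · ext1 a b
      simp only [mapGL_val, M, map_apply, Matrix.add_apply, mul_diagonal, map_add, map_mul, hi, h1]
    · ext1 a b
      change ψ (M.inv a b) = _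
      simp only [M]
      simp only [map_apply, Matrix.add_apply, mul_diagonal, map_add, map_mul, hi, h2]
  exact ⟨-K1.mk M, by rw [map_neg, AddMonoidHom.comp_apply, hM, neg_neg]⟩

section grp

variable {H Γ : Type} [Group H] [Group Γ] (r : Γ →* H) (δ : Γ →* Multiplicative ℤ)

/-- the group elements as Laurent monomials -/
def chi : Γ →* LaurentPolynomial (MonoidAlgebra ℤ H) where
  toFun := fun g => C (MonoidAlgebra.single (r g) 1) * T (δ g).toAdd
  map_one' := by simp [← MonoidAlgebra.one_def]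
  map_mul' := fun g g' => by
    rw [mul_assoc, ← mul_assoc (T _), T_mul, mul_assoc, ← mul_assoc (C _) (C _), ← map_mul,
      MonoidAlgebra.single_mul_single, one_mul, ← T_add, map_mul, map_mul, toAdd_mul]

/-- the ring map to the Laurent ring -/
def psi : MonoidAlgebra ℤ Γ →+* LaurentPolynomial (MonoidAlgebra ℤ H) :=
  (MonoidAlgebra.lift ℤ _ Γ (chi r δ)).toRingHom

theorem psi_single (g : Γ) (c : ℤ) : psi r δ (MonoidAlgebra.single g c) =
    C (MonoidAlgebra.single (r g) c) * T (δ g).toAdd := by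
  change MonoidAlgebra.lift ℤ _ Γ (chi r δ) (MonoidAlgebra.single g c) = _
  rw [MonoidAlgebra.lift_single]
  change c • (C _ * T _) = _
  rw [← smul_mul_assoc, ← map_zsmul, MonoidAlgebra.smul_single, smul_eq_mul, mul_one]

/-- the classes with free boundary -/
def Qb : AddSubgroup (K1 (MonoidAlgebra ℤ Γ)) :=
  (fr (MonoidAlgebra ℤ H)).comap ((bdry _).comp (K1.map (psi r δ)))

theorem whQ_le_Qb : whQ Γ ≤ Qb r δ := by
  rw [whQ, AddSubgroup.closure_le]
  rintro x ⟨g, N, hN, rfl⟩
  rw [SetLike.mem_coe, Qb, AddSubgroup.mem_comap, AddMonoidHom.comp_apply, K1.map_mk, bdry_mk]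
  refine ind_hom _ (k := (δ g).toAdd) fun a b m hm => ?_
  obtain rfl : a = 0 := Subsingleton.elim _ _
  obtain rfl : b = 0 := Subsingleton.elim _ _
  rw [mapGL_val, map_apply]
  rcases hN with hN | hN <;> rw [hN, psi_single, coeff_C_T _ _ _ hm]

theorem sfree_of_Qb (i : H →* Γ) (τ : Γ) (hr : ∀ h, r (i h) = h) (hδ : ∀ h, δ (i h) = 1)
    (hrτ : r τ = 1) (hδτ : δ τ = Multiplicative.ofAdd 1) (hc : ∀ h, τ * i h = i h * τ)
    (htop : ∀ x, x ∈ Qb r δ) : SFree (MonoidAlgebra ℤ H) := by
  refine sfree_of_fr fun y => ?_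
  refine (bdry_surj (psi r δ) (MonoidAlgebra.mapDomainRingHom ℤ i)
    (MonoidAlgebra.single τ 1) (MonoidAlgebra.single τ⁻¹ 1) (fun a => ?_) ?_ ?_ ?_ ?_
    (fun a => ?_) y).elim fun x hx => hx ▸ htop x
  · induction a using MonoidAlgebra.induction_linear with
    | zero => simp
    | add x y hx hy => simp only [map_add, hx, hy]
    | single h c =>
      rw [MonoidAlgebra.mapDomainRingHom_apply, MonoidAlgebra.mapDomain_single, psi_single, hr, hδ]
      simp
  · rw [psi_single, hrτ, hδτ]; simp [← MonoidAlgebra.one_def]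
  · rw [psi_single, map_inv, map_inv, hrτ, hδτ]; simp [← MonoidAlgebra.one_def]
  · simp [MonoidAlgebra.single_mul_single, ← MonoidAlgebra.one_def]
  · simp [MonoidAlgebra.single_mul_single, ← MonoidAlgebra.one_def]
  · induction a using MonoidAlgebra.induction_linear with
    | zero => simp
    | add x y hx hy => simp only [map_add, mul_add, add_mul, hx, hy]
    | single h c => simp [MonoidAlgebra.single_mul_single, hc]

theorem K1_map_map {R S U : Type} [Ring R] [Ring S] [Ring U] (φ : R →+* S) (ψ : S →+* U)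
    (x : K1 R) : K1.map ψ (K1.map φ x) = K1.map (ψ.comp φ) x := by
  have : (K1.map ψ).comp (K1.map φ) = K1.map (ψ.comp φ) := K1.hom_ext fun n M => by
    rw [AddMonoidHom.comp_apply, K1.map_mk, K1.map_mk, K1.map_mk]
    rfl
  exact DFunLike.congr_fun this x

theorem stIn_Qb (S : Subgroup Γ) {K : Type} [Group K] (s : S →* K) (j : K →* H)
    (hj : ∀ g, j (s g) = r g) (hK : SFree (MonoidAlgebra ℤ K)) : StIn (Qb r δ) S := by
  intro x
  have e : (psi r δ).comp (MonoidAlgebra.mapDomainRingHom ℤ S.subtype) =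
      (lmap (MonoidAlgebra.mapDomainRingHom ℤ j)).comp (psi s (δ.comp S.subtype)) := by
    refine RingHom.ext fun a => ?_
    induction a using MonoidAlgebra.induction_linear with
    | zero => simp
    | add x y hx hy => simp only [map_add, hx, hy]
    | single h c =>
      rw [RingHom.comp_apply, RingHom.comp_apply, MonoidAlgebra.mapDomainRingHom_apply,
        MonoidAlgebra.mapDomain_single, psi_single, psi_single, lmap_CT,
        MonoidAlgebra.mapDomainRingHom_apply, MonoidAlgebra.mapDomain_single, hj]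
      rfl
  rw [Qb, AddSubgroup.mem_comap, AddMonoidHom.comp_apply, K1_map_map, e, ← K1_map_map, bdry_nat]
  exact map_fr _ (mem_fr hK _)

end grp

end Pool.Agent.Lib.AZero.EA0
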