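import Pool.Agent.Lib.TwoDim.Plug
import Pool.Agent.Lib.AZero.EA0b
import Pool.Agent.Lib.AZero.EA0c

/-! Stably free projective modules: closure under unions, actions on trees and extensions with
elementary amenable quotient. -/

noncomputable section

namespace Pool.Agent.Lib.AZero.EA0

open Finsupp TensorProduct Pool.Agent.WhDet NIL Function

theorem tk1Q {G X : Type} [Group G] [MulAction G X] (F : Forest G Unit X)
    (Q : AddSubgroup (K1 (MonoidAlgebra ℤ G))) (hQ0 : whQ G ≤ Q)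
    (hW : ∀ s : X, StIn Q (MulAction.stabilizer G s)) (hQO : QO G F.Fl ℤ)
    (hL : Lev (gfam G F.Fl) ℤ 1) (x : K1 (MonoidAlgebra ℤ G)) : x ∈ Q := by
  have hSIMP := st_simp
  have hKEY := st_key0 st_simp
  have hTS := st_ts
  have hTH := st_TH st_far st_simp
  have hTF := st_tfin st_simp
  rcases isEmpty_or_nonempty F.Fl with hne | hne
  · have h0 : ∀ s, ¬ F.ed s := fun s h => hne.false (⟨s, h⟩, true)
    have h1 : ∀ s, s = F.b () := fun s => by
      have k := F.bd_s0 s (h0 s)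
      rw [show F.s0 s = 0 from Finsupp.ext fun t => by_contra fun h => h0 t (F.s0_supp s t h).2.1,
        mapDomain_zero, mapDomain_zero, sub_zero, eq_comm, sub_eq_zero] at k
      exact single_left_injective one_ne_zero k
    have k := hW (F.b ()) (K1.map (MonoidAlgebra.mapDomainRingHom ℤ
      ((MonoidHom.id G).codRestrict _ fun g => h1 _)) x)
    rwa [K1_map_map_id] at k
    intro a
    induction a using MonoidAlgebra.induction_linear with
    | zero => simp
    | add x y hx hy => simp only [map_add, hx, hy]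
    | single g c =>
      rw [MonoidAlgebra.mapDomainRingHom_apply, MonoidAlgebra.mapDomainRingHom_apply,
        MonoidAlgebra.mapDomain_single, MonoidAlgebra.mapDomain_single]
      rfl
  refine k1_eq_top (fun n M hM => ?_) x
  let ψ := (Algebra.TensorProduct.lid ℤ (MonoidAlgebra ℤ G)).toRingEquiv.toRingHom
  let φ := (Algebra.TensorProduct.lid ℤ (MonoidAlgebra ℤ G)).symm.toRingEquiv.toRingHom
  have e1 : ∀ r, ψ (φ r) = r := (Algebra.TensorProduct.lid ℤ _).apply_symm_apply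
  have e2 : ∀ r, φ (ψ r) = r := (Algebra.TensorProduct.lid ℤ _).symm_apply_apply
  have hQ : negCl _ ∈ Q.comap (K1.map ψ) := by
    rw [AddSubgroup.mem_comap, map_negCl]
    exact hQ0 negCl_mem
  let A : Raw (ℤ ⊗[ℤ] MonoidAlgebra ℤ G) Unit := ⟨Fin n, fun _ => 0 + 1, fun _ => (), 0⟩
  let B : Raw (ℤ ⊗[ℤ] MonoidAlgebra ℤ G) Unit := ⟨Fin n, fun _ => 0, fun _ => (), 0⟩
  have two := fun Q hQ => tors_two (Q := Q) (A := A) (B := B) (θ := unmat (M.map φ)) hQ rfl rfl
    (fun _ => rfl) (fun _ => rfl) (Equiv.refl _)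
  simp only [mtx_unmat, Equiv.coe_refl, Matrix.submatrix_id_id] at two
  have hV := (two _ hQ).1
  obtain ⟨E'', Λ'', _, S'', Bm, ent, hP⟩ := hTS G X F hne
  have hH := hTH G X E'' Λ'' F S'' Bm ent hP ℤ _ (by rwa [tcat_bc])
    ((tcat_good _ Unit).fin1_of_zero (fun k o o' a hk ha => by_contra fun h0 =>
      hk ((mem_bcat.1 ha).2 h0)) hV inferInstance)
  have hl := hSIMP.2.2 _ _ _ _ _ _ _ _ _ _ _ _ _ _ _ hP.loc ℤ
  rw [tcat_bc] at hH hl
  obtain ⟨Y, hY, hYf, hYc, ht⟩ := hKEY _ _ _ _ _ _ _ _ _ _ _ _ _ _ hl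
    (hTF G X E'' Λ'' F S'' Bm ent hP ℤ hQO) (hL E'' Λ'' S'' hP.sys) (scalars ℤ _) _ ⟨1, rfl⟩ hV hH
    ((two _ negCl_top).2.2 ⟨hM.map φ.mapMatrix, trivial⟩).ctr
  have k := ((two _ hQ).2.1 (ht _ hQ ?_)).2
  · rwa [AddSubgroup.mem_comap, ← cl_map φ hM, K1_map_map_id φ ψ e1] at k
  have := hYf.1
  have gT := F.gpos.T_bas.good
  have f := (isHomF_lid (bcat F.gpos.T)).isFn (gT.bc ℤ) gT
  have t := (tors_of_ctr hQ0 (Tf := F.gpos.T) F.gpos.rk F.gpos.rk_smul (fun s s' a ha g hg =>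
    (F.gpos.rk_lt _ _ (ha g hg)).imp_right fun h => F.gpos.rk_smul g s' ▸ h) hW (f.obj hY)
    (f.ctr hY hYc)).mapA φ id (Q' := Q.comap (K1.map ψ)) (hQ0 negCl_mem)
    (fun x hx => by rwa [AddSubgroup.mem_comap, K1_map_map_id φ ψ e1]) (bcat_obj_tcat (f.obj hY))
  rwa [Raw.mapA_mapA, show φ.toAddMonoidHom.comp _ = AddMonoidHom.id _ from
    AddMonoidHom.ext e2, Raw.mapA_id] at t

/-- projective modules over `ℤ[G × ℤ ^ n]` are stably free -/
def SF (G : Type) [Group G] : Prop :=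
  ∀ n : ℕ, SFree (MonoidAlgebra ℤ (G × Multiplicative (Fin n → ℤ)))

/-- the same for all subgroups -/
def F0 (G : Type) [Group G] : Prop :=
  ∀ (H : Type) [Group H] (f : H →* G), Injective f → SF H

theorem F0.of_injective {G H : Type} [Group G] [Group H] (h : F0 G) (f : H →* G)
    (hf : Injective f) : F0 H := fun K _ f' hf' => h K (f.comp f') (hf.comp hf')

theorem psf_of_sfree {R : Type} [Ring R] (h : SFree R) : TwoDim.PSF R :=
  fun P _ _ _ _ => QB.stably_free R h P

theorem SF.qg {K S : Type} [Group K] [Group S] (h : SF K) {n : ℕ}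
    (e : K × Multiplicative (Fin n → ℤ) ≃* S) : QG S ℤ :=
  TwoDim.qg_iff.2 ((psf_of_sfree (h n)).tr (MonoidAlgebra.mapDomainRingEquiv ℤ e))

theorem sf_of_k1 {G : Type} [Group G] (h : ∀ (n : ℕ)
    (Q : AddSubgroup (K1 (MonoidAlgebra ℤ (G × Multiplicative (Fin n → ℤ))))), whQ _ ≤ Q →
    (∀ (S : Subgroup (G × Multiplicative (Fin n → ℤ))) (K : Subgroup G), (∀ g ∈ S, g.1 ∈ K) →
      SF K → StIn Q S) → ∀ x, x ∈ Q) : SF G := by
  intro n
  let c : (Fin n → ℤ) →+ (Fin (n + 1) → ℤ) :=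
    { toFun := fun v => Fin.cons 0 v
      map_zero' := by funext j; refine Fin.cases ?_ (fun i => ?_) j <;> simp
      map_add' := fun v w => by funext j; refine Fin.cases ?_ (fun i => ?_) j <;> simp }
  let t : (Fin (n + 1) → ℤ) →+ (Fin n → ℤ) :=
    { toFun := fun w j => w j.succ
      map_zero' := rfl
      map_add' := fun _ _ => rfl }
  let d : (Fin (n + 1) → ℤ) →+ ℤ := Pi.evalAddMonoidHom (fun _ => ℤ) 0
  refine sfree_of_Qb (Γ := G × Multiplicative (Fin (n + 1) → ℤ))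
    ((MonoidHom.id G).prodMap (AddMonoidHom.toMultiplicative t))
    ((AddMonoidHom.toMultiplicative d).comp (MonoidHom.snd _ _))
    ((MonoidHom.id G).prodMap (AddMonoidHom.toMultiplicative c))
    (1, Multiplicative.ofAdd (Fin.cons 1 0)) (fun x => rfl) (fun x => rfl) rfl rfl
    (fun x => Prod.ext (by simp) (mul_comm _ _)) (h (n + 1) _ (whQ_le_Qb _ _) fun S K hS hK => ?_)
  exact stIn_Qb _ _ S
    ((((MonoidHom.fst _ _).comp S.subtype).codRestrict K fun g => hS g.1 g.2).prod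
      ((AddMonoidHom.toMultiplicative t).comp ((MonoidHom.snd _ _).comp S.subtype)))
    (K.subtype.prodMap (MonoidHom.id _)) (fun _ => rfl) (hK n)

open WT in
theorem f0_union {G : Type} [Group G]
    (h : ∀ s : Finset G, ∃ K : Subgroup G, (∀ g ∈ s, g ∈ K) ∧ F0 K) : F0 G := by
  classical
  intro H _ f hf n
  refine TwoDim.sfree_of_psf (TwoDim.psf_of_local fun s => ?_)
  obtain ⟨K, h1, h2⟩ := h (s.image fun g => f g.1)
  refine ⟨(K.comap f).prod ⊤, fun g hg => ⟨h1 _ (Finset.mem_image_of_mem _ hg), trivial⟩, ?_⟩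
  obtain ⟨e⟩ := exists_equiv (K.comap f)
    ((K.comap f).prod (⊤ : Subgroup (Multiplicative (Fin n → ℤ))))
    fun g => ⟨fun a => a.1, fun a => ⟨a, trivial⟩⟩
  obtain ⟨ι, hι⟩ := exists_inj hf (K.comap f) K fun _ a => a
  exact (psf_of_sfree (h2 _ ι hι n)).tr (MonoidAlgebra.mapDomainRingEquiv ℤ e)

open WT in
theorem f0_tree {G V : Type} [Group G] [MulAction G V] (T : SimpleGraph V)
    (hT : NilV.TreeAction G V T) (h1 : ∀ v : V, NilCl (MulAction.stabilizer G v))
    (h2 : ∀ v : V, F0 (MulAction.stabilizer G v)) : F0 G := by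
  intro H _ f hf
  refine sf_of_k1 fun n Q hQ hS => ?_
  let A := Multiplicative (Fin n → ℤ)
  let _ : MulAction (H × A) V := MulAction.compHom V (f.comp (MonoidHom.fst H A))
  obtain ⟨X, _, F, hF⟩ := exists_forest_of_tree (H := H × A) T hT.isTree (fun g => hT.adj (f g.1))
    fun g => hT.noInversion (f g.1)
  have key : ∀ (x : X) (S : Subgroup (H × A)), S = MulAction.stabilizer (H × A) x →
      StIn Q S ∧ QG S ℤ ∧ NilCl S := by
    intro x S hS'
    obtain ⟨K, v, hK, hv⟩ : ∃ (K : Subgroup H) (v : V), (∀ g, g ∈ S ↔ g.1 ∈ K) ∧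
        ∀ k ∈ K, f k ∈ MulAction.stabilizer G v := by
      rcases hF x with ⟨-, v, e⟩ | ⟨-, u, v, -, e⟩
      · exact ⟨(MulAction.stabilizer G v).comap f, v, fun g => by rw [hS', e]; rfl, fun _ a => a⟩
      · exact ⟨(MulAction.stabilizer G u ⊓ MulAction.stabilizer G v).comap f, v,
          fun g => by rw [hS', e]; rfl, fun _ a => a.2⟩
    obtain ⟨e⟩ := exists_equiv K S hK
    obtain ⟨ι, hι⟩ := exists_inj hf K _ hv
    have hk : SF K := h2 v K ι hι
    exact ⟨hS S K (fun g hg => (hK g).1 hg) hk, hk.qg e,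
      (((h1 v).of_injective _ ι hι).prod_pi n).of_mulEquiv e⟩
  have fl : ∀ o : F.Fl, MulAction.stabilizer (H × A) o = MulAction.stabilizer (H × A) o.1.1 := by
    intro o
    ext g
    exact ⟨fun a => congrArg (fun z : F.Fl => z.1.1) a, fun a => Prod.ext (Subtype.ext a) rfl⟩
  exact tk1Q F Q hQ (fun s => (key s _ rfl).1)
    (st_orbq _ _ ℤ fun o => (key _ _ (fl o)).2.1)
    (ind_holds _ _ (fun o => (key _ _ (fl o)).2.2) ℤ)

/-- all point stabilisers have the property -/
def Pst {G ι : Type} [Group G] [MulAction G ι] (a : G → ι → ℤ) : Prop :=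
  ∀ (d : ι → ℤ) (H : Subgroup G), (∀ g, g ∈ H ↔ ∀ i, d (g⁻¹ • i) + a g i = d i) → F0 H

theorem f0_of_fix {G H ι : Type} [Group G] [Group H] [MulAction G ι] {a : G → ι → ℤ}
    (ha : ∀ g h i, a (g * h) i = a g i + a h (g⁻¹ • i)) (hP : Pst a) (f : H →* G)
    (hf : Injective f) (d : ι → ℤ)
    (h : ∀ g i, d ((f g)⁻¹ • i) + a (f g) i = d i) : F0 H :=
  (hP d (affStab ha d) fun _ => Iff.rfl).of_injective (f.codRestrict (affStab ha d) h)
    fun _ _ e => hf (congrArg Subtype.val e)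

open WT EA EA.WN in
theorem f0_act {G ι : Type} [Group G] [Fintype ι] [MulAction G ι] (a : G → ι → ℤ)
    (ha : ∀ g h i, a (g * h) i = a g i + a h (g⁻¹ • i)) (hG : NilCl G) (hP : EA0.Pst a) :
    F0 G := by
  classical
  have hN := nilLike ind_holds
  suffices key : ∀ (m : ℕ) (G ι : Type) [Group G] [Fintype ι] [MulAction G ι] (a : G → ι → ℤ),
      Fintype.card ι = m → (∀ g h i, a (g * h) i = a g i + a h (g⁻¹ • i)) → NilCl G →
      EA0.Pst a → SF G by
    intro H _ f hf
    let _ : MulAction H ι := MulAction.compHom ι f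
    have e : ∀ (g : H) (i : ι), g⁻¹ • i = (f g)⁻¹ • i := fun g i => by rw [← map_inv]; rfl
    exact key _ H ι (fun g => a (f g)) rfl (fun g h i => by rw [map_mul, ha, e])
      (hN.inj _ _ f hf hG) fun d K hK => f0_of_fix ha hP (f.comp K.subtype)
        (hf.comp K.subtype_injective) d fun g i => e g i ▸ (hK g).1 g.2 i
  intro m
  induction m using Nat.strong_induction_on with
  | _ m ih =>
  intro G ι _ _ _ a hm ha hG hP
  refine sf_of_k1 fun n Q hQ hS => ?_
  obtain ⟨D, _, _, _, _, _, h1, h2, h3⟩ := st_dbl G ι a ha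
  let A := Multiplicative (Fin n → ℤ)
  let _ : MulAction (G × A) D := MulAction.compHom D (MonoidHom.fst G A)
  let _ : MulAction (G × A) (Pt D) := MulAction.compHom (Pt D) (MonoidHom.fst G A)
  have _ : Aff (G × A) D := ⟨fun g => Aff.aff g.1⟩
  refine mainQ (G × A) D Q hQ (fun g => h1 g.1) (fun c => ?_) fun k hk => ?_
  · obtain ⟨d, hd⟩ := h2 c
    exact hS _ (MulAction.stabilizer G c) (fun _ h => h)
      (f0_of_fix ha hP (MulAction.stabilizer G c).subtype Subtype.val_injective d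
        (fun g => hd g.1 g.2) _ (MonoidHom.id _) fun _ _ h => h)
  · have key : ∀ y : Str D k, QG (MulAction.stabilizer (G × A) y) ℤ ∧
        NilCl (MulAction.stabilizer (G × A) y) := by
      intro y
      obtain ⟨I, d, ⟨i₀, hi₀⟩, hI⟩ := h3 k hk y
      obtain ⟨e⟩ := exists_equiv (MulAction.stabilizer G y) (MulAction.stabilizer (G × A) y)
        fun _ => Iff.rfl
      have hK := hN.inj _ _ (MulAction.stabilizer G y).subtype Subtype.val_injective hG
      let _ := compl (MulAction.stabilizer G y).subtype I fun g i => (hI g.1 g.2 i).1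
      have hk : SF (MulAction.stabilizer G y) :=
        ih _ (hm ▸ Fintype.card_subtype_lt (p := fun i => i ∉ I) (not_not.2 hi₀)) _ {i // i ∉ I}
          (fun g i => a g.1 i.1) rfl (fun g h i => ha g.1 h.1 i.1) hK fun d' K hK =>
          f0_of_fix ha hP ((MulAction.stabilizer G y).subtype.comp K.subtype)
            (Subtype.val_injective.comp Subtype.val_injective)
            (fun i => if h : i ∈ I then d i else d' ⟨i, h⟩) fun g i => by
              have h4 : (g.1.1)⁻¹ • i ∈ I ↔ i ∈ I := (hI g.1⁻¹.1 g.1⁻¹.2 i).1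
              change (if h : (g.1.1)⁻¹ • i ∈ I then d ((g.1.1)⁻¹ • i)
                else d' ⟨(g.1.1)⁻¹ • i, h⟩) + a g.1.1 i = _
              by_cases hi : i ∈ I
              · rw [dif_pos hi, dif_pos (h4.2 hi)]
                exact (hI g.1.1 g.1.2 i).2 hi
              · rw [dif_neg hi, dif_neg (mt h4.1 hi)]
                exact (hK g.1).1 g.2 ⟨i, hi⟩
      exact ⟨hk.qg e, hN.inj _ _ e.symm.toMonoidHom e.symm.injective (hN.prod _ n hK)⟩
    exact ⟨hN.good _ _ (fun y => (key y).2) ℤ, st_orbq _ _ ℤ fun y => (key y).1⟩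

theorem cl_f0 : EAG.Cl fun G _ => NilCl G ∧ F0 G where
  sub G H _ _ f hf h := ⟨h.1.of_injective H f hf, h.2.of_injective f hf⟩
  un G _ h := ⟨cl_nilCl.un G fun s => (h s).imp fun _ hH => ⟨hH.1, hH.2.1⟩,
    f0_union fun s => (h s).imp fun _ hH => ⟨fun _ hg => hH.1 hg, hH.2.2⟩⟩
  act G ι _ _ _ a ha h := ⟨.act G ι a ha fun d H hH => (h d H hH).1,
    f0_act a ha (.act G ι a ha fun d H hH => (h d H hH).1) fun d H hH => (h d H hH).2⟩

theorem f0_gen {S : ∀ (G : Type) [Group G], Prop}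
    (hS : ∀ (G : Type) [Group G], S G → NilCl G ∧ F0 G) {G : Type} [Group G]
    (h : NilV.Generated S G) : NilCl G ∧ F0 G := by
  induction h with
  | seed G h => exact hS G h
  | union G H h _ ih => exact cl_f0.un G fun s => ⟨H s, fun g hg => h s g hg, ih s⟩
  | tree G V T h _ ih =>
    exact ⟨.tree G V T h.isTree h.adj h.noInversion fun v => (ih v).1,
      f0_tree T h (fun v => (ih v).1) fun v => (ih v).2⟩
  | ext G Q p h _ ih => exact cl_f0.of_EA (ea_of_elemAmenable h) p ih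

theorem psf_gen_of {S : ∀ (G : Type) [Group G], Prop}
    (hS : ∀ (G : Type) [Group G], S G → NilCl G ∧ F0 G) (G : Type) [Group G]
    (h : NilV.Generated S G) (n : ℕ) :
    TwoDim.PSF (MonoidAlgebra ℤ (G × Multiplicative (Fin n → ℤ))) :=
  psf_of_sfree ((f0_gen hS h).2 G (MonoidHom.id G) (fun _ _ e => e) n)

theorem seed_asph (G : Type) [Group G] (h : TwoDim.Aspherical G) : NilCl G ∧ F0 G :=
  ⟨.fin G 2 h.cd, fun _ _ f hf n =>
    TwoDim.sfree_of_psf ((h.of_injective f hf).psf_pi (TwoDim.good_pid ℤ) n)⟩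

theorem seed_flat (G : Type) [Group G] (h : NilV.FlatSeed G) : NilCl G ∧ F0 G := by
  have k : NilCl G ∧ KF G := by
    rcases h with h | h
    · exact ⟨.fin G 0 (cdLE_of_subsingleton G),
        w1_holds _ (nilLike ind_holds) (.fin _ 0 (cdLE_of_subsingleton _)) G⟩
    · exact ⟨nilCl_of_finCd h.1, kf_of_subgroups h.2⟩
  exact ⟨k.1, fun H _ f hf n => QB.sfree_of_kflat H n (k.2 H f hf)⟩

theorem psf_gen (G : Type) [Group G] (h : NilV.Generated (fun H _ => TwoDim.Aspherical H) G)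
    (n : ℕ) : TwoDim.PSF (MonoidAlgebra ℤ (G × Multiplicative (Fin n → ℤ))) :=
  psf_gen_of seed_asph G h n

theorem psf_gen' (G : Type) [Group G]
    (h : NilV.Generated (fun H _ => TwoDim.Aspherical H ∨ NilV.FlatSeed H) G)
    (n : ℕ) : TwoDim.PSF (MonoidAlgebra ℤ (G × Multiplicative (Fin n → ℤ))) :=
  psf_gen_of (fun H _ hH => hH.elim (seed_asph H) (seed_flat H)) G h n

end Pool.Agent.Lib.AZero.EA0
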