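import Pool.Agent.Lib.AZero.Main
import Pool.Agent.Lib.AZero.B_CO
import Pool.Agent.Lib.AZero.B_COMP
import Pool.Agent.Lib.AZero.B_COSP
import Pool.Agent.Lib.AZero.B_EQV
import Pool.Agent.Lib.AZero.B_EU1
import Pool.Agent.Lib.AZero.B_EU2
import Pool.Agent.Lib.AZero.B_EU3
import Pool.Agent.Lib.AZero.B_EXT
import Pool.Agent.Lib.AZero.B_EXTH
import Pool.Agent.Lib.AZero.B_FG
import Pool.Agent.Lib.AZero.B_FIN
import Pool.Agent.Lib.AZero.B_FINC
import Pool.Agent.Lib.AZero.B_FREE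
import Pool.Agent.Lib.AZero.B_HAL
import Pool.Agent.Lib.AZero.B_HB
import Pool.Agent.Lib.AZero.B_HFA
import Pool.Agent.Lib.AZero.B_HI
import Pool.Agent.Lib.AZero.B_HN1
import Pool.Agent.Lib.AZero.B_HN2
import Pool.Agent.Lib.AZero.B_HUR
import Pool.Agent.Lib.AZero.B_IND
import Pool.Agent.Lib.AZero.B_KAN
import Pool.Agent.Lib.AZero.B_KANT
import Pool.Agent.Lib.AZero.B_KILL
import Pool.Agent.Lib.AZero.B_LD
import Pool.Agent.Lib.AZero.B_PFD
import Pool.Agent.Lib.AZero.B_PH
import Pool.Agent.Lib.AZero.B_PHOM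
import Pool.Agent.Lib.AZero.B_PMAP
import Pool.Agent.Lib.AZero.B_REPL
import Pool.Agent.Lib.AZero.B_RHO
import Pool.Agent.Lib.AZero.B_SEC
import Pool.Agent.Lib.AZero.B_SPH
import Pool.Agent.Lib.AZero.B_STEP
import Pool.Agent.Lib.AZero.B_TRIV1
import Pool.Agent.Lib.AZero.B_TRIV2
import Pool.Agent.Lib.AZero.B_WEQ

/-! The finiteness theorem and the assembly map in degree zero. -/

namespace Pool.Agent.AZero

theorem cosp_holds : St_COSP := st_cosp st_weq st_triv1 st_triv2 st_sdr st_repl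

theorem fdc_holds : St_FDC :=
  st_fdc (st_hfa cosp_holds st_repl st_comp st_cyl st_finc st_weq) st_weq

theorem ext_holds : St_EXT := st_ext (st_exth st_co)

theorem free1 (Γ : Type) [Group Γ] (h : PSF (RG Γ)) : Free1 Γ :=
  have pd := st_pd st_llp cosp_holds st_finc
  have hi := st_hi st_hal st_rho
  have sec := st_sec st_repl (st_hur hi) st_llp
  have hn1 := st_hn1 ext_holds
  have eu0 := st_eu0 ext_holds st_ext0
  main_of st_weq st_repl cosp_holds st_finc fdc_holds pd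
    (st_step cosp_holds st_finc (st_kill st_hb st_ph) st_repl st_ld st_efib st_sdr) st_kan eu0
    (st_eu1 eu0 cosp_holds st_kan st_finc) (st_eu2 st_co) (st_eu3 st_co st_finc)
    (st_fin st_hn0 (st_fg cosp_holds st_kan st_finc ext_holds) (st_proj sec hn1 (st_hn2 st_co)) hn1
      (st_hn2 st_co) st_repl pd
      (st_free (st_hur hi) sec hn1 (st_hn2 st_co) hi st_ph st_triv2 st_sdr st_finc))
    (st_att st_ind st_quo (st_sph st_hb st_quo st_finc st_weq) st_finc) Γ h

theorem assembly (G : Type) [Group G] (hG : PSF (RG G)) (hV : ∀ H : Subgroup G, PSF (RG H)) :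
    ∃ α : Src G ≃+ A0 (BG G), IsAssembly α :=
  have pfd := st_pfd cosp_holds st_weq
  asm_of st_weq fdc_holds st_finc st_kan (st_kant st_kan) pfd
    (st_pmap cosp_holds st_weq fdc_holds pfd) st_ppt st_phom st_eqv G (free1 G hG)
    fun H => free1 _ (hV H.1)

end Pool.Agent.AZero
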