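import Pool.Agent.Lib.AZero.Blue

/-! The assembly of the blocks. -/

namespace Pool.Agent.AZero

open CategoryTheory Limits Simplicial SSet Opposite

theorem main_of (hW : St_WEQ) (hR : St_REPL) (hC : St_COSP) (hF : St_FINC) (hD : St_FDC)
    (hP : St_PD) (hS : St_STEP) (hK : St_KAN) (e0 : St_EU0) (e1 : St_EU1) (e2 : St_EU2)
    (e3 : St_EU3) (hN : St_FIN) (hA : St_ATT) (Γ : Type) [Group Γ] (hΓ : PSF (RG Γ)) :
    ∃ h : (Ret.point (vtx Γ)).FinDom, Function.Bijective fun k : ℤ => k • cls ⟨_, h⟩ := by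
  have K := hK Γ
  have h : (Ret.point (vtx Γ)).FinDom := (hF.2.1 _ _ (hF.2.2.2.1 _ _).att).hf.fd
  refine ⟨h, ?_, fun z => ?_⟩
  · have an : ∀ A B : Ret (BG Γ), A.AnE B → chi A = chi B := fun A B k =>
      finsum_congr fun n => let ⟨e⟩ := e0 Γ A B k n; by rw [e.finrank_eq]
    let χ : A0 (BG Γ) →+ ℤ := QuotientAddGroup.lift _ (FreeAbelianGroup.lift fun A => chi A.1)
      ((AddSubgroup.closure_le _).2 (by
        rintro _ (⟨A, B, k, rfl⟩ | ⟨A, B, Q, k, rfl⟩)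
        · obtain ⟨T, k1, k2⟩ := (hC _ K).1 _ _ k
          simp [an _ _ k1, an _ _ k2]
        · simp [e2 Γ _ _ _ k (e1 Γ _ A.2) (e1 Γ _ B.2) (e1 Γ _ Q.2)]))
    have e : χ (cls ⟨_, h⟩) = 1 := (FreeAbelianGroup.lift_apply_of _ _).trans (e3 Γ)
    intro a b k
    simpa [e] using congrArg χ k
  · change z ∈ Mult Γ h
    suffices H : ∀ A : Obj (BG Γ), cls A ∈ Mult Γ h by
      obtain ⟨z, rfl⟩ := QuotientAddGroup.mk_surjective z
      induction z using FreeAbelianGroup.induction_on with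
      | zero => exact zero_mem _
      | of A => exact H A
      | neg A k => exact neg_mem k
      | add x y hx hy => exact add_mem hx hy
    intro A
    obtain ⟨d, hd⟩ := hP.2.2 _ K A.1 A.2
    have fd : ∀ {U V : Ret (BG Γ)}, U.FinDom → U.AnE V → V.FinDom := fun k ⟨f, hf⟩ =>
      hD _ K _ _ f k (.inl hf)
    have key : ∀ n ≤ d + 2, ∃ W : Obj (BG Γ), Fib W.1.r ∧ W.1.Red n ∧ W.1.PD (d + 2) ∧
        cls W - cls A ∈ Mult Γ h := by
      intro n
      induction n with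
      | zero =>
        intro _
        obtain ⟨C, a, q, h1, h2, -, h4⟩ := hR 0 _ _ A.1.r
        have an : A.1.AnE (A.1.via a q h1) := ⟨A.1.toVia .., h2⟩
        refine ⟨⟨_, fd A.2 an⟩, fib_iff.2 fun m => h4 m m.zero_le,
          fun m hm => absurd hm m.not_lt_zero, (hP.1 _ _ _ _ an).1 (hd _ (by omega)), ?_⟩
        rw [← cls_an hW (A := A) an, sub_self]
        exact zero_mem _
      | succ n ih =>
        intro hn
        obtain ⟨W, h1, h2, h3, h4⟩ := ih (by omega)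
        obtain ⟨W₁, W₂, E, i, k1, k2, k3, ⟨u, hu⟩, k5, k6⟩ := hS _ K W.1 n W.2 h1 h2
        have f1 := hD _ K _ _ i W.2 (.inr k1)
        have f2 := fd f1 k3
        obtain ⟨v, hv⟩ := Ret.ex_ext u hu k5 (.id E)
        refine ⟨⟨E, f2.retract u v hv⟩, k5, k6, (hP.1 _ _ _ _ ⟨u, hu⟩).2 ((hP.1 _ _ _ _ k3).1
          (hP.2.1 _ _ _ _ i k1.mono (fun m y a b => (k2 m y a b).trans hn) h3)), ?_⟩
        rw [cls_an hW (B := ⟨W₂, f2⟩) ⟨u, hu⟩, ← cls_an hW (A := ⟨W₁, f1⟩) k3]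
        simpa using add_mem ((hA Γ h).2 W ⟨W₁, f1⟩ i k1) h4
    obtain ⟨W, h1, h2, h3, h4⟩ := key _ le_rfl
    obtain ⟨W', B, T, i, k1, k2, k3, k4⟩ := hN Γ hΓ d W.1 W.2 h1 h2 h3
    have f1 := hD _ K _ _ i W.2 (.inr k1)
    have m1 := (hA Γ h).2 W ⟨W', f1⟩ i k1
    have m2 := (hA Γ h).1 ⟨B, k4.hf.fd⟩ k4
    rw [cls_an hW (B := ⟨T, fd f1 k2⟩) k3, ← cls_an hW (A := ⟨W', f1⟩) k2] at m2
    simpa using sub_mem (sub_mem m2 m1) h4

end Pool.Agent.AZero
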