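import Pool.Agent.Lib.NIL.Stmt
import Pool.Agent.Lib.TwoDim.Defs

/-! The seeds of the class of groups. -/

namespace Pool.Agent.AZero

/-- Finitely generated projective modules are stably free. -/
def StFree (R : Type) [Ring R] : Prop :=
  ∀ (P : Type) [AddCommGroup P] [Module R P] [Module.Finite R P] [Module.Projective R P],
    Module.IsStablyFree R P

/-- Groups with an aspherical presentation, and groups of finite cohomological dimension whose
subgroups `H` have stably free projectives over `ℤ[H × ℤ ^ n]`. -/
def Seed (G : Type) [Group G] : Prop :=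
  Lib.TwoDim.Aspherical G ∨ NilV.FinCd G ∧ ∀ (H : Subgroup G) (n : ℕ),
    StFree (MonoidAlgebra ℤ (H × Multiplicative (Fin n → ℤ)))

end Pool.Agent.AZero
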