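import Pool.Agent.Lib.AZero.Final
import Pool.Agent.Lib.AZero.EA0d
import Pool.Agent.Lib.AZero.Seed

/-! The assembly map for the generated class. -/

namespace Pool.Agent.AZero

open Lib Lib.AZero.EA0

theorem seed_f0 (G : Type) [Group G] (h : Seed G) : NIL.NilCl G ∧ F0 G :=
  h.elim (seed_asph G) fun h => ⟨NIL.nilCl_of_finCd h.1, fun _ _ f hf n =>
    TwoDim.sfree_of_psf (TwoDim.PSF.tr (MonoidAlgebra.mapDomainRingEquiv ℤ
      ((MonoidHom.ofInjective hf).symm.prodCongr (.refl _))) (h.2 f.range n))⟩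

theorem assembly_gen (G : Type) [Group G] (hG : NilV.Generated (fun H _ => Seed H) G) :
    ∃ α : Src G ≃+ A0 (BG G), IsAssembly α :=
  have k : ∀ (H : Type) [Group H] (f : H →* G), Function.Injective f → TwoDim.PSF (RG H) :=
    fun H _ f hf => (psf_of_sfree ((f0_gen seed_f0 hG).2 H f hf 0)).tr
      (MonoidAlgebra.mapDomainRingEquiv ℤ MulEquiv.prodUnique)
  assembly G (k G (.id G) fun _ _ e => e) fun H => k H H.subtype H.subtype_injective

end Pool.Agent.AZero
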